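import Pool.Agent.Lib.MP_ea42c6_pr.Three.Defs
import Pool.Agent.Lib.MP_ea42c6_pr.Two.R9

/-!
# U20 — orbits of the random map and `st`, exact values

`orbit_st`: as `orbit_to` (R9) but with equality: if `u ∈ S` both sides are 0; `K = 0`: the event is
`{u = x}`; `K + 1`, `u ∉ S`: the event is the disjoint union over `v` of `{f u = v} ∩ E'_v`, `E'_v` the event
for `K`, `insert u S`, `v` (conversely on this set the orbit of `u` is injective and avoids `S`), each of
probability `kerW u v pr E'_v` (`N7_indep`).  `pr` of a disjoint union: both sides are sums over `f`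
(or `∑ v, [f u = v] = 1`).
`cyc_ge`: the event contains the disjoint union over `z` of `{f x = z} ∩ {OrbInj f z (m-1), the orbit of
z avoids S up to m-1, f^[m-1] z = x}` (then `f^[m] x = x`, the points `f^[0] x, ..., f^[m-1] x` are distinct,
and the whole orbit is `{f^[i] x | i < m}`, which avoids `S`; `x = f^[m-1] z ∉ S`), and the second event
does not depend on the coordinate `x` (the orbit of `z` is at `x` only at time `m - 1`).
-/

namespace EA42

open scoped Classical

variable {V : Type*} [Fintype V] [DecidableEq V] {B : V → Finset V}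

/-- Splitting an event according to the value of one coordinate. -/
theorem U20_split (p : (V → V) → ℝ) (u : V) (E : Set (V → V)) :
    pr p E = ∑ v, pr p ({f | f u = v} ∩ E) := by
  unfold pr
  rw [Finset.sum_comm]
  refine Finset.sum_congr rfl fun f _ => ?_
  rw [Finset.sum_eq_single (f u)]
  · by_cases hf : f ∈ E
    · rw [if_pos hf, if_pos ⟨rfl, hf⟩]
    · rw [if_neg hf, if_neg fun h => hf h.2]
  · intro v _ hv
    exact if_neg fun h => hv h.1.symm
  · intro h
    exact absurd (Finset.mem_univ _) h

omit [Fintype V] [DecidableEq V] in
theorem U20_indep (u v : V) (f g : V → V) (h : ∀ x, x ≠ u → f x = g x) (t : ℕ)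
    (ht : ∀ i < t, f^[i] v ≠ u) : ∀ i ≤ t, f^[i] v = g^[i] v := by
  intro i
  induction i with
  | zero => intro _; rfl
  | succ i ih =>
    intro hi
    have h1 := ih (by omega)
    rw [Function.iterate_succ_apply', Function.iterate_succ_apply', h _ (ht i (by omega)), h1]

omit [Fintype V] [DecidableEq V] in
/-- Adding a first step. -/
theorem U20_cons {f : V → V} {u : V} {K : ℕ} (h : OrbInj f (f u) K) (hu : ∀ b ≤ K, f^[b] (f u) ≠ u) :
    OrbInj f u (K + 1) := by
  intro i hi j hj hij
  rcases i with _ | i
  · rcases j with _ | j
    · rfl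
    · rw [Function.iterate_succ_apply] at hij
      exact absurd hij.symm (hu j (by omega))
  · rcases j with _ | j
    · rw [Function.iterate_succ_apply] at hij
      exact absurd hij (hu i (by omega))
    · rw [Function.iterate_succ_apply, Function.iterate_succ_apply] at hij
      have := h i (by omega) j (by omega) hij
      omega

theorem orbit_st (hself : ∀ u, u ∈ B u) (K : ℕ) (S : Set V) (u x : V) :
    pr (prodW (kerW B)) {f | OrbInj f u K ∧ (∀ b ≤ K, f^[b] u ∉ S) ∧ f^[K] u = x} =
      st B K S u x := by
  have hP := isProb_prodW (fun i => isProb_kerW hself i)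
  induction K generalizing S u with
  | zero =>
    by_cases hu : u ∈ S
    · simp only [st, if_pos hu]
      refine R9_empty ?_
      rintro f ⟨-, h, -⟩
      exact h 0 le_rfl hu
    · by_cases hx : u = x
      · simp only [st, if_neg hu, if_pos hx]
        rw [← pr_univ hP]
        congr 1
        refine Set.eq_univ_iff_forall.2 fun f => ⟨?_, ?_, hx⟩
        · intro i hi j hj _
          omega
        · intro b hb
          obtain rfl : b = 0 := by omega
          exact hu
      · simp only [st, if_neg hu, if_neg hx]
        refine R9_empty ?_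
        rintro f ⟨-, -, h⟩
        exact hx h
  | succ K ih =>
    by_cases hu : u ∈ S
    · simp only [st, if_pos hu]
      refine R9_empty ?_
      rintro f ⟨-, h, -⟩
      exact h 0 (Nat.zero_le _) hu
    simp only [st, if_neg hu]
    rw [U20_split _ u]
    refine Finset.sum_congr rfl fun v _ => ?_
    have hset : ({f : V → V | f u = v} ∩ {f | OrbInj f u (K + 1) ∧ (∀ b ≤ K + 1, f^[b] u ∉ S) ∧
        f^[K + 1] u = x}) = {f | f u = v} ∩
        {f | OrbInj f v K ∧ (∀ b ≤ K, f^[b] v ∉ insert u S) ∧ f^[K] v = x} := by
      ext f
      constructor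
      · rintro ⟨hv, hinj, hS, hw⟩
        obtain rfl : f u = v := hv
        refine ⟨rfl, (N7_shift hinj).1, ?_, ?_⟩
        · intro i hi hmem
          rcases Set.mem_insert_iff.mp hmem with h1 | h1
          · exact (N7_shift hinj).2 i hi h1
          · refine hS (i + 1) (by omega) ?_
            rw [Function.iterate_succ_apply]
            exact h1
        · rw [← Function.iterate_succ_apply]
          exact hw
      · rintro ⟨hv, hinj, hS, hw⟩
        obtain rfl : f u = v := hv
        refine ⟨rfl, U20_cons hinj fun b hb h => hS b hb (by rw [h]; exact Set.mem_insert _ _), ?_, ?_⟩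
        · intro b hb
          rcases b with _ | b
          · exact hu
          · rw [Function.iterate_succ_apply]
            exact fun h => hS b (by omega) (Set.mem_insert_of_mem _ h)
        · rw [Function.iterate_succ_apply]
          exact hw
    rw [hset, N7_indep hself u v, ih]
    have key : ∀ f g : V → V, (∀ y, y ≠ u → f y = g y) →
        (OrbInj f v K ∧ (∀ b ≤ K, f^[b] v ∉ insert u S) ∧ f^[K] v = x) →
        (OrbInj g v K ∧ (∀ b ≤ K, g^[b] v ∉ insert u S) ∧ g^[K] v = x) := by
      rintro f g hfg ⟨hinj, hS, hw⟩
      have hio := indep_orbit u v f g hfg K (fun i hi hu => hS i hi (by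
        rw [hu]
        exact Set.mem_insert _ _))
      refine ⟨?_, ?_, ?_⟩
      · intro i hi j' hj hij
        rw [← hio i hi, ← hio j' hj] at hij
        exact hinj i hi j' hj hij
      · intro i hi
        rw [← hio i hi]
        exact hS i hi
      · rw [← hio K le_rfl]
        exact hw
    intro f g h
    have h' : ∀ y, y ≠ u → f y = g y := fun y hy => h y (by simpa using hy)
    exact ⟨key f g h', key g f fun y hy => (h' y hy).symm⟩

theorem cyc_ge (hself : ∀ u, u ∈ B u) (m : ℕ) (hm : 1 ≤ m) (S : Set V) (x : V) :
    ∑ z, kerW B x z * st B (m - 1) S z x ≤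
      pr (prodW (kerW B)) {f | OnCyc f m x ∧ ∀ i, f^[i] x ∉ S} := by
  have hP := isProb_prodW (fun i => isProb_kerW hself i)
  obtain ⟨m, rfl⟩ : ∃ m', m = m' + 1 := ⟨m - 1, by omega⟩
  rw [Nat.add_sub_cancel, U20_split _ x]
  refine Finset.sum_le_sum fun z _ => ?_
  rw [← orbit_st hself m S z x, ← N7_indep hself x z]
  · refine pr_mono hP ?_
    rintro f ⟨hz, hinj, hS, hw⟩
    obtain rfl : f x = z := hz
    have hcyc : f^[m + 1] x = x := by
      rw [Function.iterate_succ_apply]
      exact hw
    refine ⟨rfl, ⟨Nat.succ_le_succ (Nat.zero_le _), ?_, hcyc⟩, ?_⟩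
    · rw [Nat.add_sub_cancel]
      intro i hi j hj hij
      rcases i with _ | i
      · rcases j with _ | j
        · rfl
        · rw [Function.iterate_succ_apply, Function.iterate_zero_apply] at hij
          have := hinj m le_rfl j (by omega) (hw.trans hij)
          omega
      · rcases j with _ | j
        · rw [Function.iterate_succ_apply, Function.iterate_zero_apply] at hij
          have := hinj m le_rfl i (by omega) (hw.trans hij.symm)
          omega
        · rw [Function.iterate_succ_apply, Function.iterate_succ_apply] at hij
          have := hinj i (by omega) j (by omega) hij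
          omega
    · intro i
      have hper : Function.IsPeriodicPt f (m + 1) x := hcyc
      rw [← hper.iterate_mod_apply]
      have hlt : i % (m + 1) < m + 1 := Nat.mod_lt _ (Nat.succ_pos _)
      generalize i % (m + 1) = b at hlt
      rcases b with _ | b
      · rw [Function.iterate_zero_apply]
        rw [← hw]
        exact hS m le_rfl
      · rw [Function.iterate_succ_apply]
        exact hS b (by omega)
  · have key : ∀ f g : V → V, (∀ y, y ≠ x → f y = g y) →
        (OrbInj f z m ∧ (∀ b ≤ m, f^[b] z ∉ S) ∧ f^[m] z = x) →
        (OrbInj g z m ∧ (∀ b ≤ m, g^[b] z ∉ S) ∧ g^[m] z = x) := by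
      rintro f g hfg ⟨hinj, hS, hw⟩
      have hio := U20_indep x z f g hfg m (fun i hi hu => by
        rw [← hw] at hu
        have := hinj i hi.le m le_rfl hu
        omega)
      refine ⟨?_, ?_, ?_⟩
      · intro i hi j' hj hij
        rw [← hio i hi, ← hio j' hj] at hij
        exact hinj i hi j' hj hij
      · intro i hi
        rw [← hio i hi]
        exact hS i hi
      · rw [← hio m le_rfl]
        exact hw
    intro f g h
    have h' : ∀ y, y ≠ x → f y = g y := fun y hy => h y (by simpa using hy)
    exact ⟨key f g h', key g f fun y hy => (h' y hy).symm⟩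

end EA42
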