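import Pool.Agent.Lib.MP_ea42c6_pr.Three.U1

/-!
# U10 — Dirichlet form of two steps

`dir_eq`: `ip f f - ip (P f) (P f) = (1/2) ∑ x z, |B x| pk 2 x z (f x - f z)²`: expand the square; `∑ z, pk 2 x z = 1`
(`pk_sum`), `|B x| pk 2 x z = |B z| pk 2 z x` (`pk_rev`), `ip (P f) (P f) = ip f (P (P f))` (`ip_opP`) and
`P (P f) x = ∑ z, pk 2 x z f z` (`opP_iter`).
`dir_lower`: if the cells of `x` and `z` touch then every `w` in the cell of `x` is in `B x` and in `B z`, so
`|B x| pk 2 x z = |B x| ∑ w, kerW x w kerW w z ≥ ∑_{w in the cell of x} 1/|B w| ≥ (μ/2)/(κ D)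
≥ 1/(2κ)` (`Touch` is symmetric and reflexive).
-/

namespace EA42

open scoped Classical

variable {V : Type*} [Fintype V] {B : V → Finset V}

theorem dir_eq (hB : SymB B) (f : V → ℝ) :
    ip B f f - ip B (opP B f) (opP B f) =
      1 / 2 * ∑ x, ∑ z, ((B x).card : ℝ) * pk B 2 x z * (f x - f z) ^ 2 := by
  have h1 : ip B (opP B f) (opP B f) =
      ∑ x, ∑ z, ((B x).card : ℝ) * pk B 2 x z * (f x * f z) := by
    rw [ip_opP hB f (opP B f)]
    have h2 : ∀ x, opP B (opP B f) x = ∑ z, pk B 2 x z * f z := fun x => opP_iter 2 f x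
    unfold ip
    refine Finset.sum_congr rfl fun x _ => ?_
    rw [h2 x, Finset.mul_sum, Finset.mul_sum]
    exact Finset.sum_congr rfl fun z _ => by ring
  have h2 : ∑ x, ∑ z, ((B x).card : ℝ) * pk B 2 x z * (f x * f x) = ip B f f := by
    unfold ip
    refine Finset.sum_congr rfl fun x _ => ?_
    have h3 : ∑ z, ((B x).card : ℝ) * pk B 2 x z * (f x * f x) =
        (((B x).card : ℝ) * (f x * f x)) * ∑ z, pk B 2 x z := by
      rw [Finset.mul_sum]
      exact Finset.sum_congr rfl fun z _ => by ring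
    rw [h3, pk_sum hB.self, mul_one]
  have h3 : ∑ x, ∑ z, ((B x).card : ℝ) * pk B 2 x z * (f z * f z) = ip B f f := by
    rw [Finset.sum_comm, ← h2]
    refine Finset.sum_congr rfl fun x _ => ?_
    refine Finset.sum_congr rfl fun z _ => ?_
    rw [pk_rev hB 2 z x]
  have h4 : ∑ x, ∑ z, ((B x).card : ℝ) * pk B 2 x z * (f x - f z) ^ 2 =
      ∑ x, ∑ z, ((B x).card : ℝ) * pk B 2 x z * (f x * f x) +
      ∑ x, ∑ z, ((B x).card : ℝ) * pk B 2 x z * (f z * f z) -
      2 * ∑ x, ∑ z, ((B x).card : ℝ) * pk B 2 x z * (f x * f z) := by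
    rw [Finset.mul_sum, ← Finset.sum_add_distrib, ← Finset.sum_sub_distrib]
    refine Finset.sum_congr rfl fun x _ => ?_
    rw [Finset.mul_sum, ← Finset.sum_add_distrib, ← Finset.sum_sub_distrib]
    exact Finset.sum_congr rfl fun z _ => by ring
  rw [h4, h2, h3, h1]
  ring

private theorem U10_refl {M : ℕ} (c : Cell M) : Touch c c := Or.inl rfl

theorem dir_lower {D κ μ : ℝ} (h : DReg B D κ) {M : ℕ} (cl : V → Cell M) (hDμ : D ≤ μ)
    (htouch : ∀ u v, Touch (cl u) (cl v) → v ∈ B u) (hlo : ∀ c, μ / 2 ≤ (cnt cl c : ℝ))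
    (f : V → ℝ) :
    1 / (4 * κ) * tch cl f ≤ ip B f f - ip B (opP B f) (opP B f) := by
  have hD := h.pos
  rw [dir_eq h.sym]
  unfold tch
  rw [Finset.mul_sum, Finset.mul_sum]
  refine Finset.sum_le_sum fun x _ => ?_
  haveI : Nonempty V := ⟨x⟩
  have hκ : 1 ≤ κ := kappa_one h
  rw [Finset.mul_sum, Finset.mul_sum]
  refine Finset.sum_le_sum fun z _ => ?_
  have hBx : ∀ w, 0 < ((B w).card : ℝ) := fun w => hD.trans_le (h.lo w)
  by_cases ht : Touch (cl x) (cl z)
  · rw [if_pos ht]
    have h1 : 1 / (2 * κ) ≤ ((B x).card : ℝ) * pk B 2 x z := by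
      have h2 : pk B 2 x z = ∑ w, kerW B x w * kerW B w z := by
        have h3 : pk B 2 x z = ∑ w, kerW B x w * pk B 1 w z := rfl
        rw [h3]
        exact Finset.sum_congr rfl fun w _ => by rw [pk_one]
      rw [h2, Finset.mul_sum]
      have h4 : ∑ w ∈ Finset.univ.filter (fun w => cl w = cl x), 1 / (κ * D) ≤
          ∑ w, ((B x).card : ℝ) * (kerW B x w * kerW B w z) := by
        have h5 : ∑ w ∈ Finset.univ.filter (fun w => cl w = cl x), 1 / (κ * D) ≤
            ∑ w ∈ Finset.univ.filter (fun w => cl w = cl x),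
              ((B x).card : ℝ) * (kerW B x w * kerW B w z) := by
          refine Finset.sum_le_sum fun w hw => ?_
          have hw' : cl w = cl x := (Finset.mem_filter.mp hw).2
          have hxw : w ∈ B x := htouch x w (by rw [hw']; exact U10_refl _)
          have hwz : z ∈ B w := htouch w z (by rw [hw']; exact ht)
          unfold kerW
          rw [if_pos hxw, if_pos hwz, ← mul_assoc, mul_one_div_cancel (hBx x).ne', one_mul]
          exact one_div_le_one_div_of_le (hBx w) (h.hi w)
        refine h5.trans ?_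
        refine Finset.sum_le_sum_of_subset_of_nonneg (Finset.subset_univ _) fun w _ _ => ?_
        exact mul_nonneg (Nat.cast_nonneg _) (mul_nonneg (kerW_nonneg x w) (kerW_nonneg w z))
      refine le_trans ?_ h4
      rw [Finset.sum_const, nsmul_eq_mul]
      have h6 : μ / 2 ≤ ((Finset.univ.filter fun w => cl w = cl x).card : ℝ) := hlo (cl x)
      have h7 : D / 2 ≤ ((Finset.univ.filter fun w => cl w = cl x).card : ℝ) := by linarith
      have h8 : D / 2 * (1 / (κ * D)) ≤
          ((Finset.univ.filter fun w => cl w = cl x).card : ℝ) * (1 / (κ * D)) :=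
        mul_le_mul_of_nonneg_right h7 (by positivity)
      refine le_trans (le_of_eq ?_) h8
      field_simp
    have h9 : 1 / (4 * κ) = 1 / 2 * (1 / (2 * κ)) := by
      field_simp
      norm_num
    rw [h9, mul_assoc]
    refine mul_le_mul_of_nonneg_left ?_ (by norm_num)
    exact mul_le_mul_of_nonneg_right h1 (sq_nonneg _)
  · rw [if_neg ht, mul_zero]
    have := pk_nonneg (B := B) 2 x z
    positivity

end EA42
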