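import Pool.Agent.Lib.MP_ea42c6_pr.Three.U2

/-!
# U5 — heat kernel bound for all times and pairs; spectral gap from Poincaré

`hk_all`: `m = 1`: `pk 1 x y ≤ 1/D` (`pk_le`).  `m ≥ 2`: `i = m/2 ≤ j = m - i`, `i ≥ 1`,
`pk m x y = |B y| ip (P^i hf x) (P^j hf y)` (`ip_hf`), Cauchy-Schwarz (`ip_cs`), and
`ip (P^i hf x) (P^i hf x) = pk (2i) x x/|B x| ≤ H₀ (1/(D i) + 1/n)/D`, the same for `y`, `j` (with
`1/(D j) ≤ 1/(D i)`); so `pk m x y ≤ κ H₀ (1/(D i) + 1/n)` and `i ≥ m/3`.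
`gap_of_poincare`: `ip g g ≤ ip (g-c) (g-c)` (`ip g 1 = 0`) `≤ κ D ∑ (g x - c)² ≤ κ D A T g
≤ (κ D A/c₃)(ip g g - ip (P g) (P g))`.
-/

namespace EA42

open scoped Classical

variable {V : Type*} [Fintype V] {B : V → Finset V}

theorem hk_all [Nonempty V] {D κ H₀ : ℝ} (h : DReg B D κ) (hH₀ : 1 ≤ H₀)
    (hev : ∀ j : ℕ, 1 ≤ j → ∀ y, pk B (2 * j) y y ≤
      H₀ * (1 / (D * j) + 1 / (Fintype.card V : ℝ))) (m : ℕ) (hm : 1 ≤ m) (x y : V) :
    pk B m x y ≤ 3 * κ * H₀ * (1 / (D * m) + 1 / (Fintype.card V : ℝ)) := by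
  have hD := h.pos
  have hκ : 1 ≤ κ := kappa_one h
  set n : ℝ := (Fintype.card V : ℝ) with hn
  have hn0 : 0 < n := by
    rw [hn]
    exact_mod_cast (Fintype.card_pos : 0 < Fintype.card V)
  have hn1 : 0 < 1 / n := by positivity
  rcases Nat.lt_or_ge m 2 with hm2 | hm2
  · have hm1 : m = 1 := by omega
    subst hm1
    have h1 : pk B 1 x y ≤ 1 / D := pk_le h 0 x y
    refine h1.trans ?_
    rw [Nat.cast_one, mul_one]
    have h2 : 0 < 1 / D := by positivity
    have h3 : 1 ≤ 3 * κ * H₀ := by nlinarith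
    nlinarith
  · set i : ℕ := m / 2 with hi
    set j : ℕ := m - i with hj
    have hi1 : 1 ≤ i := by omega
    have hij : i ≤ j := by omega
    have hsum : i + j = m := by omega
    have hi0 : (0 : ℝ) < i := by exact_mod_cast hi1
    have hij' : (i : ℝ) ≤ j := by exact_mod_cast hij
    have hj0 : (0 : ℝ) < j := hi0.trans_le hij'
    set Q : ℝ := H₀ * (1 / (D * i) + 1 / n) / D with hQ
    have hQ0 : 0 ≤ Q := by
      have : 0 ≤ H₀ := by linarith
      positivity
    have hB : ∀ z, 0 < ((B z).card : ℝ) := fun z => hD.trans_le (h.lo z)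
    have hbd : ∀ (k : ℕ) (z : V), i ≤ k → pk B (k + k) z z / ((B z).card : ℝ) ≤ Q := by
      intro k z hk
      have hk1 : 1 ≤ k := by omega
      have hk' : (i : ℝ) ≤ k := by exact_mod_cast hk
      have h1 := hev k hk1 z
      rw [two_mul] at h1
      have h2 : 1 / (D * k) ≤ 1 / (D * i) := by
        refine one_div_le_one_div_of_le (by positivity) ?_
        exact mul_le_mul_of_nonneg_left hk' hD.le
      have h3 : pk B (k + k) z z ≤ H₀ * (1 / (D * i) + 1 / n) :=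
        h1.trans (mul_le_mul_of_nonneg_left (by linarith) (by linarith))
      rw [div_le_iff₀ (hB z)]
      have h4 : Q * D ≤ Q * ((B z).card : ℝ) := mul_le_mul_of_nonneg_left (h.lo z) hQ0
      have h5 : Q * D = H₀ * (1 / (D * i) + 1 / n) := by
        rw [hQ]
        field_simp
      linarith
    have hF := hbd i x le_rfl
    have hG := hbd j y hij
    rw [← ip_hf h.sym] at hF hG
    have hcs := ip_cs (B := B) ((opP B)^[i] (hf B x)) ((opP B)^[j] (hf B y))
    have h6 : ip B ((opP B)^[i] (hf B x)) ((opP B)^[j] (hf B y)) ≤ Q := by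
      refine abs_le_of_sq_le_sq' ?_ hQ0 |>.2
      refine hcs.trans ?_
      rw [pow_two]
      exact mul_le_mul hF hG (ip_self_nonneg _) hQ0
    rw [ip_hf h.sym, hsum, div_le_iff₀ (hB y)] at h6
    refine h6.trans ?_
    have h7 : Q * ((B y).card : ℝ) ≤ Q * (κ * D) := mul_le_mul_of_nonneg_left (h.hi y) hQ0
    refine h7.trans ?_
    have h8 : Q * (κ * D) = κ * H₀ * (1 / (D * i) + 1 / n) := by
      rw [hQ]
      field_simp
    rw [h8]
    have h9 : 1 / (D * i) ≤ 3 * (1 / (D * m)) := by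
      have h10 : (m : ℝ) ≤ 3 * i := by
        have : m ≤ 3 * i := by omega
        exact_mod_cast this
      have hm0 : (0 : ℝ) < m := by
        have : 0 < m := by omega
        exact_mod_cast this
      rw [mul_one_div, div_le_div_iff₀ (by positivity) (by positivity), one_mul]
      nlinarith
    have h11 : 0 ≤ κ * H₀ := by
      have : 0 ≤ H₀ := by linarith
      positivity
    calc κ * H₀ * (1 / (D * i) + 1 / n) ≤ κ * H₀ * (3 * (1 / (D * m)) + 3 * (1 / n)) :=
          mul_le_mul_of_nonneg_left (by linarith) h11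
      _ = 3 * κ * H₀ * (1 / (D * m) + 1 / n) := by ring

theorem gap_of_poincare [Nonempty V] {D κ A c₃ : ℝ} (h : DReg B D κ) (T : (V → ℝ) → ℝ)
    (hpoin : ∀ f : V → ℝ, ∃ c : ℝ, ∑ x, (f x - c) ^ 2 ≤ A * T f) (hA : 0 < A) (hc₃ : 0 < c₃)
    (hdir : ∀ f : V → ℝ, c₃ * T f ≤ ip B f f - ip B (opP B f) (opP B f)) (g : V → ℝ)
    (hg : ip B g (fun _ => 1) = 0) :
    ip B (opP B g) (opP B g) ≤ (1 - c₃ / (κ * D * A)) * ip B g g := by
  have hD := h.pos
  have hκ : 1 ≤ κ := kappa_one h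
  obtain ⟨c, hc⟩ := hpoin g
  have h1 : ip B g g ≤ ∑ x, ((B x).card : ℝ) * (g x - c) ^ 2 := by
    have h2 : ∑ x, ((B x).card : ℝ) * (g x - c) ^ 2 =
        ip B g g - 2 * c * ip B g (fun _ => 1) + c ^ 2 * ∑ x, ((B x).card : ℝ) := by
      unfold ip
      rw [Finset.mul_sum, Finset.mul_sum, ← Finset.sum_sub_distrib, ← Finset.sum_add_distrib]
      exact Finset.sum_congr rfl fun x _ => by ring
    rw [h2, hg]
    have h3 : 0 ≤ c ^ 2 * ∑ x, ((B x).card : ℝ) :=
      mul_nonneg (sq_nonneg c) (Finset.sum_nonneg fun x _ => Nat.cast_nonneg _)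
    linarith
  have h2 : ∑ x, ((B x).card : ℝ) * (g x - c) ^ 2 ≤ κ * D * ∑ x, (g x - c) ^ 2 := by
    rw [Finset.mul_sum]
    exact Finset.sum_le_sum fun x _ => mul_le_mul_of_nonneg_right (h.hi x) (sq_nonneg _)
  have hκD : 0 < κ * D := by positivity
  have h3 : κ * D * ∑ x, (g x - c) ^ 2 ≤ κ * D * (A * T g) := mul_le_mul_of_nonneg_left hc hκD.le
  have h4 : ip B g g ≤ κ * D * A * T g := by
    calc ip B g g ≤ κ * D * (A * T g) := h1.trans (h2.trans h3)
      _ = κ * D * A * T g := by ring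
  have h5 := hdir g
  have hK : 0 < κ * D * A := by positivity
  have h6 : c₃ / (κ * D * A) * ip B g g ≤ c₃ * T g := by
    rw [div_mul_eq_mul_div, div_le_iff₀ hK]
    calc c₃ * ip B g g ≤ c₃ * (κ * D * A * T g) := mul_le_mul_of_nonneg_left h4 hc₃.le
      _ = c₃ * T g * (κ * D * A) := by ring
  linarith

end EA42
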