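import Pool.Agent.Lib.MP_ea42c6_pr.Three.U8

/-!
# U9 — the scale inequality: assembly

See the head of U8 for the proof.  The sums of `cD` over the blocks are compared with the sums over
all cells by `sum_blocks` applied in both directions (inside a block only the edges with both ends
in the block occur; `cD ≥ 0`): e.g. for nonnegative `ψ`,
`∑_k ∑_{i < len k - 1} ψ (k b + i) ≤ ∑_{i < M-1} ψ i` (`block_edges`).
`poin_top`: `rect_poin` with `o = (0,0)`, `a = b = M`, then `sum_cells`, `tch_same`, `tch_one`, `tch_two`: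
`2/μ + 2 · 16 M²/μ ≤ 130 M²/μ`.
-/

namespace EA42

open scoped Classical

private theorem u9_len {M b k : ℕ} (hb : 1 ≤ b) (hk : k < M / b) :
    b ≤ (if k + 1 = M / b then M - k * b else b) ∧
      (if k + 1 = M / b then M - k * b else b) ≤ 2 * b ∧
      k * b + (if k + 1 = M / b then M - k * b else b) ≤ M := by
  have h1 : M / b * b ≤ M := Nat.div_mul_le_self M b
  have h2 : M < (M / b + 1) * b := by
    have := Nat.lt_div_mul_add hb (a := M)
    rw [Nat.succ_mul]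
    exact this
  have h3 : (k + 1) * b ≤ M := (Nat.mul_le_mul_right b hk).trans h1
  rw [Nat.succ_mul] at h3
  by_cases h : k + 1 = M / b
  · rw [if_pos h]
    rw [← h] at h2
    have h4 : (k + 1 + 1) * b = k * b + 2 * b := by ring
    rw [h4] at h2
    omega
  · rw [if_neg h]
    omega

theorem block_edges {M b : ℕ} (hb : 1 ≤ b) (hbM : b ≤ M) (ψ : ℕ → ℝ) (hψ : ∀ i, 0 ≤ ψ i) :
    ∑ k ∈ Finset.range (M / b),
      ∑ i ∈ Finset.range ((if k + 1 = M / b then M - k * b else b) - 1), ψ (k * b + i) ≤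
    ∑ i ∈ Finset.range (M - 1), ψ i := by
  let χ : ℕ → ℝ := fun i => if i + 1 < M then ψ i else 0
  have hχ0 : ∀ i, 0 ≤ χ i := by
    intro i
    show 0 ≤ (if i + 1 < M then ψ i else 0)
    split_ifs
    · exact hψ i
    · exact le_refl _
  have h1 : ∑ i ∈ Finset.range (M - 1), ψ i = ∑ i ∈ Finset.range M, χ i := by
    obtain ⟨N, rfl⟩ : ∃ N, M = N + 1 := ⟨M - 1, by omega⟩
    rw [Nat.add_sub_cancel, Finset.sum_range_succ]
    have h2 : χ N = 0 := if_neg (lt_irrefl _)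
    rw [h2, add_zero]
    refine Finset.sum_congr rfl fun i hi => ?_
    rw [Finset.mem_range] at hi
    exact (if_pos (by omega)).symm
  rw [h1, sum_blocks hb hbM]
  refine Finset.sum_le_sum fun k hk => ?_
  rw [Finset.mem_range] at hk
  obtain ⟨h3, -, h4⟩ := u9_len hb hk
  generalize (if k + 1 = M / b then M - k * b else b) = L at h3 h4
  calc ∑ i ∈ Finset.range (L - 1), ψ (k * b + i) = ∑ i ∈ Finset.range (L - 1), χ (k * b + i) := by
        refine Finset.sum_congr rfl fun i hi => ?_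
        rw [Finset.mem_range] at hi
        exact (if_pos (by omega)).symm
    _ ≤ ∑ i ∈ Finset.range L, χ (k * b + i) :=
        Finset.sum_le_sum_of_subset_of_nonneg
          (Finset.range_subset_range.2 (Nat.sub_le _ _)) fun i _ _ => hχ0 _

private theorem u9_two {M b : ℕ} (hb : 1 ≤ b) (hbM : b ≤ M) (G : ℕ → ℕ → ℝ) :
    ∑ i ∈ Finset.range M, ∑ j ∈ Finset.range M, G i j =
      ∑ k ∈ Finset.range (M / b), ∑ k' ∈ Finset.range (M / b),
        ∑ i ∈ Finset.range (if k + 1 = M / b then M - k * b else b),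
          ∑ j ∈ Finset.range (if k' + 1 = M / b then M - k' * b else b),
            G (k * b + i) (k' * b + j) := by
  rw [sum_blocks hb hbM]
  refine Finset.sum_congr rfl fun k _ => ?_
  rw [Finset.sum_comm (s := Finset.range (M / b))]
  exact Finset.sum_congr rfl fun i _ => sum_blocks hb hbM _

private theorem u9_e1 {M b : ℕ} (hb : 1 ≤ b) (hbM : b ≤ M) (G : ℕ → ℕ → ℝ)
    (hG : ∀ i j, 0 ≤ G i j) :
    ∑ k ∈ Finset.range (M / b), ∑ k' ∈ Finset.range (M / b),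
        ∑ i ∈ Finset.range ((if k + 1 = M / b then M - k * b else b) - 1),
          ∑ j ∈ Finset.range (if k' + 1 = M / b then M - k' * b else b),
            G (k * b + i) (k' * b + j) ≤
      ∑ i ∈ Finset.range (M - 1), ∑ j ∈ Finset.range M, G i j := by
  refine le_trans (le_of_eq ?_) (block_edges hb hbM (fun i => ∑ j ∈ Finset.range M, G i j)
    fun i => Finset.sum_nonneg fun j _ => hG i j)
  refine Finset.sum_congr rfl fun k _ => ?_
  rw [Finset.sum_comm (s := Finset.range (M / b))]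
  exact Finset.sum_congr rfl fun i _ => (sum_blocks hb hbM _).symm

private theorem u9_e2 {M b : ℕ} (hb : 1 ≤ b) (hbM : b ≤ M) (G : ℕ → ℕ → ℝ)
    (hG : ∀ i j, 0 ≤ G i j) :
    ∑ k ∈ Finset.range (M / b), ∑ k' ∈ Finset.range (M / b),
        ∑ i ∈ Finset.range (if k + 1 = M / b then M - k * b else b),
          ∑ j ∈ Finset.range ((if k' + 1 = M / b then M - k' * b else b) - 1),
            G (k * b + i) (k' * b + j) ≤
      ∑ i ∈ Finset.range M, ∑ j ∈ Finset.range (M - 1), G i j := by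
  rw [sum_blocks hb hbM (fun i => ∑ j ∈ Finset.range (M - 1), G i j)]
  refine Finset.sum_le_sum fun k _ => ?_
  rw [Finset.sum_comm (s := Finset.range (M / b))]
  exact Finset.sum_le_sum fun i _ => block_edges hb hbM _ fun j => hG _ _

variable {V : Type*} [Fintype V] {M : ℕ} [NeZero M] {cl : V → Cell M} {μ : ℝ}

omit [NeZero M] in
private theorem u9_cD (f : V → ℝ) (p q : Cell M) : 0 ≤ cD cl f p q :=
  Finset.sum_nonneg fun _ _ => Finset.sum_nonneg fun _ _ => sq_nonneg _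

omit [NeZero M] in
private theorem u9_block (hμ : 0 < μ) (hlo : ∀ c, μ / 2 ≤ (cnt cl c : ℝ))
    (hhi : ∀ c, (cnt cl c : ℝ) ≤ 2 * μ) (f : V → ℝ) (o : ℕ × ℕ) {a a' b : ℕ} (hb : 1 ≤ b)
    (ha : b ≤ a) (ha2 : a ≤ 2 * b) (ha' : b ≤ a') (ha2' : a' ≤ 2 * b) :
    ∑ i ∈ Finset.range a, ∑ j ∈ Finset.range a', ∑ x ∈ cS cl (cij o i j), f x ^ 2 ≤
      4 / μ * (∑ i ∈ Finset.range a, ∑ j ∈ Finset.range a', cD cl f (cij o i j) (cij o i j)) +
      128 * (b : ℝ) ^ 2 / μ * ((∑ i ∈ Finset.range (a - 1), ∑ j ∈ Finset.range a',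
          cD cl f (cij o (i + 1) j) (cij o i j)) +
        (∑ i ∈ Finset.range a, ∑ j ∈ Finset.range (a' - 1),
          cD cl f (cij o i (j + 1)) (cij o i j))) +
      16 / (μ * (b : ℝ) ^ 2) *
        (∑ i ∈ Finset.range a, ∑ j ∈ Finset.range a', ∑ x ∈ cS cl (cij o i j), |f x|) ^ 2 := by
  have h1 := rect_poin hμ hlo hhi f o (hb.trans ha) (hb.trans ha')
  have h2 := rect_mean hμ hlo f o a a'
  obtain ⟨c, hc⟩ : ∃ c, c = rmean cl f o a a' := ⟨_, rfl⟩
  rw [← hc] at h1 h2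
  obtain ⟨A, hA⟩ : ∃ A, A = ∑ i ∈ Finset.range a, ∑ j ∈ Finset.range a',
    ∑ x ∈ cS cl (cij o i j), |f x| := ⟨_, rfl⟩
  rw [← hA] at h2 ⊢
  obtain ⟨S0, hS0⟩ : ∃ S0, S0 = ∑ i ∈ Finset.range a, ∑ j ∈ Finset.range a',
    cD cl f (cij o i j) (cij o i j) := ⟨_, rfl⟩
  obtain ⟨S1, hS1⟩ : ∃ S1, S1 = ∑ i ∈ Finset.range (a - 1), ∑ j ∈ Finset.range a',
    cD cl f (cij o (i + 1) j) (cij o i j) := ⟨_, rfl⟩
  obtain ⟨S2, hS2⟩ : ∃ S2, S2 = ∑ i ∈ Finset.range a, ∑ j ∈ Finset.range (a' - 1),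
    cD cl f (cij o i (j + 1)) (cij o i j) := ⟨_, rfl⟩
  rw [← hS0, ← hS1, ← hS2] at h1 ⊢
  have hS1' : 0 ≤ S1 := by
    rw [hS1]
    exact Finset.sum_nonneg fun _ _ => Finset.sum_nonneg fun _ _ => u9_cD f _ _
  have hS2' : 0 ≤ S2 := by
    rw [hS2]
    exact Finset.sum_nonneg fun _ _ => Finset.sum_nonneg fun _ _ => u9_cD f _ _
  have h3 : ∑ i ∈ Finset.range a, ∑ j ∈ Finset.range a', ∑ x ∈ cS cl (cij o i j), f x ^ 2 ≤
      2 * (∑ i ∈ Finset.range a, ∑ j ∈ Finset.range a', ∑ x ∈ cS cl (cij o i j),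
        (f x - c) ^ 2) + ∑ i ∈ Finset.range a, ∑ j ∈ Finset.range a', 4 * μ * c ^ 2 := by
    simp only [Finset.mul_sum, ← Finset.sum_add_distrib]
    refine Finset.sum_le_sum fun i _ => Finset.sum_le_sum fun j _ => ?_
    have h4 : ∑ x ∈ cS cl (cij o i j), f x ^ 2 ≤
        ∑ x ∈ cS cl (cij o i j), (2 * (f x - c) ^ 2 + 2 * c ^ 2) :=
      Finset.sum_le_sum fun x _ => by nlinarith [sq_nonneg (f x - 2 * c)]
    refine h4.trans ?_
    rw [Finset.sum_add_distrib]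
    refine add_le_add_right ?_ _
    rw [Finset.sum_const, nsmul_eq_mul]
    have h5 : (((cS cl (cij o i j)).card : ℕ) : ℝ) ≤ 2 * μ := hhi (cij o i j)
    nlinarith [sq_nonneg c]
  have h4 : ∑ i ∈ Finset.range a, ∑ j ∈ Finset.range a', 4 * μ * c ^ 2 =
      (a : ℝ) * a' * (4 * μ * c ^ 2) := by
    rw [Finset.sum_const, Finset.sum_const, Finset.card_range, Finset.card_range, nsmul_eq_mul,
      nsmul_eq_mul]
    ring
  have hb' : (1 : ℝ) ≤ b := by exact_mod_cast hb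
  have hab : (b : ℝ) ≤ a := by exact_mod_cast ha
  have hab' : (b : ℝ) ≤ a' := by exact_mod_cast ha'
  have hab2 : (a : ℝ) ≤ 2 * b := by exact_mod_cast ha2
  have hab2' : (a' : ℝ) ≤ 2 * b := by exact_mod_cast ha2'
  have ha0 : (0 : ℝ) < a := by linarith
  have ha0' : (0 : ℝ) < a' := by linarith
  have hb0 : (0 : ℝ) < b := by linarith
  have h5 : (a : ℝ) * a' * (4 * μ * c ^ 2) ≤ 16 / (μ * (b : ℝ) ^ 2) * A ^ 2 := by
    have h6 : c ^ 2 ≤ (2 / (μ * ((a : ℝ) * a')) * A) ^ 2 := by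
      rw [← sq_abs c]
      exact pow_le_pow_left₀ (abs_nonneg c) h2 2
    have h7 : (a : ℝ) * a' * (4 * μ * c ^ 2) ≤
        (a : ℝ) * a' * (4 * μ * (2 / (μ * ((a : ℝ) * a')) * A) ^ 2) := by
      gcongr
    refine h7.trans ?_
    have h8 : (a : ℝ) * a' * (4 * μ * (2 / (μ * ((a : ℝ) * a')) * A) ^ 2) =
        16 / (μ * (a * a')) * A ^ 2 := by
      field_simp
      ring
    rw [h8]
    refine mul_le_mul_of_nonneg_right ?_ (sq_nonneg A)
    refine div_le_div_of_nonneg_left (by norm_num) (by positivity) ?_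
    refine mul_le_mul_of_nonneg_left ?_ hμ.le
    nlinarith
  have h6 : 16 / μ * ((a : ℝ) ^ 2 * S1 + (a' : ℝ) ^ 2 * S2) ≤
      16 / μ * (4 * (b : ℝ) ^ 2 * S1 + 4 * (b : ℝ) ^ 2 * S2) := by
    refine mul_le_mul_of_nonneg_left ?_ (by positivity)
    refine add_le_add (mul_le_mul_of_nonneg_right ?_ hS1') (mul_le_mul_of_nonneg_right ?_ hS2')
    · nlinarith
    · nlinarith
  have h7 : 16 / μ * (4 * (b : ℝ) ^ 2 * S1 + 4 * (b : ℝ) ^ 2 * S2) * 2 =
      128 * (b : ℝ) ^ 2 / μ * (S1 + S2) := by ring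
  have h8 : 2 * (2 / μ * S0) = 4 / μ * S0 := by ring
  rw [h4] at h3
  linarith

omit [NeZero M] in
private theorem u9_cij (k k' b i j : ℕ) :
    (cij (0, 0) (k * b + i) (k' * b + j) : Cell M) = cij (k * b, k' * b) i j := by
  unfold cij
  simp only [Nat.zero_add]

theorem scale_ineq (hμ : 0 < μ) (hlo : ∀ c, μ / 2 ≤ (cnt cl c : ℝ))
    (hhi : ∀ c, (cnt cl c : ℝ) ≤ 2 * μ) (b : ℕ) (hb : 1 ≤ b) (hbM : b ≤ M) (f : V → ℝ) :
    ∑ x, f x ^ 2 ≤ 260 * (b : ℝ) ^ 2 / μ * tch cl f +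
      16 * (∑ x, |f x|) ^ 2 / (μ * (b : ℝ) ^ 2) := by
  have hb' : (1 : ℝ) ≤ b := by exact_mod_cast hb
  have e0 := u9_two hb hbM (fun i j => ∑ x ∈ cS cl (cij (0, 0) i j), f x ^ 2)
  have e1 := u9_two hb hbM (fun i j => ∑ x ∈ cS cl (cij (0, 0) i j), |f x|)
  have e2 := u9_two hb hbM (fun i j => cD cl f (cij (0, 0) i j) (cij (0, 0) i j))
  have e3 := u9_e1 hb hbM (fun i j => cD cl f (cij (0, 0) (i + 1) j) (cij (0, 0) i j))
    fun i j => u9_cD f _ _
  have e4 := u9_e2 hb hbM (fun i j => cD cl f (cij (0, 0) i (j + 1)) (cij (0, 0) i j))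
    fun i j => u9_cD f _ _
  rw [← sum_cells] at e0 e1
  have e2' := tch_same (cl := cl) f
  have e3' := e3.trans (tch_one (cl := cl) f)
  have e4' := e4.trans (tch_two (cl := cl) f)
  rw [e2] at e2'
  simp only [add_assoc, u9_cij] at e0 e1 e2' e3' e4'
  rw [e0]
  have key : ∑ k ∈ Finset.range (M / b), ∑ k' ∈ Finset.range (M / b),
      ∑ i ∈ Finset.range (if k + 1 = M / b then M - k * b else b),
        ∑ j ∈ Finset.range (if k' + 1 = M / b then M - k' * b else b),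
          ∑ x ∈ cS cl (cij (k * b, k' * b) i j), f x ^ 2 ≤
      ∑ k ∈ Finset.range (M / b), ∑ k' ∈ Finset.range (M / b),
      (4 / μ * (∑ i ∈ Finset.range (if k + 1 = M / b then M - k * b else b),
        ∑ j ∈ Finset.range (if k' + 1 = M / b then M - k' * b else b),
          cD cl f (cij (k * b, k' * b) i j) (cij (k * b, k' * b) i j)) +
      128 * (b : ℝ) ^ 2 / μ *
        ((∑ i ∈ Finset.range ((if k + 1 = M / b then M - k * b else b) - 1),
          ∑ j ∈ Finset.range (if k' + 1 = M / b then M - k' * b else b),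
          cD cl f (cij (k * b, k' * b) (i + 1) j) (cij (k * b, k' * b) i j)) +
        (∑ i ∈ Finset.range (if k + 1 = M / b then M - k * b else b),
          ∑ j ∈ Finset.range ((if k' + 1 = M / b then M - k' * b else b) - 1),
          cD cl f (cij (k * b, k' * b) i (j + 1)) (cij (k * b, k' * b) i j))) +
      16 / (μ * (b : ℝ) ^ 2) *
        (∑ i ∈ Finset.range (if k + 1 = M / b then M - k * b else b),
          ∑ j ∈ Finset.range (if k' + 1 = M / b then M - k' * b else b),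
            ∑ x ∈ cS cl (cij (k * b, k' * b) i j), |f x|) ^ 2) := by
    refine Finset.sum_le_sum fun k hk => Finset.sum_le_sum fun k' hk' => ?_
    obtain ⟨h1, h2, -⟩ := u9_len hb (Finset.mem_range.1 hk)
    obtain ⟨h3, h4, -⟩ := u9_len hb (Finset.mem_range.1 hk')
    exact u9_block hμ hlo hhi f _ hb h1 h2 h3 h4
  refine key.trans ?_
  simp only [Finset.sum_add_distrib, ← Finset.mul_sum]
  have hsq : ∑ k ∈ Finset.range (M / b), ∑ k' ∈ Finset.range (M / b),
      (∑ i ∈ Finset.range (if k + 1 = M / b then M - k * b else b),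
        ∑ j ∈ Finset.range (if k' + 1 = M / b then M - k' * b else b),
          ∑ x ∈ cS cl (cij (k * b, k' * b) i j), |f x|) ^ 2 ≤ (∑ x, |f x|) ^ 2 := by
    rw [e1, ← Finset.sum_product', ← Finset.sum_product']
    exact Finset.sum_sq_le_sq_sum_of_nonneg fun c _ => Finset.sum_nonneg fun _ _ =>
      Finset.sum_nonneg fun _ _ => Finset.sum_nonneg fun _ _ => abs_nonneg _
  have ht : 0 ≤ tch cl f := by
    unfold tch
    refine Finset.sum_nonneg fun _ _ => Finset.sum_nonneg fun _ _ => ?_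
    split_ifs
    · exact sq_nonneg _
    · exact le_refl _
  have g1 := mul_le_mul_of_nonneg_left e2' (show (0 : ℝ) ≤ 4 / μ by positivity)
  have g2 := mul_le_mul_of_nonneg_left (add_le_add e3' e4')
    (show (0 : ℝ) ≤ 128 * (b : ℝ) ^ 2 / μ by positivity)
  have g3 := mul_le_mul_of_nonneg_left hsq (show (0 : ℝ) ≤ 16 / (μ * (b : ℝ) ^ 2) by positivity)
  have g4 : 4 / μ * tch cl f ≤ 4 * (b : ℝ) ^ 2 / μ * tch cl f := by
    refine mul_le_mul_of_nonneg_right ?_ ht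
    refine div_le_div_of_nonneg_right ?_ hμ.le
    nlinarith
  have g5 : 4 * (b : ℝ) ^ 2 / μ * tch cl f + 128 * (b : ℝ) ^ 2 / μ * (tch cl f + tch cl f) =
      260 * (b : ℝ) ^ 2 / μ * tch cl f := by ring
  have g6 : 16 / (μ * (b : ℝ) ^ 2) * (∑ x, |f x|) ^ 2 =
      16 * (∑ x, |f x|) ^ 2 / (μ * (b : ℝ) ^ 2) := by ring
  linarith

theorem poin_top (hμ : 0 < μ) (hlo : ∀ c, μ / 2 ≤ (cnt cl c : ℝ))
    (hhi : ∀ c, (cnt cl c : ℝ) ≤ 2 * μ) (f : V → ℝ) :
    ∃ c : ℝ, ∑ x, (f x - c) ^ 2 ≤ 130 * (M : ℝ) ^ 2 / μ * tch cl f := by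
  have hM : 1 ≤ M := NeZero.one_le
  have hM' : (1 : ℝ) ≤ M := by exact_mod_cast hM
  refine ⟨rmean cl f (0, 0) M M, ?_⟩
  have h1 := rect_poin hμ hlo hhi f (0, 0) hM hM
  rw [sum_cells (cl := cl)]
  refine h1.trans ?_
  have e2 := tch_same (cl := cl) f
  have e3 := tch_one (cl := cl) f
  have e4 := tch_two (cl := cl) f
  have ht : 0 ≤ tch cl f := by
    unfold tch
    refine Finset.sum_nonneg fun _ _ => Finset.sum_nonneg fun _ _ => ?_
    split_ifs
    · exact sq_nonneg _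
    · exact le_refl _
  have hM2 : (1 : ℝ) ≤ (M : ℝ) ^ 2 := by nlinarith
  have g1 := mul_le_mul_of_nonneg_left e2 (show (0 : ℝ) ≤ 2 / μ by positivity)
  have g2 := mul_le_mul_of_nonneg_left (add_le_add (mul_le_mul_of_nonneg_left e3
    (show (0 : ℝ) ≤ (M : ℝ) ^ 2 by positivity)) (mul_le_mul_of_nonneg_left e4
    (show (0 : ℝ) ≤ (M : ℝ) ^ 2 by positivity))) (show (0 : ℝ) ≤ 16 / μ by positivity)
  refine (add_le_add g1 g2).trans ?_
  have g4 : 2 / μ * tch cl f ≤ 2 * (M : ℝ) ^ 2 / μ * tch cl f := by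
    refine mul_le_mul_of_nonneg_right ?_ ht
    refine div_le_div_of_nonneg_right ?_ hμ.le
    nlinarith
  have g5 : 2 * (M : ℝ) ^ 2 / μ * tch cl f +
      16 / μ * ((M : ℝ) ^ 2 * tch cl f + (M : ℝ) ^ 2 * tch cl f) =
      34 * (M : ℝ) ^ 2 / μ * tch cl f := by ring
  have g6 : 34 * (M : ℝ) ^ 2 / μ * tch cl f ≤ 130 * (M : ℝ) ^ 2 / μ * tch cl f := by
    refine mul_le_mul_of_nonneg_right ?_ ht
    refine div_le_div_of_nonneg_right ?_ hμ.le
    nlinarith
  linarith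

end EA42
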