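import Pool.Agent.Lib.MP_ea42c6_pr.Three.U4
import Pool.Agent.Lib.MP_ea42c6_pr.Three.U5
import Pool.Agent.Lib.MP_ea42c6_pr.Three.U9
import Pool.Agent.Lib.MP_ea42c6_pr.Three.U10
import Pool.Agent.Lib.MP_ea42c6_pr.One.N5

/-!
# U12 — heat kernel bound and spectral gap on the geometric graph

`r' = min r 1`, `μ = n/M²`, `D = n r'²/50`, `κ = 32400`, `cl u = cell M (X u)`; `3/r' ≤ M ≤ 4/r'` gives
`n r'²/16 ≤ μ ≤ n r'²/9`, so `D ≤ μ ≤ 6 D`.  Touching cells: `touch_lt` (G1; `3/M ≤ r' ≤ r`; see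
`htouch` in `datum_valid`).  `|ball| ≥ cnt` of its cell `≥ μ/2 ≥ D`; `|ball| ≤ 648 n r'² = κ D`.
`C₁ = 260`, `C₂ = 16` (`scale_ineq`), `c₃ = 1/(4 κ)` (`dir_lower`); `nash`, `hk_all` with
`H₀ = 2 · 16 κ² + 16 κ³ 260 · 16 (4 κ)`, `Hc = 3 κ H₀`.
Gap: `A = 130 M²/μ` (`poin_top`): `c₃/(κ D A) = c₃ μ/(130 κ D M²) = c₃ μ²/(130 κ D n) ≥ c₃ D/(130 κ n)`
(`μ ≥ D`), and `gc = 1/(4 κ κ 130)`; `ip g g ≥ 0`.
-/

namespace EA42

open MeasureTheory
open scoped Classical ENNReal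

theorem U12_touch {n M : ℕ} [NeZero M] {X : Fin n → Pt} {r : ℝ}
    (h3 : 3 / (M : ℝ) ≤ r) (hX : ∀ u, X u ∈ Set.Icc (0 : ℝ) 1 ×ˢ Set.Icc (0 : ℝ) 1)
    (u v : Fin n) (h : Touch (cell M (X u)) (cell M (X v))) : v ∈ ball X r u := by
  have key : tdist (X u) (X v) < r := by
    unfold Touch cell at h
    simp only [Prod.mk_add_mk, Prod.mk.injEq] at h
    rcases h with h | h | h | h | h
    · exact touch_lt h3 (hX u) (hX v) 0 0 (by rw [h.1]; simp) (by rw [h.2]; simp) (by norm_num)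
    · exact touch_lt h3 (hX u) (hX v) 1 0 (by rw [h.1]; simp) (by rw [h.2]; simp) (by norm_num)
    · exact touch_lt h3 (hX u) (hX v) 0 1 (by rw [h.1]; simp) (by rw [h.2]; simp) (by norm_num)
    · exact touch_lt h3 (hX u) (hX v) (-1) 0 (by rw [h.1]; push_cast; ring)
        (by rw [h.2]; push_cast; ring) (by norm_num)
    · exact touch_lt h3 (hX u) (hX v) 0 (-1) (by rw [h.1]; push_cast; ring)
        (by rw [h.2]; push_cast; ring) (by norm_num)
  exact Finset.mem_filter.mpr ⟨Finset.mem_univ _, key⟩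

theorem good_hk {n M : ℕ} [NeZero M] (hn : 0 < n) {X : Fin n → Pt} {r : ℝ} (hr : 0 < r)
    (hM1 : 3 / (M : ℝ) ≤ min r 1) (hM2 : (M : ℝ) ≤ 4 / min r 1) (h : GoodY X r M) :
    HK (ball X r) (n * (min r 1) ^ 2 / 50) 32400 Hc gc := by
  have : Nonempty (Fin n) := ⟨⟨0, hn⟩⟩
  have hn' : (0 : ℝ) < n := by exact_mod_cast hn
  have hM : (0 : ℝ) < M := by exact_mod_cast Nat.pos_of_ne_zero (NeZero.ne M)
  have hr' : 0 < min r 1 := lt_min hr one_pos
  have hrr : min r 1 ≤ r := min_le_left _ _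
  set r' := min r 1 with hr'def
  have e1 : 3 ≤ r' * M := by rwa [div_le_iff₀ hM] at hM1
  have e2 : (M : ℝ) * r' ≤ 4 := by rwa [le_div_iff₀ hr'] at hM2
  set μ : ℝ := (n : ℝ) / (M : ℝ) ^ 2 with hμdef
  set D : ℝ := n * r' ^ 2 / 50 with hDdef
  have hμ : 0 < μ := by positivity
  have hD : 0 < D := by positivity
  have hMμ : (M : ℝ) ^ 2 * μ = n := by
    rw [hμdef]
    field_simp
  have hμlo : n * r' ^ 2 / 16 ≤ μ := by
    rw [hμdef, div_le_div_iff₀ (by norm_num) (by positivity)]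
    have : (M * r') ^ 2 ≤ 4 ^ 2 := pow_le_pow_left₀ (by positivity) e2 2
    nlinarith
  have hμhi : μ ≤ n * r' ^ 2 / 9 := by
    rw [hμdef, div_le_div_iff₀ (by positivity) (by norm_num)]
    have : (3 : ℝ) ^ 2 ≤ (r' * M) ^ 2 := pow_le_pow_left₀ (by norm_num) e1 2
    nlinarith
  have hq : 0 < n * r' ^ 2 := by positivity
  have hDμ : D ≤ μ := by
    rw [hDdef]; linarith
  have hDμ2 : D ≤ μ / 2 := by
    rw [hDdef]; linarith
  have hμD : μ ≤ 6 * D := by
    rw [hDdef]; linarith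
  have htouch := U12_touch (hM1.trans hrr) h.sq
  have hlo : ∀ c, μ / 2 ≤ (cnt (fun u => cell M (X u)) c : ℝ) := fun c => (h.cells c).1
  have hhi : ∀ c, (cnt (fun u => cell M (X u)) c : ℝ) ≤ 2 * μ := fun c => (h.cells c).2
  have hreg : DReg (ball X r) D 32400 := by
    refine ⟨symB_ball X hr, hD, fun u => ?_, fun u => ?_⟩
    · refine (hDμ2.trans (hlo (cell M (X u)))).trans ?_
      unfold cnt
      have hsub : (Finset.univ.filter fun v => cell M (X v) = cell M (X u)) ⊆ ball X r u := by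
        intro v hv
        exact htouch u v (Or.inl (Finset.mem_filter.mp hv).2)
      exact_mod_cast Finset.card_le_card hsub
    · refine (h.up u).trans (le_of_eq ?_)
      rw [hDdef]
      ring
  have hdir := fun f : Fin n → ℝ =>
    dir_lower hreg (fun u => cell M (X u)) hDμ htouch hlo f
  have hscale : ∀ b : ℕ, 1 ≤ b → b ≤ M → ∀ f : Fin n → ℝ,
      ∑ x, f x ^ 2 ≤ 260 * (b : ℝ) ^ 2 / μ * tch (fun u => cell M (X u)) f +
        16 * (∑ x, |f x|) ^ 2 / (μ * (b : ℝ) ^ 2) := fun b hb hbM f =>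
    scale_ineq hμ hlo hhi b hb hbM f
  have hcard : (M : ℝ) ^ 2 * μ = (Fintype.card (Fin n) : ℝ) := by
    rw [Fintype.card_fin, hMμ]
  have hnash := fun (j : ℕ) (hj : 1 ≤ j) (y : Fin n) =>
    nash hreg (by norm_num) hDμ hμD hcard (by norm_num : (1 : ℝ) ≤ 260)
      (by norm_num : (1 : ℝ) ≤ 16) (by norm_num : (0 : ℝ) < 1 / (4 * 32400)) (by norm_num)
      (tch fun u => cell M (X u)) hscale hdir j hj y
  have hall := fun (m : ℕ) (hm : 1 ≤ m) (x y : Fin n) =>
    hk_all hreg (by norm_num) hnash m hm x y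
  refine ⟨hreg, fun m hm x y => ?_, fun g hg => ?_⟩
  · have h1 := hall m hm x y
    have h2 : Hc = 3 * 32400 * (2 * 16 * 32400 ^ 2 + 16 * 32400 ^ 3 * 260 * 16 / (1 / (4 * 32400))) := by
      unfold Hc
      norm_num
    rw [h2]
    exact h1
  · have hA : 0 < 130 * (M : ℝ) ^ 2 / μ := by positivity
    have h1 := gap_of_poincare hreg (tch fun u => cell M (X u)) (fun f => poin_top hμ hlo hhi f) hA
      (by norm_num : (0 : ℝ) < 1 / (4 * 32400)) hdir g hg
    refine h1.trans ?_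
    have hip : 0 ≤ ip (ball X r) g g := by
      unfold ip
      refine Finset.sum_nonneg fun x _ => mul_nonneg (by positivity) (mul_self_nonneg _)
    refine mul_le_mul_of_nonneg_right ?_ hip
    have h2 : gc * D / (Fintype.card (Fin n) : ℝ) ≤
        1 / (4 * 32400) / (32400 * D * (130 * (M : ℝ) ^ 2 / μ)) := by
      have h3 : 1 / (4 * 32400) / (32400 * D * (130 * (M : ℝ) ^ 2 / μ)) =
          gc * (μ ^ 2 / D) / (Fintype.card (Fin n) : ℝ) := by
        rw [← hcard]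
        unfold gc
        field_simp
      rw [h3]
      have h4 : D ≤ μ ^ 2 / D := by
        rw [le_div_iff₀ hD]
        nlinarith
      have h5 : 0 ≤ gc := by
        unfold gc
        norm_num
      exact div_le_div_of_nonneg_right (mul_le_mul_of_nonneg_left h4 h5) (by positivity)
    linarith

end EA42
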