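import Pool.Agent.Lib.MP_ea42c6_pr.Three.U30

/-!
# U31 — choice of the parameters

`n = |V|`, `D ≤ n` (`D ≤ |B u| ≤ n`), `D ≥ a √n log n`.  We may assume `c ≤ 1` (for larger `c` the
probability is smaller; use `min c 1`).
`ξ = c²/(512 κ²)`, `M = 192 κ²/c²`, `c₂ = 1/(64 H²)`, `k` a natural number with
`k ≥ 3`, `k ≥ 1024 M² κ²/(c₂ c²)`, `k ≥ c₂ (192 H²/a)²`; `τ = √(c₂/k)`, `T = ⌊τ √n⌋₊` (`τ √n/2 ≤ T ≤ τ √n`),
`R = ⌊T/(8H)⌋₊` (`4H (R+1) ≤ T/2 + 4H ≤ T`, `R ≥ T/(16H)` for `T ≥ 16 H`), `K = T/2` (natural division;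
`2K ≤ T`, `K + 1 ≥ T/2`), `t + 1 = ⌈2 M n/(k T)⌉₊` (so `2Mn/(kT) ≤ t + 1 ≤ 4Mn/(kT)` when `2Mn ≥ kT`),
`e = ξ (t+1)(K+1)²/(D n)`.
* `n ≤ D T`: `D T ≥ (a τ/2) n log n`.
* `hsmall`: `8 H k T²/n ≤ 8 H c₂ ≤ 1/8`; `12 H² T (1 + log (2T))/D ≤ 12 H² τ √n 2 log n/(a √n log n) = 24 H² τ/a ≤ 1/8`;
  `24 H² T²/n ≤ 24 H² c₂/k ≤ 1/8`.
* `hη`: `(t+1)(K+1)k ≥ M n`: `2·6κ²/(M c²) ≤ 1/16`; `2·16κ² ξ/c² ≤ 1/16`;
  `(t+1)²κ²/n ≤ 16 M² n κ²/(k² T²) ≤ 64 M²κ²/(k² τ²) = 64 M² κ²/(c₂ k)`, over `c²`: `≤ 1/16`;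
  `(t+1)² κ² 4 T² k/n² ≤ 64 M² κ²/k`, over `c²`: `≤ 1/16`.
* `hbad`: `1/(D e) = n/(ξ (t+1)(K+1)²)`, `(R+1)/T ≤ 1`: the left side is at most
  `300 H² n²/(g0² ξ (t+1)(K+1) D²) ≤ 300 H² k n/(g0² ξ M D²) ≤ 300 H² k/(g0² ξ M a² log² n) → 0`; the
  right side is at least `(1/8)(1/(128 H))^k/k!`.
`δ = (1/8)(1/(128 H))^k/k!`.
-/

namespace EA42

open scoped Classical

/-- the condition `hsmall` -/
private theorem u31_small {H a c₂ τ k s L D T : ℝ} (hH : 1 ≤ H) (hk : 3 ≤ k) (hs : 0 < s)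
    (hτ : 0 < τ) (hτk : τ ^ 2 * k = c₂) (hc₂ : 64 * H ^ 2 * c₂ = 1) (ha : 0 < a)
    (hτa : 192 * H ^ 2 * τ ≤ a) (hT : 2 ≤ T) (hTs : T ≤ τ * s) (hL : 1 ≤ L)
    (hLs : Real.log s = L / 2) (hD : a * (s * L) ≤ D) :
    2 * T * (2 * T * k * (2 * H / s ^ 2)) +
      2 * T * (6 * H ^ 2 * ((1 + Real.log (2 * T)) / D + 2 * T / s ^ 2)) ≤ 1 / 2 := by
  have hs2 : 0 < s ^ 2 := by positivity
  have hH0 : 0 < H := by linarith
  have hD0 : 0 < D := lt_of_lt_of_le (by positivity) hD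
  have hq : T ^ 2 / s ^ 2 ≤ τ ^ 2 := by
    rw [div_le_iff₀ hs2]
    nlinarith
  have hτ8 : τ ≤ 1 / 8 := by
    have h1 : 64 * τ ^ 2 ≤ 1 := by
      have h2 : 64 * τ ^ 2 * k ≤ 64 * H ^ 2 * c₂ := by
        rw [mul_assoc, hτk]
        have h3 : 0 < c₂ := by rw [← hτk]; positivity
        nlinarith [mul_pos hH0 hH0]
      rw [hc₂] at h2
      nlinarith [sq_nonneg τ]
    nlinarith
  have t1 : 2 * T * (2 * T * k * (2 * H / s ^ 2)) ≤ 1 / 8 := by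
    have e : 2 * T * (2 * T * k * (2 * H / s ^ 2)) = 8 * H * k * (T ^ 2 / s ^ 2) := by ring
    rw [e]
    have h1 : 8 * H * k * (T ^ 2 / s ^ 2) ≤ 8 * H * k * τ ^ 2 :=
      mul_le_mul_of_nonneg_left hq (by positivity)
    have h2 : 8 * H * k * τ ^ 2 = 8 * H * c₂ := by rw [← hτk]; ring
    have h3 : 0 < c₂ := by rw [← hτk]; positivity
    nlinarith [mul_pos hH0 h3]
  have t3 : 2 * T * (6 * H ^ 2 * (2 * T / s ^ 2)) ≤ 1 / 8 := by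
    have e : 2 * T * (6 * H ^ 2 * (2 * T / s ^ 2)) = 24 * H ^ 2 * (T ^ 2 / s ^ 2) := by ring
    rw [e]
    have h1 : 24 * H ^ 2 * (T ^ 2 / s ^ 2) ≤ 24 * H ^ 2 * τ ^ 2 :=
      mul_le_mul_of_nonneg_left hq (by positivity)
    have h2 : 24 * H ^ 2 * τ ^ 2 * k = 24 / 64 := by
      have : 24 * H ^ 2 * τ ^ 2 * k = 24 / 64 * (64 * H ^ 2 * (τ ^ 2 * k)) := by ring
      rw [this, hτk, hc₂]
      norm_num
    have h3 : 0 ≤ 24 * H ^ 2 * τ ^ 2 := by positivity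
    nlinarith
  have t2 : 2 * T * (6 * H ^ 2 * ((1 + Real.log (2 * T)) / D)) ≤ 1 / 8 := by
    have hlog : 1 + Real.log (2 * T) ≤ 2 * L := by
      have h1 : Real.log (2 * T) ≤ Real.log s := by
        refine Real.log_le_log (by linarith) ?_
        nlinarith
      rw [hLs] at h1
      linarith
    have hlog0 : 0 ≤ 1 + Real.log (2 * T) := by
      have := Real.log_nonneg (show (1 : ℝ) ≤ 2 * T by linarith)
      linarith
    have h1 : 2 * T * (6 * H ^ 2 * ((1 + Real.log (2 * T)) / D)) =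
        12 * H ^ 2 * (T * (1 + Real.log (2 * T))) / D := by ring
    rw [h1, div_le_iff₀ hD0]
    have h2 : T * (1 + Real.log (2 * T)) ≤ (τ * s) * (2 * L) :=
      mul_le_mul hTs hlog hlog0 (by positivity)
    have h3 : 12 * H ^ 2 * (T * (1 + Real.log (2 * T))) ≤ 12 * H ^ 2 * ((τ * s) * (2 * L)) :=
      mul_le_mul_of_nonneg_left h2 (by positivity)
    have h4 : 192 * H ^ 2 * τ * (s * L) ≤ a * (s * L) :=
      mul_le_mul_of_nonneg_right hτa (by positivity)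
    nlinarith
  have e : 2 * T * (6 * H ^ 2 * ((1 + Real.log (2 * T)) / D + 2 * T / s ^ 2)) =
      2 * T * (6 * H ^ 2 * ((1 + Real.log (2 * T)) / D)) +
        2 * T * (6 * H ^ 2 * (2 * T / s ^ 2)) := by ring
  rw [e]
  linarith

/-- the condition `hη` -/
private theorem u31_eta {κ c M k s T K1 t1 D : ℝ} {τ c₂ : ℝ} (hκ : 1 ≤ κ) (hc : 0 < c)
    (hM : M * c ^ 2 = 192 * κ ^ 2) (hk : 0 < k) (hs : 0 < s) (hτ : 0 < τ)
    (hτk : τ ^ 2 * k = c₂) (hc₂ : c₂ ≤ 1) (hk2 : 1024 * M ^ 2 * κ ^ 2 ≤ c₂ * c ^ 2 * k)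
    (hT : 0 < T) (hTs : τ * s / 2 ≤ T) (hK1 : T / 2 ≤ K1) (ht1 : 2 * M * s ^ 2 / (k * T) ≤ t1)
    (ht2 : t1 ≤ 4 * M * s ^ 2 / (k * T)) (hD : 0 < D) :
    (2 * (6 * κ ^ 2 * s ^ 2 / (t1 * K1 * k) +
        16 * κ ^ 2 * D * s ^ 2 * (c ^ 2 / (512 * κ ^ 2) * (t1 * K1 ^ 2) / (D * s ^ 2)) /
          (t1 * K1 ^ 2)) +
      t1 ^ 2 * κ ^ 2 / s ^ 2 +
      t1 ^ 2 * κ ^ 2 * (2 * T * k) * (2 * T) / (s ^ 2) ^ 2) / c ^ 2 ≤ 1 / 4 := by
  have hκ0 : 0 < κ := by linarith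
  have hM0 : 0 < M := by
    by_contra hcon
    push Not at hcon
    have : M * c ^ 2 ≤ 0 := mul_nonpos_of_nonpos_of_nonneg hcon (by positivity)
    have h2 : 0 < 192 * κ ^ 2 := by positivity
    linarith
  have hc₂0 : 0 < c₂ := by rw [← hτk]; positivity
  have hkT : 0 < k * T := by positivity
  have ht10 : 0 < t1 := lt_of_lt_of_le (by positivity) ht1
  have hK10 : 0 < K1 := by linarith
  have a1 : 6 * κ ^ 2 * s ^ 2 / (t1 * K1 * k) ≤ c ^ 2 / 32 := by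
    rw [div_le_iff₀ (by positivity)]
    rw [div_le_iff₀ hkT] at ht1
    have h1 : M * s ^ 2 ≤ t1 * K1 * k := by
      have h2 : t1 * (k * T) ≤ 2 * (t1 * K1 * k) := by
        have := mul_le_mul_of_nonneg_left hK1 (by positivity : 0 ≤ t1 * k)
        linarith
      linarith
    have h3 := mul_le_mul_of_nonneg_left h1 (by positivity : 0 ≤ c ^ 2 / 32)
    have h4 : c ^ 2 / 32 * (M * s ^ 2) = 6 * κ ^ 2 * s ^ 2 := by
      have : c ^ 2 / 32 * (M * s ^ 2) = (M * c ^ 2) * s ^ 2 / 32 := by ring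
      rw [this, hM]
      ring
    linarith
  have a2 : 16 * κ ^ 2 * D * s ^ 2 * (c ^ 2 / (512 * κ ^ 2) * (t1 * K1 ^ 2) / (D * s ^ 2)) /
      (t1 * K1 ^ 2) = c ^ 2 / 32 := by
    field_simp
    ring
  have a3 : t1 ^ 2 * κ ^ 2 / s ^ 2 ≤ c ^ 2 / 16 := by
    have h1 : t1 ≤ 8 * M * s / (k * τ) := by
      refine ht2.trans ?_
      rw [div_le_div_iff₀ hkT (by positivity)]
      have h2 := mul_le_mul_of_nonneg_left hTs (by positivity : 0 ≤ 8 * M * s * k)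
      nlinarith
    have h2 : t1 ^ 2 ≤ (8 * M * s / (k * τ)) ^ 2 := pow_le_pow_left₀ ht10.le h1 2
    rw [div_le_iff₀ (by positivity)]
    have h3 : t1 ^ 2 * κ ^ 2 ≤ (8 * M * s / (k * τ)) ^ 2 * κ ^ 2 :=
      mul_le_mul_of_nonneg_right h2 (by positivity)
    refine h3.trans ?_
    have h4 : (8 * M * s / (k * τ)) ^ 2 * κ ^ 2 = 64 * M ^ 2 * κ ^ 2 / (k * (τ ^ 2 * k)) * s ^ 2 := by
      field_simp
      ring
    rw [h4, hτk]
    refine mul_le_mul_of_nonneg_right ?_ (by positivity)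
    rw [div_le_iff₀ (by positivity)]
    linarith
  have a4 : t1 ^ 2 * κ ^ 2 * (2 * T * k) * (2 * T) / (s ^ 2) ^ 2 ≤ c ^ 2 / 16 := by
    rw [le_div_iff₀ hkT] at ht2
    have h1 : t1 * T ≤ 4 * M * s ^ 2 / k := by
      rw [le_div_iff₀ hk]
      linarith
    have h2 : (t1 * T) ^ 2 ≤ (4 * M * s ^ 2 / k) ^ 2 :=
      pow_le_pow_left₀ (by positivity) h1 2
    rw [div_le_iff₀ (by positivity)]
    have h3 : t1 ^ 2 * κ ^ 2 * (2 * T * k) * (2 * T) = 4 * k * κ ^ 2 * (t1 * T) ^ 2 := by ring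
    rw [h3]
    have h4 : 4 * k * κ ^ 2 * (t1 * T) ^ 2 ≤ 4 * k * κ ^ 2 * (4 * M * s ^ 2 / k) ^ 2 :=
      mul_le_mul_of_nonneg_left h2 (by positivity)
    refine h4.trans ?_
    have h5 : 4 * k * κ ^ 2 * (4 * M * s ^ 2 / k) ^ 2 = 64 * M ^ 2 * κ ^ 2 / k * (s ^ 2) ^ 2 := by
      field_simp
      ring
    rw [h5]
    refine mul_le_mul_of_nonneg_right ?_ (by positivity)
    rw [div_le_iff₀ hk]
    have h6 : c₂ * c ^ 2 * k ≤ 1 * c ^ 2 * k := by gcongr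
    linarith
  rw [a2, div_le_iff₀ (by positivity)]
  linarith

/-- the condition `hbad` -/
private theorem u31_bad {κ H g0 a c M k s L T K1 t1 D R δ : ℝ} (hκ : 1 ≤ κ) (hH : 1 ≤ H)
    (hg0 : 0 < g0) (ha : 0 < a) (hc : 0 < c) (hM0 : 0 < M) (hk : 0 < k) (hs : 0 < s) (hT : 0 < T)
    (hR : R + 1 ≤ T) (hR0 : 0 ≤ R) (hK1 : T / 2 ≤ K1) (ht1 : 2 * M * s ^ 2 / (k * T) ≤ t1)
    (hL : 1 ≤ L) (hD : a * (s * L) ≤ D) (hδ : 0 < δ)
    (hL2 : 300 * H ^ 2 * k / (g0 ^ 2 * (c ^ 2 / (512 * κ ^ 2)) * M * a ^ 2 * δ) ≤ L) :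
    (R + 1) / T * (3 * H / s ^ 2) * (1 / (D * (c ^ 2 / (512 * κ ^ 2) * (t1 * K1 ^ 2) /
        (D * s ^ 2)))) * (K1 * (100 * H / g0 ^ 2 * (s ^ 2 / D) ^ 2)) ≤ δ := by
  have hκ0 : 0 < κ := by linarith
  have hH0 : 0 < H := by linarith
  have hL0 : 0 < L := by linarith
  have hD0 : 0 < D := lt_of_lt_of_le (by positivity) hD
  have hkT : 0 < k * T := by positivity
  have ht10 : 0 < t1 := lt_of_lt_of_le (by positivity) ht1
  have hK10 : 0 < K1 := by linarith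
  set ξ := c ^ 2 / (512 * κ ^ 2) with hξ
  have hξ0 : 0 < ξ := by positivity
  have h1 : M * s ^ 2 ≤ t1 * K1 * k := by
    rw [div_le_iff₀ hkT] at ht1
    have h2 : t1 * (k * T) ≤ 2 * (t1 * K1 * k) := by
      have := mul_le_mul_of_nonneg_left hK1 (by positivity : 0 ≤ t1 * k)
      linarith
    linarith
  have e : (R + 1) / T * (3 * H / s ^ 2) * (1 / (D * (ξ * (t1 * K1 ^ 2) / (D * s ^ 2)))) *
      (K1 * (100 * H / g0 ^ 2 * (s ^ 2 / D) ^ 2)) =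
      (R + 1) / T * (300 * H ^ 2 * (s ^ 2) ^ 2 / (ξ * g0 ^ 2 * (t1 * K1) * D ^ 2)) := by
    field_simp
    ring
  rw [e]
  have h2 : (R + 1) / T ≤ 1 := (div_le_one hT).2 hR
  have h3 : (R + 1) / T * (300 * H ^ 2 * (s ^ 2) ^ 2 / (ξ * g0 ^ 2 * (t1 * K1) * D ^ 2)) ≤
      1 * (300 * H ^ 2 * (s ^ 2) ^ 2 / (ξ * g0 ^ 2 * (t1 * K1) * D ^ 2)) :=
    mul_le_mul_of_nonneg_right h2 (by positivity)
  refine h3.trans ?_
  rw [one_mul, div_le_iff₀ (by positivity)]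
  have hD2 : (a * (s * L)) ^ 2 ≤ D ^ 2 := pow_le_pow_left₀ (by positivity) hD 2
  rw [div_le_iff₀ (by positivity)] at hL2
  -- 300 H² k ≤ L g0² ξ M a² δ ≤ L² ...
  have h4 : 300 * H ^ 2 * k ≤ L ^ 2 * (g0 ^ 2 * ξ * M * a ^ 2 * δ) := by
    refine hL2.trans (mul_le_mul_of_nonneg_right ?_ (by positivity))
    nlinarith
  have h5 : 300 * H ^ 2 * k * s ^ 4 ≤ L ^ 2 * (g0 ^ 2 * ξ * M * a ^ 2 * δ) * s ^ 4 :=
    mul_le_mul_of_nonneg_right h4 (by positivity)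
  have h6 : L ^ 2 * (g0 ^ 2 * ξ * M * a ^ 2 * δ) * s ^ 4 =
      δ * (ξ * g0 ^ 2) * (M * s ^ 2) * (a * (s * L)) ^ 2 := by ring
  have h7 : δ * (ξ * g0 ^ 2) * (M * s ^ 2) * (a * (s * L)) ^ 2 ≤
      δ * (ξ * g0 ^ 2) * (t1 * K1 * k) * D ^ 2 := by gcongr
  have h8 : 300 * H ^ 2 * (s ^ 2) ^ 2 * k ≤ δ * (ξ * g0 ^ 2 * (t1 * K1) * D ^ 2) * k := by
    have e1 : 300 * H ^ 2 * (s ^ 2) ^ 2 * k = 300 * H ^ 2 * k * s ^ 4 := by ring
    have e2 : δ * (ξ * g0 ^ 2 * (t1 * K1) * D ^ 2) * k =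
        δ * (ξ * g0 ^ 2) * (t1 * K1 * k) * D ^ 2 := by ring
    rw [e1, e2]
    linarith
  exact le_of_mul_le_mul_right h8 hk

theorem never_abs {κ H g0 a c : ℝ} (hκ : 1 ≤ κ) (hH : 1 ≤ H) (hg0 : 0 < g0) (hg1 : g0 ≤ 1)
    (ha : 0 < a) (hc : 0 < c) :
    ∃ δ : ℝ, 0 < δ ∧ ∃ n₀ : ℕ, ∀ n : ℕ, n₀ ≤ n → ∀ (B : Fin n → Finset (Fin n)) (D : ℝ),
      HK B D κ H g0 → a * (Real.sqrt n * Real.log n) ≤ D →
      pr (prodW (kerW B)) {f | c * (n : ℝ) ≤ (largest (mapG f) : ℝ)} ≤ 1 - δ := by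
  have hκ0 : 0 < κ := by linarith
  have hH0 : 0 < H := by linarith
  obtain ⟨M, hMc⟩ : ∃ M : ℝ, M * c ^ 2 = 192 * κ ^ 2 :=
    ⟨192 * κ ^ 2 / c ^ 2, div_mul_cancel₀ _ (by positivity)⟩
  have hM0 : 0 < M := by
    by_contra hcon
    push Not at hcon
    have : M * c ^ 2 ≤ 0 := mul_nonpos_of_nonpos_of_nonneg hcon (by positivity)
    have h2 : 0 < 192 * κ ^ 2 := by positivity
    linarith
  obtain ⟨c₂, hc₂⟩ : ∃ c₂ : ℝ, 64 * H ^ 2 * c₂ = 1 :=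
    ⟨1 / (64 * H ^ 2), mul_div_cancel₀ _ (by positivity)⟩
  have hc₂0 : 0 < c₂ := by
    by_contra hcon
    push Not at hcon
    have : 64 * H ^ 2 * c₂ ≤ 0 := mul_nonpos_of_nonneg_of_nonpos (by positivity) hcon
    linarith
  have hc₂1 : c₂ ≤ 1 := by
    have h1 : 1 ≤ 64 * H ^ 2 := by nlinarith
    nlinarith
  obtain ⟨k, hk⟩ := exists_nat_ge (max 3 (max (1024 * M ^ 2 * κ ^ 2 / (c₂ * c ^ 2))
    (c₂ / (a / (192 * H ^ 2)) ^ 2)))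
  have hk3 : (3 : ℝ) ≤ k := (le_max_left _ _).trans hk
  have hk0 : (0 : ℝ) < k := by linarith
  have hk1 : 1 ≤ k := by
    have : (1 : ℝ) ≤ k := by linarith
    exact_mod_cast this
  have hk2 : 1024 * M ^ 2 * κ ^ 2 ≤ c₂ * c ^ 2 * k := by
    have h1 := ((le_max_left _ _).trans (le_max_right _ _)).trans hk
    rw [div_le_iff₀ (by positivity)] at h1
    linarith
  have hk4 : c₂ / k ≤ (a / (192 * H ^ 2)) ^ 2 := by
    have h1 := ((le_max_right _ _).trans (le_max_right _ _)).trans hk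
    rw [div_le_iff₀ (by positivity)] at h1 ⊢
    linarith
  obtain ⟨τ, hτ, hτk, hτa⟩ : ∃ τ : ℝ, 0 < τ ∧ τ ^ 2 * k = c₂ ∧ 192 * H ^ 2 * τ ≤ a := by
    refine ⟨Real.sqrt (c₂ / k), Real.sqrt_pos.2 (by positivity), ?_, ?_⟩
    · rw [Real.sq_sqrt (by positivity)]
      exact div_mul_cancel₀ _ hk0.ne'
    · have h1 : Real.sqrt (c₂ / k) ≤ a / (192 * H ^ 2) :=
        Real.sqrt_le_iff.2 ⟨by positivity, hk4⟩
      rw [le_div_iff₀ (by positivity)] at h1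
      linarith
  set δ : ℝ := 1 / 8 * ((1 / (128 * H)) ^ k / (k.factorial : ℝ)) with hδ
  have hδ0 : 0 < δ := by positivity
  refine ⟨δ, hδ0, ?_⟩
  have hlim1 : Filter.Tendsto (fun n : ℕ => Real.sqrt n) Filter.atTop Filter.atTop :=
    Real.tendsto_sqrt_atTop.comp tendsto_natCast_atTop_atTop
  have hlim2 : Filter.Tendsto (fun n : ℕ => Real.log n) Filter.atTop Filter.atTop :=
    Real.tendsto_log_atTop.comp tendsto_natCast_atTop_atTop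
  obtain ⟨n₀, hn₀⟩ := Filter.eventually_atTop.1
    ((hlim1.eventually_ge_atTop (max (32 * H / τ) (k * τ / (2 * M)))).and
      (hlim2.eventually_ge_atTop (max 1 (max (2 / (a * τ))
        (300 * H ^ 2 * k / (g0 ^ 2 * (c ^ 2 / (512 * κ ^ 2)) * M * a ^ 2 * δ))))))
  refine ⟨max n₀ 1, fun n hn B D hB hD => ?_⟩
  obtain ⟨hs1, hl1⟩ := hn₀ n ((le_max_left _ _).trans hn)
  have hn1 : 1 ≤ n := (le_max_right _ _).trans hn
  have : Nonempty (Fin n) := ⟨⟨0, hn1⟩⟩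
  have hnpos : (0 : ℝ) < n := by exact_mod_cast hn1
  set s : ℝ := Real.sqrt n with hs
  set L : ℝ := Real.log n with hL
  have hs0 : 0 < s := Real.sqrt_pos.2 hnpos
  have hsn : (n : ℝ) = s ^ 2 := (Real.sq_sqrt hnpos.le).symm
  have hLs : Real.log s = L / 2 := Real.log_sqrt hnpos.le
  have hL1 : 1 ≤ L := (le_max_left _ _).trans hl1
  have hL2 : 2 / (a * τ) ≤ L := ((le_max_left _ _).trans (le_max_right _ _)).trans hl1
  have hL3 : 300 * H ^ 2 * k / (g0 ^ 2 * (c ^ 2 / (512 * κ ^ 2)) * M * a ^ 2 * δ) ≤ L :=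
    ((le_max_right _ _).trans (le_max_right _ _)).trans hl1
  have hsτ : 32 * H ≤ τ * s := by
    have := (le_max_left _ _).trans hs1
    rw [div_le_iff₀ hτ] at this
    linarith
  have hsk : k * τ ≤ 2 * M * s := by
    have := (le_max_right _ _).trans hs1
    rw [div_le_iff₀ (by positivity)] at this
    linarith
  have hD0 : 0 < D := hB.reg.pos
  -- `T`
  obtain ⟨T, hT⟩ : ∃ T : ℕ, T = ⌊τ * s⌋₊ := ⟨_, rfl⟩
  have hTs : (T : ℝ) ≤ τ * s := by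
    rw [hT]
    exact Nat.floor_le (by positivity)
  have hTlt : τ * s < T + 1 := by
    rw [hT]
    exact Nat.lt_floor_add_one _
  have hT16 : 16 * H ≤ (T : ℝ) := by linarith
  have hTlo : τ * s / 2 ≤ (T : ℝ) := by linarith
  have hT2 : (2 : ℝ) ≤ T := by linarith
  have hT0 : (0 : ℝ) < T := by linarith
  -- `R`
  obtain ⟨R, hR⟩ : ∃ R : ℕ, R = ⌊(T : ℝ) / (8 * H)⌋₊ := ⟨_, rfl⟩
  have hRle : (R : ℝ) ≤ T / (8 * H) := by
    rw [hR]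
    exact Nat.floor_le (by positivity)
  have hRlt : (T : ℝ) / (8 * H) < R + 1 := by
    rw [hR]
    exact Nat.lt_floor_add_one _
  rw [le_div_iff₀ (by positivity)] at hRle
  rw [div_lt_iff₀ (by positivity)] at hRlt
  have hR4 : 4 * H * ((R : ℝ) + 1) ≤ T := by linarith
  have hR0 : (0 : ℝ) ≤ R := Nat.cast_nonneg _
  have hR1 : (R : ℝ) + 1 ≤ T := by nlinarith
  have hRlo : 1 / (128 * H) ≤ (R : ℝ) / (8 * T) := by
    rw [div_le_div_iff₀ (by positivity) (by positivity)]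
    linarith
  -- `K`
  obtain ⟨K, hK⟩ : ∃ K : ℕ, K = T / 2 := ⟨_, rfl⟩
  have hK2 : 2 * K ≤ T := by omega
  have hK1 : (T : ℝ) / 2 ≤ (K : ℝ) + 1 := by
    have h1 : T ≤ 2 * K + 1 := by omega
    have h2 : (T : ℝ) ≤ 2 * K + 1 := by exact_mod_cast h1
    linarith
  -- `t`
  obtain ⟨x, hx⟩ : ∃ x : ℝ, x = 2 * M * s ^ 2 / (k * T) := ⟨_, rfl⟩
  have hx1 : 1 ≤ x := by
    rw [hx, le_div_iff₀ (by positivity), one_mul]
    have h1 : (k : ℝ) * T ≤ k * (τ * s) := mul_le_mul_of_nonneg_left hTs hk0.le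
    have h2 : k * τ * s ≤ 2 * M * s * s := mul_le_mul_of_nonneg_right hsk hs0.le
    nlinarith
  obtain ⟨t, ht⟩ : ∃ t : ℕ, t + 1 = ⌈x⌉₊ := by
    have h1 : 1 ≤ ⌈x⌉₊ := Nat.one_le_ceil_iff.2 (by linarith)
    exact ⟨⌈x⌉₊ - 1, by omega⟩
  have htr : ((t : ℝ) + 1) = (⌈x⌉₊ : ℝ) := by exact_mod_cast congrArg (Nat.cast : ℕ → ℝ) ht
  have ht1 : 2 * M * s ^ 2 / (k * T) ≤ (t : ℝ) + 1 := by
    rw [htr, ← hx]
    exact Nat.le_ceil x
  have ht2 : (t : ℝ) + 1 ≤ 4 * M * s ^ 2 / (k * T) := by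
    rw [htr]
    have h1 : (⌈x⌉₊ : ℝ) < x + 1 := Nat.ceil_lt_add_one (by linarith)
    have h2 : 4 * M * s ^ 2 / (k * T) = 2 * x := by rw [hx]; ring
    rw [h2]
    linarith
  have hcard : (Fintype.card (Fin n) : ℝ) = s ^ 2 := by rw [Fintype.card_fin, hsn]
  have hbadR : δ ≤ 1 / 8 * (((R : ℝ) / (8 * T)) ^ k / (k.factorial : ℝ)) := by
    rw [hδ]
    have h1 : (1 / (128 * H)) ^ k ≤ ((R : ℝ) / (8 * T)) ^ k :=
      pow_le_pow_left₀ (by positivity) hRlo k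
    have h2 : (1 / (128 * H)) ^ k / (k.factorial : ℝ) ≤
        ((R : ℝ) / (8 * T)) ^ k / (k.factorial : ℝ) :=
      div_le_div_of_nonneg_right h1 (by positivity)
    linarith
  have hTn : (Fintype.card (Fin n) : ℝ) ≤ D * T := by
    rw [hcard]
    rw [div_le_iff₀ (by positivity)] at hL2
    have h1 : a * (s * L) * (τ * s / 2) ≤ D * T :=
      mul_le_mul hD hTlo (by positivity) hD0.le
    have h2 : a * (s * L) * (τ * s / 2) = (L * (a * τ)) * s ^ 2 / 2 := by ring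
    have h3 : 2 * s ^ 2 ≤ (L * (a * τ)) * s ^ 2 :=
      mul_le_mul_of_nonneg_right hL2 (by positivity)
    linarith
  have key := one_graph (V := Fin n) hB hH hg0 hg1 (T := T) (R := R) (K := K) (t := t) (k := k)
    (by exact_mod_cast hT2) hK2 hR4 hTn hk1
    (by
      rw [hcard]
      exact u31_small hH hk3 hs0 hτ hτk hc₂ ha hτa hT2 hTs hL1 hLs hD)
    (c := c) (e := c ^ 2 / (512 * κ ^ 2) * (((t : ℝ) + 1) * ((K : ℝ) + 1) ^ 2) / (D * s ^ 2)) hc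
    (by positivity)
    (by
      rw [hcard]
      exact u31_eta hκ hc hMc hk0 hs0 hτ hτk hc₂1 hk2 hT0 hTlo hK1 ht1 ht2 hD0)
    (by
      rw [hcard]
      exact (u31_bad hκ hH hg0 ha hc hM0 hk0 hs0 hT0 hR1 hR0 hK1 ht1 hL1 hD hδ0 hL3).trans hbadR)
  rw [Fintype.card_fin] at key
  linarith

end EA42
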