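import Pool.Agent.Lib.MP_ea42c6_pr.Three.U11
import Pool.Agent.Lib.MP_ea42c6_pr.Three.U12
import Pool.Agent.Lib.MP_ea42c6_pr.Three.U31
import Pool.Agent.Lib.MP_ea42c6_pr.One.N11

/-!
# U32 — the bound for the random graph

`r' = min r 1`, `M = ⌈3/r'⌉₊` (`3/M ≤ r'`, `M ≤ 3/r' + 1 ≤ 4/r'`), `D = n r'²/50`.  `a n^(-1/4) √(log n) ≤ r` gives, for
large `n`, `D ≥ (min a 1)²/50 √n log n` (if `r ≥ 1`, `D = n/50`, and `n ≥ √n log n` for large `n`).
`law_one_le` (N11) with `Good X = GoodY X r M`, `b = 1 - δ` (`good_hk`, `never_abs` with `κ = 32400`, `H = Hc`, `g0 = gc`);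
`goodY_prob`: `40/r'² exp (-n r'²/256) ≤ δ/2` for large `n`, as `n r'² ≥ (min a 1)² √n log n` and `1/r'² ≤ n`
for large `n`.  Final constant `δ/2`.
-/

namespace EA42

open MeasureTheory
open scoped Classical ENNReal

/-- The numbers for large `n`. -/
theorem U32_large {A δ : ℝ} (hA : 0 < A) (hδ : 0 < δ) : ∃ N : ℕ, ∀ n : ℕ, N ≤ n →
    3 ≤ n ∧ Real.log n ≤ Real.sqrt n ∧ 512 ≤ A * Real.sqrt n ∧ 1 ≤ Real.log n ∧
      80 / δ ≤ (n : ℝ) := by
  have h1 : ∀ᶠ x : ℝ in Filter.atTop, Real.log x ≤ Real.sqrt x := by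
    have h := (isLittleO_log_rpow_atTop (show (0 : ℝ) < 1 / 2 by norm_num)).bound one_pos
    filter_upwards [h, Filter.eventually_ge_atTop (1 : ℝ)] with x hx hx1
    rw [one_mul, Real.norm_eq_abs, Real.norm_eq_abs, abs_of_nonneg (Real.log_nonneg hx1),
      abs_of_nonneg (Real.rpow_nonneg (by linarith) _)] at hx
    rw [Real.sqrt_eq_rpow]
    exact hx
  have h2 : ∀ᶠ n : ℕ in Filter.atTop, Real.log (n : ℝ) ≤ Real.sqrt n :=
    tendsto_natCast_atTop_atTop.eventually h1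
  have h3 : ∀ᶠ n : ℕ in Filter.atTop, 512 / A ≤ Real.sqrt n :=
    (Real.tendsto_sqrt_atTop.comp tendsto_natCast_atTop_atTop).eventually_ge_atTop _
  have h4 : ∀ᶠ n : ℕ in Filter.atTop, 1 ≤ Real.log (n : ℝ) :=
    (Real.tendsto_log_atTop.comp tendsto_natCast_atTop_atTop).eventually_ge_atTop _
  have h5 : ∀ᶠ n : ℕ in Filter.atTop, 80 / δ ≤ (n : ℝ) :=
    tendsto_natCast_atTop_atTop.eventually_ge_atTop _
  obtain ⟨N, hN⟩ := Filter.eventually_atTop.1
    (h2.and (h3.and (h4.and (h5.and (Filter.eventually_ge_atTop 3)))))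
  refine ⟨N, fun n hn => ?_⟩
  obtain ⟨k1, k2, k3, k4, k5⟩ := hN n hn
  refine ⟨k5, k1, ?_, k3, k4⟩
  rw [div_le_iff₀ hA] at k2
  linarith

theorem never_prob {a c : ℝ} (ha : 0 < a) (hc : 0 < c) :
    ∃ δ : ℝ, 0 < δ ∧ ∃ n₀ : ℕ, ∀ n : ℕ, n₀ ≤ n → ∀ r : ℝ,
      a * (n : ℝ) ^ (-(1 : ℝ) / 4) * Real.sqrt (Real.log n) ≤ r →
      probGiant (PMF.pure 1) n r c ≤ ENNReal.ofReal (1 - δ) := by
  have hκ : (1 : ℝ) ≤ 32400 := by norm_num
  have hH : 1 ≤ Hc := by unfold Hc; norm_num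
  have hg0 : 0 < gc := by unfold gc; norm_num
  have hg1 : gc ≤ 1 := by unfold gc; norm_num
  set A : ℝ := (min a 1) ^ 2 with hAd
  have hmin : 0 < min a 1 := lt_min ha one_pos
  have hA : 0 < A := by rw [hAd]; positivity
  obtain ⟨δ₀, hδ₀, n₀, hn₀⟩ := never_abs hκ hH hg0 hg1 (show 0 < A / 50 by positivity) hc
  set δ : ℝ := min δ₀ 1 with hδd
  have hδ : 0 < δ := lt_min hδ₀ one_pos
  obtain ⟨N, hN⟩ := U32_large hA hδ
  refine ⟨δ / 2, by positivity, max n₀ N, ?_⟩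
  intro n hn r hr
  obtain ⟨k0, k1, k2, k3, k4⟩ := hN n ((le_max_right _ _).trans hn)
  have hnn₀ : n₀ ≤ n := (le_max_left _ _).trans hn
  have hnpos : 0 < n := by omega
  have hnR : (0 : ℝ) < n := by exact_mod_cast hnpos
  set s := Real.sqrt n with hs
  set L := Real.log n with hL
  have hs0 : 0 < s := Real.sqrt_pos.2 hnR
  have hss : s * s = n := Real.mul_self_sqrt hnR.le
  have hL0 : 0 < L := by linarith
  -- the radius
  have hr0 : 0 < r := by
    refine lt_of_lt_of_le ?_ hr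
    have : 0 < (n : ℝ) ^ (-(1 : ℝ) / 4) := Real.rpow_pos_of_pos hnR _
    have h2 : 0 < Real.sqrt L := Real.sqrt_pos.2 hL0
    positivity
  have hrsq : A * (s * L) ≤ n * r ^ 2 := by
    have h1 : (a * (n : ℝ) ^ (-(1 : ℝ) / 4) * Real.sqrt L) ^ 2 ≤ r ^ 2 :=
      pow_le_pow_left₀ (by positivity) hr 2
    have h2 : ((n : ℝ) ^ (-(1 : ℝ) / 4)) ^ 2 = 1 / s := by
      rw [← Real.rpow_natCast, ← Real.rpow_mul hnR.le, hs, Real.sqrt_eq_rpow, one_div,
        ← Real.rpow_neg hnR.le]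
      norm_num
    have h3 : (a * (n : ℝ) ^ (-(1 : ℝ) / 4) * Real.sqrt L) ^ 2 = a ^ 2 * (1 / s) * L := by
      rw [mul_pow, mul_pow, h2, Real.sq_sqrt hL0.le]
    rw [h3] at h1
    have h4 : n * (a ^ 2 * (1 / s) * L) ≤ n * r ^ 2 := mul_le_mul_of_nonneg_left h1 hnR.le
    have h5 : n * (a ^ 2 * (1 / s) * L) = a ^ 2 * (s * L) := by
      rw [← hss]; field_simp
    have h6 : A ≤ a ^ 2 := by
      rw [hAd]
      exact pow_le_pow_left₀ hmin.le (min_le_left _ _) 2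
    have h7 : A * (s * L) ≤ a ^ 2 * (s * L) := mul_le_mul_of_nonneg_right h6 (by positivity)
    linarith
  have hA1 : A ≤ 1 := by
    rw [hAd]
    exact pow_le_one₀ hmin.le (min_le_right _ _)
  have hr'0 : 0 < min r 1 := lt_min hr0 one_pos
  have hr'sq : A * (s * L) ≤ n * (min r 1) ^ 2 := by
    rcases le_total r 1 with h | h
    · rw [min_eq_left h]; exact hrsq
    · rw [min_eq_right h]
      have h1 : s * L ≤ s * s := mul_le_mul_of_nonneg_left k1 hs0.le
      have h2 : A * (s * L) ≤ 1 * (s * L) := mul_le_mul_of_nonneg_right hA1 (by positivity)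
      rw [hss] at h1
      linarith
  -- the mesh
  set r' := min r 1 with hr'
  set M := ⌈3 / r'⌉₊ with hM
  have hM0 : 0 < M := Nat.ceil_pos.2 (by positivity)
  have hMne : NeZero M := ⟨hM0.ne'⟩
  have hMR : (0 : ℝ) < M := by exact_mod_cast hM0
  have hM1 : 3 / (M : ℝ) ≤ r' := by
    have h1 : 3 / r' ≤ M := Nat.le_ceil _
    rw [div_le_iff₀ hr'0] at h1
    rw [div_le_iff₀ hMR]
    linarith
  have hM2 : (M : ℝ) ≤ 4 / r' := by
    have h1 : (M : ℝ) < 3 / r' + 1 := Nat.ceil_lt_add_one (by positivity)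
    have h2 : 1 ≤ 1 / r' := by
      rw [le_div_iff₀ hr'0, one_mul]; exact min_le_right _ _
    have h3 : 4 / r' = 3 / r' + 1 / r' := by ring
    linarith
  -- the good positions
  have hb : ∀ X : Fin n → Pt, GoodY X r M →
      pr (prodW (kerW (ball X r))) {f | c * (n : ℝ) ≤ (largest (mapG f) : ℝ)} ≤ 1 - δ := by
    intro X hX
    have h1 := hn₀ n hnn₀ (ball X r) (n * r' ^ 2 / 50) (good_hk hnpos hr0 hM1 hM2 hX) (by
      have : A / 50 * (s * L) ≤ n * r' ^ 2 / 50 := by linarith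
      exact this)
    have h2 : δ ≤ δ₀ := min_le_left _ _
    linarith
  have hlaw := law_one_le hr0 (fun G => c * (n : ℝ) ≤ (largest G : ℝ))
    (fun X => GoodY X r M) hb
  have hprob := goodY_prob hnpos hr0 hM1 hM2
  have hexp : 40 / r' ^ 2 * Real.exp (-(n * r' ^ 2 / 256)) ≤ δ / 2 := by
    have hsL : 512 ≤ A * (s * L) := by
      calc (512 : ℝ) ≤ A * s := k2
        _ ≤ A * s * L := le_mul_of_one_le_right (by positivity) k3
        _ = _ := by ring
    have h1 : 40 / r' ^ 2 ≤ 40 * n := by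
      rw [div_le_iff₀ (by positivity)]
      nlinarith
    have h2 : Real.exp (-(n * r' ^ 2 / 256)) ≤ Real.exp (-(2 * L)) := by
      apply Real.exp_le_exp.2
      have h3 : 2 * L ≤ A * (s * L) / 256 := by
        have : 512 * L ≤ A * s * L := mul_le_mul_of_nonneg_right k2 hL0.le
        linarith
      linarith
    have h3 : Real.exp (-(2 * L)) = 1 / (n : ℝ) ^ 2 := by
      have e1 : 2 * L = Real.log ((n : ℝ) ^ 2) := by
        rw [Real.log_pow, hL]; norm_num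
      rw [e1, Real.exp_neg, Real.exp_log (by positivity), one_div]
    rw [h3] at h2
    calc 40 / r' ^ 2 * Real.exp (-(n * r' ^ 2 / 256)) ≤ 40 * n * (1 / (n : ℝ) ^ 2) :=
          mul_le_mul h1 h2 (Real.exp_pos _).le (by positivity)
      _ = 40 / n := by field_simp
      _ ≤ δ / 2 := by
          rw [div_le_iff₀ hnR]
          rw [div_le_iff₀ hδ] at k4
          linarith
  have hδ1 : 0 ≤ 1 - δ := by
    have : δ ≤ 1 := min_le_right _ _
    linarith
  calc probGiant (PMF.pure 1) n r c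
      ≤ (Measure.pi fun _ : Fin n => unif) {X | ¬ GoodY X r M} + ENNReal.ofReal (1 - δ) := hlaw
    _ ≤ ENNReal.ofReal (δ / 2) + ENNReal.ofReal (1 - δ) :=
        add_le_add (hprob.trans (ENNReal.ofReal_le_ofReal hexp)) le_rfl
    _ = ENNReal.ofReal (1 - δ / 2) := by
        rw [← ENNReal.ofReal_add (by positivity) hδ1]
        congr 1
        ring

end EA42
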