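import Pool.Agent.Lib.MP_ea42c6_pr.Three.U2

/-!
# U19 — self-avoiding walks: lower bounds

`st_lower`: induction on `K` (for all `S`, `u`).  If `u ∈ S`: the term `i = 0`, `z = u` of the first sum is
`pk K u x`.  `K = 0`, `u ∉ S`: `st = pk 0`.  `K + 1`, `u ∉ S`: `pk (K+1) u x = ∑ v, kerW u v pk K v x`, apply the
induction hypothesis with `insert u S`; `∑ v, kerW u v pk i v z = pk (i+1) u z`; the terms with
`z ∈ S` give the terms `i + 1` of the first sum, the terms with `z = u` give
`∑_{i ≤ K} pk (i+1) u u pk (K-i) u x`, the terms `(0, i+1)` of the second sum (`pk 0 u z`); the second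
sum is shifted.
`loop_lower`: multiply by `kerW x z`, `K = m - 1`, from `z` to `x`, sum over `z`, `x`: with `pk_add`,
`∑ x, pk (i+1) x y pk (m-1-i) y x = pk m y y`, so the first sum gives `m ∑_{z ∈ S} pk m z z`; in the second the
pair `(i, j)` gives `∑ z, pk (j-i) z z pk (m-(j-i)) z z` and each `a = j - i ∈ [1, m-1]` occurs at most `m` times.
-/

namespace EA42

open scoped Classical

variable {V : Type*} [Fintype V] {B : V → Finset V}

private theorem U19_st_nonneg (K : ℕ) : ∀ (S : Set V) (u x : V), 0 ≤ st B K S u x := by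
  induction K with
  | zero =>
    intro S u x
    unfold st
    split_ifs <;> norm_num
  | succ K ih =>
    intro S u x
    unfold st
    split_ifs
    · exact le_rfl
    · exact Finset.sum_nonneg fun v _ => mul_nonneg (kerW_nonneg _ _) (ih _ _ _)

private theorem U19_first_nonneg (K : ℕ) (S : Finset V) (u x : V) :
    0 ≤ ∑ i ∈ Finset.range (K + 1), ∑ z ∈ S, pk B i u z * pk B (K - i) z x :=
  Finset.sum_nonneg fun i _ => Finset.sum_nonneg fun z _ =>
    mul_nonneg (pk_nonneg _ _ _) (pk_nonneg _ _ _)

private theorem U19_second_nonneg (K : ℕ) (u x : V) :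
    0 ≤ ∑ j ∈ Finset.range (K + 1), ∑ i ∈ Finset.range j, ∑ z,
        pk B i u z * pk B (j - i) z z * pk B (K - j) z x :=
  Finset.sum_nonneg fun j _ => Finset.sum_nonneg fun i _ => Finset.sum_nonneg fun z _ =>
    mul_nonneg (mul_nonneg (pk_nonneg _ _ _) (pk_nonneg _ _ _)) (pk_nonneg _ _ _)

theorem st_lower (K : ℕ) (S : Finset V) (u x : V) :
    pk B K u x ≤ st B K (S : Set V) u x +
      ∑ i ∈ Finset.range (K + 1), ∑ z ∈ S, pk B i u z * pk B (K - i) z x +
      ∑ j ∈ Finset.range (K + 1), ∑ i ∈ Finset.range j, ∑ z,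
        pk B i u z * pk B (j - i) z z * pk B (K - j) z x := by
  induction K generalizing S u with
  | zero =>
    have h2 := U19_second_nonneg (B := B) 0 u x
    by_cases hu : u ∈ S
    · have h1 := U19_st_nonneg (B := B) 0 (S : Set V) u x
      have h3 : pk B 0 u x ≤
          ∑ i ∈ Finset.range (0 + 1), ∑ z ∈ S, pk B i u z * pk B (0 - i) z x := by
        rw [Finset.sum_range_one]
        refine le_trans ?_ (Finset.single_le_sum (f := fun z => pk B 0 u z * pk B (0 - 0) z x)
          (fun z _ => mul_nonneg (pk_nonneg _ _ _) (pk_nonneg _ _ _)) hu)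
        simp [pk]
      linarith
    · have h1 := U19_first_nonneg (B := B) 0 S u x
      have h3 : st B 0 (S : Set V) u x = pk B 0 u x := by
        unfold st pk
        rw [if_neg (fun h => hu (Finset.mem_coe.mp h))]
      linarith
  | succ K ih =>
    by_cases hu : u ∈ S
    · have h1 := U19_st_nonneg (B := B) (K + 1) (S : Set V) u x
      have h2 := U19_second_nonneg (B := B) (K + 1) u x
      have h3 : pk B (K + 1) u x ≤
          ∑ i ∈ Finset.range (K + 1 + 1), ∑ z ∈ S, pk B i u z * pk B (K + 1 - i) z x := by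
        refine le_trans ?_ (Finset.single_le_sum
          (f := fun i => ∑ z ∈ S, pk B i u z * pk B (K + 1 - i) z x)
          (fun i _ => Finset.sum_nonneg fun z _ => mul_nonneg (pk_nonneg _ _ _) (pk_nonneg _ _ _))
          (Finset.mem_range.mpr (Nat.succ_pos (K + 1))))
        refine le_trans ?_ (Finset.single_le_sum
          (f := fun z => pk B 0 u z * pk B (K + 1 - 0) z x)
          (fun z _ => mul_nonneg (pk_nonneg _ _ _) (pk_nonneg _ _ _)) hu)
        have h0 : pk B 0 u u = 1 := by unfold pk; exact if_pos rfl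
        show pk B (K + 1) u x ≤ pk B 0 u u * pk B (K + 1 - 0) u x
        rw [h0, one_mul, Nat.sub_zero]
      linarith
    · have key : ∀ i z, ∑ v, kerW B u v * pk B i v z = pk B (i + 1) u z := fun i z => rfl
      have hst : st B (K + 1) (S : Set V) u x =
          ∑ v, kerW B u v * st B K ((insert u S : Finset V) : Set V) v x := by
        rw [Finset.coe_insert]
        rw [st, if_neg (fun h => hu (Finset.mem_coe.mp h))]
      have hle : pk B (K + 1) u x ≤ ∑ v, kerW B u v *
          (st B K ((insert u S : Finset V) : Set V) v x +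
            ∑ i ∈ Finset.range (K + 1), ∑ z ∈ insert u S, pk B i v z * pk B (K - i) z x +
            ∑ j ∈ Finset.range (K + 1), ∑ i ∈ Finset.range j, ∑ z,
              pk B i v z * pk B (j - i) z z * pk B (K - j) z x) := by
        rw [← key K x]
        exact Finset.sum_le_sum fun v _ => mul_le_mul_of_nonneg_left (ih (insert u S) v)
          (kerW_nonneg _ _)
      have e1 : ∑ v, kerW B u v * ∑ i ∈ Finset.range (K + 1), ∑ z ∈ insert u S,
          pk B i v z * pk B (K - i) z x =
          ∑ i ∈ Finset.range (K + 1), pk B (i + 1) u u * pk B (K - i) u x +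
          ∑ i ∈ Finset.range (K + 1), ∑ z ∈ S, pk B (i + 1) u z * pk B (K - i) z x := by
        have : ∀ v, kerW B u v * ∑ i ∈ Finset.range (K + 1), ∑ z ∈ insert u S,
            pk B i v z * pk B (K - i) z x = ∑ i ∈ Finset.range (K + 1), ∑ z ∈ insert u S,
            kerW B u v * pk B i v z * pk B (K - i) z x := by
          intro v
          rw [Finset.mul_sum]
          refine Finset.sum_congr rfl fun i _ => ?_
          rw [Finset.mul_sum]
          exact Finset.sum_congr rfl fun z _ => (mul_assoc _ _ _).symm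
        rw [Finset.sum_congr rfl fun v _ => this v, Finset.sum_comm, ← Finset.sum_add_distrib]
        refine Finset.sum_congr rfl fun i _ => ?_
        rw [Finset.sum_comm, Finset.sum_insert hu]
        congr 1
        · rw [← Finset.sum_mul, key]
        · exact Finset.sum_congr rfl fun z _ => by rw [← Finset.sum_mul, key]
      have e2 : ∑ v, kerW B u v * ∑ j ∈ Finset.range (K + 1), ∑ i ∈ Finset.range j, ∑ z,
          pk B i v z * pk B (j - i) z z * pk B (K - j) z x =
          ∑ j ∈ Finset.range (K + 1), ∑ i ∈ Finset.range j, ∑ z,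
            pk B (i + 1) u z * pk B (j - i) z z * pk B (K - j) z x := by
        have : ∀ v, kerW B u v * ∑ j ∈ Finset.range (K + 1), ∑ i ∈ Finset.range j, ∑ z,
            pk B i v z * pk B (j - i) z z * pk B (K - j) z x =
            ∑ j ∈ Finset.range (K + 1), ∑ i ∈ Finset.range j, ∑ z,
            kerW B u v * pk B i v z * pk B (j - i) z z * pk B (K - j) z x := by
          intro v
          rw [Finset.mul_sum]
          refine Finset.sum_congr rfl fun j _ => ?_
          rw [Finset.mul_sum]
          refine Finset.sum_congr rfl fun i _ => ?_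
          rw [Finset.mul_sum]
          exact Finset.sum_congr rfl fun z _ => by ring
        rw [Finset.sum_congr rfl fun v _ => this v, Finset.sum_comm]
        refine Finset.sum_congr rfl fun j _ => ?_
        rw [Finset.sum_comm]
        refine Finset.sum_congr rfl fun i _ => ?_
        rw [Finset.sum_comm]
        exact Finset.sum_congr rfl fun z _ => by rw [← Finset.sum_mul, ← Finset.sum_mul, key]
      have e3 : ∑ i ∈ Finset.range (K + 1), ∑ z ∈ S, pk B (i + 1) u z * pk B (K - i) z x ≤
          ∑ i ∈ Finset.range (K + 1 + 1), ∑ z ∈ S, pk B i u z * pk B (K + 1 - i) z x := by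
        rw [Finset.sum_range_succ' (fun i => ∑ z ∈ S, pk B i u z * pk B (K + 1 - i) z x)]
        have h0 : 0 ≤ ∑ z ∈ S, pk B 0 u z * pk B (K + 1 - 0) z x :=
          Finset.sum_nonneg fun z _ => mul_nonneg (pk_nonneg _ _ _) (pk_nonneg _ _ _)
        have h4 : ∑ i ∈ Finset.range (K + 1), ∑ z ∈ S, pk B (i + 1) u z * pk B (K - i) z x =
            ∑ i ∈ Finset.range (K + 1), ∑ z ∈ S, pk B (i + 1) u z * pk B (K + 1 - (i + 1)) z x :=
          Finset.sum_congr rfl fun i _ => by rw [Nat.add_sub_add_right]
        rw [h4]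
        exact le_add_of_nonneg_right h0
      have e4 : ∑ j ∈ Finset.range (K + 1 + 1), ∑ i ∈ Finset.range j, ∑ z,
          pk B i u z * pk B (j - i) z z * pk B (K + 1 - j) z x =
          ∑ i ∈ Finset.range (K + 1), pk B (i + 1) u u * pk B (K - i) u x +
          ∑ j ∈ Finset.range (K + 1), ∑ i ∈ Finset.range j, ∑ z,
            pk B (i + 1) u z * pk B (j - i) z z * pk B (K - j) z x := by
        rw [Finset.sum_range_succ' (fun j => ∑ i ∈ Finset.range j, ∑ z,
          pk B i u z * pk B (j - i) z z * pk B (K + 1 - j) z x), Finset.range_zero,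
          Finset.sum_empty, add_zero, ← Finset.sum_add_distrib]
        refine Finset.sum_congr rfl fun j _ => ?_
        rw [Finset.sum_range_succ' (fun i => ∑ z,
          pk B i u z * pk B (j + 1 - i) z z * pk B (K + 1 - (j + 1)) z x), add_comm]
        congr 1
        · have h5 : ∀ z, pk B 0 u z * pk B (j + 1 - 0) z z * pk B (K + 1 - (j + 1)) z x =
              if u = z then pk B (j + 1) z z * pk B (K - j) z x else 0 := by
            intro z
            rw [Nat.add_sub_add_right, Nat.sub_zero]
            show (if u = z then (1 : ℝ) else 0) * _ * _ = _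
            split_ifs <;> ring
          rw [Finset.sum_congr rfl fun z _ => h5 z, Finset.sum_ite_eq, if_pos (Finset.mem_univ _)]
        · refine Finset.sum_congr rfl fun i _ => Finset.sum_congr rfl fun z _ => ?_
          rw [Nat.add_sub_add_right, Nat.add_sub_add_right]
      have e5 : ∑ v, kerW B u v *
          (st B K ((insert u S : Finset V) : Set V) v x +
            ∑ i ∈ Finset.range (K + 1), ∑ z ∈ insert u S, pk B i v z * pk B (K - i) z x +
            ∑ j ∈ Finset.range (K + 1), ∑ i ∈ Finset.range j, ∑ z,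
              pk B i v z * pk B (j - i) z z * pk B (K - j) z x) =
          ∑ v, kerW B u v * st B K ((insert u S : Finset V) : Set V) v x +
          ∑ v, kerW B u v * ∑ i ∈ Finset.range (K + 1), ∑ z ∈ insert u S,
            pk B i v z * pk B (K - i) z x +
          ∑ v, kerW B u v * ∑ j ∈ Finset.range (K + 1), ∑ i ∈ Finset.range j, ∑ z,
            pk B i v z * pk B (j - i) z z * pk B (K - j) z x := by
        rw [← Finset.sum_add_distrib, ← Finset.sum_add_distrib]
        exact Finset.sum_congr rfl fun v _ => by ring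
      rw [e5, e1, e2] at hle
      rw [hst, e4]
      linarith

private theorem U19_cyc (n i : ℕ) (hi : i ≤ n) (y : V) :
    ∑ x, pk B (i + 1) x y * pk B (n - i) y x = pk B (n + 1) y y := by
  have h : n + 1 = (n - i) + (i + 1) := by omega
  rw [h, pk_add]
  exact Finset.sum_congr rfl fun x _ => mul_comm _ _

theorem loop_lower (m : ℕ) (hm : 1 ≤ m) (S : Finset V) :
    tr B m - m * ∑ z ∈ S, pk B m z z -
      m * ∑ a ∈ Finset.Ico 1 m, ∑ z, pk B a z z * pk B (m - a) z z ≤
    ∑ x, ∑ z, kerW B x z * st B (m - 1) (S : Set V) z x := by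
  obtain ⟨n, rfl⟩ : ∃ n, m = n + 1 := ⟨m - 1, by omega⟩
  rw [Nat.add_sub_cancel]
  have h1 : tr B (n + 1) = ∑ x, ∑ z, kerW B x z * pk B n z x := rfl
  have h2 : ∑ x, ∑ z, kerW B x z * pk B n z x ≤
      ∑ x, ∑ z, kerW B x z * (st B n (S : Set V) z x +
      ∑ i ∈ Finset.range (n + 1), ∑ y ∈ S, pk B i z y * pk B (n - i) y x +
      ∑ j ∈ Finset.range (n + 1), ∑ i ∈ Finset.range j, ∑ y,
        pk B i z y * pk B (j - i) y y * pk B (n - j) y x) :=
    Finset.sum_le_sum fun x _ => Finset.sum_le_sum fun z _ =>
      mul_le_mul_of_nonneg_left (st_lower n S z x) (kerW_nonneg _ _)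
  have h3 : ∑ x, ∑ z, kerW B x z * (st B n (S : Set V) z x +
      ∑ i ∈ Finset.range (n + 1), ∑ y ∈ S, pk B i z y * pk B (n - i) y x +
      ∑ j ∈ Finset.range (n + 1), ∑ i ∈ Finset.range j, ∑ y,
        pk B i z y * pk B (j - i) y y * pk B (n - j) y x) =
      ∑ x, ∑ z, kerW B x z * st B n (S : Set V) z x +
      ∑ x, ∑ z, kerW B x z * ∑ i ∈ Finset.range (n + 1), ∑ y ∈ S,
        pk B i z y * pk B (n - i) y x +
      ∑ x, ∑ z, kerW B x z * ∑ j ∈ Finset.range (n + 1), ∑ i ∈ Finset.range j, ∑ y,
        pk B i z y * pk B (j - i) y y * pk B (n - j) y x := by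
    rw [← Finset.sum_add_distrib, ← Finset.sum_add_distrib]
    refine Finset.sum_congr rfl fun x _ => ?_
    rw [← Finset.sum_add_distrib, ← Finset.sum_add_distrib]
    exact Finset.sum_congr rfl fun z _ => by ring
  have e1 : ∑ x, ∑ z, kerW B x z * ∑ i ∈ Finset.range (n + 1), ∑ y ∈ S,
      pk B i z y * pk B (n - i) y x = ((n + 1 : ℕ) : ℝ) * ∑ y ∈ S, pk B (n + 1) y y := by
    have h4 : ∀ x, ∑ z, kerW B x z * ∑ i ∈ Finset.range (n + 1), ∑ y ∈ S,
        pk B i z y * pk B (n - i) y x =
        ∑ i ∈ Finset.range (n + 1), ∑ y ∈ S, pk B (i + 1) x y * pk B (n - i) y x := by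
      intro x
      have h5 : ∀ z, kerW B x z * ∑ i ∈ Finset.range (n + 1), ∑ y ∈ S,
          pk B i z y * pk B (n - i) y x = ∑ i ∈ Finset.range (n + 1), ∑ y ∈ S,
          kerW B x z * pk B i z y * pk B (n - i) y x := by
        intro z
        rw [Finset.mul_sum]
        refine Finset.sum_congr rfl fun i _ => ?_
        rw [Finset.mul_sum]
        exact Finset.sum_congr rfl fun y _ => (mul_assoc _ _ _).symm
      rw [Finset.sum_congr rfl fun z _ => h5 z, Finset.sum_comm]
      refine Finset.sum_congr rfl fun i _ => ?_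
      rw [Finset.sum_comm]
      refine Finset.sum_congr rfl fun y _ => ?_
      rw [← Finset.sum_mul]
      rfl
    rw [Finset.sum_congr rfl fun x _ => h4 x, Finset.sum_comm]
    have h6 : ∀ i ∈ Finset.range (n + 1),
        ∑ x, ∑ y ∈ S, pk B (i + 1) x y * pk B (n - i) y x = ∑ y ∈ S, pk B (n + 1) y y := by
      intro i hi
      rw [Finset.sum_comm]
      exact Finset.sum_congr rfl fun y _ =>
        U19_cyc n i (Nat.lt_succ_iff.mp (Finset.mem_range.mp hi)) y
    rw [Finset.sum_congr rfl h6, Finset.sum_const, Finset.card_range, nsmul_eq_mul]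
  have e2 : ∑ x, ∑ z, kerW B x z * ∑ j ∈ Finset.range (n + 1), ∑ i ∈ Finset.range j, ∑ y,
      pk B i z y * pk B (j - i) y y * pk B (n - j) y x ≤
      ((n + 1 : ℕ) : ℝ) * ∑ a ∈ Finset.Ico 1 (n + 1), ∑ y, pk B a y y * pk B (n + 1 - a) y y := by
    have h4 : ∀ x, ∑ z, kerW B x z * ∑ j ∈ Finset.range (n + 1), ∑ i ∈ Finset.range j, ∑ y,
        pk B i z y * pk B (j - i) y y * pk B (n - j) y x =
        ∑ j ∈ Finset.range (n + 1), ∑ i ∈ Finset.range j, ∑ y,
          pk B (i + 1) x y * pk B (j - i) y y * pk B (n - j) y x := by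
      intro x
      have h5 : ∀ z, kerW B x z * ∑ j ∈ Finset.range (n + 1), ∑ i ∈ Finset.range j, ∑ y,
          pk B i z y * pk B (j - i) y y * pk B (n - j) y x =
          ∑ j ∈ Finset.range (n + 1), ∑ i ∈ Finset.range j, ∑ y,
          kerW B x z * pk B i z y * pk B (j - i) y y * pk B (n - j) y x := by
        intro z
        rw [Finset.mul_sum]
        refine Finset.sum_congr rfl fun j _ => ?_
        rw [Finset.mul_sum]
        refine Finset.sum_congr rfl fun i _ => ?_
        rw [Finset.mul_sum]
        exact Finset.sum_congr rfl fun y _ => by ring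
      rw [Finset.sum_congr rfl fun z _ => h5 z, Finset.sum_comm]
      refine Finset.sum_congr rfl fun j _ => ?_
      rw [Finset.sum_comm]
      refine Finset.sum_congr rfl fun i _ => ?_
      rw [Finset.sum_comm]
      refine Finset.sum_congr rfl fun y _ => ?_
      rw [← Finset.sum_mul, ← Finset.sum_mul]
      rfl
    rw [Finset.sum_congr rfl fun x _ => h4 x, Finset.sum_comm]
    have h6 : ∀ j ∈ Finset.range (n + 1),
        ∑ x, ∑ i ∈ Finset.range j, ∑ y,
          pk B (i + 1) x y * pk B (j - i) y y * pk B (n - j) y x ≤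
        ∑ a ∈ Finset.Ico 1 (n + 1), ∑ y, pk B a y y * pk B (n + 1 - a) y y := by
      intro j hj
      have hj' : j ≤ n := Nat.lt_succ_iff.mp (Finset.mem_range.mp hj)
      rw [Finset.sum_comm]
      have h7 : ∀ i ∈ Finset.range j, ∑ x, ∑ y,
          pk B (i + 1) x y * pk B (j - i) y y * pk B (n - j) y x =
          ∑ y, pk B (j - i) y y * pk B (n + 1 - (j - i)) y y := by
        intro i hi
        have hi' : i < j := Finset.mem_range.mp hi
        rw [Finset.sum_comm]
        refine Finset.sum_congr rfl fun y _ => ?_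
        have h8 : n + 1 - (j - i) = (n - j) + (i + 1) := by omega
        rw [h8, pk_add, Finset.mul_sum]
        exact Finset.sum_congr rfl fun x _ => by ring
      rw [Finset.sum_congr rfl h7]
      have h9 : ∑ i ∈ Finset.range j, ∑ y, pk B (j - i) y y * pk B (n + 1 - (j - i)) y y =
          ∑ a ∈ (Finset.range j).image (fun i => j - i),
            ∑ y, pk B a y y * pk B (n + 1 - a) y y := by
        rw [Finset.sum_image]
        intro a ha b hb hab
        have ha' : a < j := Finset.mem_range.mp ha
        have hb' : b < j := Finset.mem_range.mp hb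
        have hab' : j - a = j - b := hab
        omega
      rw [h9]
      refine Finset.sum_le_sum_of_subset_of_nonneg ?_ fun a _ _ => Finset.sum_nonneg fun y _ =>
        mul_nonneg (pk_nonneg _ _ _) (pk_nonneg _ _ _)
      intro a ha
      obtain ⟨i, hi, rfl⟩ := Finset.mem_image.mp ha
      have hi' : i < j := Finset.mem_range.mp hi
      rw [Finset.mem_Ico]
      omega
    refine (Finset.sum_le_sum h6).trans ?_
    rw [Finset.sum_const, Finset.card_range, nsmul_eq_mul]
  rw [h3, e1] at h2
  rw [h1]
  linarith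

end EA42
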