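import Pool.Agent.Lib.MP_ea42c6_pr.Three.Defs
import Pool.Agent.Lib.MP_ea42c6_pr.FP1

/-!
# U21 — exchanging the values of two independent maps

`swp S (f, g) = (f on S, g off S; g on S, f off S)`.  It is an involution for fixed `S` and preserves the
product of the weights (`∏ u` of the two factors, exchanged for `u ∉ S`).  On `E` the map `p ↦ swp (R p) p` is
injective: if the images are equal then `R p = R q` by `hinj`, and `swp` is an involution.  So the sum
over `E` is a sum over part of `E'` (`Finset.sum_le_sum_of_injOn`-type: `Finset.sum_image` and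
`Finset.sum_le_sum_of_subset_of_nonneg`).
`pr_pairs`: `pr` of a set of pairs given by sections: `∑ f, w f pr {g | (f,g) ∈ E}`.
-/

namespace EA42

open scoped Classical

variable {V : Type*} [Fintype V] [DecidableEq V] {B : V → Finset V}

/-- Exchange off `S`. -/
noncomputable def swp (S : Set V) (p : (V → V) × (V → V)) : (V → V) × (V → V) :=
  (pw S p.1 p.2, pw S p.2 p.1)

/-- Weight of a pair of independent maps. -/
noncomputable def pairB (B : V → Finset V) (p : (V → V) × (V → V)) : ℝ :=
  prodW (kerW B) p.1 * prodW (kerW B) p.2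

theorem swp_swp (S : Set V) (p : (V → V) × (V → V)) : swp S (swp S p) = p := by
  unfold swp pw
  refine Prod.ext ?_ ?_ <;> funext u <;> by_cases h : u ∈ S <;> simp [h]

theorem pairB_swp (S : Set V) (p : (V → V) × (V → V)) : pairB B (swp S p) = pairB B p := by
  unfold pairB prodW swp pw
  rw [← Finset.prod_mul_distrib, ← Finset.prod_mul_distrib]
  refine Finset.prod_congr rfl fun u _ => ?_
  by_cases h : u ∈ S
  · simp [h]
  · simp [h, mul_comm]

private theorem U21_kerW_nonneg (u v : V) : 0 ≤ kerW B u v := by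
  unfold kerW
  split_ifs
  · positivity
  · exact le_rfl

private theorem U21_pairB_nonneg (p : (V → V) × (V → V)) : 0 ≤ pairB B p := by
  unfold pairB prodW
  exact mul_nonneg (Finset.prod_nonneg fun u _ => U21_kerW_nonneg _ _)
    (Finset.prod_nonneg fun u _ => U21_kerW_nonneg _ _)

theorem swap_le (E E' : Set ((V → V) × (V → V))) (R : (V → V) × (V → V) → Set V)
    (hmap : ∀ p ∈ E, swp (R p) p ∈ E')
    (hinj : ∀ p ∈ E, ∀ q ∈ E, swp (R p) p = swp (R q) q → R p = R q) :
    pr (pairB B) E ≤ pr (pairB B) E' := by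
  unfold pr
  rw [← Finset.sum_filter, ← Finset.sum_filter]
  have h1 : ∑ p ∈ Finset.univ.filter (· ∈ E), pairB B p =
      ∑ q ∈ (Finset.univ.filter (· ∈ E)).image (fun p => swp (R p) p), pairB B q := by
    rw [Finset.sum_image]
    · exact Finset.sum_congr rfl fun p _ => (pairB_swp _ _).symm
    · intro p hp q hq hpq
      have hp' : p ∈ E := (Finset.mem_filter.mp hp).2
      have hq' : q ∈ E := (Finset.mem_filter.mp hq).2
      have hR := hinj p hp' q hq' hpq
      have hpq' : swp (R p) p = swp (R q) q := hpq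
      rw [← swp_swp (R p) p, hpq', hR, swp_swp]
  rw [h1]
  refine Finset.sum_le_sum_of_subset_of_nonneg ?_ fun p _ _ => U21_pairB_nonneg p
  intro q hq
  obtain ⟨p, hp, rfl⟩ := Finset.mem_image.mp hq
  exact Finset.mem_filter.mpr ⟨Finset.mem_univ _, hmap p (Finset.mem_filter.mp hp).2⟩

theorem pr_pairs (E : Set ((V → V) × (V → V))) :
    pr (pairB B) E = ∑ f, prodW (kerW B) f * pr (prodW (kerW B)) {g | (f, g) ∈ E} := by
  unfold pr
  rw [Fintype.sum_prod_type]
  refine Finset.sum_congr rfl fun f _ => ?_
  rw [Finset.mul_sum]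
  refine Finset.sum_congr rfl fun g _ => ?_
  rw [Set.mem_setOf_eq, mul_ite, mul_zero]
  rfl

end EA42
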