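import Pool.Agent.Lib.MP_ea42c6_pr.Two.Defs

/-!
# The case `ξ = 1`, all radii: definitions used in the proof

`d x = |B x|`.  `opP` is the transition operator, `ip` the inner product weighted by `d`.
-/

namespace EA42

open MeasureTheory
open scoped Classical ENNReal

noncomputable section

/-- Transition operator. -/
def opP {V : Type*} [Fintype V] (B : V → Finset V) (f : V → ℝ) (x : V) : ℝ :=
  ∑ z, kerW B x z * f z

/-- Inner product weighted by the degrees. -/
def ip {V : Type*} [Fintype V] (B : V → Finset V) (f g : V → ℝ) : ℝ :=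
  ∑ x, ((B x).card : ℝ) * (f x * g x)

/-- Total degree. -/
def vol {V : Type*} [Fintype V] (B : V → Finset V) : ℝ := ∑ x, ((B x).card : ℝ)

/-- The density of the unit mass at `y`. -/
def hf {V : Type*} (B : V → Finset V) (y x : V) : ℝ := if x = y then 1 / ((B y).card : ℝ) else 0

/-- Trace of the `e`-step kernel. -/
def tr {V : Type*} [Fintype V] (B : V → Finset V) (e : ℕ) : ℝ := ∑ x, pk B e x x

/-- Dirichlet form over touching cells. -/
def tch {V : Type*} [Fintype V] {M : ℕ} (cl : V → Cell M) (f : V → ℝ) : ℝ :=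
  ∑ x, ∑ y, if Touch (cl x) (cl y) then (f x - f y) ^ 2 else 0

/-- Degrees in `[D, κ D]`, heat kernel bound with constant `H`, spectral gap `g0 D/n`. -/
structure HK {V : Type*} [Fintype V] (B : V → Finset V) (D κ H g0 : ℝ) : Prop where
  reg : DReg B D κ
  hk : ∀ m : ℕ, 1 ≤ m → ∀ x y, pk B m x y ≤ H * (1 / (D * m) + 1 / (Fintype.card V : ℝ))
  gap : ∀ g : V → ℝ, ip B g (fun _ => 1) = 0 →
    ip B (opP B g) (opP B g) ≤ (1 - g0 * D / (Fintype.card V : ℝ)) * ip B g g

/-- Probability that the walk from `u` avoids `S` at the times `0, ..., t`. -/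
def av {V : Type*} [Fintype V] (B : V → Finset V) : ℕ → Set V → V → ℝ
  | 0, S, u => if u ∈ S then 0 else 1
  | t + 1, S, u => if u ∈ S then 0 else ∑ v, kerW B u v * av B t S v

/-- Probability that the walk from `u` is at `x` after `K` steps, all `K + 1` points distinct and
not in `S`. -/
def st {V : Type*} [Fintype V] (B : V → Finset V) : ℕ → Set V → V → V → ℝ
  | 0, S, u, x => if u ∈ S then 0 else if u = x then 1 else 0
  | K + 1, S, u, x => if u ∈ S then 0 else ∑ v, kerW B u v * st B K (insert u S) v x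

/-- Second moment of `a +` (sum of `g` over the points at the times `0, ..., t`). -/
def sm2 {V : Type*} [Fintype V] (B : V → Finset V) (g : V → ℝ) : ℕ → V → ℝ → ℝ
  | 0, u, a => (a + g u) ^ 2
  | t + 1, u, a => ∑ v, kerW B u v * sm2 B g t v (a + g u)

/-- `x` is periodic for `f` with least period `m`. -/
def OnCyc {V : Type*} (f : V → V) (m : ℕ) (x : V) : Prop :=
  1 ≤ m ∧ OrbInj f x (m - 1) ∧ f^[m] x = x

/-- The vertices on cycles with length in `I`. -/
def SI {V : Type*} (f : V → V) (I : Finset ℕ) : Set V := {x | ∃ m ∈ I, OnCyc f m x}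

/-- The number of cycles with length in `I`. -/
def NC {V : Type*} [Fintype V] (f : V → V) (I : Finset ℕ) : ℝ :=
  ∑ x, ∑ m ∈ I, if OnCyc f m x then 1 / (m : ℝ) else 0

/-- Energy kernel. -/
def eker {V : Type*} [Fintype V] (B : V → Finset V) (J : ℕ) (x y : V) : ℝ :=
  ∑ i ∈ Finset.Icc 1 J, (pk B (2 * i) x y / ((B y).card : ℝ) - 1 / vol B)

/-- Energy of a path. -/
def En {V : Type*} [Fintype V] (B : V → Finset V) (J K : ℕ) (w : Fin (K + 1) → V) : ℝ :=
  ∑ s, ∑ s', eker B J (w s) (w s')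

/-- The first `K` steps of the orbit. -/
def opath {V : Type*} (f : V → V) (x : V) (K : ℕ) : Fin (K + 1) → V := fun s => f^[(s : ℕ)] x

/-- Weighted number of cycles counted from roots with large energy. -/
def NB {V : Type*} [Fintype V] (B : V → Finset V) (J K : ℕ) (e : ℝ) (f : V → V)
    (I : Finset ℕ) : ℝ :=
  ∑ x, ∑ m ∈ I, if OnCyc f m x ∧ e < En B J K (opath f x K) then 1 / (m : ℝ) else 0

/-- `f` on `S` and `g` off `S`. -/
def pw {V : Type*} (S : Set V) (f g : V → V) : V → V := fun u => if u ∈ S then f u else g u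

/-- The properties of the positions which are used. -/
structure GoodY {n : ℕ} (X : Fin n → Pt) (r : ℝ) (M : ℕ) : Prop where
  sq : ∀ u, X u ∈ Set.Icc (0 : ℝ) 1 ×ˢ Set.Icc (0 : ℝ) 1
  cells : ∀ c : Cell M, (n : ℝ) / (M : ℝ) ^ 2 / 2 ≤ (cnt (fun u => cell M (X u)) c : ℝ) ∧
    (cnt (fun u => cell M (X u)) c : ℝ) ≤ 2 * ((n : ℝ) / (M : ℝ) ^ 2)
  up : ∀ u, ((ball X r u).card : ℝ) ≤ 648 * (n * (min r 1) ^ 2)

/-- The constant of the heat kernel bound. -/
def Hc : ℝ := 3 * 32400 * (2 * 16 * 32400 ^ 2 + 16 * 32400 ^ 3 * 260 * 16 * (4 * 32400))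

/-- The constant of the spectral gap. -/
def gc : ℝ := 1 / (4 * 32400 * 32400 * 130)

end

end EA42
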