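import Pool.Agent.Lib.MP_ea42c6_pr.Three.Defs
import Pool.Agent.Lib.MP_ea42c6_pr.Two.R1

/-!
# U1 — the transition operator

`opP_iter`: induction on `j` (`pk (j+1) x z = ∑ y, kerW x y pk j y z`; `Function.iterate_succ_apply'`).
`ip_opP`: `|B x| kerW x z = |B z| kerW z x` (both 1 or both 0; see `pk_rev` with `j = 1`, `pk_one`).
`ip_cs`: Cauchy-Schwarz (`Finset.sum_mul_sq_le_sq_mul_sq` with `√|B x| f x`).
`opP_contr`: `(∑ z, kerW x z f z)² ≤ ∑ z, kerW x z f z²` (`inner_mul_le_norm_mul_norm`-free: Jensen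
`inner_le_nnorm_mul_nnorm` or `Finset.sum_mul_sq_le_sq_mul_sq` with `√kerW`), then sum over `x` with
`∑ x, |B x| kerW x z = ∑ x, |B z| kerW z x = |B z|`.
`ip_iter`: move one `opP` at a time.  `iter_contr`: `opP_contr`.  `ip_half`: `s = s/2 + s/2` or
`s/2 + (s/2 + 1)`; `ip f (P^s f) = ip (P^i f) (P^j f)` and Cauchy-Schwarz, `opP_contr`.
-/

namespace EA42

open scoped Classical

variable {V : Type*} [Fintype V] {B : V → Finset V}

theorem opP_iter (j : ℕ) (f : V → ℝ) (x : V) :
    (opP B)^[j] f x = ∑ z, pk B j x z * f z := by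
  induction j generalizing x with
  | zero =>
    have h : ∀ z, pk B 0 x z * f z = if x = z then f z else 0 := by
      intro z
      have h0 : pk B 0 x z = if x = z then (1 : ℝ) else 0 := rfl
      rw [h0, ite_mul, one_mul, zero_mul]
    rw [Finset.sum_congr rfl fun z _ => h z, Finset.sum_ite_eq Finset.univ x,
      if_pos (Finset.mem_univ _)]
    rfl
  | succ j ih =>
    rw [Function.iterate_succ_apply']
    have h3 : ∀ z, pk B (j + 1) x z = ∑ y, kerW B x y * pk B j y z := fun z => rfl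
    calc opP B ((opP B)^[j] f) x = ∑ y, kerW B x y * (opP B)^[j] f y := rfl
      _ = ∑ y, ∑ z, kerW B x y * (pk B j y z * f z) := by
          refine Finset.sum_congr rfl fun y _ => ?_
          rw [ih y, Finset.mul_sum]
      _ = ∑ z, ∑ y, kerW B x y * (pk B j y z * f z) := Finset.sum_comm
      _ = ∑ z, pk B (j + 1) x z * f z := by
          refine Finset.sum_congr rfl fun z _ => ?_
          rw [h3 z, Finset.sum_mul]
          exact Finset.sum_congr rfl fun y _ => (mul_assoc _ _ _).symm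

theorem ip_comm (f g : V → ℝ) : ip B f g = ip B g f := by
  unfold ip
  exact Finset.sum_congr rfl fun x _ => by rw [mul_comm (f x)]

theorem ip_self_nonneg (f : V → ℝ) : 0 ≤ ip B f f := by
  unfold ip
  exact Finset.sum_nonneg fun x _ => mul_nonneg (Nat.cast_nonneg _) (mul_self_nonneg _)

theorem ip_cs (f g : V → ℝ) : ip B f g ^ 2 ≤ ip B f f * ip B g g := by
  have h := Finset.sum_mul_sq_le_sq_mul_sq Finset.univ
    (fun x => Real.sqrt ((B x).card : ℝ) * f x) (fun x => Real.sqrt ((B x).card : ℝ) * g x)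
  have hs : ∀ x, Real.sqrt ((B x).card : ℝ) * Real.sqrt ((B x).card : ℝ) = ((B x).card : ℝ) :=
    fun x => Real.mul_self_sqrt (Nat.cast_nonneg _)
  have e1 : ∑ x, (Real.sqrt ((B x).card : ℝ) * f x) * (Real.sqrt ((B x).card : ℝ) * g x) =
      ip B f g := by
    unfold ip
    refine Finset.sum_congr rfl fun x _ => ?_
    rw [mul_mul_mul_comm, hs x]
  have e2 : ∀ k : V → ℝ, ∑ x, (Real.sqrt ((B x).card : ℝ) * k x) ^ 2 = ip B k k := by
    intro k
    unfold ip
    refine Finset.sum_congr rfl fun x _ => ?_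
    rw [pow_two, mul_mul_mul_comm, hs x]
  rw [e1, e2 f, e2 g] at h
  exact h

theorem kerW_bal (hB : SymB B) (x y : V) :
    ((B x).card : ℝ) * kerW B x y = ((B y).card : ℝ) * kerW B y x := by
  rw [← pk_one, ← pk_one]
  exact pk_rev hB 1 x y

theorem ip_opP (hB : SymB B) (f g : V → ℝ) : ip B (opP B f) g = ip B f (opP B g) := by
  have e1 : ip B (opP B f) g = ∑ x, ∑ z, ((B x).card : ℝ) * kerW B x z * (f z * g x) := by
    unfold ip opP
    refine Finset.sum_congr rfl fun x _ => ?_
    rw [Finset.sum_mul, Finset.mul_sum]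
    exact Finset.sum_congr rfl fun z _ => by ring
  have e2 : ip B f (opP B g) = ∑ x, ∑ z, ((B x).card : ℝ) * kerW B x z * (f x * g z) := by
    unfold ip opP
    refine Finset.sum_congr rfl fun x _ => ?_
    rw [Finset.mul_sum, Finset.mul_sum]
    exact Finset.sum_congr rfl fun z _ => by ring
  rw [e1, e2, Finset.sum_comm]
  refine Finset.sum_congr rfl fun z _ => Finset.sum_congr rfl fun x _ => ?_
  rw [kerW_bal hB x z]

theorem opP_contr (hB : SymB B) (f : V → ℝ) : ip B (opP B f) (opP B f) ≤ ip B f f := by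
  have h1 : ∀ x, (opP B f x) ^ 2 ≤ ∑ z, kerW B x z * f z ^ 2 := by
    intro x
    have h := Finset.sum_mul_sq_le_sq_mul_sq Finset.univ
      (fun z => Real.sqrt (kerW B x z)) (fun z => Real.sqrt (kerW B x z) * f z)
    have hs : ∀ z, Real.sqrt (kerW B x z) * Real.sqrt (kerW B x z) = kerW B x z :=
      fun z => Real.mul_self_sqrt (kerW_nonneg x z)
    have e1 : ∑ z, Real.sqrt (kerW B x z) * (Real.sqrt (kerW B x z) * f z) = opP B f x := by
      unfold opP
      refine Finset.sum_congr rfl fun z _ => ?_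
      rw [← mul_assoc, hs z]
    have e2 : ∑ z, Real.sqrt (kerW B x z) ^ 2 = 1 := by
      rw [Finset.sum_congr rfl fun z _ => by rw [pow_two, hs z]]
      exact (isProb_kerW hB.self x).2
    have e3 : ∑ z, (Real.sqrt (kerW B x z) * f z) ^ 2 = ∑ z, kerW B x z * f z ^ 2 := by
      refine Finset.sum_congr rfl fun z _ => ?_
      rw [mul_pow, pow_two (Real.sqrt _), hs z]
    rw [e1, e2, e3, one_mul] at h
    exact h
  calc ip B (opP B f) (opP B f) = ∑ x, ((B x).card : ℝ) * (opP B f x) ^ 2 := by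
        unfold ip
        exact Finset.sum_congr rfl fun x _ => by rw [pow_two]
    _ ≤ ∑ x, ((B x).card : ℝ) * ∑ z, kerW B x z * f z ^ 2 :=
        Finset.sum_le_sum fun x _ => mul_le_mul_of_nonneg_left (h1 x) (Nat.cast_nonneg _)
    _ = ∑ x, ∑ z, ((B z).card : ℝ) * kerW B z x * f z ^ 2 := by
        refine Finset.sum_congr rfl fun x _ => ?_
        rw [Finset.mul_sum]
        refine Finset.sum_congr rfl fun z _ => ?_
        rw [← kerW_bal hB x z, mul_assoc]
    _ = ∑ z, ∑ x, ((B z).card : ℝ) * kerW B z x * f z ^ 2 := Finset.sum_comm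
    _ = ip B f f := by
        unfold ip
        refine Finset.sum_congr rfl fun z _ => ?_
        have : ∀ x, ((B z).card : ℝ) * kerW B z x * f z ^ 2 =
            ((B z).card : ℝ) * (f z * f z) * kerW B z x := fun x => by ring
        rw [Finset.sum_congr rfl fun x _ => this x, ← Finset.mul_sum,
          (isProb_kerW hB.self z).2, mul_one]

theorem ip_iter (hB : SymB B) (i j : ℕ) (f g : V → ℝ) :
    ip B f ((opP B)^[i + j] g) = ip B ((opP B)^[i] f) ((opP B)^[j] g) := by
  induction i generalizing f with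
  | zero => rw [Nat.zero_add]; rfl
  | succ i ih =>
    have h1 : i + 1 + j = (i + j) + 1 := by omega
    rw [h1, Function.iterate_succ_apply', ← ip_opP hB, ih (opP B f), Function.iterate_succ_apply]

theorem iter_contr (hB : SymB B) {i j : ℕ} (h : i ≤ j) (f : V → ℝ) :
    ip B ((opP B)^[j] f) ((opP B)^[j] f) ≤ ip B ((opP B)^[i] f) ((opP B)^[i] f) := by
  induction j, h using Nat.le_induction with
  | base => exact le_rfl
  | succ j _ ih =>
    rw [Function.iterate_succ_apply']
    exact (opP_contr hB _).trans ih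

theorem ip_half (hB : SymB B) (s : ℕ) (f : V → ℝ) :
    |ip B f ((opP B)^[s] f)| ≤ ip B ((opP B)^[s / 2] f) ((opP B)^[s / 2] f) := by
  have h1 : s = s / 2 + (s - s / 2) := by omega
  have h2 : s / 2 ≤ s - s / 2 := by omega
  have h3 : ip B f ((opP B)^[s] f) =
      ip B ((opP B)^[s / 2] f) ((opP B)^[s - s / 2] f) := by
    rw [← ip_iter hB, ← h1]
  rw [h3]
  refine abs_le_of_sq_le_sq ?_ (ip_self_nonneg _)
  calc ip B ((opP B)^[s / 2] f) ((opP B)^[s - s / 2] f) ^ 2 ≤
      ip B ((opP B)^[s / 2] f) ((opP B)^[s / 2] f) *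
        ip B ((opP B)^[s - s / 2] f) ((opP B)^[s - s / 2] f) := ip_cs _ _
    _ ≤ ip B ((opP B)^[s / 2] f) ((opP B)^[s / 2] f) *
        ip B ((opP B)^[s / 2] f) ((opP B)^[s / 2] f) :=
        mul_le_mul_of_nonneg_left (iter_contr hB h2 f) (ip_self_nonneg _)
    _ = ip B ((opP B)^[s / 2] f) ((opP B)^[s / 2] f) ^ 2 := (pow_two _).symm

theorem iter_sub_const (hself : ∀ u, u ∈ B u) (j : ℕ) (f : V → ℝ) (c : ℝ) (x : V) :
    (opP B)^[j] (fun z => f z - c) x = (opP B)^[j] f x - c := by
  rw [opP_iter, opP_iter]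
  rw [Finset.sum_congr rfl fun z _ => mul_sub (pk B j x z) (f z) c, Finset.sum_sub_distrib,
    ← Finset.sum_mul, pk_sum hself, one_mul]

theorem iter_lin (j : ℕ) {ι : Type*} (s : Finset ι) (ω : ι → ℝ) (F : ι → V → ℝ) (x : V) :
    (opP B)^[j] (fun z => ∑ a ∈ s, ω a * F a z) x = ∑ a ∈ s, ω a * (opP B)^[j] (F a) x := by
  rw [opP_iter]
  rw [Finset.sum_congr rfl fun z _ => Finset.mul_sum s (fun a => ω a * F a z) (pk B j x z),
    Finset.sum_comm]
  refine Finset.sum_congr rfl fun a _ => ?_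
  rw [opP_iter, Finset.mul_sum]
  exact Finset.sum_congr rfl fun z _ => by ring

theorem ip_iter_one (hB : SymB B) (j : ℕ) (f : V → ℝ) :
    ip B ((opP B)^[j] f) (fun _ => 1) = ip B f (fun _ => 1) := by
  have h1 : (opP B)^[j] (fun _ => (1 : ℝ)) = fun _ => 1 := by
    funext x
    rw [opP_iter]
    rw [Finset.sum_congr rfl fun z _ => mul_one (pk B j x z), pk_sum hB.self]
  have h2 := ip_iter hB j 0 f (fun _ => 1)
  rw [Nat.add_zero, h1] at h2
  exact h2.symm

end EA42
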