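import Pool.Agent.Lib.MP_ea42c6_pr.Three.Defs
import Pool.Agent.Lib.MP_ea42c6_pr.Two.R15
import Pool.Agent.Lib.MP_ea42c6_pr.One.N12
import Pool.Agent.Lib.MP_ea42c6_pr.Two.R16

/-!
# U11 — the positions are good with high probability

`r' = min r 1`.  `cells`: `cells_prob` (R15): `M² (2 exp (-(n/M²)/16)) ≤ (16/r'²)(2 exp (-n r'²/256))` as
`M ≤ 4/r'`.  `up`: `r > 1`: `|ball| ≤ n ≤ 648 n`.  `r ≤ 1`: as in R16: `m = ⌊1/r⌋₊`, `near_upper`,
`81 · 2 n/m² ≤ 648 n r²`, probability `≤ (1/r²)(2 exp (-n r²/16))`.  `sq`: almost surely.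
Sum `34/r'² exp (-n r'²/256)`.
-/

namespace EA42

open MeasureTheory
open scoped Classical ENNReal

theorem goodY_prob {n M : ℕ} [NeZero M] (hn : 0 < n) {r : ℝ} (hr : 0 < r)
    (hM1 : 3 / (M : ℝ) ≤ min r 1) (hM2 : (M : ℝ) ≤ 4 / min r 1) :
    (Measure.pi fun _ : Fin n => unif) {X | ¬ GoodY X r M} ≤
      ENNReal.ofReal (40 / (min r 1) ^ 2 * Real.exp (-(n * (min r 1) ^ 2 / 256))) := by
  set ρ : ℝ := min r 1 with hρ
  have h0 : 0 < ρ := lt_min hr zero_lt_one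
  have h1 : ρ ≤ 1 := min_le_right _ _
  have hn0 : (0 : ℝ) < n := by exact_mod_cast hn
  have hm0 : (0 : ℝ) < M := by exact_mod_cast Nat.pos_of_ne_zero (NeZero.ne M)
  set μ : Measure (Fin n → Pt) := Measure.pi fun _ : Fin n => unif with hμ
  set E : ℝ := Real.exp (-(n * ρ ^ 2 / 256)) with hE
  have hE0 : 0 ≤ E := (Real.exp_pos _).le
  set SQ : (Fin n → Pt) → Prop := fun X => ∀ u, X u ∈ Set.Icc (0 : ℝ) 1 ×ˢ Set.Icc (0 : ℝ) 1
    with hSQ
  -- the cells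
  have hC : μ {X | ¬ ∀ c : Cell M, (n : ℝ) / (M : ℝ) ^ 2 / 2 ≤
      (cnt (fun u => cell M (X u)) c : ℝ) ∧
      (cnt (fun u => cell M (X u)) c : ℝ) ≤ 2 * ((n : ℝ) / (M : ℝ) ^ 2)} ≤
      ENNReal.ofReal (32 / ρ ^ 2 * E) := by
    refine (cells_prob n M).trans (ENNReal.ofReal_le_ofReal ?_)
    have hrm : ρ * M ≤ 4 := by
      rw [le_div_iff₀ h0] at hM2
      linarith
    have hrm2 : (ρ * M) ^ 2 ≤ 16 := by
      have : 0 ≤ ρ * M := by positivity
      nlinarith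
    have h4 : (M : ℝ) ^ 2 ≤ 16 / ρ ^ 2 := by
      have := pow_le_pow_left₀ hm0.le hM2 2
      rw [div_pow] at this
      norm_num at this ⊢
      exact this
    have h5 : Real.exp (-((n : ℝ) / (M : ℝ) ^ 2 / 16)) ≤ E := by
      refine Real.exp_le_exp.2 (neg_le_neg ?_)
      rw [div_div, le_div_iff₀ (by positivity)]
      calc (n : ℝ) * ρ ^ 2 / 256 * ((M : ℝ) ^ 2 * 16) = (n : ℝ) * ((ρ * M) ^ 2 / 16) := by ring
        _ ≤ (n : ℝ) * 1 := mul_le_mul_of_nonneg_left (by linarith) hn0.le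
        _ = (n : ℝ) := mul_one _
    calc (M : ℝ) ^ 2 * (2 * Real.exp (-((n : ℝ) / (M : ℝ) ^ 2 / 16)))
        ≤ 16 / ρ ^ 2 * (2 * E) :=
          mul_le_mul h4 (mul_le_mul_of_nonneg_left h5 (by norm_num)) (by positivity) (by positivity)
      _ = 32 / ρ ^ 2 * E := by ring
  -- the sizes of the balls
  have hU : μ {X | SQ X ∧ ¬ ∀ u, ((ball X r u).card : ℝ) ≤ 648 * (n * ρ ^ 2)} ≤
      ENNReal.ofReal (2 / ρ ^ 2 * E) := by
    rcases le_or_gt r 1 with hr1 | hr1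
    · have hρr : ρ = r := min_eq_left hr1
      have h2 : μ {X | SQ X ∧ ¬ ∀ z, ((Finset.univ.filter fun x =>
          tdist (X z) (X x) < r).card : ℝ) ≤ 648 * (n * r ^ 2)} ≤
          ENNReal.ofReal (2 / r ^ 2 * Real.exp (-(n * r ^ 2 / 16))) := R16_upper n hr hr1
      rw [hρr]
      rw [hρr] at hE
      refine le_trans h2 (ENNReal.ofReal_le_ofReal ?_)
      refine mul_le_mul_of_nonneg_left ?_ (by positivity)
      rw [hE]
      refine Real.exp_le_exp.2 (neg_le_neg ?_)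
      exact div_le_div_of_nonneg_left (by positivity) (by norm_num) (by norm_num)
    · have hρ1 : ρ = 1 := min_eq_right hr1.le
      have he : {X : Fin n → Pt | SQ X ∧ ¬ ∀ u, ((ball X r u).card : ℝ) ≤ 648 * (n * ρ ^ 2)} =
          ∅ := by
        refine Set.eq_empty_of_forall_notMem ?_
        rintro X ⟨_, hX⟩
        refine hX fun u => ?_
        have h3 : (ball X r u).card ≤ n := by
          have := Finset.card_le_univ (ball X r u)
          rwa [Fintype.card_fin] at this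
        have h4 : ((ball X r u).card : ℝ) ≤ n := by exact_mod_cast h3
        rw [hρ1]
        linarith
      rw [he, measure_empty]
      exact bot_le
  have hsub : {X : Fin n → Pt | ¬ GoodY X r M} ⊆ {X | ¬ SQ X} ∪
      ({X | ¬ ∀ c : Cell M, (n : ℝ) / (M : ℝ) ^ 2 / 2 ≤
      (cnt (fun u => cell M (X u)) c : ℝ) ∧
      (cnt (fun u => cell M (X u)) c : ℝ) ≤ 2 * ((n : ℝ) / (M : ℝ) ^ 2)} ∪
      {X | SQ X ∧ ¬ ∀ u, ((ball X r u).card : ℝ) ≤ 648 * (n * ρ ^ 2)}) := by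
    intro X hX
    by_contra hcon
    simp only [Set.mem_union, not_or] at hcon
    obtain ⟨h2, h3, h4⟩ := hcon
    have h2' : SQ X := not_not.1 h2
    have h3' := not_not.1 h3
    refine hX ⟨h2', h3', ?_⟩
    by_contra hc
    exact h4 ⟨h2', hc⟩
  have hz : μ {X | ¬ SQ X} = 0 := R16_sq n
  refine (measure_mono hsub).trans ?_
  refine (measure_union_le _ _).trans ?_
  rw [hz, zero_add]
  have e1 : 0 ≤ 32 / ρ ^ 2 * E := by positivity
  have e2 : 0 ≤ 2 / ρ ^ 2 * E := by positivity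
  calc _ ≤ ENNReal.ofReal (32 / ρ ^ 2 * E) + ENNReal.ofReal (2 / ρ ^ 2 * E) :=
        (measure_union_le _ _).trans (add_le_add hC hU)
    _ = ENNReal.ofReal (32 / ρ ^ 2 * E + 2 / ρ ^ 2 * E) := (ENNReal.ofReal_add e1 e2).symm
    _ ≤ _ := by
        refine ENNReal.ofReal_le_ofReal ?_
        have h7 : (0 : ℝ) ≤ E / ρ ^ 2 := by positivity
        calc 32 / ρ ^ 2 * E + 2 / ρ ^ 2 * E = 34 * (E / ρ ^ 2) := by ring
          _ ≤ 40 * (E / ρ ^ 2) := by linarith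
          _ = 40 / ρ ^ 2 * E := by ring

end EA42
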