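import Pool.Agent.Lib.MP_ea42c6_pr.Three.U2
import Pool.Agent.Lib.MP_ea42c6_pr.One.N1

/-!
# U13 — the mean energy of the stationary walk

`walk_one`, `walk_two`: times `s ≤ s'` of the walk from `u`:
`∑ w, fromW u K w Φ (w s) (w s') = ∑ x, ∑ y, pk s u x pk (s' - s) x y Φ x y`.  Induction on `K` with
`fromW_succ`-type recursion for expectations: `∑ w, fromW B u (K+1) w F w = ∑ v, kerW u v ∑ w', fromW B v K w'
F (Fin.cons u w')` (see the proof of `fromW_succ` in One/N1; `walk_rec` below), cases `s = 0` or `s = s₀.succ`.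
`two_time`: multiply by `|B u|`, sum over `u`: `∑ u, |B u| pk s u x = ∑ u, |B x| pk s x u = |B x|` (`pk_rev`, `pk_sum`).
`En_nonneg`: `eker J x y = ∑_{i=1}^{J} ip (P^i hf x - 1/vol) (P^i hf y - 1/vol)` (`ip_hf`, `ip_iter_one`:
`ip (P^i hf x) 1 = 1`, `ip 1 1 = vol`), so `En = ∑_i ip G_i G_i`, `G_i = ∑ s, (P^i hf (w s) - 1/vol)` (`En_eq`).
`En_mean`: `two_time` with `Φ = eker` (it is symmetric); for `m = |s - s'|`:
`∑ x y, |B x| pk m x y (pk (2i) x y/|B y| - 1/vol) = ∑ x y, pk m x y pk (2i) y x - 1 = tr (m + 2i) - 1`.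
-/

namespace EA42

open scoped Classical

variable {V : Type*} [Fintype V] {B : V → Finset V}

theorem walk_rec (u : V) (K : ℕ) (F : (Fin (K + 2) → V) → ℝ) :
    ∑ w, fromW B u (K + 1) w * F w =
      ∑ v, kerW B u v * ∑ w : Fin (K + 1) → V, fromW B v K w *
        F (Fin.cons u w : Fin (K + 2) → V) := by
  have h1 : ∑ w : Fin (K + 2) → V, fromW B u (K + 1) w * F w =
      ∑ z : V × (Fin (K + 1) → V), fromW B u (K + 1) (Fin.cons z.1 z.2 : Fin (K + 2) → V) *
        F (Fin.cons z.1 z.2 : Fin (K + 2) → V) :=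
    ((Fin.consEquiv (fun _ : Fin (K + 2) => V)).sum_comp
      (fun w => fromW B u (K + 1) w * F w)).symm
  rw [h1, Fintype.sum_prod_type, Finset.sum_eq_single u]
  · have h2 : ∀ v, kerW B u v * ∑ w : Fin (K + 1) → V, fromW B v K w *
        F (Fin.cons u w : Fin (K + 2) → V) =
        ∑ w : Fin (K + 1) → V, (if v = w 0 then
          kerW B u v * walkW B K w * F (Fin.cons u w : Fin (K + 2) → V) else 0) := by
      intro v
      rw [Finset.mul_sum]
      refine Finset.sum_congr rfl fun w _ => ?_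
      unfold fromW
      by_cases h4 : w 0 = v
      · rw [if_pos h4, if_pos h4.symm, mul_assoc]
      · rw [if_neg h4, if_neg fun h => h4 h.symm, zero_mul, mul_zero]
    rw [Finset.sum_congr rfl fun v _ => h2 v, Finset.sum_comm]
    refine Finset.sum_congr rfl fun w _ => ?_
    rw [Finset.sum_ite_eq' Finset.univ (w 0), if_pos (Finset.mem_univ _)]
    have h5 : fromW B u (K + 1) (Fin.cons u w : Fin (K + 2) → V) = kerW B u (w 0) * walkW B K w := by
      unfold fromW
      rw [Fin.cons_zero, if_pos rfl, N1_walkW_cons]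
    rw [h5]
  · intro a _ ha
    refine Finset.sum_eq_zero fun w _ => ?_
    unfold fromW
    rw [Fin.cons_zero, if_neg ha, zero_mul]
  · intro h
    exact absurd (Finset.mem_univ _) h

private theorem U13_start (u : V) (K : ℕ) (F : (Fin (K + 1) → V) → V → ℝ) :
    ∑ w, fromW B u K w * F w (w 0) = ∑ w, fromW B u K w * F w u := by
  refine Finset.sum_congr rfl fun w _ => ?_
  unfold fromW
  by_cases h : w 0 = u
  · rw [if_pos h, h]
  · rw [if_neg h, zero_mul, zero_mul]

private theorem U13_pk_zero (u : V) (ψ : V → ℝ) : ∑ x, pk B 0 u x * ψ x = ψ u := by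
  have h : ∀ x, pk B 0 u x * ψ x = if u = x then ψ x else 0 := by
    intro x
    have h0 : pk B 0 u x = if u = x then (1 : ℝ) else 0 := rfl
    rw [h0, ite_mul, one_mul, zero_mul]
  rw [Finset.sum_congr rfl fun x _ => h x, Finset.sum_ite_eq Finset.univ u,
    if_pos (Finset.mem_univ _)]

private theorem U13_one (hself : ∀ u, u ∈ B u) (K : ℕ) (s : Fin (K + 1)) (ψ : V → ℝ) (u : V) :
    ∑ w, fromW B u K w * ψ (w s) = ∑ x, pk B s u x * ψ x := by
  induction K generalizing u with
  | zero =>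
    have hs : s = 0 := Fin.ext (by omega)
    subst hs
    rw [U13_start u 0 (fun _ v => ψ v)]
    show _ = ∑ x, pk B 0 u x * ψ x
    rw [U13_pk_zero, ← Finset.sum_mul, (isProb_fromW hself u 0).2, one_mul]
  | succ K ih =>
    refine Fin.cases ?_ (fun s0 => ?_) s
    · rw [U13_start u (K + 1) (fun _ v => ψ v)]
      show _ = ∑ x, pk B 0 u x * ψ x
      rw [U13_pk_zero, ← Finset.sum_mul, (isProb_fromW hself u (K + 1)).2, one_mul]
    · rw [walk_rec u K (fun w => ψ (w s0.succ))]
      have h1 : ∀ v, ∑ w : Fin (K + 1) → V, fromW B v K w *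
          ψ ((Fin.cons u w : Fin (K + 2) → V) s0.succ) = ∑ x, pk B s0 v x * ψ x := by
        intro v
        rw [← ih s0 v]
        exact Finset.sum_congr rfl fun w _ => by rw [Fin.cons_succ]
      rw [Finset.sum_congr rfl fun v _ => by rw [h1 v]]
      rw [Finset.sum_congr rfl fun v _ => Finset.mul_sum _ _ _, Finset.sum_comm]
      refine Finset.sum_congr rfl fun x _ => ?_
      rw [Fin.val_succ]
      show _ = (∑ y, kerW B u y * pk B s0 y x) * ψ x
      rw [Finset.sum_mul]
      exact Finset.sum_congr rfl fun v _ => (mul_assoc _ _ _).symm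

theorem walk_two (hself : ∀ u, u ∈ B u) (K : ℕ) (s s' : Fin (K + 1)) (hs : (s : ℕ) ≤ s')
    (Φ : V → V → ℝ) (u : V) :
    ∑ w, fromW B u K w * Φ (w s) (w s') =
      ∑ x, ∑ y, pk B s u x * pk B ((s' : ℕ) - s) x y * Φ x y := by
  have hzero : ∀ (K : ℕ) (s' : Fin (K + 1)) (u : V),
      ∑ w, fromW B u K w * Φ (w 0) (w s') =
      ∑ x, ∑ y, pk B 0 u x * pk B ((s' : ℕ) - 0) x y * Φ x y := by
    intro K s' u
    rw [U13_start u K (fun w v => Φ v (w s')), U13_one hself K s' (Φ u) u]
    have h1 : ∀ x, ∑ y, pk B 0 u x * pk B ((s' : ℕ) - 0) x y * Φ x y =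
        pk B 0 u x * ∑ y, pk B (s' : ℕ) x y * Φ x y := by
      intro x
      rw [Finset.mul_sum, Nat.sub_zero]
      exact Finset.sum_congr rfl fun y _ => mul_assoc _ _ _
    rw [Finset.sum_congr rfl fun x _ => h1 x]
    exact (U13_pk_zero u (fun x => ∑ y, pk B (s' : ℕ) x y * Φ x y)).symm
  induction K generalizing u with
  | zero =>
    have hs0 : s = 0 := Fin.ext (by omega)
    subst hs0
    exact hzero 0 s' u
  | succ K ih =>
    revert hs
    refine Fin.cases ?_ (fun s0 => ?_) s
    · intro _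
      exact hzero (K + 1) s' u
    · refine Fin.cases ?_ (fun s1 => ?_) s'
      · intro hs
        rw [Fin.val_succ, Fin.val_zero] at hs
        omega
      · intro hs
        rw [Fin.val_succ, Fin.val_succ] at hs
        rw [walk_rec u K (fun w => Φ (w s0.succ) (w s1.succ))]
        have h1 : ∀ v, ∑ w : Fin (K + 1) → V, fromW B v K w *
            Φ ((Fin.cons u w : Fin (K + 2) → V) s0.succ)
              ((Fin.cons u w : Fin (K + 2) → V) s1.succ) =
            ∑ x, ∑ y, pk B s0 v x * pk B ((s1 : ℕ) - s0) x y * Φ x y := by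
          intro v
          rw [← ih s0 s1 (by omega) v]
          exact Finset.sum_congr rfl fun w _ => by rw [Fin.cons_succ, Fin.cons_succ]
        rw [Finset.sum_congr rfl fun v _ => by rw [h1 v]]
        rw [Finset.sum_congr rfl fun v _ => Finset.mul_sum _ _ _, Finset.sum_comm]
        refine Finset.sum_congr rfl fun x _ => ?_
        rw [Finset.sum_congr rfl fun v _ => Finset.mul_sum _ _ _, Finset.sum_comm]
        refine Finset.sum_congr rfl fun y _ => ?_
        rw [Fin.val_succ, Fin.val_succ, Nat.add_sub_add_right]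
        show _ = (∑ z, kerW B u z * pk B s0 z x) * pk B ((s1 : ℕ) - s0) x y * Φ x y
        rw [Finset.sum_mul, Finset.sum_mul]
        exact Finset.sum_congr rfl fun v _ => by ring

theorem two_time (hB : SymB B) (K : ℕ) (s s' : Fin (K + 1)) (hs : (s : ℕ) ≤ s')
    (Φ : V → V → ℝ) :
    ∑ u, ((B u).card : ℝ) * ∑ w, fromW B u K w * Φ (w s) (w s') =
      ∑ x, ∑ y, ((B x).card : ℝ) * pk B ((s' : ℕ) - s) x y * Φ x y := by
  have h1 : ∀ u, ((B u).card : ℝ) * ∑ w, fromW B u K w * Φ (w s) (w s') =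
      ∑ x, ((B u).card : ℝ) * pk B s u x * ∑ y, pk B ((s' : ℕ) - s) x y * Φ x y := by
    intro u
    rw [walk_two hB.self K s s' hs Φ u, Finset.mul_sum]
    refine Finset.sum_congr rfl fun x _ => ?_
    rw [Finset.mul_sum, Finset.mul_sum]
    exact Finset.sum_congr rfl fun y _ => by ring
  rw [Finset.sum_congr rfl fun u _ => h1 u, Finset.sum_comm]
  refine Finset.sum_congr rfl fun x _ => ?_
  rw [← Finset.sum_mul]
  have h2 : ∑ u, ((B u).card : ℝ) * pk B s u x = ((B x).card : ℝ) := by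
    rw [Finset.sum_congr rfl fun u _ => pk_rev hB s u x, ← Finset.mul_sum, pk_sum hB.self, mul_one]
  rw [h2, Finset.mul_sum]
  exact Finset.sum_congr rfl fun y _ => by ring

private theorem U13_card_pos (hB : SymB B) (u : V) : (0 : ℝ) < ((B u).card : ℝ) := by
  have : 0 < (B u).card := Finset.card_pos.mpr ⟨u, hB.self u⟩
  exact_mod_cast this

private theorem U13_vol_pos [Nonempty V] (hB : SymB B) : 0 < vol B := by
  unfold vol
  exact Finset.sum_pos (fun x _ => U13_card_pos hB x) Finset.univ_nonempty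

private theorem U13_ip_sub (f g : V → ℝ) (c : ℝ) :
    ip B (fun z => f z - c) (fun z => g z - c) =
      ip B f g - c * ip B f (fun _ => 1) - c * ip B g (fun _ => 1) + c ^ 2 * vol B := by
  unfold ip vol
  rw [Finset.mul_sum, Finset.mul_sum, Finset.mul_sum, ← Finset.sum_sub_distrib,
    ← Finset.sum_sub_distrib, ← Finset.sum_add_distrib]
  exact Finset.sum_congr rfl fun x _ => by ring

private theorem U13_ip_sum {ι : Type*} [Fintype ι] (f g : ι → V → ℝ) :
    ip B (fun z => ∑ s, f s z) (fun z => ∑ s, g s z) = ∑ s, ∑ t, ip B (f s) (g t) := by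
  unfold ip
  have h1 : ∀ s, ∑ t, ∑ x, ((B x).card : ℝ) * (f s x * g t x) =
      ∑ x, ((B x).card : ℝ) * (f s x * ∑ t, g t x) := by
    intro s
    rw [Finset.sum_comm]
    refine Finset.sum_congr rfl fun x _ => ?_
    rw [Finset.mul_sum, Finset.mul_sum]
  rw [Finset.sum_congr rfl fun s _ => h1 s, Finset.sum_comm]
  refine Finset.sum_congr rfl fun x _ => ?_
  rw [← Finset.mul_sum, ← Finset.sum_mul]

theorem En_eq [Nonempty V] (hB : SymB B) (J K : ℕ) (w : Fin (K + 1) → V) :
    En B J K w = ∑ i ∈ Finset.Icc 1 J,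
      ip B (fun z => ∑ s, ((opP B)^[i] (hf B (w s)) z - 1 / vol B))
        (fun z => ∑ s, ((opP B)^[i] (hf B (w s)) z - 1 / vol B)) := by
  have hv := U13_vol_pos hB
  have h1 : ∀ i, ip B (fun z => ∑ s, ((opP B)^[i] (hf B (w s)) z - 1 / vol B))
        (fun z => ∑ s, ((opP B)^[i] (hf B (w s)) z - 1 / vol B)) =
      ∑ s, ∑ s', (pk B (2 * i) (w s) (w s') / ((B (w s')).card : ℝ) - 1 / vol B) := by
    intro i
    rw [U13_ip_sum (fun s z => (opP B)^[i] (hf B (w s)) z - 1 / vol B)
      (fun s z => (opP B)^[i] (hf B (w s)) z - 1 / vol B)]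
    refine Finset.sum_congr rfl fun s _ => Finset.sum_congr rfl fun s' _ => ?_
    rw [U13_ip_sub, ip_hf hB, ip_iter_one hB, ip_iter_one hB, ip_hf_one hB.self,
      ip_hf_one hB.self, two_mul i]
    field_simp
    ring
  rw [Finset.sum_congr rfl fun i _ => h1 i]
  unfold En eker
  symm
  rw [Finset.sum_comm]
  exact Finset.sum_congr rfl fun s _ => Finset.sum_comm

theorem En_nonneg [Nonempty V] (hB : SymB B) (J K : ℕ) (w : Fin (K + 1) → V) :
    0 ≤ En B J K w := by
  rw [En_eq hB]
  exact Finset.sum_nonneg fun i _ => ip_self_nonneg _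

private theorem U13_eker_symm (hB : SymB B) (J : ℕ) (x y : V) :
    eker B J x y = eker B J y x := by
  unfold eker
  refine Finset.sum_congr rfl fun i _ => ?_
  have hx := U13_card_pos hB x
  have hy := U13_card_pos hB y
  have h1 := pk_rev hB (2 * i) x y
  have h2 : pk B (2 * i) x y / ((B y).card : ℝ) = pk B (2 * i) y x / ((B x).card : ℝ) := by
    rw [div_eq_div_iff hy.ne' hx.ne']
    linarith
  rw [h2]

private theorem U13_mean [Nonempty V] (hB : SymB B) (J m : ℕ) :
    ∑ x, ∑ y, ((B x).card : ℝ) * pk B m x y * eker B J x y =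
      ∑ i ∈ Finset.Icc 1 J, (tr B (m + 2 * i) - 1) := by
  have hv := U13_vol_pos hB
  have h1 : ∀ x y, ((B x).card : ℝ) * pk B m x y * eker B J x y =
      ∑ i ∈ Finset.Icc 1 J, (pk B m y x * pk B (2 * i) x y -
        ((B x).card : ℝ) * pk B m x y * (1 / vol B)) := by
    intro x y
    unfold eker
    rw [Finset.mul_sum]
    refine Finset.sum_congr rfl fun i _ => ?_
    have hy := U13_card_pos hB y
    rw [mul_sub]
    have h2 : ((B x).card : ℝ) * pk B m x y * (pk B (2 * i) x y / ((B y).card : ℝ)) =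
        pk B m y x * pk B (2 * i) x y := by
      rw [pk_rev hB m x y]
      field_simp
    rw [h2]
  have h3 : ∀ x, ∑ y, ((B x).card : ℝ) * pk B m x y * eker B J x y =
      ∑ i ∈ Finset.Icc 1 J, ∑ y, (pk B m y x * pk B (2 * i) x y -
        ((B x).card : ℝ) * pk B m x y * (1 / vol B)) := by
    intro x
    rw [Finset.sum_congr rfl fun y _ => h1 x y, Finset.sum_comm]
  rw [Finset.sum_congr rfl fun x _ => h3 x, Finset.sum_comm]
  refine Finset.sum_congr rfl fun i _ => ?_
  have h4 : ∀ x, ∑ y, (pk B m y x * pk B (2 * i) x y -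
      ((B x).card : ℝ) * pk B m x y * (1 / vol B)) =
      ∑ y, pk B m y x * pk B (2 * i) x y - ((B x).card : ℝ) * (1 / vol B) := by
    intro x
    rw [Finset.sum_sub_distrib]
    have h5 : ∑ y, ((B x).card : ℝ) * pk B m x y * (1 / vol B) =
        ((B x).card : ℝ) * (1 / vol B) := by
      rw [← Finset.sum_mul, ← Finset.mul_sum, pk_sum hB.self, mul_one]
    rw [h5]
  rw [Finset.sum_congr rfl fun x _ => h4 x, Finset.sum_sub_distrib, ← Finset.sum_mul,
    Finset.sum_comm]
  have h6 : (∑ x, ((B x).card : ℝ)) * (1 / vol B) = 1 := by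
    have : (∑ x, ((B x).card : ℝ)) = vol B := rfl
    rw [this]
    field_simp
  rw [h6]
  unfold tr
  rw [Finset.sum_congr rfl fun y _ => (pk_add m (2 * i) y y).symm]

private theorem U13_pair [Nonempty V] (hB : SymB B) (J K : ℕ) (s s' : Fin (K + 1)) :
    ∑ u, ((B u).card : ℝ) * ∑ w, fromW B u K w * eker B J (w s) (w s') =
      ∑ i ∈ Finset.Icc 1 J, (tr B ((((s : ℕ) - s') + ((s' : ℕ) - s)) + 2 * i) - 1) := by
  rcases le_total (s : ℕ) (s' : ℕ) with h | h
  · rw [two_time hB K s s' h (eker B J), U13_mean hB, Nat.sub_eq_zero_of_le h, Nat.zero_add]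
  · have h1 : ∀ w : Fin (K + 1) → V, eker B J (w s) (w s') = eker B J (w s') (w s) := fun w =>
      U13_eker_symm hB J _ _
    have h2 : ∀ u, ∑ w, fromW B u K w * eker B J (w s) (w s') =
        ∑ w, fromW B u K w * eker B J (w s') (w s) := fun u =>
      Finset.sum_congr rfl fun w _ => by rw [h1 w]
    rw [Finset.sum_congr rfl fun u _ => by rw [h2 u], two_time hB K s' s h (eker B J),
      U13_mean hB, Nat.sub_eq_zero_of_le h, Nat.add_zero ((s : ℕ) - s')]

theorem En_mean [Nonempty V] (hB : SymB B) (J K : ℕ) :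
    ∑ u, ((B u).card : ℝ) * ∑ w, fromW B u K w * En B J K w =
      ∑ s : Fin (K + 1), ∑ s' : Fin (K + 1), ∑ i ∈ Finset.Icc 1 J,
        (tr B ((((s : ℕ) - s') + ((s' : ℕ) - s)) + 2 * i) - 1) := by
  have h1 : ∀ u, ((B u).card : ℝ) * ∑ w, fromW B u K w * En B J K w =
      ∑ s, ∑ s', ((B u).card : ℝ) * ∑ w, fromW B u K w * eker B J (w s) (w s') := by
    intro u
    have h2 : ∀ w, fromW B u K w * En B J K w =
        ∑ s, ∑ s', fromW B u K w * eker B J (w s) (w s') := by
      intro w
      unfold En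
      rw [Finset.mul_sum]
      exact Finset.sum_congr rfl fun s _ => Finset.mul_sum _ _ _
    rw [Finset.sum_congr rfl fun w _ => h2 w, Finset.sum_comm, Finset.mul_sum]
    refine Finset.sum_congr rfl fun s _ => ?_
    rw [Finset.sum_comm, Finset.mul_sum]
  rw [Finset.sum_congr rfl fun u _ => h1 u, Finset.sum_comm]
  refine Finset.sum_congr rfl fun s _ => ?_
  rw [Finset.sum_comm]
  exact Finset.sum_congr rfl fun s' _ => U13_pair hB J K s s'

end EA42
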