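import Pool.Agent.Lib.MP_ea42c6_pr.Three.U13
import Pool.Agent.Lib.MP_ea42c6_pr.Two.R9

/-!
# U14 — the path of a cycle of the random map

`orbit_path`: as `orbit_to` (R9), induction on `K` (for all `J`, `S`, `u`, `𝒫`).  `K = 0`: `opath f u 0` is the
constant path `u`; `orbit_to`.  `K + 1 ≤ J`: the event is contained in `⋃_v {f u = v} ∩ E'`, `E'` the event
for `K`, `J - 1`, `insert u S`, `v` and `{w | Fin.cons u w ∈ 𝒫}` (`opath f u (K+1) = Fin.cons u (opath f (f u) K)`),
which does not depend on the coordinate `u` (`N7_indep`, `indep_orbit`); `walk_rec`.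
`cyc_path`: `K = 0`: `orbit_to`-type bound for `OnCyc` (peel the first step `v = f x`: then
`OrbInj f v (m-1)` and `f^[m-1] v = x`: the points `f^[1] x, ..., f^[m] x` are distinct).  In general peel the
first step and use `orbit_path` for `v`, `J = m - 1`, `K - 1`; coordinate `x` is not used by the orbit of
`v` before time `m - 1`.
-/

namespace EA42

open scoped Classical

variable {V : Type*} [Fintype V] [DecidableEq V] {B : V → Finset V}

omit [Fintype V] [DecidableEq V] in
theorem U14_indep (u v : V) (f g : V → V) (h : ∀ x, x ≠ u → f x = g x) (t : ℕ)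
    (ht : ∀ i < t, f^[i] v ≠ u) : ∀ i ≤ t, f^[i] v = g^[i] v := by
  intro i
  induction i with
  | zero => intro _; rfl
  | succ i ih =>
    intro hi
    have h1 := ih (by omega)
    rw [Function.iterate_succ_apply', Function.iterate_succ_apply', h _ (ht i (by omega)), h1]

omit [Fintype V] [DecidableEq V] in
theorem U14_opath_zero (f : V → V) (u : V) : opath f u 0 = fun _ => u := by
  funext s
  have hs : s = 0 := Fin.ext (by omega)
  rw [hs]
  rfl

omit [Fintype V] [DecidableEq V] in
theorem U14_opath_succ (f : V → V) (u : V) (K : ℕ) :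
    opath f u (K + 1) = (Fin.cons u (opath f (f u) K) : Fin (K + 2) → V) := by
  funext s
  refine Fin.cases ?_ (fun i => ?_) s
  · rfl
  · rw [Fin.cons_succ]
    unfold opath
    rw [Fin.val_succ, Function.iterate_succ_apply]

omit [Fintype V] [DecidableEq V] in
theorem U14_opath_congr {f g : V → V} {u : V} {K : ℕ} (h : ∀ i ≤ K, f^[i] u = g^[i] u) :
    opath f u K = opath g u K := by
  funext s
  exact h s (by omega)

omit [DecidableEq V] in
theorem U14_zero (u x : V) (J : ℕ) (Q : Set (Fin (0 + 1) → V)) :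
    ∑ w, (if w ∈ Q then fromW B u 0 w * pk B J (w (Fin.last 0)) x else 0) =
      if (fun _ => u) ∈ Q then pk B J u x else 0 := by
  rw [Finset.sum_eq_single (fun _ => u)]
  · have h1 : fromW B u 0 (fun _ => u) = 1 := by
      unfold fromW walkW
      simp
    rw [h1, one_mul]
  · intro w _ hw
    have h0 : w 0 ≠ u := by
      intro h
      apply hw
      funext i
      have hi : i = 0 := Fin.ext (by omega)
      rw [hi, h]
    unfold fromW
    rw [if_neg h0, zero_mul]
    split_ifs <;> rfl
  · intro h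
    exact absurd (Finset.mem_univ _) h

omit [DecidableEq V] in
theorem U14_succ (u x : V) (K e : ℕ) (Q : Set (Fin (K + 1 + 1) → V)) :
    ∑ w, (if w ∈ Q then fromW B u (K + 1) w * pk B e (w (Fin.last (K + 1))) x else 0) =
      ∑ v, kerW B u v * ∑ w : Fin (K + 1) → V,
        (if w ∈ {w : Fin (K + 1) → V | (Fin.cons u w : Fin (K + 2) → V) ∈ Q} then
          fromW B v K w * pk B e (w (Fin.last K)) x else 0) := by
  have h1 := walk_rec (B := B) u K (fun w => if w ∈ Q then pk B e (w (Fin.last (K + 1))) x else 0)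
  have h2 : ∀ w : Fin (K + 1 + 1) → V,
      (if w ∈ Q then fromW B u (K + 1) w * pk B e (w (Fin.last (K + 1))) x else 0) =
      fromW B u (K + 1) w * (if w ∈ Q then pk B e (w (Fin.last (K + 1))) x else 0) := by
    intro w
    by_cases hw : w ∈ Q
    · rw [if_pos hw, if_pos hw]
    · rw [if_neg hw, if_neg hw, mul_zero]
  rw [Finset.sum_congr rfl fun w _ => h2 w, h1]
  refine Finset.sum_congr rfl fun v _ => ?_
  congr 1
  refine Finset.sum_congr rfl fun w _ => ?_
  have h3 : (Fin.cons u w : Fin (K + 2) → V) (Fin.last (K + 1)) = w (Fin.last K) := by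
    rw [← Fin.succ_last, Fin.cons_succ]
  by_cases hw : (Fin.cons u w : Fin (K + 2) → V) ∈ Q
  · have hw' : w ∈ {w : Fin (K + 1) → V | (Fin.cons u w : Fin (K + 2) → V) ∈ Q} := hw
    rw [if_pos hw, if_pos hw', h3]
  · have hw' : w ∉ {w : Fin (K + 1) → V | (Fin.cons u w : Fin (K + 2) → V) ∈ Q} := hw
    rw [if_neg hw, if_neg hw', mul_zero]

theorem orbit_path (hself : ∀ u, u ∈ B u) (K J : ℕ) (hKJ : K ≤ J) (S : Set V) (u x : V)
    (Q : Set (Fin (K + 1) → V)) :
    pr (prodW (kerW B)) {f | OrbInj f u J ∧ (∀ b ≤ J, f^[b] u ∉ S) ∧ f^[J] u = x ∧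
      opath f u K ∈ Q} ≤
      ∑ w, if w ∈ Q then fromW B u K w * pk B (J - K) (w (Fin.last K)) x else 0 := by
  have hP := isProb_prodW (fun i => isProb_kerW hself i)
  induction K generalizing J S u with
  | zero =>
    rw [U14_zero, Nat.sub_zero]
    by_cases hQ : (fun _ => u) ∈ Q
    · rw [if_pos hQ]
      refine (pr_mono hP ?_).trans (orbit_to hself J S u x)
      rintro f ⟨h1, h2, h3, -⟩
      exact ⟨h1, h2, h3⟩
    · rw [if_neg hQ, R9_empty]
      rintro f ⟨-, -, -, h⟩
      rw [U14_opath_zero] at h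
      exact hQ h
  | succ K ih =>
    obtain ⟨J, rfl⟩ : ∃ J', J = J' + 1 := ⟨J - 1, by omega⟩
    have hsub : {f : V → V | OrbInj f u (J + 1) ∧ (∀ b ≤ J + 1, f^[b] u ∉ S) ∧
        f^[J + 1] u = x ∧ opath f u (K + 1) ∈ Q} ⊆
        {f | ∃ v ∈ (Finset.univ : Finset V), f ∈ ({f | f u = v} ∩
            {f | OrbInj f v J ∧ (∀ b ≤ J, f^[b] v ∉ insert u S) ∧ f^[J] v = x ∧
              opath f v K ∈ {w : Fin (K + 1) → V | (Fin.cons u w : Fin (K + 2) → V) ∈ Q}})} := by
      rintro f ⟨hinj, hS, hw, hQ⟩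
      refine ⟨f u, Finset.mem_univ _, rfl, (N7_shift hinj).1, ?_, ?_, ?_⟩
      · intro i hi hmem
        rcases Set.mem_insert_iff.mp hmem with h1 | h1
        · exact (N7_shift hinj).2 i hi h1
        · refine hS (i + 1) (by omega) ?_
          rw [Function.iterate_succ_apply]
          exact h1
      · rw [← Function.iterate_succ_apply]
        exact hw
      · rw [U14_opath_succ] at hQ
        exact hQ
    refine (pr_mono hP hsub).trans ((pr_exists_le hP _ _).trans ?_)
    rw [U14_succ]
    refine Finset.sum_le_sum fun v _ => ?_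
    rw [N7_indep hself u v]
    · refine mul_le_mul_of_nonneg_left ?_ ((isProb_kerW hself u).1 v)
      have h := ih J (by omega) (insert u S) v
        {w : Fin (K + 1) → V | (Fin.cons u w : Fin (K + 2) → V) ∈ Q}
      rw [Nat.add_sub_add_right]
      exact h
    · have key : ∀ f g : V → V, (∀ y, y ≠ u → f y = g y) →
          (OrbInj f v J ∧ (∀ b ≤ J, f^[b] v ∉ insert u S) ∧ f^[J] v = x ∧
            opath f v K ∈ {w : Fin (K + 1) → V | (Fin.cons u w : Fin (K + 2) → V) ∈ Q}) →
          (OrbInj g v J ∧ (∀ b ≤ J, g^[b] v ∉ insert u S) ∧ g^[J] v = x ∧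
            opath g v K ∈ {w : Fin (K + 1) → V | (Fin.cons u w : Fin (K + 2) → V) ∈ Q}) := by
        rintro f g hfg ⟨hinj, hS, hw, hQ⟩
        have hio := indep_orbit u v f g hfg J (fun i hi hu => hS i hi (by
          rw [hu]
          exact Set.mem_insert _ _))
        refine ⟨?_, ?_, ?_, ?_⟩
        · intro i hi j' hj hij
          rw [← hio i hi, ← hio j' hj] at hij
          exact hinj i hi j' hj hij
        · intro i hi
          rw [← hio i hi]
          exact hS i hi
        · rw [← hio J le_rfl]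
          exact hw
        · rw [← U14_opath_congr (fun i hi => hio i (by omega))]
          exact hQ
      intro f g h
      have h' : ∀ y, y ≠ u → f y = g y := fun y hy => h y (by simpa using hy)
      exact ⟨key f g h', key g f fun y hy => (h' y hy).symm⟩

/-- Peeling the first step of a cycle. -/
theorem U14_peel {f : V → V} {m : ℕ} {x : V} (h : OnCyc f (m + 1) x) :
    OrbInj f (f x) m ∧ f^[m] (f x) = x := by
  obtain ⟨-, hinj, hcyc⟩ := h
  rw [Nat.add_sub_cancel] at hinj
  have hx : f^[m] (f x) = x := by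
    rw [← Function.iterate_succ_apply]
    exact hcyc
  refine ⟨?_, hx⟩
  intro i hi j hj hij
  rw [← Function.iterate_succ_apply, ← Function.iterate_succ_apply] at hij
  rcases Nat.lt_or_ge i m with h1 | h1
  · rcases Nat.lt_or_ge j m with h2 | h2
    · have := hinj (i + 1) (by omega) (j + 1) (by omega) hij
      omega
    · obtain rfl : j = m := by omega
      rw [hcyc] at hij
      have := hinj (i + 1) (by omega) 0 (by omega) hij
      omega
  · obtain rfl : i = m := by omega
    rcases Nat.lt_or_ge j i with h2 | h2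
    · rw [hcyc] at hij
      have := hinj (j + 1) (by omega) 0 (by omega) hij.symm
      omega
    · omega

theorem U14_cyc_dep {m : ℕ} {x v : V} {P : (V → V) → Prop}
    (hP : ∀ f g : V → V, (∀ i ≤ m, f^[i] v = g^[i] v) → P f → P g) :
    DepOn (((({x} : Finset V) : Set V))ᶜ) {f | OrbInj f v m ∧ f^[m] v = x ∧ P f} := by
  have key : ∀ f g : V → V, (∀ y, y ≠ x → f y = g y) →
      (OrbInj f v m ∧ f^[m] v = x ∧ P f) → (OrbInj g v m ∧ g^[m] v = x ∧ P g) := by
    rintro f g hfg ⟨hinj, hw, hQ⟩
    have hio := U14_indep x v f g hfg m (fun i hi hu => by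
      rw [← hw] at hu
      have := hinj i hi.le m le_rfl hu
      omega)
    refine ⟨?_, ?_, hP f g hio hQ⟩
    · intro i hi j' hj hij
      rw [← hio i hi, ← hio j' hj] at hij
      exact hinj i hi j' hj hij
    · rw [← hio m le_rfl]
      exact hw
  intro f g h
  have h' : ∀ y, y ≠ x → f y = g y := fun y hy => h y (by simpa using hy)
  exact ⟨key f g h', key g f fun y hy => (h' y hy).symm⟩

theorem cyc_path (hself : ∀ u, u ∈ B u) (K m : ℕ) (hKm : K < m) (x : V)
    (Q : Set (Fin (K + 1) → V)) :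
    pr (prodW (kerW B)) {f | OnCyc f m x ∧ opath f x K ∈ Q} ≤
      ∑ w, if w ∈ Q then fromW B x K w * pk B (m - K) (w (Fin.last K)) x else 0 := by
  have hP := isProb_prodW (fun i => isProb_kerW hself i)
  obtain ⟨m, rfl⟩ : ∃ m', m = m' + 1 := ⟨m - 1, by omega⟩
  rcases K with _ | K
  · rw [U14_zero, Nat.sub_zero]
    by_cases hQ : (fun _ => x) ∈ Q
    · rw [if_pos hQ]
      have hsub : {f : V → V | OnCyc f (m + 1) x ∧ opath f x 0 ∈ Q} ⊆
          {f | ∃ v ∈ (Finset.univ : Finset V), f ∈ ({f | f x = v} ∩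
            {f | OrbInj f v m ∧ f^[m] v = x ∧ True})} := by
        rintro f ⟨h1, -⟩
        exact ⟨f x, Finset.mem_univ _, rfl, (U14_peel h1).1, (U14_peel h1).2, trivial⟩
      refine (pr_mono hP hsub).trans ((pr_exists_le hP _ _).trans ?_)
      simp only [pk]
      refine Finset.sum_le_sum fun v _ => ?_
      rw [N7_indep hself x v _ (U14_cyc_dep (fun _ _ _ h => h))]
      refine mul_le_mul_of_nonneg_left ?_ ((isProb_kerW hself x).1 v)
      refine (pr_mono hP ?_).trans (orbit_to hself m ∅ v x)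
      rintro f ⟨h1, h2, -⟩
      exact ⟨h1, fun _ _ h => h, h2⟩
    · rw [if_neg hQ, R9_empty]
      rintro f ⟨-, h⟩
      rw [U14_opath_zero] at h
      exact hQ h
  · have hsub : {f : V → V | OnCyc f (m + 1) x ∧ opath f x (K + 1) ∈ Q} ⊆
        {f | ∃ v ∈ (Finset.univ : Finset V), f ∈ ({f | f x = v} ∩
            {f | OrbInj f v m ∧ f^[m] v = x ∧
              opath f v K ∈ {w : Fin (K + 1) → V | (Fin.cons x w : Fin (K + 2) → V) ∈ Q}})} := by
      rintro f ⟨h1, h2⟩
      refine ⟨f x, Finset.mem_univ _, rfl, (U14_peel h1).1, (U14_peel h1).2, ?_⟩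
      rw [U14_opath_succ] at h2
      exact h2
    refine (pr_mono hP hsub).trans ((pr_exists_le hP _ _).trans ?_)
    rw [U14_succ]
    refine Finset.sum_le_sum fun v _ => ?_
    rw [N7_indep hself x v _ (U14_cyc_dep (fun f g hfg h => by
      rw [← U14_opath_congr (fun i hi => hfg i (by omega))]
      exact h))]
    refine mul_le_mul_of_nonneg_left ?_ ((isProb_kerW hself x).1 v)
    have h := orbit_path hself K m (by omega) ∅ v x
      {w : Fin (K + 1) → V | (Fin.cons x w : Fin (K + 2) → V) ∈ Q}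
    rw [Nat.add_sub_add_right]
    refine (pr_mono hP ?_).trans h
    rintro f ⟨h1, h2, h3⟩
    exact ⟨h1, fun _ _ h => h, h2, h3⟩

theorem cyc_le (hself : ∀ u, u ∈ B u) (m : ℕ) (x : V) :
    pr (prodW (kerW B)) {f | OnCyc f m x} ≤ pk B m x x := by
  have hP := isProb_prodW (fun i => isProb_kerW hself i)
  rcases m with _ | m
  · rw [R9_empty]
    · exact pk_nonneg _ _ _
    · rintro f ⟨h, -⟩
      omega
  · have h := cyc_path hself 0 (m + 1) (by omega) x Set.univ
    rw [U14_zero, Nat.sub_zero, if_pos (Set.mem_univ _)] at h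
    refine (pr_mono hP ?_).trans h
    intro f hf
    exact ⟨hf, Set.mem_univ _⟩

end EA42
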