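import Pool.Agent.Lib.MP_ea42c6_pr.Three.U2

/-!
# U16 — the sum of the traces

`x = n/D ≥ 1` (`D ≤ |B u| ≤ n`), `γ = g0/x ≤ 1`, `t l = tr (2l) - 1 ≥ 0` (`tr_even_ge`), `t (l+1) ≤ (1-γ) t l`
(`tl_step`), and `t l ≤ ∑ pk (2l) x x - 1 ≤ H (x/(2 l) + 1)`.
`lsum`: `∑_{l=1}^{N} l t l ≤ 9 H/g0² x²` for every `N`: `l₀ = ⌈x⌉₊ ≤ 2x`; for `l ≤ l₀`, `l t l ≤ H (x/2 + l)`,
sum `≤ H (l₀ x/2 + l₀ (l₀+1)/2) ≤ 4 H x²`; for `l > l₀`, `t l ≤ (1-γ)^(l-l₀) t l₀ ≤ (1-γ)^(l-l₀) 3H/2` and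
`∑_{j ≥ 1} (l₀ + j)(1-γ)^j ≤ l₀/γ + 1/γ² ≤ 3 x²/g0²`.
`trace_sum`: `tr (2l+1) ≤ tr (2l)` (`tr_odd_le`), so the term with `e = |s-s'| + 2i` is at most `t (e/2)`.
For fixed `s` the sum over `s'` and `i` is at most `2 ∑_{m=0}^{K} ∑_{i=1}^{J} t ((m+2i)/2)` and each `l` occurs
as `(m+2i)/2` for at most `2l` pairs `(m,i)` (`m ∈ {2(l-i), 2(l-i)+1}`, `1 ≤ i ≤ l`): at most
`4 ∑_l l t l ≤ 36 H/g0² x²`.
-/

namespace EA42

open scoped Classical

variable {V : Type*} [Fintype V] [Nonempty V] {B : V → Finset V}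

private theorem U16_x {D κ : ℝ} (h : DReg B D κ) : 1 ≤ (Fintype.card V : ℝ) / D := by
  obtain ⟨u⟩ := (inferInstance : Nonempty V)
  rw [le_div_iff₀ h.pos, one_mul]
  refine (h.lo u).trans ?_
  exact_mod_cast Finset.card_le_univ (B u)

private theorem U16_t0 (hB : SymB B) (l : ℕ) : 0 ≤ tr B (2 * l) - 1 := by
  have := tr_even_ge hB l
  linarith

private theorem U16_tl {D κ H g0 : ℝ} (h : HK B D κ H g0) (l : ℕ) (hl : 1 ≤ l) :
    tr B (2 * l) - 1 ≤ H * ((Fintype.card V : ℝ) / D / (2 * l) + 1) := by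
  set n : ℝ := (Fintype.card V : ℝ) with hn
  have hn0 : 0 < n := by
    rw [hn]
    exact_mod_cast (Fintype.card_pos : 0 < Fintype.card V)
  have hD := h.reg.pos
  have hl' : (0 : ℝ) < l := by exact_mod_cast hl
  have h1 : tr B (2 * l) ≤ ∑ _x : V, H * (1 / (D * ((2 * l : ℕ) : ℝ)) + 1 / n) :=
    Finset.sum_le_sum fun x _ => h.hk (2 * l) (by omega) x x
  rw [Finset.sum_const, Finset.card_univ, nsmul_eq_mul, ← hn] at h1
  have h2 : n * (H * (1 / (D * ((2 * l : ℕ) : ℝ)) + 1 / n)) = H * (n / D / (2 * l) + 1) := by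
    push_cast
    field_simp
  rw [h2] at h1
  linarith

private theorem U16_low {D κ H g0 : ℝ} (h : HK B D κ H g0) (hH : 1 ≤ H) (N : ℕ)
    (hN : (N : ℝ) ≤ (Fintype.card V : ℝ) / D + 1) :
    ∑ l ∈ Finset.Icc 1 N, (l : ℝ) * (tr B (2 * l) - 1) ≤
      4 * H * ((Fintype.card V : ℝ) / D) ^ 2 := by
  set x : ℝ := (Fintype.card V : ℝ) / D with hx
  have hx1 : 1 ≤ x := U16_x h.reg
  have h1 : ∀ M : ℕ, ∑ l ∈ Finset.Icc 1 M, (l : ℝ) * (tr B (2 * l) - 1) ≤
      H * (M * x / 2 + M * (M + 1) / 2) := by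
    intro M
    induction M with
    | zero => simp
    | succ M ih =>
      rw [Finset.sum_Icc_succ_top (by omega)]
      have h2 := U16_tl h (M + 1) (by omega)
      have h3 : (0 : ℝ) < ((M + 1 : ℕ) : ℝ) := by
        push_cast
        positivity
      have h4 := mul_le_mul_of_nonneg_left h2 h3.le
      have h5 : ((M + 1 : ℕ) : ℝ) * (H * (x / (2 * ((M + 1 : ℕ) : ℝ)) + 1)) =
          H * (x / 2 + ((M + 1 : ℕ) : ℝ)) := by
        field_simp
      rw [← hx, h5] at h4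
      push_cast at h4 ⊢
      nlinarith
  refine (h1 N).trans ?_
  have hN0 : (0 : ℝ) ≤ N := Nat.cast_nonneg N
  have h2 : (N : ℝ) * x / 2 + N * (N + 1) / 2 ≤ 4 * x ^ 2 := by
    have h3 : (N : ℝ) ≤ 2 * x := by linarith
    have h4 : (N : ℝ) + 1 ≤ 3 * x := by linarith
    have h5 : (N : ℝ) * x ≤ 2 * x * x := mul_le_mul_of_nonneg_right h3 (by linarith)
    have h6 : (N : ℝ) * (N + 1) ≤ 2 * x * (3 * x) :=
      mul_le_mul h3 h4 (by linarith) (by linarith)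
    nlinarith
  calc H * (N * x / 2 + N * (N + 1) / 2) ≤ H * (4 * x ^ 2) :=
        mul_le_mul_of_nonneg_left h2 (by linarith)
    _ = 4 * H * x ^ 2 := by ring

theorem lsum {D κ H g0 : ℝ} (h : HK B D κ H g0) (hH : 1 ≤ H) (hg0 : 0 < g0) (hg1 : g0 ≤ 1)
    (N : ℕ) :
    ∑ l ∈ Finset.Icc 1 N, (l : ℝ) * (tr B (2 * l) - 1) ≤
      9 * H / g0 ^ 2 * ((Fintype.card V : ℝ) / D) ^ 2 := by
  set n : ℝ := (Fintype.card V : ℝ) with hn
  have hn0 : 0 < n := by
    rw [hn]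
    exact_mod_cast (Fintype.card_pos : 0 < Fintype.card V)
  have hD := h.reg.pos
  set x : ℝ := n / D with hx
  have hx1 : 1 ≤ x := U16_x h.reg
  have hx0 : 0 < x := by linarith
  have hH0 : 0 < H := by linarith
  set γ : ℝ := g0 / x with hγ
  have hγ0 : 0 < γ := by positivity
  have hγ1 : γ ≤ 1 := by
    rw [hγ, div_le_one hx0]
    linarith
  have hγ' : γ = g0 * D / n := by
    rw [hγ, hx]
    field_simp
  set T : ℕ → ℝ := fun l => tr B (2 * l) - 1 with hT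
  have hT0 : ∀ l, 0 ≤ T l := fun l => U16_t0 h.reg.sym l
  have hstep : ∀ l, T (l + 1) ≤ (1 - γ) * T l := by
    intro l
    refine tl_step h.reg.sym (γ := γ) ?_ l
    rw [hγ']
    exact h.gap
  set l₀ : ℕ := ⌈x⌉₊ with hl₀
  have hl1 : x ≤ l₀ := Nat.le_ceil x
  have hl2 : (l₀ : ℝ) ≤ x + 1 := (Nat.ceil_lt_add_one hx0.le).le
  have hl3 : 1 ≤ l₀ := by
    have : (1 : ℝ) ≤ l₀ := hx1.trans hl1
    exact_mod_cast this
  have hg2 : 1 ≤ 1 / g0 ^ 2 := by
    rw [le_div_iff₀ (by positivity), one_mul]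
    exact pow_le_one₀ hg0.le hg1
  have hHx : 0 ≤ H * x ^ 2 := by positivity
  have hlow : ∑ l ∈ Finset.Icc 1 l₀, (l : ℝ) * T l ≤ 4 * H * x ^ 2 := U16_low h hH l₀ hl2
  have hfin : 4 * H * x ^ 2 ≤ 9 * H / g0 ^ 2 * x ^ 2 := by
    have h1 : 9 * H / g0 ^ 2 * x ^ 2 = 9 * (H * x ^ 2) * (1 / g0 ^ 2) := by ring
    rw [h1]
    nlinarith
  rcases Nat.lt_or_ge N l₀ with hN | hN
  · refine le_trans ?_ (hlow.trans hfin)
    refine Finset.sum_le_sum_of_subset_of_nonneg (Finset.Icc_subset_Icc le_rfl hN.le)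
      fun l _ _ => mul_nonneg (Nat.cast_nonneg _) (hT0 l)
  · have hpot : ∀ M : ℕ, l₀ ≤ M → ∑ l ∈ Finset.Icc 1 M, (l : ℝ) * T l +
        T M * (M / γ + 1 / γ ^ 2) ≤
        ∑ l ∈ Finset.Icc 1 l₀, (l : ℝ) * T l + T l₀ * (l₀ / γ + 1 / γ ^ 2) := by
      intro M hM
      induction M, hM using Nat.le_induction with
      | base => exact le_rfl
      | succ M hM ih =>
        refine le_trans ?_ ih
        rw [Finset.sum_Icc_succ_top (by omega)]
        have h1 := hstep M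
        have hM0 : (0 : ℝ) ≤ M := Nat.cast_nonneg M
        set c : ℝ := ((M + 1 : ℕ) : ℝ) + (((M + 1 : ℕ) : ℝ) / γ + 1 / γ ^ 2) with hc
        have hc0 : 0 ≤ c := by positivity
        have h2 : T (M + 1) * c ≤ (1 - γ) * T M * c := mul_le_mul_of_nonneg_right h1 hc0
        have h3 : (1 - γ) * c ≤ M / γ + 1 / γ ^ 2 := by
          have h4 : M / γ + 1 / γ ^ 2 - (1 - γ) * c = ((M : ℝ) + 1) * γ := by
            rw [hc]
            push_cast
            field_simp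
            ring
          have h5 : 0 ≤ ((M : ℝ) + 1) * γ := by positivity
          linarith
        have h4 : (1 - γ) * T M * c ≤ T M * (M / γ + 1 / γ ^ 2) := by
          calc (1 - γ) * T M * c = T M * ((1 - γ) * c) := by ring
            _ ≤ T M * (M / γ + 1 / γ ^ 2) := mul_le_mul_of_nonneg_left h3 (hT0 M)
        have h5 : ((M + 1 : ℕ) : ℝ) * T (M + 1) +
            T (M + 1) * (((M + 1 : ℕ) : ℝ) / γ + 1 / γ ^ 2) = T (M + 1) * c := by
          rw [hc]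
          ring
        linarith
    have h1 := hpot N hN
    have h2 : 0 ≤ T N * (N / γ + 1 / γ ^ 2) := mul_nonneg (hT0 N) (by positivity)
    have h3 : T l₀ ≤ 3 / 2 * H := by
      have h4 := U16_tl h l₀ hl3
      have h5 : x / (2 * (l₀ : ℝ)) ≤ 1 / 2 := by
        rw [div_le_div_iff₀ (by positivity) (by norm_num)]
        linarith
      rw [← hn, ← hx] at h4
      have h6 : H * (x / (2 * (l₀ : ℝ)) + 1) ≤ H * (1 / 2 + 1) :=
        mul_le_mul_of_nonneg_left (by linarith) hH0.le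
      have h7 : T l₀ ≤ H * (x / (2 * (l₀ : ℝ)) + 1) := h4
      linarith
    have h4 : (l₀ : ℝ) / γ + 1 / γ ^ 2 ≤ 3 * x ^ 2 * (1 / g0 ^ 2) := by
      have h5 : (l₀ : ℝ) / γ ≤ 2 * x ^ 2 * (1 / g0 ^ 2) := by
        have h6 : (l₀ : ℝ) / γ = l₀ * x * (1 / g0) := by
          rw [hγ]
          field_simp
        rw [h6]
        have h7 : (l₀ : ℝ) * x ≤ 2 * x ^ 2 := by nlinarith
        have h8 : 1 / g0 ≤ 1 / g0 ^ 2 := by
          refine one_div_le_one_div_of_le (by positivity) ?_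
          nlinarith
        exact mul_le_mul h7 h8 (by positivity) (by positivity)
      have h6 : 1 / γ ^ 2 = x ^ 2 * (1 / g0 ^ 2) := by
        rw [hγ]
        field_simp
      rw [h6]
      linarith
    have h5 : T l₀ * ((l₀ : ℝ) / γ + 1 / γ ^ 2) ≤ 3 / 2 * H * (3 * x ^ 2 * (1 / g0 ^ 2)) :=
      mul_le_mul h3 h4 (by positivity) (by positivity)
    have h6 : 9 * H / g0 ^ 2 * x ^ 2 = 9 * (H * x ^ 2 * (1 / g0 ^ 2)) := by ring
    have h7 : H * x ^ 2 ≤ H * x ^ 2 * (1 / g0 ^ 2) := le_mul_of_one_le_right hHx hg2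
    have h8 : 3 / 2 * H * (3 * x ^ 2 * (1 / g0 ^ 2)) = 9 / 2 * (H * x ^ 2 * (1 / g0 ^ 2)) := by ring
    show ∑ l ∈ Finset.Icc 1 N, (l : ℝ) * T l ≤ 9 * H / g0 ^ 2 * x ^ 2
    rw [h6]
    rw [h8] at h5
    have h9 : 4 * H * x ^ 2 = 4 * (H * x ^ 2) := by ring
    rw [h9] at hlow
    linarith

private theorem U16_fib {ι : Type*} (P : Finset ι) (φ : ι → ℕ) (L : Finset ℕ) (c T : ℕ → ℝ)
    (hT : ∀ l, 0 ≤ T l) (hmap : ∀ p ∈ P, φ p ∈ L)
    (hc : ∀ l ∈ L, ((P.filter fun p => φ p = l).card : ℝ) ≤ c l) :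
    ∑ p ∈ P, T (φ p) ≤ ∑ l ∈ L, c l * T l := by
  rw [← Finset.sum_fiberwise_of_maps_to hmap]
  refine Finset.sum_le_sum fun l hl => ?_
  have h1 : ∑ p ∈ P with φ p = l, T (φ p) = ∑ p ∈ P with φ p = l, T l :=
    Finset.sum_congr rfl fun p hp => by rw [(Finset.mem_filter.mp hp).2]
  rw [h1, Finset.sum_const, nsmul_eq_mul]
  exact mul_le_mul_of_nonneg_right (hc l hl) (hT l)

private theorem U16_two (K : ℕ) (s : Fin (K + 1)) (m : ℕ) :
    (Finset.univ.filter fun s' : Fin (K + 1) =>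
      ((s : ℕ) - s') + ((s' : ℕ) - s) = m).card ≤ 2 := by
  have h1 : (Finset.univ.filter fun s' : Fin (K + 1) =>
      ((s : ℕ) - s') + ((s' : ℕ) - s) = m).card ≤
      ({(s : ℕ) - m, (s : ℕ) + m} : Finset ℕ).card := by
    refine Finset.card_le_card_of_injOn Fin.val ?_ ?_
    · intro s' hs'
      have h2 := (Finset.mem_filter.mp hs').2
      rw [Finset.mem_coe, Finset.mem_insert, Finset.mem_singleton]
      omega
    · intro a _ b _ hab
      exact Fin.val_injective hab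
  exact h1.trans Finset.card_le_two

private theorem U16_pairs (K J l : ℕ) :
    ((Finset.range (K + 1) ×ˢ Finset.Icc 1 J).filter fun p => p.1 / 2 + p.2 = l).card ≤ 2 * l := by
  have h1 : ((Finset.range (K + 1) ×ˢ Finset.Icc 1 J).filter fun p => p.1 / 2 + p.2 = l).card ≤
      (Finset.range (2 * l)).card := by
    refine Finset.card_le_card_of_injOn (fun p => p.1) ?_ ?_
    · intro p hp
      have h2 := Finset.mem_filter.mp hp
      have h3 := Finset.mem_product.mp h2.1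
      have h4 := Finset.mem_Icc.mp h3.2
      have h5 := h2.2
      show p.1 ∈ (Finset.range (2 * l) : Set ℕ)
      rw [Finset.mem_coe, Finset.mem_range]
      omega
    · intro p hp q hq hpq
      have h2 := (Finset.mem_filter.mp hp).2
      have h3 := (Finset.mem_filter.mp hq).2
      have h4 : p.1 = q.1 := hpq
      refine Prod.ext h4 ?_
      rw [h4] at h2
      omega
  rwa [Finset.card_range] at h1

theorem trace_sum {D κ H g0 : ℝ} (h : HK B D κ H g0) (hH : 1 ≤ H) (hg0 : 0 < g0) (hg1 : g0 ≤ 1)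
    (K J : ℕ) :
    ∑ s : Fin (K + 1), ∑ s' : Fin (K + 1), ∑ i ∈ Finset.Icc 1 J,
        (tr B ((((s : ℕ) - s') + ((s' : ℕ) - s)) + 2 * i) - 1) ≤
      ((K : ℝ) + 1) * (100 * H / g0 ^ 2 * ((Fintype.card V : ℝ) / D) ^ 2) := by
  set x : ℝ := (Fintype.card V : ℝ) / D with hx
  have hH0 : 0 < H := by linarith
  set T : ℕ → ℝ := fun l => tr B (2 * l) - 1 with hT
  have hT0 : ∀ l, 0 ≤ T l := fun l => U16_t0 h.reg.sym l
  have hle : ∀ m i : ℕ, tr B (m + 2 * i) - 1 ≤ T (m / 2 + i) := by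
    intro m i
    rcases Nat.even_or_odd' m with ⟨k, hk | hk⟩
    · have h1 : m + 2 * i = 2 * (m / 2 + i) := by omega
      rw [h1]
    · have h1 : m + 2 * i = 2 * (m / 2 + i) + 1 := by omega
      rw [h1]
      have h2 := tr_odd_le h.reg.sym (m / 2 + i)
      show tr B (2 * (m / 2 + i) + 1) - 1 ≤ tr B (2 * (m / 2 + i)) - 1
      linarith
  set G : ℕ → ℝ := fun m => ∑ i ∈ Finset.Icc 1 J, T (m / 2 + i) with hG
  have hG0 : ∀ m, 0 ≤ G m := fun m => Finset.sum_nonneg fun i _ => hT0 _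
  have hB : ∑ m ∈ Finset.range (K + 1), G m ≤ 2 * (9 * H / g0 ^ 2 * x ^ 2) := by
    have h1 : ∑ m ∈ Finset.range (K + 1), G m =
        ∑ p ∈ Finset.range (K + 1) ×ˢ Finset.Icc 1 J, T (p.1 / 2 + p.2) := by
      rw [Finset.sum_product]
    rw [h1]
    have h2 := U16_fib (Finset.range (K + 1) ×ˢ Finset.Icc 1 J) (fun p => p.1 / 2 + p.2)
      (Finset.Icc 1 (K + J)) (fun l => 2 * (l : ℝ)) T hT0 ?_ ?_
    · refine h2.trans ?_
      have h3 : ∑ l ∈ Finset.Icc 1 (K + J), 2 * (l : ℝ) * T l =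
          2 * ∑ l ∈ Finset.Icc 1 (K + J), (l : ℝ) * T l := by
        rw [Finset.mul_sum]
        exact Finset.sum_congr rfl fun l _ => mul_assoc _ _ _
      rw [h3]
      exact mul_le_mul_of_nonneg_left (lsum h hH hg0 hg1 (K + J)) (by norm_num)
    · intro p hp
      have h3 := Finset.mem_product.mp hp
      have h4 := Finset.mem_range.mp h3.1
      have h5 := Finset.mem_Icc.mp h3.2
      rw [Finset.mem_Icc]
      omega
    · intro l _
      have h3 := U16_pairs K J l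
      have h4 : (((Finset.range (K + 1) ×ˢ Finset.Icc 1 J).filter
          fun p => p.1 / 2 + p.2 = l).card : ℝ) ≤ ((2 * l : ℕ) : ℝ) := by exact_mod_cast h3
      push_cast at h4
      exact h4
  have hA : ∀ s : Fin (K + 1), ∑ s' : Fin (K + 1), ∑ i ∈ Finset.Icc 1 J,
        (tr B ((((s : ℕ) - s') + ((s' : ℕ) - s)) + 2 * i) - 1) ≤
      2 * (2 * (9 * H / g0 ^ 2 * x ^ 2)) := by
    intro s
    have h1 : ∑ s' : Fin (K + 1), ∑ i ∈ Finset.Icc 1 J,
        (tr B ((((s : ℕ) - s') + ((s' : ℕ) - s)) + 2 * i) - 1) ≤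
        ∑ s' : Fin (K + 1), G (((s : ℕ) - s') + ((s' : ℕ) - s)) :=
      Finset.sum_le_sum fun s' _ => Finset.sum_le_sum fun i _ => hle _ i
    refine h1.trans ?_
    have h2 := U16_fib (Finset.univ : Finset (Fin (K + 1)))
      (fun s' => ((s : ℕ) - s') + ((s' : ℕ) - s)) (Finset.range (K + 1)) (fun _ => 2) G hG0 ?_ ?_
    · refine h2.trans ?_
      rw [← Finset.mul_sum]
      exact mul_le_mul_of_nonneg_left hB (by norm_num)
    · intro s' _
      rw [Finset.mem_range]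
      have := s.2
      have := s'.2
      omega
    · intro m _
      exact_mod_cast U16_two K s m
  refine (Finset.sum_le_sum fun s _ => hA s).trans ?_
  rw [Finset.sum_const, Finset.card_univ, Fintype.card_fin, nsmul_eq_mul]
  push_cast
  refine mul_le_mul_of_nonneg_left ?_ (by positivity)
  have h1 : 0 ≤ H / g0 ^ 2 * x ^ 2 := by positivity
  have h2 : 2 * (2 * (9 * H / g0 ^ 2 * x ^ 2)) = 36 * (H / g0 ^ 2 * x ^ 2) := by ring
  have h3 : 100 * H / g0 ^ 2 * x ^ 2 = 100 * (H / g0 ^ 2 * x ^ 2) := by ring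
  rw [h2, h3]
  linarith

end EA42
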