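import Pool.Agent.Lib.MP_ea42c6_pr.Three.U14
import Pool.Agent.Lib.MP_ea42c6_pr.Three.U16

/-!
# U15 — few cycles have large energy

`E NB = ∑ x, ∑_{m ∈ I} (1/m) pr {OnCyc f m x ∧ e < En (opath f x K)}` and by `cyc_path` the probability is at
most `∑_w [e < En w] fromW x K w pk (m-K) (w K) x`, where `m - K ≥ T/2`:
`pk (m-K) ≤ H (1/(D (m-K)) + 1/n) ≤ H (2/(D T) + 1/n) ≤ 3 H/n` (`hTn`).  Then
`∑ x, ∑_w [e < En w] fromW x K w ≤ (1/e) ∑ x, ∑_w fromW x K w En w ≤ (1/(D e)) ∑ x, |B x| ∑_w fromW x K w En w`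
(`En ≥ 0`), `En_mean`, `trace_sum`.
-/

namespace EA42

open scoped Classical

theorem bad_mean {V : Type*} [Fintype V] [DecidableEq V] [Nonempty V] {B : V → Finset V}
    {D κ H g0 : ℝ} (h : HK B D κ H g0) (hH : 1 ≤ H) (hg0 : 0 < g0) (hg1 : g0 ≤ 1)
    {I : Finset ℕ} {T K J : ℕ} (hT : 1 ≤ T) (hI : ∀ m ∈ I, T ≤ m) (hK : 2 * K ≤ T)
    (hTn : (Fintype.card V : ℝ) ≤ D * T) {e : ℝ} (he : 0 < e) :
    ∑ f, prodW (kerW B) f * NB B J K e f I ≤
      (I.card : ℝ) / T * (3 * H / (Fintype.card V : ℝ)) * (1 / (D * e)) *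
        (((K : ℝ) + 1) * (100 * H / g0 ^ 2 * ((Fintype.card V : ℝ) / D) ^ 2)) := by
  have hB : SymB B := h.reg.sym
  have hself := hB.self
  have hD := h.reg.pos
  have hn : (0 : ℝ) < (Fintype.card V : ℝ) := by exact_mod_cast Fintype.card_pos
  have hTpos : (0 : ℝ) < (T : ℝ) := by exact_mod_cast hT
  have hH0 : 0 < H := by linarith
  obtain ⟨W, hW⟩ : ∃ W : V → ℝ, W = fun x => ∑ w, fromW B x K w * En B J K w := ⟨_, rfl⟩
  have hfw : ∀ x w, 0 ≤ fromW B x K w := fun x w => (isProb_fromW hself x K).1 w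
  have hWnn : ∀ x, 0 ≤ W x := fun x => by
    rw [hW]
    exact Finset.sum_nonneg fun w _ => mul_nonneg (hfw x w) (En_nonneg hB J K w)
  have h2 : ∀ x, ∀ m ∈ I, (1 / (m : ℝ)) * pr (prodW (kerW B))
      {f | OnCyc f m x ∧ opath f x K ∈ {w : Fin (K + 1) → V | e < En B J K w}} ≤
      (1 / (T : ℝ)) * ((3 * H / (Fintype.card V : ℝ)) * ((1 / e) * W x)) := by
    intro x m hm
    have hTm := hI m hm
    have hKm : K < m := by omega
    have hb : ∑ w, (if w ∈ {w : Fin (K + 1) → V | e < En B J K w} then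
        fromW B x K w * pk B (m - K) (w (Fin.last K)) x else 0) ≤
        (3 * H / (Fintype.card V : ℝ)) * ((1 / e) * W x) := by
      rw [hW, Finset.mul_sum, Finset.mul_sum]
      refine Finset.sum_le_sum fun w _ => ?_
      have hEn := En_nonneg hB J K w
      by_cases hw : e < En B J K w
      · have hw' : w ∈ {w : Fin (K + 1) → V | e < En B J K w} := hw
        rw [if_pos hw']
        have hpk : pk B (m - K) (w (Fin.last K)) x ≤ 3 * H / (Fintype.card V : ℝ) := by
          refine (h.hk (m - K) (by omega) _ _).trans ?_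
          have hmK : (T : ℝ) ≤ 2 * ((m - K : ℕ) : ℝ) := by
            have : T ≤ 2 * (m - K) := by omega
            exact_mod_cast this
          have hmK0 : (0 : ℝ) < ((m - K : ℕ) : ℝ) := by linarith
          have h3 : 1 / (D * ((m - K : ℕ) : ℝ)) ≤ 2 / (Fintype.card V : ℝ) := by
            rw [div_le_div_iff₀ (by positivity) hn]
            nlinarith
          have h4 : 3 * H / (Fintype.card V : ℝ) =
              H * (2 / (Fintype.card V : ℝ) + 1 / (Fintype.card V : ℝ)) := by ring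
          rw [h4]
          refine mul_le_mul_of_nonneg_left ?_ hH0.le
          linarith
        have h1 : 1 ≤ (1 / e) * En B J K w := by
          rw [one_div, ← div_eq_inv_mul]
          exact (one_le_div he).2 hw.le
        calc fromW B x K w * pk B (m - K) (w (Fin.last K)) x
            ≤ fromW B x K w * (3 * H / (Fintype.card V : ℝ)) :=
              mul_le_mul_of_nonneg_left hpk (hfw x w)
          _ ≤ (fromW B x K w * (3 * H / (Fintype.card V : ℝ))) * ((1 / e) * En B J K w) :=
              le_mul_of_one_le_right (mul_nonneg (hfw x w) (by positivity)) h1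
          _ = 3 * H / (Fintype.card V : ℝ) * (1 / e * (fromW B x K w * En B J K w)) := by ring
      · have hw' : w ∉ {w : Fin (K + 1) → V | e < En B J K w} := hw
        rw [if_neg hw']
        have := mul_nonneg (hfw x w) hEn
        positivity
    have hc := (cyc_path hself K m hKm x {w | e < En B J K w}).trans hb
    have hmT : 1 / (m : ℝ) ≤ 1 / (T : ℝ) := by
      refine one_div_le_one_div_of_le hTpos ?_
      exact_mod_cast hTm
    have hWx := hWnn x
    calc (1 / (m : ℝ)) * pr (prodW (kerW B))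
          {f | OnCyc f m x ∧ opath f x K ∈ {w : Fin (K + 1) → V | e < En B J K w}}
        ≤ (1 / (m : ℝ)) * ((3 * H / (Fintype.card V : ℝ)) * ((1 / e) * W x)) :=
          mul_le_mul_of_nonneg_left hc (by positivity)
      _ ≤ _ := mul_le_mul_of_nonneg_right hmT (by positivity)
  have h1 : ∑ f, prodW (kerW B) f * NB B J K e f I = ∑ x, ∑ m ∈ I, (1 / (m : ℝ)) * pr (prodW (kerW B))
      {f | OnCyc f m x ∧ opath f x K ∈ {w : Fin (K + 1) → V | e < En B J K w}} := by
    unfold NB pr
    simp only [Finset.mul_sum]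
    rw [Finset.sum_comm]
    refine Finset.sum_congr rfl fun x _ => ?_
    rw [Finset.sum_comm]
    refine Finset.sum_congr rfl fun m _ => Finset.sum_congr rfl fun f _ => ?_
    by_cases hf : OnCyc f m x ∧ e < En B J K (opath f x K)
    · have hf' : f ∈ {f : V → V | OnCyc f m x ∧
          opath f x K ∈ {w : Fin (K + 1) → V | e < En B J K w}} := hf
      rw [if_pos hf, if_pos hf', mul_comm]
    · have hf' : f ∉ {f : V → V | OnCyc f m x ∧
          opath f x K ∈ {w : Fin (K + 1) → V | e < En B J K w}} := hf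
      rw [if_neg hf, if_neg hf', mul_zero, mul_zero]
  have h3 : ∑ x, W x ≤ (1 / D) * ((K + 1 : ℝ) * (100 * H / g0 ^ 2 * ((Fintype.card V : ℝ) / D) ^ 2)) := by
    have h4 : ∑ x, ((B x).card : ℝ) * W x ≤
        (K + 1 : ℝ) * (100 * H / g0 ^ 2 * ((Fintype.card V : ℝ) / D) ^ 2) := by
      rw [hW, En_mean hB J K]
      exact trace_sum h hH hg0 hg1 K J
    have h5 : ∑ x, W x ≤ (1 / D) * ∑ x, ((B x).card : ℝ) * W x := by
      rw [Finset.mul_sum]
      refine Finset.sum_le_sum fun x _ => ?_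
      have h6 := h.reg.lo x
      have h7 : 1 ≤ (1 / D) * ((B x).card : ℝ) := by
        rw [one_div, ← div_eq_inv_mul]
        exact (one_le_div hD).2 h6
      calc W x ≤ ((1 / D) * ((B x).card : ℝ)) * W x := le_mul_of_one_le_left (hWnn x) h7
        _ = _ := by ring
    exact h5.trans (mul_le_mul_of_nonneg_left h4 (by positivity))
  rw [h1]
  calc ∑ x, ∑ m ∈ I, (1 / (m : ℝ)) * pr (prodW (kerW B))
          {f | OnCyc f m x ∧ opath f x K ∈ {w : Fin (K + 1) → V | e < En B J K w}}
      ≤ ∑ x, ∑ m ∈ I, (1 / (T : ℝ)) * ((3 * H / (Fintype.card V : ℝ)) * ((1 / e) * W x)) :=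
        Finset.sum_le_sum fun x _ => Finset.sum_le_sum fun m hm => h2 x m hm
    _ = (I.card : ℝ) / T * (3 * H / (Fintype.card V : ℝ)) * (1 / e) * ∑ x, W x := by
        simp only [Finset.sum_const, nsmul_eq_mul]
        rw [Finset.mul_sum]
        refine Finset.sum_congr rfl fun x _ => ?_
        ring
    _ ≤ (I.card : ℝ) / T * (3 * H / (Fintype.card V : ℝ)) * (1 / e) *
        ((1 / D) * ((K + 1 : ℝ) * (100 * H / g0 ^ 2 * ((Fintype.card V : ℝ) / D) ^ 2))) :=
        mul_le_mul_of_nonneg_left h3 (by positivity)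
    _ = _ := by
        have h8 : 1 / (D * e) = (1 / e) * (1 / D) := by
          rw [one_div_mul_one_div, mul_comm]
        rw [h8]
        ring

end EA42
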