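import Pool.Agent.Lib.MP_ea42c6_pr.Three.U1
import Pool.Agent.Lib.MP_ea42c6_pr.One.N1

/-!
# U17 — second moment of the occupation of a set

`av_sm2`: induction on `t` (for all `u`, `a`); if `u ∈ S` the left side is 0 (`sm2 ≥ 0`); if `u ∉ S`,
`a + g u = a - hb` and `a - hb - (t+1) hb = a - (t+2) hb`.
`sm2_expand`: `sm2 g t u a = a² + 2 a ∑_{s ≤ t} (P^s g) u + sm2 g t u 0`, induction on `t` (for all `a`).
`sm2_step`: `∑ |B u| sm2 g (t+1) u 0 = ip g g + 2 ∑_{s=1}^{t+1} ip g (P^s g) + ∑ |B u| sm2 g t u 0`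
(`sm2 g (t+1) u 0 = ∑ v, kerW u v sm2 g t v (g u)`, `sm2_expand`, `∑ u, |B u| kerW u v F v = |B v| F v`).
`sm2_sum`: so `∑ |B u| sm2 g t u 0 = (t+1) ip g g + 2 ∑_{r=1}^{t} ∑_{s=1}^{r} ip g (P^s g)`, and
`ip g (P^s g) ≤ ip (P^(s/2) g) (P^(s/2) g)` (`ip_half`); `∑_{s=1}^{t} a_{s/2} ≤ a_0 + 2 ∑_{i=1}^{t/2} a_i`.
-/

namespace EA42

open scoped Classical

variable {V : Type*} [Fintype V] {B : V → Finset V}

private theorem U17_zero (g : V → ℝ) (u : V) (a : ℝ) : sm2 B g 0 u a = (a + g u) ^ 2 := rfl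

private theorem U17_succ (g : V → ℝ) (t : ℕ) (u : V) (a : ℝ) :
    sm2 B g (t + 1) u a = ∑ v, kerW B u v * sm2 B g t v (a + g u) := rfl

private theorem U17_av (t : ℕ) (S : Set V) (u : V) :
    av B (t + 1) S u = if u ∈ S then 0 else ∑ v, kerW B u v * av B t S v := rfl

theorem sm2_nonneg (g : V → ℝ) (t : ℕ) (u : V) (a : ℝ) : 0 ≤ sm2 B g t u a := by
  induction t generalizing u a with
  | zero =>
    rw [U17_zero]
    exact sq_nonneg _
  | succ t ih =>
    rw [U17_succ]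
    exact Finset.sum_nonneg fun v _ => mul_nonneg (kerW_nonneg u v) (ih v _)

theorem av_sm2 (g : V → ℝ) (S : Set V) {hb : ℝ} (hg : ∀ u, u ∉ S → g u = -hb) (t : ℕ) (u : V)
    (a : ℝ) : av B t S u * (a - ((t : ℝ) + 1) * hb) ^ 2 ≤ sm2 B g t u a := by
  induction t generalizing u a with
  | zero =>
    have h0 : av B 0 S u = if u ∈ S then 0 else 1 := rfl
    rw [h0]
    split_ifs with hu
    · rw [zero_mul]
      exact sm2_nonneg g 0 u a
    · rw [U17_zero, hg u hu, one_mul]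
      refine le_of_eq ?_
      push_cast
      ring
  | succ t ih =>
    rw [U17_av]
    split_ifs with hu
    · rw [zero_mul]
      exact sm2_nonneg g (t + 1) u a
    · rw [U17_succ, Finset.sum_mul]
      refine Finset.sum_le_sum fun v _ => ?_
      rw [mul_assoc]
      refine mul_le_mul_of_nonneg_left ?_ (kerW_nonneg u v)
      refine le_trans (le_of_eq ?_) (ih v (a + g u))
      rw [hg u hu]
      push_cast
      ring

private theorem U17_sum (g : V → ℝ) (t : ℕ) (u : V) :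
    ∑ v, kerW B u v * (∑ s ∈ Finset.range (t + 1), (opP B)^[s] g v) =
      ∑ s ∈ Finset.range (t + 1), (opP B)^[s + 1] g u := by
  have h1 : ∀ v, kerW B u v * (∑ s ∈ Finset.range (t + 1), (opP B)^[s] g v) =
      ∑ s ∈ Finset.range (t + 1), kerW B u v * (opP B)^[s] g v := fun v => Finset.mul_sum _ _ _
  rw [Finset.sum_congr rfl fun v _ => h1 v, Finset.sum_comm]
  refine Finset.sum_congr rfl fun s _ => ?_
  rw [Function.iterate_succ_apply']
  rfl

/-- One step of the second moment. -/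
private theorem U17_step (hself : ∀ u, u ∈ B u) (g : V → ℝ) (t : ℕ)
    (hex : ∀ (u : V) (a : ℝ), sm2 B g t u a = a ^ 2 +
      2 * a * (∑ s ∈ Finset.range (t + 1), (opP B)^[s] g u) + sm2 B g t u 0) (u : V) (a : ℝ) :
    sm2 B g (t + 1) u a = (a + g u) ^ 2 +
      2 * (a + g u) * (∑ s ∈ Finset.range (t + 1), (opP B)^[s + 1] g u) +
      ∑ v, kerW B u v * sm2 B g t v 0 := by
  rw [U17_succ]
  have h1 : ∀ v, kerW B u v * sm2 B g t v (a + g u) = (a + g u) ^ 2 * kerW B u v +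
      2 * (a + g u) * (kerW B u v * (∑ s ∈ Finset.range (t + 1), (opP B)^[s] g v)) +
      kerW B u v * sm2 B g t v 0 := by
    intro v
    rw [hex v (a + g u)]
    ring
  rw [Finset.sum_congr rfl fun v _ => h1 v, Finset.sum_add_distrib, Finset.sum_add_distrib,
    ← Finset.mul_sum, ← Finset.mul_sum, (isProb_kerW hself u).2, mul_one, U17_sum]

theorem sm2_expand (hself : ∀ u, u ∈ B u) (g : V → ℝ) (t : ℕ) (u : V) (a : ℝ) :
    sm2 B g t u a = a ^ 2 + 2 * a * (∑ s ∈ Finset.range (t + 1), (opP B)^[s] g u) +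
      sm2 B g t u 0 := by
  induction t generalizing u a with
  | zero =>
    rw [U17_zero, U17_zero, Finset.sum_range_one, Function.iterate_zero]
    show (a + g u) ^ 2 = a ^ 2 + 2 * a * g u + (0 + g u) ^ 2
    ring
  | succ t ih =>
    rw [U17_step hself g t ih u a, U17_step hself g t ih u 0,
      Finset.sum_range_succ' (fun s => (opP B)^[s] g u) (t + 1), Function.iterate_zero]
    show _ = a ^ 2 + 2 * a * (∑ s ∈ Finset.range (t + 1), (opP B)^[s + 1] g u + g u) + _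
    ring

private theorem U17_inv (hB : SymB B) (F : V → ℝ) :
    ∑ u, ((B u).card : ℝ) * ∑ v, kerW B u v * F v = ∑ v, ((B v).card : ℝ) * F v := by
  have h1 : ∀ u, ((B u).card : ℝ) * ∑ v, kerW B u v * F v =
      ∑ v, ((B v).card : ℝ) * kerW B v u * F v := by
    intro u
    rw [Finset.mul_sum]
    refine Finset.sum_congr rfl fun v _ => ?_
    have h2 := pk_rev hB 1 u v
    rw [pk_one, pk_one] at h2
    rw [← mul_assoc, h2]
  rw [Finset.sum_congr rfl fun u _ => h1 u, Finset.sum_comm]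
  refine Finset.sum_congr rfl fun v _ => ?_
  rw [← Finset.sum_mul, ← Finset.mul_sum, (isProb_kerW hB.self v).2, mul_one]

theorem sm2_step (hB : SymB B) (g : V → ℝ) (t : ℕ) :
    ∑ u, ((B u).card : ℝ) * sm2 B g (t + 1) u 0 =
      ip B g g + 2 * (∑ s ∈ Finset.Icc 1 (t + 1), ip B g ((opP B)^[s] g)) +
        ∑ u, ((B u).card : ℝ) * sm2 B g t u 0 := by
  have h1 : ∀ u, ((B u).card : ℝ) * sm2 B g (t + 1) u 0 = ((B u).card : ℝ) * (g u * g u) +
      2 * (∑ s ∈ Finset.range (t + 1), ((B u).card : ℝ) * (g u * (opP B)^[s + 1] g u)) +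
      ((B u).card : ℝ) * ∑ v, kerW B u v * sm2 B g t v 0 := by
    intro u
    have h2 : ∑ s ∈ Finset.range (t + 1), ((B u).card : ℝ) * (g u * (opP B)^[s + 1] g u) =
        ((B u).card : ℝ) * (g u * ∑ s ∈ Finset.range (t + 1), (opP B)^[s + 1] g u) := by
      rw [Finset.mul_sum, Finset.mul_sum]
    rw [U17_step hB.self g t (sm2_expand hB.self g t) u 0, h2]
    ring
  rw [Finset.sum_congr rfl fun u _ => h1 u, Finset.sum_add_distrib, Finset.sum_add_distrib,
    U17_inv hB, ← Finset.mul_sum, Finset.sum_comm]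
  have h3 : ∑ s ∈ Finset.Icc 1 (t + 1), ip B g ((opP B)^[s] g) =
      ∑ s ∈ Finset.range (t + 1), ip B g ((opP B)^[s + 1] g) := by
    have h4 : ∀ n : ℕ, ∑ s ∈ Finset.Icc 1 n, ip B g ((opP B)^[s] g) =
        ∑ s ∈ Finset.range n, ip B g ((opP B)^[s + 1] g) := by
      intro n
      induction n with
      | zero => simp
      | succ n ih => rw [Finset.sum_Icc_succ_top (by omega), Finset.sum_range_succ, ih]
    exact h4 (t + 1)
  rw [h3]
  rfl

private theorem U17_half (a : ℕ → ℝ) (k : ℕ) :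
    ∑ s ∈ Finset.Icc 1 (2 * k + 1), a (s / 2) = a 0 + 2 * ∑ i ∈ Finset.Icc 1 k, a i := by
  induction k with
  | zero => simp
  | succ k ih =>
    have h1 : 2 * (k + 1) + 1 = (2 * k + 1) + 1 + 1 := by ring
    rw [h1, Finset.sum_Icc_succ_top (by omega), Finset.sum_Icc_succ_top (by omega), ih,
      Finset.sum_Icc_succ_top (by omega)]
    have h2 : (2 * k + 1 + 1) / 2 = k + 1 := by omega
    have h3 : (2 * k + 1 + 1 + 1) / 2 = k + 1 := by omega
    rw [h2, h3]
    ring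

theorem sm2_sum (hB : SymB B) (g : V → ℝ) (t : ℕ) :
    ∑ u, ((B u).card : ℝ) * sm2 B g t u 0 ≤ ((t : ℝ) + 1) * (3 * ip B g g +
      4 * ∑ i ∈ Finset.Icc 1 (t / 2), ip B ((opP B)^[i] g) ((opP B)^[i] g)) := by
  set a : ℕ → ℝ := fun i => ip B ((opP B)^[i] g) ((opP B)^[i] g) with ha
  have ha0 : ∀ i, 0 ≤ a i := fun i => ip_self_nonneg _
  have hag : a 0 = ip B g g := rfl
  induction t with
  | zero =>
    have h1 : ∑ u, ((B u).card : ℝ) * sm2 B g 0 u 0 = ip B g g := by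
      unfold ip
      refine Finset.sum_congr rfl fun u _ => ?_
      rw [U17_zero]
      ring
    rw [h1]
    have h2 := ha0 0
    rw [hag] at h2
    simp
    linarith
  | succ t ih =>
    rw [sm2_step hB]
    have h1 : ∑ s ∈ Finset.Icc 1 (t + 1), ip B g ((opP B)^[s] g) ≤
        a 0 + 2 * ∑ i ∈ Finset.Icc 1 ((t + 1) / 2), a i := by
      rw [← U17_half]
      have h2 : ∑ s ∈ Finset.Icc 1 (t + 1), ip B g ((opP B)^[s] g) ≤
          ∑ s ∈ Finset.Icc 1 (t + 1), a (s / 2) :=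
        Finset.sum_le_sum fun s _ => (le_abs_self _).trans (ip_half hB s g)
      refine h2.trans (Finset.sum_le_sum_of_subset_of_nonneg ?_ fun i _ _ => ha0 _)
      exact Finset.Icc_subset_Icc le_rfl (by omega)
    have h2 : ∑ i ∈ Finset.Icc 1 (t / 2), a i ≤ ∑ i ∈ Finset.Icc 1 ((t + 1) / 2), a i := by
      refine Finset.sum_le_sum_of_subset_of_nonneg ?_ fun i _ _ => ha0 _
      exact Finset.Icc_subset_Icc le_rfl (by omega)
    have ht : (0 : ℝ) ≤ (t : ℝ) + 1 := by positivity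
    have h3 : ((t : ℝ) + 1) * (3 * ip B g g + 4 * ∑ i ∈ Finset.Icc 1 (t / 2), a i) ≤
        ((t : ℝ) + 1) * (3 * ip B g g + 4 * ∑ i ∈ Finset.Icc 1 ((t + 1) / 2), a i) :=
      mul_le_mul_of_nonneg_left (by linarith) ht
    rw [hag] at h1
    push_cast
    nlinarith [ih, h1, h3]

end EA42
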