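import Pool.Agent.Lib.MP_ea42c6_pr.Three.U22
import Pool.Agent.Lib.MP_ea42c6_pr.Three.U14

/-!
# U24 — elementary facts on `NC` and `SI`

`nc_ge_one`: the `m` points of the cycle of `x` contribute `m (1/m)` (`cyc_card`, `onCyc_iter`).
`si_card`: every `x ∈ SI` contributes at least `1/T₂` to `NC`.
`same_card`: the points `f^[p] z`, `p < m ≤ T₂` (`cyc_card`).
`nc_mean`: exchange the sums; `cyc_le`.  `nc_zero`: `1 - [NC = 0] ≤ NC` (`nc_ge_one`; if `NC ≠ 0` some `x`
is in `SI`), then `nc_mean`.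
-/

namespace EA42

open scoped Classical

theorem nc_nonneg {V : Type*} [Fintype V] (f : V → V) (I : Finset ℕ) : 0 ≤ NC f I := by
  unfold NC
  refine Finset.sum_nonneg fun x _ => Finset.sum_nonneg fun m _ => ?_
  split_ifs
  · positivity
  · exact le_refl _

theorem U24_inner {V : Type*} (f : V → V) {I : Finset ℕ} {m : ℕ} (hm : m ∈ I) {x : V}
    (hx : OnCyc f m x) : 1 / (m : ℝ) ≤ ∑ m' ∈ I, if OnCyc f m' x then 1 / (m' : ℝ) else 0 := by
  have h := Finset.single_le_sum (f := fun m' => if OnCyc f m' x then 1 / (m' : ℝ) else 0)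
    (s := I) (fun i _ => by positivity) hm
  rw [if_pos hx] at h
  exact h

theorem nc_ge_one {V : Type*} [Fintype V] (f : V → V) {I : Finset ℕ} {x : V}
    (hx : x ∈ SI f I) : 1 ≤ NC f I := by
  obtain ⟨m, hm, hc⟩ := hx
  have hm0 : (m : ℝ) ≠ 0 := by
    have := hc.1
    positivity
  have h1 : (1 : ℝ) = ∑ y, if (∃ i, f^[i] x = y) then 1 / (m : ℝ) else 0 := by
    rw [← Finset.sum_filter, Finset.sum_const, nsmul_eq_mul, cyc_card hc]
    field_simp
  rw [h1]
  unfold NC
  refine Finset.sum_le_sum fun y _ => ?_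
  split_ifs with hy
  · obtain ⟨i, hi⟩ := hy
    rw [← hi]
    exact U24_inner f hm (onCyc_iter hc i)
  · refine Finset.sum_nonneg fun m' _ => ?_
    positivity

theorem nc_zero_iff {V : Type*} [Fintype V] (f : V → V) (I : Finset ℕ) :
    NC f I = 0 ↔ SI f I = ∅ := by
  constructor
  · intro h
    rw [Set.eq_empty_iff_forall_notMem]
    intro x hx
    have := nc_ge_one f hx
    linarith
  · intro h
    unfold NC
    refine Finset.sum_eq_zero fun x _ => Finset.sum_eq_zero fun m hm => ?_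
    rw [if_neg]
    intro hc
    have hx : x ∈ SI f I := ⟨m, hm, hc⟩
    rw [h] at hx
    exact hx

theorem si_card {V : Type*} [Fintype V] (f : V → V) {I : Finset ℕ} {T₂ : ℕ}
    (hI : ∀ m ∈ I, m ≤ T₂) :
    ((Finset.univ.filter fun x => x ∈ SI f I).card : ℝ) ≤ T₂ * NC f I := by
  have h1 : ((Finset.univ.filter fun x => x ∈ SI f I).card : ℝ) =
      ∑ x, if x ∈ SI f I then (1 : ℝ) else 0 := by
    rw [← Finset.sum_filter, Finset.sum_const, nsmul_eq_mul, mul_one]
  rw [h1]
  unfold NC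
  rw [Finset.mul_sum]
  refine Finset.sum_le_sum fun x _ => ?_
  split_ifs with hx
  · obtain ⟨m, hm, hc⟩ := hx
    have h2 := U24_inner f hm hc
    have hm0 : (0 : ℝ) < m := by
      have := hc.1
      positivity
    have h3 : (m : ℝ) ≤ T₂ := by exact_mod_cast hI m hm
    have h4 : (1 : ℝ) ≤ T₂ * (1 / m) := by
      rw [mul_one_div, le_div_iff₀ hm0, one_mul]
      exact h3
    exact h4.trans (mul_le_mul_of_nonneg_left h2 (by positivity))
  · refine mul_nonneg (by positivity) (Finset.sum_nonneg fun m' _ => ?_)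
    positivity

theorem same_card {V : Type*} [Fintype V] (f : V → V) {I : Finset ℕ} {T₂ : ℕ}
    (hI : ∀ m ∈ I, m ≤ T₂) {z : V} (hz : z ∈ SI f I) :
    (Finset.univ.filter fun z' => ∃ p, f^[p] z = z').card ≤ T₂ := by
  obtain ⟨m, hm, hc⟩ := hz
  rw [cyc_card hc]
  exact hI m hm

theorem nc_mean {V : Type*} [Fintype V] [DecidableEq V] {B : V → Finset V}
    (hself : ∀ u, u ∈ B u) (I : Finset ℕ) :
    ∑ f, prodW (kerW B) f * NC f I ≤ ∑ m ∈ I, tr B m / m := by
  have h1 : ∀ f : V → V, prodW (kerW B) f * NC f I =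
      ∑ m ∈ I, ∑ x, (if f ∈ {f | OnCyc f m x} then prodW (kerW B) f else 0) * (1 / (m : ℝ)) := by
    intro f
    unfold NC
    rw [Finset.sum_comm, Finset.mul_sum]
    refine Finset.sum_congr rfl fun m _ => ?_
    rw [Finset.mul_sum]
    refine Finset.sum_congr rfl fun x _ => ?_
    by_cases h : OnCyc f m x
    · have h' : f ∈ {f : V → V | OnCyc f m x} := h
      rw [if_pos h, if_pos h']
    · have h' : ¬ f ∈ {f : V → V | OnCyc f m x} := h
      rw [if_neg h, if_neg h', mul_zero, zero_mul]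
  rw [Finset.sum_congr rfl fun f _ => h1 f, Finset.sum_comm]
  refine Finset.sum_le_sum fun m _ => ?_
  rw [Finset.sum_comm]
  unfold tr
  rw [Finset.sum_div]
  refine Finset.sum_le_sum fun x _ => ?_
  rw [← Finset.sum_mul, div_eq_mul_one_div (pk B m x x)]
  refine mul_le_mul_of_nonneg_right ?_ (by positivity)
  exact cyc_le hself m x

theorem nc_zero {V : Type*} [Fintype V] [DecidableEq V] {B : V → Finset V}
    (hself : ∀ u, u ∈ B u) (I : Finset ℕ) :
    1 - ∑ m ∈ I, tr B m / m ≤ pr (prodW (kerW B)) {f | NC f I = 0} := by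
  have hP := isProb_prodW (isProb_kerW hself)
  have h1 := nc_mean hself I
  have h2 : (1 : ℝ) ≤ ∑ f, prodW (kerW B) f * NC f I + pr (prodW (kerW B)) {f | NC f I = 0} := by
    rw [← hP.2]
    unfold pr
    rw [← Finset.sum_add_distrib]
    refine Finset.sum_le_sum fun f _ => ?_
    by_cases hf : NC f I = 0
    · have hf' : f ∈ {f : V → V | NC f I = 0} := hf
      rw [if_pos hf', hf, mul_zero, zero_add]
    · have hf' : ¬ f ∈ {f : V → V | NC f I = 0} := hf
      rw [if_neg hf', add_zero]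
      have h3 : SI f I ≠ ∅ := fun h => hf ((nc_zero_iff f I).mpr h)
      obtain ⟨x, hx⟩ := Set.nonempty_iff_ne_empty.mpr h3
      have h4 := nc_ge_one f hx
      have h5 := hP.1 f
      nlinarith
  linarith

end EA42
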