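import Pool.Agent.Lib.MP_ea42c6_pr.Three.U13
import Pool.Agent.Lib.MP_ea42c6_pr.Three.U17
import Pool.Agent.Lib.MP_ea42c6_pr.Three.U24

/-!
# U18 — cycles with small energy absorb the walk quickly

`c x = ∑_{m ∈ I} [OnCyc f m x ∧ ¬ e < En (opath f x K)]/m ≥ 0`; `∑ x, c x = NC - NB ≥ k - 1/2 ≥ k/2` and
`∑ x, c x ≤ NC = k`.  `ψ = ∑ x, c x ∑_{s ≤ K} hf (f^[s] x)`, `L y = |B y| ψ y = ∑ x, c x #{s ≤ K | f^[s] x = y}`.
* `L y ≤ 1` (`occ_le`): if `f^[s] x = y` with `OnCyc f m x` then `y` is on the same cycle, `OnCyc f m y`, and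
  `x = f^[m-s] y`; for each `y` at most `m` such `x` (the points `f^[a] y`, `1 ≤ a ≤ m`), each with at most one
  `s ≤ K < m` and weight at most `1/m`.  `L y = 0` for `y ∉ SI f I`.
* `l0 := ∑ y, L y = (K+1) ∑ c ≥ (K+1) k/2` (`∑ y, |B y| hf z y = 1`).
* `g = ψ - l0/vol`, `hb = l0/vol`: `g = -hb` off `SI`; `ip g g ≤ ip ψ ψ = ∑ L²/|B y| ≤ l0/D`.
* `P^i g = ∑ x, c x G_{x,i}`, `G_{x,i} = ∑_{s ≤ K} (P^i hf (f^[s] x) - 1/vol)` (`iter_lin`, `iter_sub_const`),
  Cauchy-Schwarz: `ip (P^i g) (P^i g) ≤ (∑ c) ∑ x, c x ip G G`, and `∑_{i=1}^{J} ip G_{x,i} G_{x,i} = En (opath f x K) ≤ e`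
  where `c x > 0` (`En_eq`): `∑_{i=1}^{t/2} ≤ k² e`.
`av_sm2` with `a = 0` and `sm2_sum`: `∑ |B u| av t SI u ((t+1) l0/vol)² ≤ (t+1)(3 l0/D + 4 k² e)`; `|B u| ≥ D`:
`∑ av ≤ vol² (3 l0/D + 4 k² e)/(D (t+1) l0²) ≤ κ n vol (3/(D (t+1) l0) + 4 k² e/((t+1) l0²))`
`≤ κ² n (6 n/((t+1)(K+1) k) + 16 D n e/((t+1)(K+1)²))` (`vol ≤ κ D n`).
-/

namespace EA42

open scoped Classical

private theorem occ_one {V : Type*} (f : V → V) {m K : ℕ} {x y : V} (hK : K < m)
    (h : OnCyc f m x) :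
    (Finset.univ.filter fun s : Fin (K + 1) => f^[(s : ℕ)] x = y).card ≤ 1 := by
  rw [Finset.card_le_one]
  intro a ha b hb
  rw [Finset.mem_filter] at ha hb
  apply Fin.ext
  exact h.2.1 a (by have := a.2; omega) b (by have := b.2; omega) (ha.2.trans hb.2.symm)

theorem occ_le {V : Type*} [Fintype V] (f : V → V) {I : Finset ℕ} {K : ℕ}
    (hI : ∀ m ∈ I, K < m) (c : V → ℝ) (hc : ∀ x, 0 ≤ c x)
    (hc1 : ∀ x m, OnCyc f m x → m ∈ I → c x ≤ 1 / (m : ℝ)) (hc0 : ∀ x, x ∉ SI f I → c x = 0)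
    (y : V) :
    ∑ x, c x * ((Finset.univ.filter fun s : Fin (K + 1) => f^[(s : ℕ)] x = y).card : ℝ) ≤ 1 ∧
    (y ∉ SI f I →
      ∑ x, c x * ((Finset.univ.filter fun s : Fin (K + 1) => f^[(s : ℕ)] x = y).card : ℝ) =
        0) := by
  have hterm : ∀ x,
      c x * ((Finset.univ.filter fun s : Fin (K + 1) => f^[(s : ℕ)] x = y).card : ℝ) ≠ 0 →
      ∃ m ∈ I, OnCyc f m x ∧ OnCyc f m y ∧ ∃ j, f^[j] y = x := by
    intro x hx
    have hcx : c x ≠ 0 := left_ne_zero_of_mul hx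
    have hNx := right_ne_zero_of_mul hx
    have hSI : x ∈ SI f I := by
      by_contra hn
      exact hcx (hc0 x hn)
    obtain ⟨m, hm, hmx⟩ := hSI
    have hne : (Finset.univ.filter fun s : Fin (K + 1) => f^[(s : ℕ)] x = y).Nonempty := by
      rw [← Finset.card_pos, Nat.pos_iff_ne_zero]
      exact_mod_cast hNx
    obtain ⟨s, hs⟩ := hne
    rw [Finset.mem_filter] at hs
    obtain ⟨j, hj⟩ := onCyc_back hmx (s : ℕ)
    refine ⟨m, hm, hmx, ?_, j, ?_⟩
    · rw [← hs.2]; exact onCyc_iter hmx _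
    · rw [← hs.2]; exact hj
  have hzero : y ∉ SI f I →
      ∑ x, c x * ((Finset.univ.filter fun s : Fin (K + 1) => f^[(s : ℕ)] x = y).card : ℝ) =
        0 := by
    intro hy
    refine Finset.sum_eq_zero fun x _ => ?_
    by_contra h0
    obtain ⟨m, hm, -, hmy, -⟩ := hterm x h0
    exact hy ⟨m, hm, hmy⟩
  refine ⟨?_, hzero⟩
  by_cases hy : y ∈ SI f I
  · obtain ⟨m, hm, hmy⟩ := hy
    have hm0 : (0 : ℝ) < m := by exact_mod_cast hmy.1
    have h1 : ∀ x,
        c x * ((Finset.univ.filter fun s : Fin (K + 1) => f^[(s : ℕ)] x = y).card : ℝ) ≤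
          if (∃ i, f^[i] y = x) then 1 / (m : ℝ) else 0 := by
      intro x
      by_cases h0 :
        c x * ((Finset.univ.filter fun s : Fin (K + 1) => f^[(s : ℕ)] x = y).card : ℝ) = 0
      · rw [h0]
        split_ifs
        · positivity
        · exact le_rfl
      · obtain ⟨m', hm', hx, hy', hj⟩ := hterm x h0
        have hmm : m' = m := onCyc_unique hy' hmy
        rw [hmm] at hx
        rw [if_pos hj]
        have hN := occ_one (y := y) f (hI m hm) hx
        have hN' : ((Finset.univ.filter fun s : Fin (K + 1) => f^[(s : ℕ)] x = y).card : ℝ) ≤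
            1 := by exact_mod_cast hN
        calc c x * ((Finset.univ.filter fun s : Fin (K + 1) => f^[(s : ℕ)] x = y).card : ℝ)
            ≤ c x * 1 := mul_le_mul_of_nonneg_left hN' (hc x)
          _ = c x := mul_one _
          _ ≤ 1 / (m : ℝ) := hc1 x m hx hm
    refine (Finset.sum_le_sum fun x _ => h1 x).trans ?_
    rw [← Finset.sum_filter, Finset.sum_const, nsmul_eq_mul, cyc_card hmy]
    rw [mul_one_div, div_self hm0.ne']
  · rw [hzero hy]; exact zero_le_one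

private theorem av_nonneg' {V : Type*} [Fintype V] {B : V → Finset V} (t : ℕ) (S : Set V)
    (u : V) : 0 ≤ av B t S u := by
  induction t generalizing u with
  | zero =>
    unfold av
    split_ifs
    · exact le_rfl
    · exact zero_le_one
  | succ t ih =>
    unfold av
    split_ifs
    · exact le_rfl
    · exact Finset.sum_nonneg fun v _ => mul_nonneg (kerW_nonneg _ _) (ih v)

private theorem absorb_real {n D κ e A t1 K1 k vol l0 : ℝ} (hn : 0 < n) (hD : 0 < D)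
    (hκ : 0 < κ) (he : 0 ≤ e) (ht : 0 < t1) (hK : 0 < K1) (hk : 0 < k) (hvol : 0 < vol)
    (hvol2 : vol ≤ κ * D * n) (hl0 : K1 * (k / 2) ≤ l0)
    (hA : D * (A * (t1 * (l0 / vol)) ^ 2) ≤ t1 * (3 * (l0 / D) + 4 * (k * (k * e)))) :
    A ≤ n * (6 * κ ^ 2 * n / (t1 * K1 * k) + 16 * κ ^ 2 * D * n * e / (t1 * K1 ^ 2)) := by
  have hl : 0 < l0 := lt_of_lt_of_le (by positivity) hl0
  have h1 : A ≤ vol ^ 2 * (3 / (D ^ 2 * t1 * l0) + 4 * k ^ 2 * e / (D * t1 * l0 ^ 2)) := by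
    have h2 : D * (A * (t1 * (l0 / vol)) ^ 2) = A * (D * t1 ^ 2 * l0 ^ 2 / vol ^ 2) := by
      field_simp
    rw [h2, ← le_div_iff₀ (by positivity)] at hA
    refine hA.trans_eq ?_
    field_simp
  have h3 : vol ^ 2 ≤ (κ * D * n) ^ 2 := pow_le_pow_left₀ hvol.le hvol2 2
  have h4 : 3 / (D ^ 2 * t1 * l0) ≤ 3 / (D ^ 2 * t1 * (K1 * (k / 2))) := by
    apply div_le_div_of_nonneg_left (by norm_num) (by positivity)
    exact mul_le_mul_of_nonneg_left hl0 (by positivity)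
  have h5 : 4 * k ^ 2 * e / (D * t1 * l0 ^ 2) ≤
      4 * k ^ 2 * e / (D * t1 * (K1 * (k / 2)) ^ 2) := by
    apply div_le_div_of_nonneg_left (by positivity) (by positivity)
    apply mul_le_mul_of_nonneg_left _ (by positivity)
    exact pow_le_pow_left₀ (by positivity) hl0 2
  have h6 : 0 ≤ 3 / (D ^ 2 * t1 * l0) + 4 * k ^ 2 * e / (D * t1 * l0 ^ 2) := by positivity
  calc A ≤ vol ^ 2 * (3 / (D ^ 2 * t1 * l0) + 4 * k ^ 2 * e / (D * t1 * l0 ^ 2)) := h1
    _ ≤ (κ * D * n) ^ 2 * (3 / (D ^ 2 * t1 * l0) + 4 * k ^ 2 * e / (D * t1 * l0 ^ 2)) :=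
      mul_le_mul_of_nonneg_right h3 h6
    _ ≤ (κ * D * n) ^ 2 * (3 / (D ^ 2 * t1 * (K1 * (k / 2))) +
        4 * k ^ 2 * e / (D * t1 * (K1 * (k / 2)) ^ 2)) :=
      mul_le_mul_of_nonneg_left (add_le_add h4 h5) (by positivity)
    _ = n * (6 * κ ^ 2 * n / (t1 * K1 * k) + 16 * κ ^ 2 * D * n * e / (t1 * K1 ^ 2)) := by
      field_simp
      ring

theorem absorb {V : Type*} [Fintype V] [Nonempty V] {B : V → Finset V} {D κ : ℝ}
    (h : DReg B D κ) (f : V → V) {I : Finset ℕ} {K t k : ℕ} {e : ℝ} (he : 0 ≤ e) (hk : 1 ≤ k)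
    (hI : ∀ m ∈ I, K < m) (hNC : NC f I = k) (hNB : NB B (t / 2) K e f I ≤ 1 / 2) :
    ∑ u, av B t (SI f I) u ≤ (Fintype.card V : ℝ) *
      (6 * κ ^ 2 * (Fintype.card V : ℝ) / (((t : ℝ) + 1) * ((K : ℝ) + 1) * k) +
        16 * κ ^ 2 * D * (Fintype.card V : ℝ) * e / (((t : ℝ) + 1) * ((K : ℝ) + 1) ^ 2)) := by
  have hD := h.pos
  have hself := h.sym.self
  have hκ : 0 < κ := lt_of_lt_of_le one_pos (kappa_one h)
  have hB : ∀ z, 0 < ((B z).card : ℝ) := fun z => hD.trans_le (h.lo z)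
  have hvol := vol_pos h
  have hvol2 := vol_le h
  have hk1 : (1 : ℝ) ≤ k := by exact_mod_cast hk
  obtain ⟨c, hcd⟩ : ∃ c : V → ℝ, ∀ x, c x = ∑ m ∈ I,
      if OnCyc f m x ∧ ¬ (e < En B (t / 2) K (opath f x K)) then 1 / (m : ℝ) else 0 :=
    ⟨_, fun _ => rfl⟩
  have hc : ∀ x, 0 ≤ c x := by
    intro x
    rw [hcd]
    refine Finset.sum_nonneg fun m _ => ?_
    split_ifs
    · positivity
    · exact le_rfl
  have hc1 : ∀ x m, OnCyc f m x → m ∈ I → c x ≤ 1 / (m : ℝ) := by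
    intro x m hx hm
    rw [hcd, Finset.sum_eq_single_of_mem m hm]
    · split_ifs
      · exact le_rfl
      · positivity
    · intro m' _ hne
      rw [if_neg]
      rintro ⟨h1, -⟩
      exact hne (onCyc_unique h1 hx)
  have hc0 : ∀ x, x ∉ SI f I → c x = 0 := by
    intro x hx
    rw [hcd]
    refine Finset.sum_eq_zero fun m hm => ?_
    rw [if_neg]
    rintro ⟨h1, -⟩
    exact hx ⟨m, hm, h1⟩
  have hcE : ∀ x, c x ≠ 0 → En B (t / 2) K (opath f x K) ≤ e := by
    intro x hx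
    by_contra hlt
    push Not at hlt
    apply hx
    rw [hcd]
    refine Finset.sum_eq_zero fun m hm => ?_
    rw [if_neg]
    rintro ⟨-, h1⟩
    exact h1 hlt
  have hsumc : ∑ x, c x = k - NB B (t / 2) K e f I := by
    rw [← hNC]
    unfold NC NB
    rw [← Finset.sum_sub_distrib]
    refine Finset.sum_congr rfl fun x _ => ?_
    rw [hcd, ← Finset.sum_sub_distrib]
    refine Finset.sum_congr rfl fun m _ => ?_
    by_cases h1 : OnCyc f m x
    · by_cases h2 : e < En B (t / 2) K (opath f x K)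
      · simp [h1, h2]
      · simp [h1, h2]
    · simp [h1]
  have hNB0 : 0 ≤ NB B (t / 2) K e f I := by
    unfold NB
    refine Finset.sum_nonneg fun x _ => Finset.sum_nonneg fun m _ => ?_
    split_ifs
    · positivity
    · exact le_rfl
  have hclo : (k : ℝ) / 2 ≤ ∑ x, c x := by rw [hsumc]; linarith
  have hchi : ∑ x, c x ≤ k := by rw [hsumc]; linarith
  have hcs0 : 0 ≤ ∑ x, c x := Finset.sum_nonneg fun x _ => hc x
  -- the density
  obtain ⟨ψ, hψ⟩ : ∃ ψ : V → ℝ, ∀ z, ψ z = ∑ x, c x * ∑ s : Fin (K + 1),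
      hf B (f^[(s : ℕ)] x) z := ⟨_, fun _ => rfl⟩
  have hBψ : ∀ z, ((B z).card : ℝ) * ψ z = ∑ x, c x *
      ((Finset.univ.filter fun s : Fin (K + 1) => f^[(s : ℕ)] x = z).card : ℝ) := by
    intro z
    rw [hψ, Finset.mul_sum]
    refine Finset.sum_congr rfl fun x _ => ?_
    rw [mul_left_comm, Finset.mul_sum, Finset.card_filter]
    congr 1
    rw [Nat.cast_sum]
    refine Finset.sum_congr rfl fun s _ => ?_
    unfold hf
    by_cases hs : f^[(s : ℕ)] x = z
    · rw [if_pos hs.symm, if_pos hs, hs, Nat.cast_one, mul_one_div, div_self (hB z).ne']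
    · rw [if_neg (fun h => hs h.symm), if_neg hs, mul_zero, Nat.cast_zero]
  have hocc := fun y => occ_le f hI c hc hc1 hc0 y
  have hL1 : ∀ z, ((B z).card : ℝ) * ψ z ≤ 1 := by
    intro z; rw [hBψ]; exact (hocc z).1
  have hψ0 : ∀ z, z ∉ SI f I → ψ z = 0 := by
    intro z hz
    have h1 := (hocc z).2 hz
    rw [← hBψ] at h1
    exact (mul_eq_zero.1 h1).resolve_left (hB z).ne'
  have hψn : ∀ z, 0 ≤ ψ z := by
    intro z
    rw [hψ]
    refine Finset.sum_nonneg fun x _ => mul_nonneg (hc x) (Finset.sum_nonneg fun s _ => ?_)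
    unfold hf
    split_ifs
    · positivity
    · exact le_rfl
  obtain ⟨l0, hl0⟩ : ∃ l0 : ℝ, l0 = ∑ z, ((B z).card : ℝ) * ψ z := ⟨_, rfl⟩
  have hl0' : l0 = ((K : ℝ) + 1) * ∑ x, c x := by
    rw [hl0]
    have e1 : ∑ z, ((B z).card : ℝ) * ψ z = ∑ z, ∑ x, c x *
        ((Finset.univ.filter fun s : Fin (K + 1) => f^[(s : ℕ)] x = z).card : ℝ) :=
      Finset.sum_congr rfl fun z _ => hBψ z
    rw [e1, Finset.sum_comm, Finset.mul_sum]
    refine Finset.sum_congr rfl fun x _ => ?_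
    rw [← Finset.mul_sum, mul_comm]
    congr 1
    have h1 := Finset.card_eq_sum_card_fiberwise (f := fun s : Fin (K + 1) => f^[(s : ℕ)] x)
      (s := Finset.univ) (t := Finset.univ) (fun _ _ => Finset.mem_coe.2 (Finset.mem_univ _))
    rw [Finset.card_univ, Fintype.card_fin] at h1
    have h2 : ((K + 1 : ℕ) : ℝ) = ((∑ z : V,
        (Finset.univ.filter fun s : Fin (K + 1) => f^[(s : ℕ)] x = z).card : ℕ) : ℝ) := by
      rw [← h1]
    rw [Nat.cast_sum] at h2
    rw [← h2]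
    push_cast
    rfl
  have hl0lo : ((K : ℝ) + 1) * ((k : ℝ) / 2) ≤ l0 := by
    rw [hl0']; exact mul_le_mul_of_nonneg_left hclo (by positivity)
  have hl0pos : 0 < l0 := lt_of_lt_of_le (by positivity) hl0lo
  obtain ⟨g, hg⟩ : ∃ g : V → ℝ, g = fun z => ψ z - l0 / vol B := ⟨_, rfl⟩
  have hgoff : ∀ u, u ∉ SI f I → g u = -(l0 / vol B) := by
    intro u hu
    rw [hg]
    simp only
    rw [hψ0 u hu, zero_sub]
  have hgg : ip B g g ≤ l0 / D := by
    have e1 : ip B g g = ∑ z, ((B z).card : ℝ) * (ψ z * ψ z) - l0 ^ 2 / vol B := by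
      have e2 : ∀ z, ((B z).card : ℝ) * (g z * g z) = ((B z).card : ℝ) * (ψ z * ψ z) -
          2 * (l0 / vol B) * (((B z).card : ℝ) * ψ z) + (l0 / vol B) ^ 2 * ((B z).card : ℝ) := by
        intro z
        rw [hg]
        ring
      unfold ip
      rw [Finset.sum_congr rfl fun z _ => e2 z, Finset.sum_add_distrib, Finset.sum_sub_distrib,
        ← Finset.mul_sum, ← Finset.mul_sum, ← hl0]
      have e3 : ∑ z, ((B z).card : ℝ) = vol B := rfl
      rw [e3]
      field_simp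
      ring
    have e2 : 0 ≤ l0 ^ 2 / vol B := by positivity
    have e3 : ∑ z, ((B z).card : ℝ) * (ψ z * ψ z) ≤ l0 / D := by
      rw [le_div_iff₀ hD, hl0, Finset.sum_mul]
      refine Finset.sum_le_sum fun z _ => ?_
      have h1 := hL1 z
      have h2 := hψn z
      have h3 := h.lo z
      calc ((B z).card : ℝ) * (ψ z * ψ z) * D = (((B z).card : ℝ) * ψ z) * (D * ψ z) := by ring
        _ ≤ 1 * (D * ψ z) := mul_le_mul_of_nonneg_right h1 (by positivity)
        _ = D * ψ z := one_mul _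
        _ ≤ ((B z).card : ℝ) * ψ z := mul_le_mul_of_nonneg_right h3 h2
    rw [e1]; linarith
  obtain ⟨G, hG⟩ : ∃ G : V → ℕ → V → ℝ, ∀ x i, G x i = fun z => ∑ s : Fin (K + 1),
      ((opP B)^[i] (hf B (opath f x K s)) z - 1 / vol B) := ⟨_, fun _ _ => rfl⟩
  have hPg : ∀ i z, (opP B)^[i] g z = ∑ x, c x * G x i z := by
    intro i z
    rw [hg, iter_sub_const hself]
    have e1 : ψ = fun z => ∑ x ∈ Finset.univ, c x *
        (fun z => ∑ s ∈ (Finset.univ : Finset (Fin (K + 1))), (1 : ℝ) *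
          hf B (f^[(s : ℕ)] x) z) z := by
      funext z
      rw [hψ]
      simp only [one_mul]
    rw [e1, iter_lin i Finset.univ c
      (fun x z => ∑ s ∈ (Finset.univ : Finset (Fin (K + 1))), (1 : ℝ) *
          hf B (f^[(s : ℕ)] x) z) z]
    have e2 : ∀ x, (opP B)^[i] (fun z => ∑ s ∈ (Finset.univ : Finset (Fin (K + 1))), (1 : ℝ) *
          hf B (f^[(s : ℕ)] x) z) z = ∑ s : Fin (K + 1), (1 : ℝ) *
          (opP B)^[i] (hf B (f^[(s : ℕ)] x)) z := by
      intro x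
      exact iter_lin i Finset.univ (fun _ => (1 : ℝ))
        (fun s : Fin (K + 1) => hf B (f^[(s : ℕ)] x)) z
    rw [Finset.sum_congr rfl fun x _ => by rw [e2 x]]
    have e3 : l0 / vol B = ∑ x, c x * (((K : ℝ) + 1) * (1 / vol B)) := by
      rw [← Finset.sum_mul, hl0']; ring
    rw [e3, ← Finset.sum_sub_distrib]
    refine Finset.sum_congr rfl fun x _ => ?_
    rw [hG, ← mul_sub]
    congr 1
    simp only [one_mul]
    rw [Finset.sum_sub_distrib, Finset.sum_const, Finset.card_univ, Fintype.card_fin,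
      nsmul_eq_mul]
    push_cast
    rfl
  have hcs : ∀ i, ip B ((opP B)^[i] g) ((opP B)^[i] g) ≤
      (∑ x, c x) * ∑ x, c x * ip B (G x i) (G x i) := by
    intro i
    have e1 : ∑ x, c x * ip B (G x i) (G x i) =
        ∑ z, ((B z).card : ℝ) * ∑ x, c x * (G x i z) ^ 2 := by
      unfold ip
      simp only [Finset.mul_sum]
      rw [Finset.sum_comm]
      refine Finset.sum_congr rfl fun z _ => Finset.sum_congr rfl fun x _ => ?_
      ring
    rw [e1, Finset.mul_sum]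
    unfold ip
    refine Finset.sum_le_sum fun z _ => ?_
    rw [mul_left_comm (∑ x, c x)]
    apply mul_le_mul_of_nonneg_left _ (hB z).le
    rw [hPg, ← pow_two]
    exact Finset.sum_sq_le_sum_mul_sum_of_sq_le_mul _ (fun x _ => hc x)
      (fun x _ => mul_nonneg (hc x) (pow_two_nonneg _)) (fun x _ => le_of_eq (by ring))
  have hsum : ∑ i ∈ Finset.Icc 1 (t / 2), ip B ((opP B)^[i] g) ((opP B)^[i] g) ≤
      k * (k * e) := by
    calc ∑ i ∈ Finset.Icc 1 (t / 2), ip B ((opP B)^[i] g) ((opP B)^[i] g)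
        ≤ ∑ i ∈ Finset.Icc 1 (t / 2), (∑ x, c x) * ∑ x, c x * ip B (G x i) (G x i) :=
          Finset.sum_le_sum fun i _ => hcs i
      _ = (∑ x, c x) * ∑ x, c x * En B (t / 2) K (opath f x K) := by
          rw [← Finset.mul_sum, Finset.sum_comm]
          congr 1
          refine Finset.sum_congr rfl fun x _ => ?_
          rw [← Finset.mul_sum, En_eq h.sym]
          simp only [hG]
      _ ≤ (∑ x, c x) * ∑ x, c x * e := by
          apply mul_le_mul_of_nonneg_left _ hcs0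
          refine Finset.sum_le_sum fun x _ => ?_
          by_cases hx : c x = 0
          · rw [hx, zero_mul, zero_mul]
          · exact mul_le_mul_of_nonneg_left (hcE x hx) (hc x)
      _ = (∑ x, c x) * ((∑ x, c x) * e) := by rw [← Finset.sum_mul]
      _ ≤ k * (k * e) := by
          apply mul_le_mul hchi _ (by positivity) (by positivity)
          exact mul_le_mul_of_nonneg_right hchi he
  have hA : D * ((∑ u, av B t (SI f I) u) * (((t : ℝ) + 1) * (l0 / vol B)) ^ 2) ≤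
      ((t : ℝ) + 1) * (3 * (l0 / D) + 4 * ((k : ℝ) * (k * e))) := by
    calc D * ((∑ u, av B t (SI f I) u) * (((t : ℝ) + 1) * (l0 / vol B)) ^ 2)
        = ∑ u, D * (av B t (SI f I) u * (((t : ℝ) + 1) * (l0 / vol B)) ^ 2) := by
          rw [Finset.sum_mul, Finset.mul_sum]
      _ ≤ ∑ u, ((B u).card : ℝ) * sm2 B g t u 0 := by
          refine Finset.sum_le_sum fun u _ => ?_
          have h1 := av_sm2 (B := B) g (SI f I) hgoff t u 0
          have h2 : (0 - ((t : ℝ) + 1) * (l0 / vol B)) ^ 2 =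
              (((t : ℝ) + 1) * (l0 / vol B)) ^ 2 := by ring
          rw [h2] at h1
          have h3 : 0 ≤ av B t (SI f I) u * (((t : ℝ) + 1) * (l0 / vol B)) ^ 2 :=
            mul_nonneg (av_nonneg' _ _ _) (pow_two_nonneg _)
          exact mul_le_mul (h.lo u) h1 h3 (hB u).le
      _ ≤ ((t : ℝ) + 1) * (3 * ip B g g +
          4 * ∑ i ∈ Finset.Icc 1 (t / 2), ip B ((opP B)^[i] g) ((opP B)^[i] g)) :=
          sm2_sum h.sym g t
      _ ≤ ((t : ℝ) + 1) * (3 * (l0 / D) + 4 * ((k : ℝ) * (k * e))) := by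
          apply mul_le_mul_of_nonneg_left _ (by positivity)
          linarith
  exact absorb_real (by exact_mod_cast Fintype.card_pos) hD hκ he (by positivity) (by positivity)
    (by linarith) hvol hvol2 hl0lo hA

end EA42
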