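import Pool.Agent.Lib.MP_ea42c6_pr.Three.U1

/-!
# U2 — point masses and traces

`iter_hf`: `opP_iter`, the sum has one term.  `ip_hf`:
`∑ z, |B z| (pk i z x/|B x|)(pk j z y/|B y|) = ∑ z, pk i x z pk j z y/|B y|` (`pk_rev`, `pk_add`).
`tl_eq`: for each `x`, with `h = P^l (hf x)` and `ip h 1 = 1` (`ip_iter_one`):
`ip (h - 1/vol) (h - 1/vol) = ip h h - 2/vol + 1/vol = pk (2l) x x/|B x| - 1/vol`, and `∑ |B x|/vol = 1`.
`tr_even_ge`: `tl_eq` and `ip_self_nonneg`.
`tr_odd_le`: `pk (2l+1) x x/|B x| = ip h (P h)`, `(ip h (P h))² ≤ ip h h ip (P h) (P h) ≤ (ip h h)²`.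
`tl_step`: `P^(l+1) (hf x) - 1/vol = P (P^l (hf x) - 1/vol)` and `ip (P^l (hf x) - 1/vol) 1 = 0`.
-/

namespace EA42

open scoped Classical

variable {V : Type*} [Fintype V] {B : V → Finset V}

theorem card_ne_of_self (hself : ∀ u, u ∈ B u) (x : V) : ((B x).card : ℝ) ≠ 0 := by
  have : 0 < (B x).card := Finset.card_pos.mpr ⟨x, hself x⟩
  positivity

theorem iter_hf (hself : ∀ u, u ∈ B u) (j : ℕ) (y x : V) :
    (opP B)^[j] (hf B y) x = pk B j x y / ((B y).card : ℝ) := by
  rw [opP_iter]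
  have h : ∀ z, pk B j x z * hf B y z = if z = y then pk B j x z / ((B y).card : ℝ) else 0 := by
    intro z
    unfold hf
    rw [mul_ite, mul_zero, mul_one_div]
  rw [Finset.sum_congr rfl fun z _ => h z, Finset.sum_ite_eq' Finset.univ y,
    if_pos (Finset.mem_univ _)]

theorem ip_hf (hB : SymB B) (i j : ℕ) (x y : V) :
    ip B ((opP B)^[i] (hf B x)) ((opP B)^[j] (hf B y)) =
      pk B (i + j) x y / ((B y).card : ℝ) := by
  have hx := card_ne_of_self hB.self x
  unfold ip
  rw [pk_add, Finset.sum_div]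
  refine Finset.sum_congr rfl fun z _ => ?_
  rw [iter_hf hB.self, iter_hf hB.self]
  have h1 := pk_rev hB i z x
  calc ((B z).card : ℝ) * (pk B i z x / ((B x).card : ℝ) * (pk B j z y / ((B y).card : ℝ))) =
      (((B z).card : ℝ) * pk B i z x) / ((B x).card : ℝ) * (pk B j z y / ((B y).card : ℝ)) := by
        ring
    _ = (((B x).card : ℝ) * pk B i x z) / ((B x).card : ℝ) * (pk B j z y / ((B y).card : ℝ)) := by
        rw [h1]
    _ = pk B i x z * pk B j z y / ((B y).card : ℝ) := by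
        rw [mul_div_cancel_left₀ _ hx, mul_div_assoc]

theorem ip_hf_one (hself : ∀ u, u ∈ B u) (y : V) : ip B (hf B y) (fun _ => 1) = 1 := by
  unfold ip hf
  have h : ∀ x, ((B x).card : ℝ) * ((if x = y then 1 / ((B y).card : ℝ) else 0) * 1) =
      if x = y then (1 : ℝ) else 0 := by
    intro x
    by_cases hx : x = y
    · rw [if_pos hx, if_pos hx, mul_one, hx, mul_one_div, div_self (card_ne_of_self hself y)]
    · rw [if_neg hx, if_neg hx, zero_mul, mul_zero]
  rw [Finset.sum_congr rfl fun x _ => h x, Finset.sum_ite_eq' Finset.univ y,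
    if_pos (Finset.mem_univ _)]

theorem vol_ge {D κ : ℝ} (h : DReg B D κ) : D * (Fintype.card V : ℝ) ≤ vol B := by
  unfold vol
  calc D * (Fintype.card V : ℝ) = ∑ _x : V, D := by
        rw [Finset.sum_const, Finset.card_univ, nsmul_eq_mul, mul_comm]
    _ ≤ _ := Finset.sum_le_sum fun x _ => h.lo x

theorem vol_le {D κ : ℝ} (h : DReg B D κ) : vol B ≤ κ * D * (Fintype.card V : ℝ) := by
  unfold vol
  calc ∑ x, ((B x).card : ℝ) ≤ ∑ _x : V, κ * D := Finset.sum_le_sum fun x _ => h.hi x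
    _ = κ * D * (Fintype.card V : ℝ) := by
        rw [Finset.sum_const, Finset.card_univ, nsmul_eq_mul, mul_comm]

theorem vol_pos [Nonempty V] {D κ : ℝ} (h : DReg B D κ) : 0 < vol B := by
  have h1 : (0 : ℝ) < (Fintype.card V : ℝ) := by
    have := Fintype.card_pos (α := V)
    positivity
  exact (mul_pos h.pos h1).trans_le (vol_ge h)

theorem vol_pos' [Nonempty V] (hself : ∀ u, u ∈ B u) : 0 < vol B := by
  unfold vol
  refine Finset.sum_pos (fun x _ => ?_) Finset.univ_nonempty
  have : 0 < (B x).card := Finset.card_pos.mpr ⟨x, hself x⟩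
  positivity

/-- The square norm of the centred function. -/
theorem ip_center [Nonempty V] (hself : ∀ u, u ∈ B u) (f : V → ℝ)
    (h1 : ip B f (fun _ => 1) = 1) :
    ip B (fun z => f z - 1 / vol B) (fun z => f z - 1 / vol B) = ip B f f - 1 / vol B := by
  have hv := (vol_pos' hself).ne'
  have e : ip B (fun z => f z - 1 / vol B) (fun z => f z - 1 / vol B) =
      ip B f f - 2 * (1 / vol B) * ip B f (fun _ => 1) + (1 / vol B) ^ 2 * vol B := by
    unfold ip
    rw [Finset.mul_sum]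
    have hvs : (1 / vol B) ^ 2 * vol B = ∑ x, (1 / vol B) ^ 2 * ((B x).card : ℝ) := by
      rw [← Finset.mul_sum]
      rfl
    rw [hvs, ← Finset.sum_sub_distrib, ← Finset.sum_add_distrib]
    exact Finset.sum_congr rfl fun x _ => by ring
  rw [e, h1]
  have : (1 / vol B) ^ 2 * vol B = 1 / vol B := by
    rw [pow_two, mul_assoc, one_div_mul_cancel hv, mul_one]
  rw [this]
  ring

theorem tl_eq [Nonempty V] (hB : SymB B) (l : ℕ) :
    tr B (2 * l) - 1 = ∑ x, ((B x).card : ℝ) *
      ip B (fun z => (opP B)^[l] (hf B x) z - 1 / vol B)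
        (fun z => (opP B)^[l] (hf B x) z - 1 / vol B) := by
  have hv := (vol_pos' hB.self).ne'
  have h1 : ∀ x, ((B x).card : ℝ) *
      ip B (fun z => (opP B)^[l] (hf B x) z - 1 / vol B)
        (fun z => (opP B)^[l] (hf B x) z - 1 / vol B) =
      pk B (2 * l) x x - ((B x).card : ℝ) * (1 / vol B) := by
    intro x
    have hx := card_ne_of_self hB.self x
    have h2 : ip B ((opP B)^[l] (hf B x)) (fun _ => 1) = 1 := by
      rw [ip_iter_one hB, ip_hf_one hB.self]
    rw [ip_center hB.self _ h2, ip_hf hB, ← two_mul, mul_sub, mul_div_cancel₀ _ hx]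
  rw [Finset.sum_congr rfl fun x _ => h1 x, Finset.sum_sub_distrib, ← Finset.sum_mul]
  have h3 : (∑ x, ((B x).card : ℝ)) * (1 / vol B) = 1 := mul_one_div_cancel hv
  rw [h3]
  rfl

theorem tr_even_ge [Nonempty V] (hB : SymB B) (l : ℕ) : 1 ≤ tr B (2 * l) := by
  have h := tl_eq hB l
  have h2 : 0 ≤ tr B (2 * l) - 1 := by
    rw [h]
    exact Finset.sum_nonneg fun x _ => mul_nonneg (Nat.cast_nonneg _) (ip_self_nonneg _)
  linarith

theorem tr_odd_le (hB : SymB B) (l : ℕ) : tr B (2 * l + 1) ≤ tr B (2 * l) := by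
  unfold tr
  refine Finset.sum_le_sum fun x _ => ?_
  have hx : 0 < ((B x).card : ℝ) := by
    have : 0 < (B x).card := Finset.card_pos.mpr ⟨x, hB.self x⟩
    positivity
  have e1 : pk B (2 * l + 1) x x / ((B x).card : ℝ) =
      ip B (hf B x) ((opP B)^[2 * l + 1] (hf B x)) := by
    have := ip_hf hB 0 (2 * l + 1) x x
    rw [Nat.zero_add] at this
    exact this.symm
  have e2 : pk B (2 * l) x x / ((B x).card : ℝ) =
      ip B ((opP B)^[l] (hf B x)) ((opP B)^[l] (hf B x)) := by
    rw [ip_hf hB, two_mul]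
  have h3 : (2 * l + 1) / 2 = l := by omega
  have h4 := ip_half hB (2 * l + 1) (hf B x)
  rw [h3, ← e1, ← e2] at h4
  have h5 := (le_abs_self _).trans h4
  exact (div_le_div_iff_of_pos_right hx).mp h5

theorem tl_step [Nonempty V] (hB : SymB B) {γ : ℝ}
    (hgap : ∀ g : V → ℝ, ip B g (fun _ => 1) = 0 →
      ip B (opP B g) (opP B g) ≤ (1 - γ) * ip B g g) (l : ℕ) :
    tr B (2 * (l + 1)) - 1 ≤ (1 - γ) * (tr B (2 * l) - 1) := by
  have hv := (vol_pos' hB.self).ne'
  rw [tl_eq hB, tl_eq hB, Finset.mul_sum]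
  refine Finset.sum_le_sum fun x _ => ?_
  set g : V → ℝ := fun z => (opP B)^[l] (hf B x) z - 1 / vol B with hg
  have e1 : (fun z => (opP B)^[l + 1] (hf B x) z - 1 / vol B) = opP B g := by
    funext z
    have h1 := iter_sub_const (B := B) hB.self 1 ((opP B)^[l] (hf B x)) (1 / vol B) z
    rw [Function.iterate_one] at h1
    rw [Function.iterate_succ_apply']
    exact h1.symm
  have e2 : ip B g (fun _ => 1) = 0 := by
    have h2 : ip B ((opP B)^[l] (hf B x)) (fun _ => 1) = 1 := by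
      rw [ip_iter_one hB, ip_hf_one hB.self]
    have h3 : ip B g (fun _ => 1) =
        ip B ((opP B)^[l] (hf B x)) (fun _ => 1) - vol B * (1 / vol B) := by
      have hvs : vol B * (1 / vol B) = ∑ x, ((B x).card : ℝ) * (1 / vol B) := by
        rw [← Finset.sum_mul]
        rfl
      rw [hvs]
      unfold ip
      rw [← Finset.sum_sub_distrib]
      exact Finset.sum_congr rfl fun x _ => by rw [hg]; ring
    rw [h3, h2, mul_one_div_cancel hv, sub_self]
  rw [e1, mul_left_comm]
  exact mul_le_mul_of_nonneg_left (hgap g e2) (Nat.cast_nonneg _)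

end EA42
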