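import Pool.Agent.Lib.MP_ea42c6_pr.Three.Defs

/-!
# U22 — adding a cycle (deterministic)

`γ = {y | ∃ i, g^[i] x = y}`, `h = pw γ g f`.  `h = g` on `γ`, and `γ` is closed under `g`, so `h^[i] x = g^[i] x`
(induction) and `OnCyc h m x`.  For `y ∈ γ`: `y = g^[i] x`, `OnCyc h m y` and no other period; `γ` has exactly
`m` elements (`g^[i] x`, `i < m`), so `γ` contributes `m · (1/m) = 1` to `NC h I`.
For `y ∉ γ`: `OnCyc h m' y ↔ (OnCyc f m' y and the orbit avoids γ)`: a cycle of `h` not in `γ` avoids `γ`
(`γ` is closed under `h` and `y` is periodic), and there `h = f`; for `m' ∈ I` an `f`-cycle of length `m'`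
is contained in `SI f I`, and `γ ∩ SI f I = ∅`, so it avoids `γ` automatically.  For `y ∈ γ`: `y ∉ SI f I`.
`onCyc_unique`: the period is unique.
-/

namespace EA42

open scoped Classical

theorem onCyc_unique {V : Type*} {f : V → V} {m m' : ℕ} {x : V} (h : OnCyc f m x)
    (h' : OnCyc f m' x) : m = m' := by
  obtain ⟨h1, h2, h3⟩ := h
  obtain ⟨h1', h2', h3'⟩ := h'
  rcases lt_trichotomy m m' with hlt | heq | hlt
  · have := h2' m (by omega) 0 (by omega) (by rw [h3, Function.iterate_zero, id])
    omega
  · exact heq
  · have := h2 m' (by omega) 0 (by omega) (by rw [h3', Function.iterate_zero, id])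
    omega

theorem onCyc_iter {V : Type*} {f : V → V} {m : ℕ} {x : V} (h : OnCyc f m x) (i : ℕ) :
    OnCyc f m (f^[i] x) := by
  induction i with
  | zero => exact h
  | succ i ih =>
    rw [Function.iterate_succ_apply']
    obtain ⟨h1, h2, h3⟩ := ih
    refine ⟨h1, ?_, ?_⟩
    · intro a ha b hb hab
      rw [← Function.iterate_succ_apply, ← Function.iterate_succ_apply] at hab
      rcases Nat.lt_or_ge a (m - 1) with ha1 | ha1 <;> rcases Nat.lt_or_ge b (m - 1) with hb1 | hb1
      · have := h2 (a + 1) (by omega) (b + 1) (by omega) hab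
        omega
      · have hb2 : b.succ = m := by omega
        rw [hb2, h3] at hab
        have := h2 (a + 1) (by omega) 0 (by omega) hab
        omega
      · have ha2 : a.succ = m := by omega
        rw [ha2, h3] at hab
        have := h2 0 (by omega) (b + 1) (by omega) hab
        omega
      · omega
    · rw [← Function.iterate_succ_apply, Function.iterate_succ_apply', h3]

theorem onCyc_back {V : Type*} {f : V → V} {m : ℕ} {x : V} (h : OnCyc f m x) (i : ℕ) :
    ∃ j, f^[j] (f^[i] x) = x := by
  obtain ⟨h1, h2, h3⟩ := h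
  have hp : Function.IsPeriodicPt f m x := h3
  refine ⟨m * i - i, ?_⟩
  rw [← Function.iterate_add_apply]
  have h4 : i ≤ m * i := Nat.le_mul_of_pos_left i h1
  rw [show m * i - i + i = m * i by omega]
  exact hp.mul_const i

theorem cyc_card {V : Type*} [Fintype V] {f : V → V} {m : ℕ} {x : V} (h : OnCyc f m x) :
    (Finset.univ.filter fun y => ∃ i, f^[i] x = y).card = m := by
  obtain ⟨h1, h2, h3⟩ := h
  have hp : Function.IsPeriodicPt f m x := h3
  have e : (Finset.univ.filter fun y => ∃ i, f^[i] x = y) =
      (Finset.range m).image fun i => f^[i] x := by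
    ext y
    simp only [Finset.mem_filter, Finset.mem_univ, true_and, Finset.mem_image, Finset.mem_range]
    constructor
    · rintro ⟨i, hi⟩
      exact ⟨i % m, Nat.mod_lt _ h1, by rw [hp.iterate_mod_apply, hi]⟩
    · rintro ⟨i, _, hi⟩
      exact ⟨i, hi⟩
  rw [e, Finset.card_image_of_injOn, Finset.card_range]
  intro a ha b hb hab
  rw [Finset.coe_range, Set.mem_Iio] at ha hb
  exact h2 a (by omega) b (by omega) hab

theorem U22_congr {V : Type*} {f h : V → V} {y : V} (e : ∀ a, h^[a] y = f^[a] y) (m : ℕ) :
    OnCyc h m y ↔ OnCyc f m y := by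
  unfold OnCyc OrbInj
  simp only [e]

theorem add_cycle {V : Type*} [Fintype V] (f g : V → V) {I : Finset ℕ} {m : ℕ} (hm : m ∈ I)
    {x : V} (hx : OnCyc g m x) (hdis : ∀ i, g^[i] x ∉ SI f I) :
    OnCyc (pw {y | ∃ i, g^[i] x = y} g f) m x ∧
      (∀ i, (pw {y | ∃ i, g^[i] x = y} g f)^[i] x = g^[i] x) ∧
      NC (pw {y | ∃ i, g^[i] x = y} g f) I = NC f I + 1 := by
  set γ : Set V := {y | ∃ i, g^[i] x = y} with hγ
  have hpin : ∀ y ∈ γ, pw γ g f y = g y := by
    intro y hy
    simp [pw, hy]
  have hpout : ∀ y, y ∉ γ → pw γ g f y = f y := by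
    intro y hy
    simp [pw, hy]
  have hcl : ∀ y ∈ γ, g y ∈ γ := by
    rintro y ⟨i, rfl⟩
    exact ⟨i + 1, by rw [Function.iterate_succ_apply']⟩
  have hcl2 : ∀ y ∈ γ, ∀ a, (pw γ g f)^[a] y ∈ γ := by
    intro y hy a
    induction a with
    | zero => exact hy
    | succ a ih =>
      rw [Function.iterate_succ_apply', hpin _ ih]
      exact hcl _ ih
  have hit : ∀ i, (pw γ g f)^[i] x = g^[i] x := by
    intro i
    induction i with
    | zero => rfl
    | succ i ih =>
      rw [Function.iterate_succ_apply', Function.iterate_succ_apply', ih]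
      exact hpin _ ⟨i, rfl⟩
  have hon : OnCyc (pw γ g f) m x := (U22_congr hit m).mpr hx
  refine ⟨hon, hit, ?_⟩
  have hcard := cyc_card hx
  have key : ∀ y, (∑ m' ∈ I, if OnCyc (pw γ g f) m' y then 1 / (m' : ℝ) else 0) =
      (∑ m' ∈ I, if OnCyc f m' y then 1 / (m' : ℝ) else 0) + if y ∈ γ then 1 / (m : ℝ) else 0 := by
    intro y
    by_cases hy : y ∈ γ
    · have hy2 : OnCyc (pw γ g f) m y := by
        obtain ⟨i, hi⟩ := hy
        rw [← hi, ← hit i]
        exact onCyc_iter hon i
      have h1 : (∑ m' ∈ I, if OnCyc (pw γ g f) m' y then 1 / (m' : ℝ) else 0) = 1 / (m : ℝ) := by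
        rw [Finset.sum_eq_single m]
        · rw [if_pos hy2]
        · intro b _ hbm
          rw [if_neg]
          intro hb
          exact hbm (onCyc_unique hb hy2)
        · intro h
          exact absurd hm h
      have h2 : (∑ m' ∈ I, if OnCyc f m' y then 1 / (m' : ℝ) else 0) = 0 := by
        apply Finset.sum_eq_zero
        intro b hb
        rw [if_neg]
        intro hb2
        obtain ⟨i, hi⟩ := hy
        refine hdis i ?_
        rw [hi]
        exact ⟨b, hb, hb2⟩
      rw [h1, h2, if_pos hy, zero_add]
    · rw [if_neg hy, add_zero]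
      apply Finset.sum_congr rfl
      intro m' hm'
      have hiff : OnCyc (pw γ g f) m' y ↔ OnCyc f m' y := by
        constructor
        · intro hc
          have hav : ∀ a, (pw γ g f)^[a] y ∉ γ := by
            intro a ha
            obtain ⟨j, hj⟩ := onCyc_back hc a
            refine hy ?_
            rw [← hj]
            exact hcl2 _ ha j
          have e : ∀ a, (pw γ g f)^[a] y = f^[a] y := by
            intro a
            induction a with
            | zero => rfl
            | succ a ih =>
              rw [Function.iterate_succ_apply', Function.iterate_succ_apply', hpout _ (hav a), ih]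
          exact (U22_congr e m').mp hc
        · intro hc
          have e : ∀ a, (pw γ g f)^[a] y = f^[a] y := by
            intro a
            induction a with
            | zero => rfl
            | succ a ih =>
              rw [Function.iterate_succ_apply', Function.iterate_succ_apply', ih]
              apply hpout
              rintro ⟨i, hi⟩
              refine hdis i ?_
              rw [hi]
              exact ⟨m', hm', onCyc_iter hc a⟩
          exact (U22_congr e m').mpr hc
      by_cases hf : OnCyc f m' y
      · rw [if_pos hf, if_pos (hiff.mpr hf)]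
      · rw [if_neg hf, if_neg fun h => hf (hiff.mp h)]
  unfold NC
  rw [Finset.sum_congr rfl fun y _ => key y, Finset.sum_add_distrib]
  congr 1
  rw [← Finset.sum_filter, Finset.sum_const, nsmul_eq_mul]
  have hc2 : (Finset.univ.filter fun y => y ∈ γ).card = m := hcard
  rw [hc2]
  have hm1 : (m : ℝ) ≠ 0 := by
    have := hx.1
    positivity
  field_simp

end EA42
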