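import Pool.Agent.Lib.MP_ea42c6_pr.Three.U21
import Pool.Agent.Lib.MP_ea42c6_pr.Three.U22
import Pool.Agent.Lib.MP_ea42c6_pr.One.N1

/-!
# U23 — the number of cycles: from `k` to `k + 1`

`(k+1) pr {NC = k+1} = ∑_{f} w f NC f [NC f = k+1] = ∑ x, ∑_{m ∈ I} (1/m) pr {OnCyc f m x ∧ NC f = k+1}`.
For fixed `x`, `m`: by `swap_le` with `E = {(g, f) | OnCyc g m x ∧ NC f = k ∧ ∀ i, g^[i] x ∉ SI f I}`,
`R (g, f) = {y | ∃ i, g^[i] x = y}`, `E' = {(h, f') | OnCyc h m x ∧ NC h = k+1}` (`add_cycle`; the first component of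
`swp (R p) p` is `pw γ g f = h`; `hinj`: `R p = {y | ∃ i, h^[i] x = y}` is determined by `h`),
`pr (pairB) E ≤ pr (pairB) E' = pr {OnCyc h m x ∧ NC h = k+1}` (`pr_pairs`, total mass one), and
`pr (pairB) E = ∑ f, [NC f = k] w f pr {g | OnCyc g m x ∧ ∀ i, g^[i] x ∉ SI f I}` (`pr_pairs` with the
components exchanged).  Sum over `x`, `m` and use `hω`.
-/

namespace EA42

open scoped Classical

theorem U23_comm {V α : Type*} [Fintype V] [Fintype α] (I : Finset ℕ) (F : V → ℕ → α → ℝ) :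
    ∑ x, ∑ m ∈ I, ∑ f, F x m f = ∑ f, ∑ x, ∑ m ∈ I, F x m f :=
  (Finset.sum_congr rfl fun _ _ => Finset.sum_comm).trans Finset.sum_comm

/-- The comparison for one root and one length. -/
theorem U23_one {V : Type*} [Fintype V] [DecidableEq V] {B : V → Finset V}
    (hself : ∀ u, u ∈ B u) {I : Finset ℕ} (k : ℕ) (x : V) {m : ℕ} (hm : m ∈ I) :
    ∑ f : V → V, (if f ∈ {f : V → V | NC f I = k} then prodW (kerW B) f *
      pr (prodW (kerW B)) {g | OnCyc g m x ∧ ∀ i, g^[i] x ∉ SI f I} else 0) ≤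
      pr (prodW (kerW B)) {f | OnCyc f m x ∧ NC f I = (k : ℝ) + 1} := by
  have hP := isProb_prodW (fun i => isProb_kerW hself i)
  have key := swap_le (B := B) {p : (V → V) × (V → V) | OnCyc p.1 m x ∧ NC p.2 I = k ∧
      ∀ i, p.1^[i] x ∉ SI p.2 I}
    {p : (V → V) × (V → V) | OnCyc p.1 m x ∧ NC p.1 I = (k : ℝ) + 1}
    (fun p => {y | ∃ i, p.1^[i] x = y})
    (by
      rintro ⟨g, f⟩ ⟨h1, h2, h3⟩
      obtain ⟨a1, -, a3⟩ := add_cycle f g hm h1 h3
      refine ⟨a1, ?_⟩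
      show NC (pw {y | ∃ i, g^[i] x = y} g f) I = (k : ℝ) + 1
      rw [a3]
      have h2' : NC f I = k := h2
      rw [h2'])
    (by
      rintro ⟨g, f⟩ ⟨h1, h2, h3⟩ ⟨g', f'⟩ ⟨h1', h2', h3'⟩ heq
      obtain ⟨-, a2, -⟩ := add_cycle f g hm h1 h3
      obtain ⟨-, a2', -⟩ := add_cycle f' g' hm h1' h3'
      have e : pw {y | ∃ i, g^[i] x = y} g f = pw {y | ∃ i, g'^[i] x = y} g' f' :=
        congrArg Prod.fst heq
      ext y
      show (∃ i, g^[i] x = y) ↔ ∃ i, g'^[i] x = y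
      refine exists_congr fun i => ?_
      rw [← a2 i, ← a2' i, e])
  have e2 : pr (pairB B) {p : (V → V) × (V → V) | OnCyc p.1 m x ∧ NC p.1 I = (k : ℝ) + 1} =
      pr (prodW (kerW B)) {f | OnCyc f m x ∧ NC f I = (k : ℝ) + 1} := by
    rw [pr_pairs]
    conv_rhs => rw [pr]
    refine Finset.sum_congr rfl fun h _ => ?_
    by_cases hh : h ∈ {f : V → V | OnCyc f m x ∧ NC f I = (k : ℝ) + 1}
    · rw [if_pos hh]
      have h0 : {f' : V → V | (h, f') ∈ {p : (V → V) × (V → V) | OnCyc p.1 m x ∧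
          NC p.1 I = (k : ℝ) + 1}} = Set.univ := by
        ext f'
        simp only [Set.mem_univ, iff_true]
        exact hh
      rw [h0, pr_univ hP, mul_one]
    · rw [if_neg hh]
      have h0 : {f' : V → V | (h, f') ∈ {p : (V → V) × (V → V) | OnCyc p.1 m x ∧
          NC p.1 I = (k : ℝ) + 1}} = ∅ := by
        ext f'
        simp only [Set.mem_empty_iff_false, iff_false]
        exact hh
      rw [h0]
      have : pr (prodW (kerW B)) (∅ : Set (V → V)) = 0 := by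
        unfold pr
        simp
      rw [this, mul_zero]
  have e1 : ∑ f : V → V, (if f ∈ {f : V → V | NC f I = k} then prodW (kerW B) f *
      pr (prodW (kerW B)) {g | OnCyc g m x ∧ ∀ i, g^[i] x ∉ SI f I} else 0) =
      pr (pairB B) {p : (V → V) × (V → V) | OnCyc p.1 m x ∧ NC p.2 I = k ∧
        ∀ i, p.1^[i] x ∉ SI p.2 I} := by
    unfold pr
    rw [Fintype.sum_prod_type, Finset.sum_comm]
    refine Finset.sum_congr rfl fun f _ => ?_
    by_cases hf : f ∈ {f : V → V | NC f I = k}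
    · rw [if_pos hf, Finset.mul_sum]
      refine Finset.sum_congr rfl fun g _ => ?_
      by_cases hg : g ∈ {g : V → V | OnCyc g m x ∧ ∀ i, g^[i] x ∉ SI f I}
      · have hgf : (g, f) ∈ {p : (V → V) × (V → V) | OnCyc p.1 m x ∧ NC p.2 I = k ∧
            ∀ i, p.1^[i] x ∉ SI p.2 I} := ⟨hg.1, hf, hg.2⟩
        rw [if_pos hg, if_pos hgf]
        unfold pairB
        ring
      · have hgf : ¬ (g, f) ∈ {p : (V → V) × (V → V) | OnCyc p.1 m x ∧ NC p.2 I = k ∧
            ∀ i, p.1^[i] x ∉ SI p.2 I} := fun h => hg ⟨h.1, h.2.2⟩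
        rw [if_neg hg, if_neg hgf, mul_zero]
    · rw [if_neg hf]
      symm
      refine Finset.sum_eq_zero fun g _ => ?_
      have hgf : ¬ (g, f) ∈ {p : (V → V) × (V → V) | OnCyc p.1 m x ∧ NC p.2 I = k ∧
          ∀ i, p.1^[i] x ∉ SI p.2 I} := fun h => hf h.2.1
      rw [if_neg hgf]
  rw [e1, ← e2]
  exact key

theorem nc_rec {V : Type*} [Fintype V] [DecidableEq V] {B : V → Finset V}
    (hself : ∀ u, u ∈ B u) {I : Finset ℕ} (hI : ∀ m ∈ I, 1 ≤ m) (k : ℕ) {ω : ℝ}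
    (hω : ∀ f : V → V, NC f I = k → ω ≤ ∑ x, ∑ m ∈ I, 1 / (m : ℝ) *
      pr (prodW (kerW B)) {g | OnCyc g m x ∧ ∀ i, g^[i] x ∉ SI f I}) :
    ω * pr (prodW (kerW B)) {f | NC f I = k} ≤
      ((k : ℝ) + 1) * pr (prodW (kerW B)) {f | NC f I = (k : ℝ) + 1} := by
  have hP := isProb_prodW (fun i => isProb_kerW hself i)
  have e1 : ((k : ℝ) + 1) * pr (prodW (kerW B)) {f | NC f I = (k : ℝ) + 1} =
      ∑ x, ∑ m ∈ I, 1 / (m : ℝ) *
        pr (prodW (kerW B)) {f | OnCyc f m x ∧ NC f I = (k : ℝ) + 1} := by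
    unfold pr
    simp only [Finset.mul_sum]
    rw [U23_comm]
    refine Finset.sum_congr rfl fun f _ => ?_
    by_cases hf : f ∈ {f : V → V | NC f I = (k : ℝ) + 1}
    · rw [if_pos hf]
      have hf' : NC f I = (k : ℝ) + 1 := hf
      conv_lhs => rw [← hf']
      unfold NC
      rw [Finset.sum_mul]
      refine Finset.sum_congr rfl fun x _ => ?_
      rw [Finset.sum_mul]
      refine Finset.sum_congr rfl fun m _ => ?_
      by_cases hc : OnCyc f m x
      · have hfm : f ∈ {f : V → V | OnCyc f m x ∧ NC f I = (k : ℝ) + 1} := ⟨hc, hf⟩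
        unfold NC at hfm
        rw [if_pos hc, if_pos hfm]
      · have hfm : ¬ f ∈ {f : V → V | OnCyc f m x ∧ NC f I = (k : ℝ) + 1} := fun h => hc h.1
        unfold NC at hfm
        rw [if_neg hc, if_neg hfm, zero_mul, mul_zero]
    · rw [if_neg hf, mul_zero]
      symm
      refine Finset.sum_eq_zero fun x _ => Finset.sum_eq_zero fun m _ => ?_
      have hfm : ¬ f ∈ {f : V → V | OnCyc f m x ∧ NC f I = (k : ℝ) + 1} := fun h => hf h.2
      rw [if_neg hfm, mul_zero]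
  rw [e1]
  have e2 : ω * pr (prodW (kerW B)) {f | NC f I = k} ≤ ∑ x, ∑ m ∈ I, 1 / (m : ℝ) *
      ∑ f : V → V, (if f ∈ {f : V → V | NC f I = k} then prodW (kerW B) f *
        pr (prodW (kerW B)) {g | OnCyc g m x ∧ ∀ i, g^[i] x ∉ SI f I} else 0) := by
    have h2 : ∑ x, ∑ m ∈ I, 1 / (m : ℝ) *
        ∑ f : V → V, (if f ∈ {f : V → V | NC f I = k} then prodW (kerW B) f *
          pr (prodW (kerW B)) {g | OnCyc g m x ∧ ∀ i, g^[i] x ∉ SI f I} else 0) =
        ∑ f : V → V, ∑ x, ∑ m ∈ I, 1 / (m : ℝ) *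
        (if f ∈ {f : V → V | NC f I = k} then prodW (kerW B) f *
          pr (prodW (kerW B)) {g | OnCyc g m x ∧ ∀ i, g^[i] x ∉ SI f I} else 0) := by
      simp only [Finset.mul_sum]
      rw [U23_comm]
    rw [h2]
    conv_lhs => rw [pr, Finset.mul_sum]
    refine Finset.sum_le_sum fun f _ => ?_
    by_cases hf : f ∈ {f : V → V | NC f I = k}
    · simp only [if_pos hf]
      have h3 : ∑ x, ∑ m ∈ I, 1 / (m : ℝ) * (prodW (kerW B) f *
          pr (prodW (kerW B)) {g | OnCyc g m x ∧ ∀ i, g^[i] x ∉ SI f I}) =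
          (∑ x, ∑ m ∈ I, 1 / (m : ℝ) *
          pr (prodW (kerW B)) {g | OnCyc g m x ∧ ∀ i, g^[i] x ∉ SI f I}) * prodW (kerW B) f := by
        rw [Finset.sum_mul]
        refine Finset.sum_congr rfl fun x _ => ?_
        rw [Finset.sum_mul]
        refine Finset.sum_congr rfl fun m _ => ?_
        ring
      rw [h3]
      exact mul_le_mul_of_nonneg_right (hω f hf) (hP.1 f)
    · simp only [if_neg hf, mul_zero, Finset.sum_const_zero]
      exact le_rfl
  refine e2.trans ?_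
  refine Finset.sum_le_sum fun x _ => Finset.sum_le_sum fun m hm => ?_
  exact mul_le_mul_of_nonneg_left (U23_one hself k x hm) (by positivity)

end EA42
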