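import Pool.Agent.Lib.MP_ea42c6_pr.Three.U21
import Pool.Agent.Lib.MP_ea42c6_pr.Three.U24

/-!
# U25 — decoupling from the cycles

`si_pw` (deterministic): if `NC g I = 0` then `SI (pw (SI f I) f g) I = SI f I` (`S = SI f I` is closed under `f`;
a cycle of `h = pw S f g` either is in `S`, where `h = f`, or avoids `S`, where `h = g`: then it would be a
cycle of `g` with length in `I`).
`decouple`: `E = {(f, g) | f ∈ G ∩ Q, NC g I = 0}`, `R (f, g) = SI f I`; `swp (R p) p = (f', g')` with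
`f' = pw S f g`, `g' = pw S g f`: `SI f' I = S` (`si_pw`), `f' ∈ G` (`hG`, `f' = f` on `S`), and
`pw S f' g' = f ∈ Q`.  So `E' = {(f', g') | f' ∈ G, pw (SI f' I) f' g' ∈ Q}`; `hinj`: `R p = SI f' I`.
`swap_le`, `pr_pairs`: `(1/2) pr (G ∩ Q) ≤ pr (G ∩ Q) pr {NC = 0} = pr (pairB) E ≤ pr (pairB) E' ≤ η pr G`.
-/

namespace EA42

open scoped Classical

theorem U25_congr {V : Type*} {f g : V → V} {m : ℕ} {x : V} (h : ∀ i, f^[i] x = g^[i] x)
    (hx : OnCyc f m x) : OnCyc g m x := by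
  obtain ⟨h1, h2, h3⟩ := hx
  refine ⟨h1, ?_, ?_⟩
  · intro i hi j hj hij
    rw [← h i, ← h j] at hij
    exact h2 i hi j hj hij
  · rw [← h m]
    exact h3

theorem U25_closed {V : Type*} {f : V → V} {I : Finset ℕ} {x : V} (hx : x ∈ SI f I) (i : ℕ) :
    f^[i] x ∈ SI f I := by
  obtain ⟨m, hm, hc⟩ := hx
  exact ⟨m, hm, onCyc_iter hc i⟩

theorem U25_iter_on {V : Type*} {f g : V → V} {I : Finset ℕ} {x : V} (hx : x ∈ SI f I) (i : ℕ) :
    (pw (SI f I) f g)^[i] x = f^[i] x := by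
  induction i with
  | zero => rfl
  | succ i ih =>
    rw [Function.iterate_succ_apply', Function.iterate_succ_apply', ih]
    unfold pw
    rw [if_pos (U25_closed hx i)]

theorem si_pw {V : Type*} [Fintype V] (f g : V → V) {I : Finset ℕ} (hg : NC g I = 0) :
    SI (pw (SI f I) f g) I = SI f I := by
  have hg' : SI g I = ∅ := (nc_zero_iff g I).1 hg
  ext x
  constructor
  · rintro ⟨m, hm, hc⟩
    by_contra hx
    have hout : ∀ i, (pw (SI f I) f g)^[i] x ∉ SI f I := by
      intro i hi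
      obtain ⟨j, hj⟩ := onCyc_back hc i
      have h1 := U25_iter_on (g := g) hi j
      rw [hj] at h1
      have h2 := U25_closed hi j
      rw [← h1] at h2
      exact hx h2
    have hit : ∀ i, (pw (SI f I) f g)^[i] x = g^[i] x := by
      intro i
      induction i with
      | zero => rfl
      | succ i ih =>
        have h1 := hout i
        rw [Function.iterate_succ_apply', Function.iterate_succ_apply', ← ih]
        show pw (SI f I) f g _ = _
        unfold pw at h1 ⊢
        rw [if_neg h1]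
    have h3 : x ∈ SI g I := ⟨m, hm, U25_congr hit hc⟩
    rw [hg'] at h3
    exact h3
  · intro hx
    obtain ⟨m, hm, hc⟩ := id hx
    exact ⟨m, hm, U25_congr (fun i => (U25_iter_on hx i).symm) hc⟩

theorem decouple {V : Type*} [Fintype V] [DecidableEq V] {B : V → Finset V}
    (hself : ∀ u, u ∈ B u) {I : Finset ℕ} (G Q : Set (V → V))
    (hG : ∀ f f' : V → V, SI f I = SI f' I → (∀ x ∈ SI f I, f x = f' x) → f ∈ G → f' ∈ G)
    {η : ℝ} (hη : ∀ f ∈ G, pr (prodW (kerW B)) {g | pw (SI f I) f g ∈ Q} ≤ η)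
    (hN : 1 / 2 ≤ pr (prodW (kerW B)) {g | NC g I = 0}) :
    pr (prodW (kerW B)) (G ∩ Q) ≤ 2 * η * pr (prodW (kerW B)) G := by
  have hP := isProb_prodW (fun i => isProb_kerW hself i)
  have hpw : ∀ (S : Set V) (f g : V → V), pw S (pw S f g) (pw S g f) = f := by
    intro S f g
    funext x
    unfold pw
    by_cases hx : x ∈ S
    · rw [if_pos hx, if_pos hx]
    · rw [if_neg hx, if_neg hx]
  have key := swap_le (B := B) {p : (V → V) × (V → V) | p.1 ∈ G ∩ Q ∧ NC p.2 I = 0}
    {p : (V → V) × (V → V) | p.1 ∈ G ∧ pw (SI p.1 I) p.1 p.2 ∈ Q} (fun p => SI p.1 I)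
    (by
      rintro ⟨f, g⟩ ⟨⟨hfG, hfQ⟩, hgN⟩
      have hS := si_pw f g hgN
      refine ⟨?_, ?_⟩
      · refine hG f _ hS.symm ?_ hfG
        intro x hx
        show f x = pw (SI f I) f g x
        unfold pw
        rw [if_pos hx]
      · show pw (SI (pw (SI f I) f g) I) (pw (SI f I) f g) (pw (SI f I) g f) ∈ Q
        rw [hS, hpw]
        exact hfQ)
    (by
      rintro ⟨f, g⟩ ⟨-, hgN⟩ ⟨f', g'⟩ ⟨-, hgN'⟩ heq
      have h1 : pw (SI f I) f g = pw (SI f' I) f' g' := congrArg Prod.fst heq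
      show SI f I = SI f' I
      rw [← si_pw f g hgN, ← si_pw f' g' hgN', h1])
  rw [pr_pairs, pr_pairs] at key
  have e1 : ∑ f, prodW (kerW B) f * pr (prodW (kerW B))
      {g | (f, g) ∈ {p : (V → V) × (V → V) | p.1 ∈ G ∩ Q ∧ NC p.2 I = 0}} =
      pr (prodW (kerW B)) (G ∩ Q) * pr (prodW (kerW B)) {g | NC g I = 0} := by
    conv_rhs => rw [pr, Finset.sum_mul]
    refine Finset.sum_congr rfl fun f _ => ?_
    by_cases hf : f ∈ G ∩ Q
    · rw [if_pos hf]
      congr 2
      ext g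
      simp only [Set.mem_ofPred_eq, hf, true_and]
    · rw [if_neg hf, zero_mul]
      have h0 : {g : V → V | (f, g) ∈ {p : (V → V) × (V → V) | p.1 ∈ G ∩ Q ∧ NC p.2 I = 0}} =
          ∅ := by
        ext g
        simp only [Set.mem_ofPred_eq, hf, false_and, Set.mem_empty_iff_false]
      rw [h0]
      unfold pr
      simp
  have e2 : ∑ f, prodW (kerW B) f * pr (prodW (kerW B))
      {g | (f, g) ∈ {p : (V → V) × (V → V) | p.1 ∈ G ∧ pw (SI p.1 I) p.1 p.2 ∈ Q}} ≤
      η * pr (prodW (kerW B)) G := by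
    conv_rhs => rw [pr, Finset.mul_sum]
    refine Finset.sum_le_sum fun f _ => ?_
    by_cases hf : f ∈ G
    · rw [if_pos hf, mul_comm]
      refine mul_le_mul_of_nonneg_right ?_ (hP.1 f)
      refine le_trans (le_of_eq ?_) (hη f hf)
      congr 1
      ext g
      simp only [Set.mem_ofPred_eq, hf, true_and]
    · rw [if_neg hf, mul_zero]
      have h0 : {g : V → V | (f, g) ∈ {p : (V → V) × (V → V) | p.1 ∈ G ∧
          pw (SI p.1 I) p.1 p.2 ∈ Q}} = ∅ := by
        ext g
        simp only [Set.mem_ofPred_eq, hf, false_and, Set.mem_empty_iff_false]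
      rw [h0]
      unfold pr
      simp
  rw [e1] at key
  have h1 := key.trans e2
  have h2 := pr_nonneg hP (G ∩ Q)
  have h3 := mul_le_mul_of_nonneg_left hN h2
  nlinarith

end EA42
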