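import Pool.Agent.Lib.MP_ea42c6_pr.Two.R9

/-!
# U26 — two orbits reach a set before meeting

Induction on `i` (for all `x`, `S`), as `orbit_meet` (R9).  `i = 0`: `x = z`, and `orbit_to` with `S = ∅`.
`i + 1`: `x ∉ S` (`a = 0`); contained in `⋃_v {f x = v} ∩ E'`, `E'` the event for `i`, `v`, `insert x S` (the orbit
of `v` avoids `x` up to `i`: injectivity; the orbit of `y` avoids `x` before `j`: `a = 0`;
`z, z' ∈ insert x S`); `E'` does not depend on the coordinate `x`: the orbit of `v` before `i` and the orbit of
`y` before `j` avoid `x`.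
-/

namespace EA42

open scoped Classical

theorem orbit_two {V : Type*} [Fintype V] [DecidableEq V] {B : V → Finset V}
    (hself : ∀ u, u ∈ B u) (i j : ℕ) (S : Set V) (x y : V) {z z' : V} (hz : z ∈ S)
    (hz' : z' ∈ S) :
    pr (prodW (kerW B)) {f | OrbInj f x i ∧ OrbInj f y j ∧ (∀ a < i, f^[a] x ∉ S) ∧
      (∀ b < j, f^[b] y ∉ S) ∧ f^[i] x = z ∧ f^[j] y = z' ∧
      ∀ a < i, ∀ b < j, f^[a] x ≠ f^[b] y} ≤ pk B i x z * pk B j y z' := by
  have hP := isProb_prodW (fun i => isProb_kerW hself i)
  induction i generalizing S x with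
  | zero =>
    by_cases hxz : x = z
    · have e : pk B 0 x z = 1 := by simp only [pk, if_pos hxz]
      rw [e, one_mul]
      refine (pr_mono hP ?_).trans (orbit_to hself j ∅ y z')
      rintro f ⟨-, h2, -, -, -, h6, -⟩
      exact ⟨h2, fun b _ h => h, h6⟩
    · rw [R9_empty]
      · exact mul_nonneg (pk_nonneg 0 x z) (pk_nonneg j y z')
      · rintro f ⟨-, -, -, -, h5, -, -⟩
        exact hxz h5
  | succ i ih =>
    by_cases hxS : x ∈ S
    · rw [R9_empty]
      · exact mul_nonneg (pk_nonneg (i + 1) x z) (pk_nonneg j y z')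
      · rintro f ⟨-, -, h3, -, -, -, -⟩
        exact h3 0 (by omega) hxS
    have hzx : z ≠ x := fun h => hxS (h ▸ hz)
    have hzx' : z' ≠ x := fun h => hxS (h ▸ hz')
    have hsub : {f : V → V | OrbInj f x (i + 1) ∧ OrbInj f y j ∧ (∀ a < i + 1, f^[a] x ∉ S) ∧
      (∀ b < j, f^[b] y ∉ S) ∧ f^[i + 1] x = z ∧ f^[j] y = z' ∧
      ∀ a < i + 1, ∀ b < j, f^[a] x ≠ f^[b] y} ⊆
        {f | ∃ v ∈ (Finset.univ : Finset V), f ∈ ({f | f x = v} ∩
            {f | OrbInj f v i ∧ OrbInj f y j ∧ (∀ a < i, f^[a] v ∉ insert x S) ∧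
              (∀ b < j, f^[b] y ∉ insert x S) ∧ f^[i] v = z ∧ f^[j] y = z' ∧
              ∀ a < i, ∀ b < j, f^[a] v ≠ f^[b] y})} := by
      rintro f ⟨h1, h2, h3, h4, h5, h6, h7⟩
      refine ⟨f x, Finset.mem_univ _, rfl, (N7_shift h1).1, h2, ?_, ?_, ?_, h6, ?_⟩
      · intro a ha hmem
        rcases Set.mem_insert_iff.mp hmem with h8 | h8
        · exact (N7_shift h1).2 a ha.le h8
        · refine h3 (a + 1) (by omega) ?_
          rw [Function.iterate_succ_apply]
          exact h8
      · intro b hb hmem
        rcases Set.mem_insert_iff.mp hmem with h8 | h8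
        · exact h7 0 (by omega) b hb h8.symm
        · exact h4 b hb h8
      · rw [← Function.iterate_succ_apply]
        exact h5
      · intro a ha b hb
        rw [← Function.iterate_succ_apply]
        exact h7 (a + 1) (by omega) b hb
    refine (pr_mono hP hsub).trans ((pr_exists_le hP _ _).trans ?_)
    have e : pk B (i + 1) x z * pk B j y z' =
        ∑ v, kerW B x v * (pk B i v z * pk B j y z') := by
      have e0 : pk B (i + 1) x z = ∑ v, kerW B x v * pk B i v z := rfl
      rw [e0, Finset.sum_mul]
      exact Finset.sum_congr rfl fun v _ => mul_assoc _ _ _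
    rw [e]
    refine Finset.sum_le_sum fun v _ => ?_
    rw [N7_indep hself x v]
    · exact mul_le_mul_of_nonneg_left
        (ih (insert x S) v (Set.mem_insert_of_mem x hz) (Set.mem_insert_of_mem x hz'))
        ((isProb_kerW hself x).1 v)
    · have key : ∀ f g : V → V, (∀ y, y ≠ x → f y = g y) →
          (OrbInj f v i ∧ OrbInj f y j ∧ (∀ a < i, f^[a] v ∉ insert x S) ∧
              (∀ b < j, f^[b] y ∉ insert x S) ∧ f^[i] v = z ∧ f^[j] y = z' ∧
              ∀ a < i, ∀ b < j, f^[a] v ≠ f^[b] y) →
          (OrbInj g v i ∧ OrbInj g y j ∧ (∀ a < i, g^[a] v ∉ insert x S) ∧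
              (∀ b < j, g^[b] y ∉ insert x S) ∧ g^[i] v = z ∧ g^[j] y = z' ∧
              ∀ a < i, ∀ b < j, g^[a] v ≠ g^[b] y) := by
        rintro f g hfg ⟨h1, h2, h3, h4, h5, h6, h7⟩
        have hio := indep_orbit x v f g hfg i (fun a ha hu => by
          rcases Nat.lt_or_ge a i with h8 | h8
          · exact h3 a h8 (by
              rw [hu]
              exact Set.mem_insert _ _)
          · have h9 : a = i := by omega
            rw [h9, h5] at hu
            exact hzx hu)
        have hjo := indep_orbit x y f g hfg j (fun b hb hu => by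
          rcases Nat.lt_or_ge b j with h8 | h8
          · exact h4 b h8 (by
              rw [hu]
              exact Set.mem_insert _ _)
          · have h9 : b = j := by omega
            rw [h9, h6] at hu
            exact hzx' hu)
        refine ⟨?_, ?_, ?_, ?_, ?_, ?_, ?_⟩
        · intro a ha a' ha' hij
          rw [← hio a ha, ← hio a' ha'] at hij
          exact h1 a ha a' ha' hij
        · intro a ha a' ha' hij
          rw [← hjo a ha, ← hjo a' ha'] at hij
          exact h2 a ha a' ha' hij
        · intro a ha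
          rw [← hio a ha.le]
          exact h3 a ha
        · intro b hb
          rw [← hjo b hb.le]
          exact h4 b hb
        · rw [← hio i le_rfl]
          exact h5
        · rw [← hjo j le_rfl]
          exact h6
        · intro a ha b hb
          rw [← hio a ha.le, ← hjo b hb.le]
          exact h7 a ha b hb
      intro f g h
      have h' : ∀ y, y ≠ x → f y = g y := fun y hy => h y (by simpa using hy)
      exact ⟨key f g h', key g f fun y hy => (h' y hy).symm⟩

end EA42
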