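import Pool.Agent.Lib.MP_ea42c6_pr.Three.U22
import Pool.Agent.Lib.MP_ea42c6_pr.Two.R10

/-!
# U27 — two vertices in the same component (deterministic)

`S = SI f0 I`, `h = pw S f0 f`.  `S` is closed under `f0` and every point of `S` is periodic for `f0`.  Before the
first visit to `S` (inclusive) the orbits of `h` and of `f` agree.  For a vertex `x` one of:
(A) `OrbInj f x t` and the orbit avoids `S` up to `t`;
(B) the orbit hits `S` at a first time `i ≤ t`; then `OrbInj f x i` (a repetition before `i` would make the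
orbit periodic and it would never reach `S`);
(C) the orbit avoids `S` up to `t` and is not injective up to `t`: then it avoids `S` for ever.
(A) for `x` or `y`: first two cases.  (C) and (C): `h`-orbits = `f`-orbits; `mapG_reach` gives `f^[a] x = f^[b] y`,
take `i` minimal, then `j` minimal as in R10: third case.  (B) and (C): impossible (after meeting
one orbit is in `S`, the other never).  (B) and (B) with first hits `i`, `j`: if the orbits before the hits
are disjoint: fourth case; `z`, `z'` are in the same cycle of `f0` because the `h`-orbits merge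
(`mapG_reach`) inside `S`.  Otherwise some `f^[a] x = f^[b] y` with `a < i`, `b < j`; take `a` minimal, then
`b` minimal: third case.
-/

namespace EA42

open scoped Classical

theorem U27_closed {V : Type*} {f0 : V → V} {I : Finset ℕ} {z : V} (hz : z ∈ SI f0 I) (i : ℕ) :
    f0^[i] z ∈ SI f0 I := by
  obtain ⟨m, hm, h⟩ := hz
  exact ⟨m, hm, onCyc_iter h i⟩

theorem U27_pre {V : Type*} {f0 f : V → V} {S : Set V} {x : V} {i : ℕ}
    (h : ∀ a < i, f^[a] x ∉ S) : (pw S f0 f)^[i] x = f^[i] x := by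
  induction i with
  | zero => rfl
  | succ i ih =>
    rw [Function.iterate_succ_apply', Function.iterate_succ_apply',
      ih (fun a ha => h a (by omega))]
    simp [pw, h i (by omega)]

theorem U27_in {V : Type*} {f0 f : V → V} {I : Finset ℕ} {z : V} (hz : z ∈ SI f0 I) (i : ℕ) :
    (pw (SI f0 I) f0 f)^[i] z = f0^[i] z := by
  induction i with
  | zero => rfl
  | succ i ih =>
    rw [Function.iterate_succ_apply', Function.iterate_succ_apply', ih]
    simp [pw, U27_closed hz i]

theorem U27_reach {V : Type*} (f : V → V) (u : V) (a : ℕ) :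
    (mapG f).Reachable u (f^[a] u) := by
  induction a with
  | zero => exact SimpleGraph.Reachable.refl _
  | succ a ih =>
    rw [Function.iterate_succ_apply']
    by_cases h : f^[a] u = f (f^[a] u)
    · rw [← h]; exact ih
    · refine ih.trans (SimpleGraph.Adj.reachable ?_)
      unfold mapG
      rw [SimpleGraph.fromRel_adj]
      exact ⟨h, Or.inl rfl⟩

/-- The orbit is injective up to the first visit to `S`. -/
theorem U27_first {V : Type*} {f : V → V} {S : Set V} {x : V} {i : ℕ}
    (hi : f^[i] x ∈ S) (h : ∀ a < i, f^[a] x ∉ S) : OrbInj f x i := by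
  refine R10_inj f fun a a' haa ha' hf => ?_
  have h1 : f^[i - a' + a] x = f^[i] x := by
    rw [Function.iterate_add_apply, hf, ← Function.iterate_add_apply,
      show i - a' + a' = i by omega]
  refine h (i - a' + a) (by omega) ?_
  rw [h1]
  exact hi

/-- The three types of orbits. -/
theorem U27_types {V : Type*} (f : V → V) (S : Set V) (x : V) (t : ℕ) :
    (OrbInj f x t ∧ ∀ i ≤ t, f^[i] x ∉ S) ∨ (¬ OrbInj f x t ∧ ∀ i, f^[i] x ∉ S) ∨
      ∃ i ≤ t, f^[i] x ∈ S ∧ ∀ a < i, f^[a] x ∉ S := by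
  by_cases h : ∃ i ≤ t, f^[i] x ∈ S
  · right; right
    obtain ⟨i, hi, hiS⟩ := h
    have hP : ∃ i, f^[i] x ∈ S := ⟨i, hiS⟩
    exact ⟨Nat.find hP, (Nat.find_min' hP hiS).trans hi, Nat.find_spec hP,
      fun a ha => Nat.find_min hP ha⟩
  · have h' : ∀ i ≤ t, f^[i] x ∉ S := fun i hi hiS => h ⟨i, hi, hiS⟩
    by_cases ho : OrbInj f x t
    · exact Or.inl ⟨ho, h'⟩
    · right; left
      refine ⟨ho, fun i => ?_⟩
      obtain ⟨a', ha', h1⟩ := R10_red f ho i
      rw [← h1]
      exact h' a' ha'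

/-- One orbit reaches `S`, the other does not: impossible. -/
theorem U27_mixed {V : Type*} {f0 f : V → V} {I : Finset ℕ} {x y : V} {a0 b0 i : ℕ}
    (hm : (pw (SI f0 I) f0 f)^[a0] x = (pw (SI f0 I) f0 f)^[b0] y)
    (hi : f^[i] x ∈ SI f0 I) (hlt : ∀ a < i, f^[a] x ∉ SI f0 I)
    (hy : ∀ b, f^[b] y ∉ SI f0 I) : False := by
  have h1 : (pw (SI f0 I) f0 f)^[i] x = f^[i] x := U27_pre hlt
  have h2 : (pw (SI f0 I) f0 f)^[a0 + i] x = f0^[a0] (f^[i] x) := by
    rw [Function.iterate_add_apply, h1, U27_in hi]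
  have h3 : (pw (SI f0 I) f0 f)^[i + b0] y = f^[i + b0] y := U27_pre fun a _ => hy a
  have h4 : (pw (SI f0 I) f0 f)^[i + a0] x = (pw (SI f0 I) f0 f)^[i + b0] y := by
    rw [Function.iterate_add_apply, hm, ← Function.iterate_add_apply]
  refine hy (i + b0) ?_
  rw [← h3, ← h4, add_comm i a0, h2]
  exact U27_closed hi a0

theorem reach_cases {V : Type*} (f0 f : V → V) (I : Finset ℕ) (t : ℕ) (x y : V)
    (hr : (mapG (pw (SI f0 I) f0 f)).Reachable x y) :
    (OrbInj f x t ∧ ∀ i ≤ t, f^[i] x ∉ SI f0 I) ∨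
    (OrbInj f y t ∧ ∀ i ≤ t, f^[i] y ∉ SI f0 I) ∨
    (∃ i ≤ t, ∃ j ≤ t, OrbInj f x i ∧ OrbInj f y j ∧ (∀ a ≤ i, f^[a] x ∉ SI f0 I) ∧
      (∀ b ≤ j, f^[b] y ∉ SI f0 I) ∧ f^[i] x = f^[j] y ∧
      ∀ a < i, ∀ b ≤ j, f^[a] x ≠ f^[b] y) ∨
    (∃ i ≤ t, ∃ j ≤ t, ∃ z ∈ SI f0 I, ∃ z' ∈ SI f0 I, (∃ p, f0^[p] z = z') ∧
      OrbInj f x i ∧ OrbInj f y j ∧ (∀ a < i, f^[a] x ∉ SI f0 I) ∧
      (∀ b < j, f^[b] y ∉ SI f0 I) ∧ f^[i] x = z ∧ f^[j] y = z' ∧
      ∀ a < i, ∀ b < j, f^[a] x ≠ f^[b] y) := by
  obtain ⟨a0, b0, hm⟩ := mapG_reach _ hr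
  rcases U27_types f (SI f0 I) x t with hA | hC | ⟨i, hit, hiS, hilt⟩
  · exact Or.inl hA
  · rcases U27_types f (SI f0 I) y t with hA' | hC' | ⟨j, hjt, hjS, hjlt⟩
    · exact Or.inr (Or.inl hA')
    · right; right; left
      have e1 : f^[a0] x = f^[b0] y := by
        rw [← U27_pre (f0 := f0) (S := SI f0 I) (x := x) (i := a0) fun a _ => hC.2 a,
          ← U27_pre (f0 := f0) (S := SI f0 I) (x := y) (i := b0) fun a _ => hC'.2 a]
        exact hm
      have hre : (mapG f).Reachable x y := by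
        have h1 := U27_reach f x a0
        rw [e1] at h1
        exact h1.trans (U27_reach f y b0).symm
      obtain ⟨i, hi, j, hj, o1, o2, e2, e3⟩ := meet_exists f hC.1 hC'.1 hre
      exact ⟨i, hi, j, hj, o1, o2, fun a _ => hC.2 a, fun b _ => hC'.2 b, e2, e3⟩
    · exact (U27_mixed hm.symm hjS hjlt hC.2).elim
  · rcases U27_types f (SI f0 I) y t with hA' | hC' | ⟨j, hjt, hjS, hjlt⟩
    · exact Or.inr (Or.inl hA')
    · exact (U27_mixed hm hiS hilt hC'.2).elim
    · right; right
      have ox : OrbInj f x i := U27_first hiS hilt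
      have oy : OrbInj f y j := U27_first hjS hjlt
      by_cases hB : ∃ a, a < i ∧ ∃ b < j, f^[a] x = f^[b] y
      · left
        have hP : ∃ a, ∃ b < j, f^[a] x = f^[b] y := by
          obtain ⟨a, _, b, hb, hab⟩ := hB
          exact ⟨a, b, hb, hab⟩
        have hfi : Nat.find hP < i := by
          obtain ⟨a, ha, b, hb, hab⟩ := hB
          exact lt_of_le_of_lt (Nat.find_min' hP ⟨b, hb, hab⟩) ha
        obtain ⟨b, hb, hab⟩ := Nat.find_spec hP
        refine ⟨Nat.find hP, by omega, b, by omega, ?_, ?_, ?_, ?_, hab, ?_⟩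
        · intro a ha a' ha' haa
          exact ox a (by omega) a' (by omega) haa
        · intro a ha a' ha' haa
          exact oy a (by omega) a' (by omega) haa
        · intro a ha
          exact hilt a (by omega)
        · intro a ha
          exact hjlt a (by omega)
        · intro a ha c hc hac
          exact Nat.find_min hP ha ⟨c, by omega, hac⟩
      · right
        refine ⟨i, hit, j, hjt, f^[i] x, hiS, f^[j] y, hjS, ?_, ox, oy, hilt, hjlt, rfl, rfl, ?_⟩
        · have h1 : (pw (SI f0 I) f0 f)^[i] x = f^[i] x := U27_pre hilt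
          have h2 : (pw (SI f0 I) f0 f)^[j] y = f^[j] y := U27_pre hjlt
          have h3 : (pw (SI f0 I) f0 f)^[a0 + j + i] x = f0^[a0 + j] (f^[i] x) := by
            rw [Function.iterate_add_apply, h1, U27_in hiS]
          have h4 : (pw (SI f0 I) f0 f)^[b0 + i + j] y = f0^[b0 + i] (f^[j] y) := by
            rw [Function.iterate_add_apply, h2, U27_in hjS]
          have h5 : (pw (SI f0 I) f0 f)^[(j + i) + a0] x =
              (pw (SI f0 I) f0 f)^[(j + i) + b0] y := by
            rw [Function.iterate_add_apply, hm, ← Function.iterate_add_apply]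
          rw [show j + i + a0 = a0 + j + i by omega, show j + i + b0 = b0 + i + j by omega,
            h3, h4] at h5
          obtain ⟨m, _, hc⟩ := hjS
          obtain ⟨p, hp⟩ := onCyc_back hc (b0 + i)
          refine ⟨p + (a0 + j), ?_⟩
          rw [Function.iterate_add_apply, h5, hp]
        · intro a ha b hb hab
          exact hB ⟨a, ha, b, hb, hab⟩

end EA42
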