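import Pool.Agent.Lib.MP_ea42c6_pr.Three.U24
import Pool.Agent.Lib.MP_ea42c6_pr.Three.U26
import Pool.Agent.Lib.MP_ea42c6_pr.Three.U27
import Pool.Agent.Lib.MP_ea42c6_pr.Two.R8
import Pool.Agent.Lib.MP_ea42c6_pr.S2

/-!
# U28 — no large component given absorbing cycles

As R11 (`abs_bound`): Markov for `largest² ≤ ∑ x y, [Reachable x y]` (`S2_largest_sq`).  `reach_cases`, union bound:
first two events `≤ saw t S x ≤ av t S x` (`orbit_saw`, `saw_le_av`); third `≤ ∑_{i,j ≤ t} ∑ w, pk i x w pk j y w`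
(`orbit_meet`), sum over `x`, `y` `≤ (t+1)² n κ²` (`pk_col`); fourth `≤ ∑_{i,j ≤ t} ∑_{(z,z') same cycle} pk i x z pk j y z'`
(`orbit_two`), sum over `x`, `y` `≤ (t+1)² κ² #{(z,z')} ≤ (t+1)² κ² s0 T₂` (`same_card`).
`saw_le_av`: induction (`saw` adds the past to the set; prove `saw K S' u ≤ av K S u` for `S ⊆ S'`).
-/

namespace EA42

open scoped Classical

private theorem U28_av_nonneg {V : Type*} [Fintype V] {B : V → Finset V} (K : ℕ) (S : Set V)
    (u : V) : 0 ≤ av B K S u := by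
  induction K generalizing u with
  | zero =>
    simp only [av]
    split_ifs
    · exact le_rfl
    · exact zero_le_one
  | succ K ih =>
    simp only [av]
    split_ifs
    · exact le_rfl
    · exact Finset.sum_nonneg fun v _ => mul_nonneg (kerW_nonneg u v) (ih v)

theorem saw_le_av {V : Type*} [Fintype V] {B : V → Finset V} (K : ℕ) {S S' : Set V}
    (h : S ⊆ S') (u : V) : saw B K S' u ≤ av B K S u := by
  induction K generalizing S' u with
  | zero =>
    by_cases hu : u ∈ S'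
    · have h0 : saw B 0 S' u = 0 := by simp only [saw, if_pos hu]
      rw [h0]
      exact U28_av_nonneg 0 S u
    · have hu' : u ∉ S := fun h1 => hu (h h1)
      simp only [saw, av, if_neg hu, if_neg hu']
      exact le_rfl
  | succ K ih =>
    by_cases hu : u ∈ S'
    · have h0 : saw B (K + 1) S' u = 0 := by simp only [saw, if_pos hu]
      rw [h0]
      exact U28_av_nonneg (K + 1) S u
    · have hu' : u ∉ S := fun h1 => hu (h h1)
      simp only [saw, av, if_neg hu, if_neg hu']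
      exact Finset.sum_le_sum fun v _ =>
        mul_le_mul_of_nonneg_left (ih (h.trans (Set.subset_insert u S')) v) (kerW_nonneg u v)

private theorem U28_pair {V : Type*} [Fintype V] [DecidableEq V] {B : V → Finset V}
    (hB : SymB B) (f0 : V → V) (I : Finset ℕ) (t : ℕ) (W : Finset (V × V))
    (hW : ∀ z z', z ∈ SI f0 I → z' ∈ SI f0 I → (∃ p, f0^[p] z = z') → (z, z') ∈ W)
    (hW' : ∀ q ∈ W, q.1 ∈ SI f0 I ∧ q.2 ∈ SI f0 I) (x y : V) :
    pr (prodW (kerW B)) {g | (mapG (pw (SI f0 I) f0 g)).Reachable x y} ≤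
      av B t (SI f0 I) x + av B t (SI f0 I) y +
        ∑ z ∈ Finset.range (t + 1) ×ˢ Finset.range (t + 1), ∑ w, pk B z.1 x w * pk B z.2 y w +
        ∑ z ∈ Finset.range (t + 1) ×ˢ Finset.range (t + 1),
          ∑ q ∈ W, pk B z.1 x q.1 * pk B z.2 y q.2 := by
  have hP : IsProb (prodW (kerW B)) := isProb_prodW fun u => isProb_kerW hB.self u
  set S : Set V := SI f0 I with hS
  have h1 : ∀ x, pr (prodW (kerW B)) {g | OrbInj g x t ∧ ∀ i ≤ t, g^[i] x ∉ S} ≤ av B t S x :=
    fun x => (orbit_saw hB.self t S x).trans (saw_le_av t subset_rfl x)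
  set M : ℕ × ℕ → Set (V → V) := fun z => {f | OrbInj f x z.1 ∧ OrbInj f y z.2 ∧
    (∀ a ≤ z.1, f^[a] x ∉ S) ∧ (∀ b ≤ z.2, f^[b] y ∉ S) ∧
    f^[z.1] x = f^[z.2] y ∧ ∀ a < z.1, ∀ b ≤ z.2, f^[a] x ≠ f^[b] y} with hM
  set M' : (ℕ × ℕ) × (V × V) → Set (V → V) := fun k => {f | OrbInj f x k.1.1 ∧ OrbInj f y k.1.2 ∧
    (∀ a < k.1.1, f^[a] x ∉ S) ∧ (∀ b < k.1.2, f^[b] y ∉ S) ∧ f^[k.1.1] x = k.2.1 ∧
    f^[k.1.2] y = k.2.2 ∧ ∀ a < k.1.1, ∀ b < k.1.2, f^[a] x ≠ f^[b] y} with hM'
  have hr : ∀ i j, i ≤ t → j ≤ t → (i, j) ∈ Finset.range (t + 1) ×ˢ Finset.range (t + 1) := by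
    intro i j hi hj
    rw [Finset.mem_product, Finset.mem_range, Finset.mem_range]
    constructor
    · show i < t + 1
      omega
    · show j < t + 1
      omega
  have h2 : {g : V → V | (mapG (pw S f0 g)).Reachable x y} ⊆
      (({g | OrbInj g x t ∧ ∀ i ≤ t, g^[i] x ∉ S} ∪ {g | OrbInj g y t ∧ ∀ i ≤ t, g^[i] y ∉ S}) ∪
      {g | ∃ z ∈ Finset.range (t + 1) ×ˢ Finset.range (t + 1), g ∈ M z}) ∪
      {g | ∃ k ∈ (Finset.range (t + 1) ×ˢ Finset.range (t + 1)) ×ˢ W, g ∈ M' k} := by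
    intro g hg
    rcases reach_cases f0 g I t x y hg with h3 | h3 | h3 | h3
    · exact Or.inl (Or.inl (Or.inl h3))
    · exact Or.inl (Or.inl (Or.inr h3))
    · obtain ⟨i, hi, j, hj, a1, a2, a3, a4, a5, a6⟩ := h3
      exact Or.inl (Or.inr ⟨(i, j), hr i j hi hj, a1, a2, a3, a4, a5, a6⟩)
    · obtain ⟨i, hi, j, hj, z, hz, z', hz', hp, a1, a2, a3, a4, a5, a6, a7⟩ := h3
      exact Or.inr ⟨((i, j), (z, z')), Finset.mem_product.mpr ⟨hr i j hi hj, hW z z' hz hz' hp⟩,
        a1, a2, a3, a4, a5, a6, a7⟩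
  refine (pr_mono hP h2).trans ((pr_union_le hP _ _).trans ?_)
  refine add_le_add ((pr_union_le hP _ _).trans ?_) ?_
  · refine add_le_add ((pr_union_le hP _ _).trans (add_le_add (h1 x) (h1 y))) ?_
    exact (pr_exists_le hP _ _).trans
      (Finset.sum_le_sum fun z _ => orbit_meet hB.self z.1 z.2 S x y)
  · refine (pr_exists_le hP _ _).trans ?_
    rw [Finset.sum_product]
    refine Finset.sum_le_sum fun z _ => Finset.sum_le_sum fun q hq => ?_
    exact orbit_two hB.self z.1 z.2 S x y (hW' q hq).1 (hW' q hq).2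

theorem q_bound {V : Type*} [Fintype V] [DecidableEq V] [Nonempty V] {B : V → Finset V}
    {D κ : ℝ} (h : DReg B D κ) (f0 : V → V) {I : Finset ℕ} {T₂ t : ℕ}
    (hI : ∀ m ∈ I, m ≤ T₂) {α s0 c : ℝ} (hc : 0 < c)
    (hs0 : ((Finset.univ.filter fun x => x ∈ SI f0 I).card : ℝ) ≤ s0)
    (hav : ∑ u, av B t (SI f0 I) u ≤ (Fintype.card V : ℝ) * α) :
    pr (prodW (kerW B)) {g | c * (Fintype.card V : ℝ) ≤
      (largest (mapG (pw (SI f0 I) f0 g)) : ℝ)} ≤
      (2 * α + ((t : ℝ) + 1) ^ 2 * κ ^ 2 / (Fintype.card V : ℝ) +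
        ((t : ℝ) + 1) ^ 2 * κ ^ 2 * s0 * T₂ / (Fintype.card V : ℝ) ^ 2) / c ^ 2 := by
  have hP : IsProb (prodW (kerW B)) := isProb_prodW fun u => isProb_kerW h.sym.self u
  set N : ℝ := (Fintype.card V : ℝ) with hN
  have hN0 : 0 < N := by
    rw [hN]
    exact_mod_cast (Fintype.card_pos : 0 < Fintype.card V)
  have hk : 0 ≤ κ := zero_le_one.trans (kappa_one h)
  set S : Set V := SI f0 I with hS
  set W : Finset (V × V) := Finset.univ.filter fun q : V × V =>
    q.1 ∈ S ∧ q.2 ∈ S ∧ ∃ p, f0^[p] q.1 = q.2 with hWdef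
  have hW : ∀ z z', z ∈ S → z' ∈ S → (∃ p, f0^[p] z = z') → (z, z') ∈ W := by
    intro z z' h1 h2 h3
    rw [hWdef, Finset.mem_filter]
    exact ⟨Finset.mem_univ _, h1, h2, h3⟩
  have hW' : ∀ q ∈ W, q.1 ∈ S ∧ q.2 ∈ S := by
    intro q hq
    rw [hWdef, Finset.mem_filter] at hq
    exact ⟨hq.2.1, hq.2.2.1⟩
  have hWcard : (W.card : ℝ) ≤ s0 * T₂ := by
    have h1 : W.card ≤ ∑ z : V, if z ∈ S then T₂ else 0 := by
      rw [hWdef, Finset.card_filter, Fintype.sum_prod_type]
      refine Finset.sum_le_sum fun z _ => ?_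
      by_cases hz : z ∈ S
      · rw [if_pos hz]
        refine le_trans ?_ (same_card f0 hI hz)
        rw [Finset.card_filter]
        refine Finset.sum_le_sum fun z' _ => ?_
        by_cases hp : ∃ p, f0^[p] z = z'
        · rw [if_pos hp]
          split_ifs
          · exact le_rfl
          · exact zero_le_one
        · rw [if_neg hp, if_neg fun h2 => hp h2.2.2]
      · rw [if_neg hz]
        refine le_of_eq (Finset.sum_eq_zero fun z' _ => ?_)
        rw [if_neg fun h2 => hz h2.1]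
    have h2 : (∑ z : V, if z ∈ S then T₂ else 0) =
        (Finset.univ.filter fun x => x ∈ S).card * T₂ := by
      rw [← Finset.sum_filter, Finset.sum_const, smul_eq_mul]
    rw [h2] at h1
    have h3 : (W.card : ℝ) ≤ ((Finset.univ.filter fun x => x ∈ S).card : ℝ) * T₂ := by
      exact_mod_cast h1
    exact h3.trans (mul_le_mul_of_nonneg_right hs0 (Nat.cast_nonneg _))
  set E : V × V → Set (V → V) := fun z => {g | (mapG (pw S f0 g)).Reachable z.1 z.2} with hE
  have h5 : ∀ g : V → V, (@Finset.filter (V × V) (fun z => g ∈ E z)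
      (fun z => Classical.propDecidable _) Finset.univ).card =
      ∑ u : V, (@Finset.filter V (fun v => (mapG (pw S f0 g)).Reachable u v)
        (fun v => Classical.propDecidable _) Finset.univ).card := by
    intro f
    simp only [Finset.card_filter, Fintype.sum_prod_type]
    rfl
  have hmk := pr_markov hP Finset.univ E ((c * N) ^ 2) (by positivity)
  have h2 : pr (prodW (kerW B)) {g | c * N ≤ (largest (mapG (pw S f0 g)) : ℝ)} ≤
      (∑ z : V × V, pr (prodW (kerW B)) (E z)) / (c * N) ^ 2 := by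
    refine (pr_mono hP ?_).trans hmk
    intro f hf
    have h2 : c * N ≤ (largest (mapG (pw S f0 f)) : ℝ) := hf
    have h3 : (c * N) ^ 2 ≤ (largest (mapG (pw S f0 f)) : ℝ) ^ 2 :=
      pow_le_pow_left₀ (by positivity) h2 2
    have h4 := S2_largest_sq (mapG (pw S f0 f))
    have h6 : (largest (mapG (pw S f0 f))) ^ 2 ≤ (@Finset.filter (V × V) (fun z => f ∈ E z)
      (fun z => Classical.propDecidable _) Finset.univ).card := by
      rw [h5]
      refine h4.trans (le_of_eq (Finset.sum_congr rfl fun u _ => ?_))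
      exact congrArg Finset.card (Finset.ext fun v => by simp only [Finset.mem_filter])
    have h7 : ((largest (mapG (pw S f0 f)) : ℕ) : ℝ) ^ 2 ≤
        (((@Finset.filter (V × V) (fun z => f ∈ E z)
      (fun z => Classical.propDecidable _) Finset.univ).card : ℕ) : ℝ) := by exact_mod_cast h6
    exact h3.trans h7
  have h3 : ∑ z : V × V, pr (prodW (kerW B)) (E z) ≤
      2 * α * N ^ 2 + ((t : ℝ) + 1) ^ 2 * κ ^ 2 * N + ((t : ℝ) + 1) ^ 2 * κ ^ 2 * s0 * T₂ := by
    have h4 : ∑ z : V × V, pr (prodW (kerW B)) (E z) ≤ ∑ u : V, ∑ v : V,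
        (av B t S u + av B t S v +
        ∑ z ∈ Finset.range (t + 1) ×ˢ Finset.range (t + 1), ∑ w, pk B z.1 u w * pk B z.2 v w +
        ∑ z ∈ Finset.range (t + 1) ×ˢ Finset.range (t + 1),
          ∑ q ∈ W, pk B z.1 u q.1 * pk B z.2 v q.2) := by
      rw [Fintype.sum_prod_type]
      exact Finset.sum_le_sum fun u _ => Finset.sum_le_sum fun v _ =>
        U28_pair h.sym f0 I t W hW hW' u v
    refine h4.trans ?_
    have h6 : ∀ u : V, ∑ v : V, (av B t S u + av B t S v +
        ∑ z ∈ Finset.range (t + 1) ×ˢ Finset.range (t + 1), ∑ w, pk B z.1 u w * pk B z.2 v w +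
        ∑ z ∈ Finset.range (t + 1) ×ˢ Finset.range (t + 1),
          ∑ q ∈ W, pk B z.1 u q.1 * pk B z.2 v q.2) = N * av B t S u + ∑ v, av B t S v +
          ∑ z ∈ Finset.range (t + 1) ×ˢ Finset.range (t + 1),
            ∑ w, pk B z.1 u w * ∑ v, pk B z.2 v w +
          ∑ z ∈ Finset.range (t + 1) ×ˢ Finset.range (t + 1),
            ∑ q ∈ W, pk B z.1 u q.1 * ∑ v, pk B z.2 v q.2 := by
      intro u
      rw [Finset.sum_add_distrib, Finset.sum_add_distrib, Finset.sum_add_distrib, Finset.sum_const,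
        Finset.card_univ, nsmul_eq_mul]
      congr 1
      · congr 1
        rw [Finset.sum_comm]
        refine Finset.sum_congr rfl fun z _ => ?_
        rw [Finset.sum_comm]
        exact Finset.sum_congr rfl fun w _ => (Finset.mul_sum _ _ _).symm
      · rw [Finset.sum_comm]
        refine Finset.sum_congr rfl fun z _ => ?_
        rw [Finset.sum_comm]
        exact Finset.sum_congr rfl fun w _ => (Finset.mul_sum _ _ _).symm
    have h7 : ∑ u : V, ∑ v : V, (av B t S u + av B t S v +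
        ∑ z ∈ Finset.range (t + 1) ×ˢ Finset.range (t + 1), ∑ w, pk B z.1 u w * pk B z.2 v w +
        ∑ z ∈ Finset.range (t + 1) ×ˢ Finset.range (t + 1),
          ∑ q ∈ W, pk B z.1 u q.1 * pk B z.2 v q.2) =
        N * ∑ u, av B t S u + N * ∑ v, av B t S v +
          ∑ z ∈ Finset.range (t + 1) ×ˢ Finset.range (t + 1),
            ∑ w, (∑ u, pk B z.1 u w) * ∑ v, pk B z.2 v w +
          ∑ z ∈ Finset.range (t + 1) ×ˢ Finset.range (t + 1),
            ∑ q ∈ W, (∑ u, pk B z.1 u q.1) * ∑ v, pk B z.2 v q.2 := by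
      rw [Finset.sum_congr rfl fun u _ => h6 u, Finset.sum_add_distrib, Finset.sum_add_distrib,
        Finset.sum_add_distrib, Finset.sum_const, Finset.card_univ, nsmul_eq_mul, ← Finset.mul_sum]
      congr 1
      · congr 1
        rw [Finset.sum_comm]
        refine Finset.sum_congr rfl fun z _ => ?_
        rw [Finset.sum_comm]
        exact Finset.sum_congr rfl fun w _ => (Finset.sum_mul _ _ _).symm
      · rw [Finset.sum_comm]
        refine Finset.sum_congr rfl fun z _ => ?_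
        rw [Finset.sum_comm]
        exact Finset.sum_congr rfl fun w _ => (Finset.sum_mul _ _ _).symm
    rw [h7]
    have hcol : ∀ (i j : ℕ) (w w' : V), (∑ u, pk B i u w) * ∑ v, pk B j v w' ≤ κ ^ 2 := by
      intro i j w w'
      rw [pow_two]
      exact mul_le_mul (pk_col h i w) (pk_col h j w')
        (Finset.sum_nonneg fun v _ => pk_nonneg _ _ _) hk
    have g1 : ∑ z ∈ Finset.range (t + 1) ×ˢ Finset.range (t + 1),
            ∑ w, (∑ u, pk B z.1 u w) * ∑ v, pk B z.2 v w ≤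
        ((t : ℝ) + 1) ^ 2 * κ ^ 2 * N := by
      refine (Finset.sum_le_sum fun z _ => (Finset.sum_le_sum fun w _ =>
        hcol z.1 z.2 w w)).trans (le_of_eq ?_)
      rw [Finset.sum_const, Finset.sum_const, Finset.card_univ, Finset.card_product,
        Finset.card_range, nsmul_eq_mul, nsmul_eq_mul]
      push_cast
      ring
    have g2 : ∑ z ∈ Finset.range (t + 1) ×ˢ Finset.range (t + 1),
            ∑ q ∈ W, (∑ u, pk B z.1 u q.1) * ∑ v, pk B z.2 v q.2 ≤
        ((t : ℝ) + 1) ^ 2 * κ ^ 2 * s0 * T₂ := by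
      refine (Finset.sum_le_sum fun z _ => (Finset.sum_le_sum fun q _ =>
        hcol z.1 z.2 q.1 q.2)).trans ?_
      rw [Finset.sum_const, Finset.sum_const, Finset.card_product,
        Finset.card_range, nsmul_eq_mul, nsmul_eq_mul]
      push_cast
      have g3 : ((t : ℝ) + 1) * ((t : ℝ) + 1) * ((W.card : ℝ) * κ ^ 2) ≤
          ((t : ℝ) + 1) * ((t : ℝ) + 1) * ((s0 * T₂) * κ ^ 2) :=
        mul_le_mul_of_nonneg_left (mul_le_mul_of_nonneg_right hWcard (sq_nonneg κ))
          (by positivity)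
      refine g3.trans (le_of_eq ?_)
      ring
    have g4 : N * ∑ u, av B t S u ≤ α * N ^ 2 := by
      calc N * ∑ u, av B t S u ≤ N * (N * α) := mul_le_mul_of_nonneg_left hav hN0.le
        _ = α * N ^ 2 := by ring
    linarith
  refine h2.trans ((div_le_div_of_nonneg_right h3 (by positivity)).trans (le_of_eq ?_))
  field_simp

end EA42
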