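import Pool.Agent.Lib.MP_ea42c6_pr.Three.U19
import Pool.Agent.Lib.MP_ea42c6_pr.Three.U20

/-!
# U29 — the mean number of cycles avoiding a small set

`I = Icc T (T + R)`, `R ≤ T`.  For `m ∈ I`: `m ≤ 2T` and `1/(D m) ≤ 1/n` (`hTn`), so `pk m z z ≤ 2H/n`; for
`1 ≤ a < m` the larger of `a`, `m - a` is at least `m/2`, so the factor with it is at most
`H (2/(D m) + 1/n) ≤ 3H/n`, the other is at most `H (1/(D a') + 1/n)`, `a' = min a (m - a)`; hence
`∑ z, pk a z z pk (m-a) z z ≤ 3H² (1/(D a') + 1/n)` and the sum over `a` is at most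
`6H² ((1 + log m)/D + m/n)` (`harmonic ≤ 1 + log`).
For even `m`, `tr m ≥ 1` (`tr_even_ge`), so by `cyc_ge`, `loop_lower` and `hsmall`:
`∑ x, pr {OnCyc g m x ∧ the orbit avoids S} ≥ 1/2`.  At least `R/2` of the `m ∈ I` are even and `1/m ≥ 1/(2T)`:
the sum is at least `(R/2)(1/(2T))(1/2) = R/(8T)`.
-/

namespace EA42

open scoped Classical

theorem U29_harm (m : ℕ) : ∑ a ∈ Finset.Ico 1 m, 1 / (a : ℝ) ≤ 1 + Real.log m := by
  have h1 := harmonic_le_one_add_log m
  have h2 : ((harmonic m : ℚ) : ℝ) = ∑ i ∈ Finset.range m, 1 / ((i : ℝ) + 1) := by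
    unfold harmonic
    push_cast
    exact Finset.sum_congr rfl fun i _ => by rw [one_div]
  rw [h2] at h1
  refine le_trans ?_ h1
  rw [Finset.sum_Ico_eq_sum_range]
  calc ∑ k ∈ Finset.range (m - 1), 1 / (((1 + k : ℕ)) : ℝ)
      = ∑ k ∈ Finset.range (m - 1), 1 / ((k : ℝ) + 1) := by
        refine Finset.sum_congr rfl fun k _ => ?_
        push_cast
        rw [add_comm]
    _ ≤ ∑ k ∈ Finset.range m, 1 / ((k : ℝ) + 1) := by
        apply Finset.sum_le_sum_of_subset_of_nonneg
        · exact Finset.range_mono (by omega)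
        · intro k _ _
          positivity

theorem U29_refl (m : ℕ) : ∑ a ∈ Finset.Ico 1 m, 1 / (((m - a : ℕ)) : ℝ) =
    ∑ a ∈ Finset.Ico 1 m, 1 / (a : ℝ) := by
  have h := Finset.sum_Ico_reflect (fun j => 1 / (j : ℝ)) 1 (m := m) (n := m) (by omega)
  rw [show m + 1 - m = 1 by omega, show m + 1 - 1 = m by omega] at h
  exact h

theorem U29_pair {V : Type*} [Fintype V] [Nonempty V] {B : V → Finset V}
    {D κ H g0 : ℝ} (h : HK B D κ H g0) (hH : 1 ≤ H) {m : ℕ} (hm : 1 ≤ m)
    (hmn : (Fintype.card V : ℝ) ≤ D * m) :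
    ∑ a ∈ Finset.Ico 1 m, ∑ z, pk B a z z * pk B (m - a) z z ≤
      6 * H ^ 2 * ((1 + Real.log m) / D + m / (Fintype.card V : ℝ)) := by
  have hD := h.reg.pos
  have hn : (0 : ℝ) < (Fintype.card V : ℝ) := by
    have := Fintype.card_pos (α := V)
    positivity
  obtain ⟨n, hnd⟩ : ∃ n : ℝ, n = (Fintype.card V : ℝ) := ⟨_, rfl⟩
  have hmR : (1 : ℝ) ≤ m := by exact_mod_cast hm
  have hhk := h.hk
  rw [← hnd] at hn hmn hhk ⊢
  -- the larger factor
  have hbig : ∀ b : ℕ, 1 ≤ b → (m : ℝ) ≤ 2 * b → ∀ z, pk B b z z ≤ 3 * H / n := by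
    intro b hb hbm z
    refine (hhk b hb z z).trans ?_
    have hbR : (1 : ℝ) ≤ b := by exact_mod_cast hb
    have h1 : n ≤ 2 * (D * b) := by nlinarith
    have h2 : 1 / (D * b) ≤ 2 / n := by
      rw [div_le_div_iff₀ (by positivity) hn]
      linarith
    calc H * (1 / (D * b) + 1 / n) ≤ H * (2 / n + 1 / n) := by
          apply mul_le_mul_of_nonneg_left _ (by linarith)
          linarith
      _ = 3 * H / n := by ring
  have hterm : ∀ a ∈ Finset.Ico 1 m, ∀ z, pk B a z z * pk B (m - a) z z ≤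
      3 * H ^ 2 / n * (1 / (D * a) + 1 / (D * ((m - a : ℕ) : ℝ)) + 1 / n) := by
    intro a ha z
    rw [Finset.mem_Ico] at ha
    have ha1 : (1 : ℝ) ≤ a := by exact_mod_cast ha.1
    have hma : (1 : ℝ) ≤ ((m - a : ℕ) : ℝ) := by
      have : 1 ≤ m - a := by omega
      exact_mod_cast this
    have hsum : (m : ℝ) = a + ((m - a : ℕ) : ℝ) := by
      rw [Nat.cast_sub ha.2.le]; ring
    have hp1 : 0 < 1 / (D * a) := by positivity
    have hp2 : 0 < 1 / (D * ((m - a : ℕ) : ℝ)) := by positivity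
    have hp3 : 0 < 1 / n := by positivity
    rcases le_total (a : ℝ) ((m - a : ℕ) : ℝ) with hc | hc
    · have h1 := hbig (m - a) (by omega) (by linarith) z
      have h2 := hhk a ha.1 z z
      calc pk B a z z * pk B (m - a) z z ≤ H * (1 / (D * a) + 1 / n) * (3 * H / n) :=
            mul_le_mul h2 h1 (pk_nonneg _ _ _) (by positivity)
        _ = 3 * H ^ 2 / n * (1 / (D * a) + 1 / n) := by ring
        _ ≤ _ := by
            apply mul_le_mul_of_nonneg_left _ (by positivity)
            linarith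
    · have h1 := hbig a ha.1 (by linarith) z
      have h2 := hhk (m - a) (by omega) z z
      calc pk B a z z * pk B (m - a) z z
          ≤ 3 * H / n * (H * (1 / (D * ((m - a : ℕ) : ℝ)) + 1 / n)) :=
            mul_le_mul h1 h2 (pk_nonneg _ _ _) (by positivity)
        _ = 3 * H ^ 2 / n * (1 / (D * ((m - a : ℕ) : ℝ)) + 1 / n) := by ring
        _ ≤ _ := by
            apply mul_le_mul_of_nonneg_left _ (by positivity)
            linarith
  have hz : ∀ a ∈ Finset.Ico 1 m, ∑ z, pk B a z z * pk B (m - a) z z ≤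
      3 * H ^ 2 * (1 / (D * a) + 1 / (D * ((m - a : ℕ) : ℝ)) + 1 / n) := by
    intro a ha
    calc ∑ z, pk B a z z * pk B (m - a) z z
        ≤ ∑ _z : V, 3 * H ^ 2 / n * (1 / (D * a) + 1 / (D * ((m - a : ℕ) : ℝ)) + 1 / n) :=
          Finset.sum_le_sum fun z _ => hterm a ha z
      _ = n * (3 * H ^ 2 / n * (1 / (D * a) + 1 / (D * ((m - a : ℕ) : ℝ)) + 1 / n)) := by
          rw [Finset.sum_const, Finset.card_univ, nsmul_eq_mul, ← hnd]
      _ = _ := by field_simp
  have hlog : 0 ≤ Real.log m := Real.log_nonneg hmR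
  calc ∑ a ∈ Finset.Ico 1 m, ∑ z, pk B a z z * pk B (m - a) z z
      ≤ ∑ a ∈ Finset.Ico 1 m,
          3 * H ^ 2 * (1 / (D * a) + 1 / (D * ((m - a : ℕ) : ℝ)) + 1 / n) :=
        Finset.sum_le_sum hz
    _ = 3 * H ^ 2 * (1 / D * (∑ a ∈ Finset.Ico 1 m, 1 / (a : ℝ)) +
          1 / D * (∑ a ∈ Finset.Ico 1 m, 1 / (((m - a : ℕ)) : ℝ)) +
          ((m - 1 : ℕ) : ℝ) * (1 / n)) := by
        rw [← Finset.mul_sum, Finset.sum_add_distrib, Finset.sum_add_distrib, Finset.mul_sum,
          Finset.mul_sum, Finset.sum_const, Nat.card_Ico, nsmul_eq_mul]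
        congr 2
        congr 1
        · exact Finset.sum_congr rfl fun a _ => by rw [one_div_mul_one_div]
        · exact Finset.sum_congr rfl fun a _ => by rw [one_div_mul_one_div]
    _ ≤ 3 * H ^ 2 * (1 / D * (1 + Real.log m) + 1 / D * (1 + Real.log m) + m * (1 / n)) := by
        apply mul_le_mul_of_nonneg_left _ (by positivity)
        rw [U29_refl]
        have h1 := U29_harm m
        have h2 : 1 / D * (∑ a ∈ Finset.Ico 1 m, 1 / (a : ℝ)) ≤ 1 / D * (1 + Real.log m) :=
          mul_le_mul_of_nonneg_left h1 (by positivity)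
        have h3 : ((m - 1 : ℕ) : ℝ) * (1 / n) ≤ m * (1 / n) := by
          apply mul_le_mul_of_nonneg_right _ (by positivity)
          exact_mod_cast Nat.sub_le m 1
        linarith
    _ ≤ 6 * H ^ 2 * ((1 + Real.log m) / D + m / n) := by
        have h4 : 0 ≤ H ^ 2 * (m / n) := by positivity
        have e1 : 3 * H ^ 2 * (1 / D * (1 + Real.log m) + 1 / D * (1 + Real.log m) + m * (1 / n))
            = 6 * H ^ 2 * ((1 + Real.log m) / D) + 3 * (H ^ 2 * (m / n)) := by ring
        have e2 : 6 * H ^ 2 * ((1 + Real.log m) / D + m / n)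
            = 6 * H ^ 2 * ((1 + Real.log m) / D) + 6 * (H ^ 2 * (m / n)) := by ring
        rw [e1, e2]
        linarith

theorem U29_even (T R : ℕ) :
    (R : ℝ) / 2 ≤ (((Finset.Icc T (T + R)).filter fun m => Even m).card : ℝ) := by
  have h : (R + 1) / 2 ≤ ((Finset.Icc T (T + R)).filter fun m => Even m).card := by
    have h1 : (Finset.range ((R + 1) / 2)).card ≤
        ((Finset.Icc T (T + R)).filter fun m => Even m).card := by
      apply Finset.card_le_card_of_injOn (fun i => 2 * ((T + 1) / 2 + i))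
      · intro i hi
        rw [Finset.mem_coe, Finset.mem_range] at hi
        rw [Finset.mem_coe, Finset.mem_filter, Finset.mem_Icc]
        have h1 : T ≤ 2 * ((T + 1) / 2 + i) := by omega
        have h2 : 2 * ((T + 1) / 2 + i) ≤ T + R := by omega
        exact ⟨⟨h1, h2⟩, even_two_mul _⟩
      · intro i _ j _ hij
        simp only at hij
        omega
    rwa [Finset.card_range] at h1
  have h2 : R ≤ 2 * ((Finset.Icc T (T + R)).filter fun m => Even m).card := by omega
  have h3 : (R : ℝ) ≤ 2 * (((Finset.Icc T (T + R)).filter fun m => Even m).card : ℝ) := by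
    exact_mod_cast h2
  linarith

theorem cyc_count {V : Type*} [Fintype V] [DecidableEq V] [Nonempty V] {B : V → Finset V}
    {D κ H g0 : ℝ} (h : HK B D κ H g0) (hH : 1 ≤ H) {T R : ℕ} (hT : 1 ≤ T) (hR : R ≤ T)
    (hTn : (Fintype.card V : ℝ) ≤ D * T) {s0 : ℝ}
    (hsmall : 2 * T * (s0 * (2 * H / (Fintype.card V : ℝ))) +
      2 * T * (6 * H ^ 2 * ((1 + Real.log (2 * T)) / D + 2 * T / (Fintype.card V : ℝ))) ≤ 1 / 2)
    (S : Set V) (hS : ((Finset.univ.filter fun x => x ∈ S).card : ℝ) ≤ s0) :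
    (R : ℝ) / (8 * T) ≤ ∑ x, ∑ m ∈ Finset.Icc T (T + R), 1 / (m : ℝ) *
      pr (prodW (kerW B)) {g | OnCyc g m x ∧ ∀ i, g^[i] x ∉ S} := by
  have hself := h.reg.sym.self
  have hD := h.reg.pos
  have hn : (0 : ℝ) < (Fintype.card V : ℝ) := by
    have := Fintype.card_pos (α := V)
    positivity
  have hTR : (1 : ℝ) ≤ T := by exact_mod_cast hT
  have hP := isProb_prodW (fun i => isProb_kerW hself i)
  have hs0 : 0 ≤ s0 := le_trans (Nat.cast_nonneg _) hS
  -- one even length
  have hone : ∀ m ∈ Finset.Icc T (T + R), Even m →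
      1 / 2 ≤ ∑ x, pr (prodW (kerW B)) {g : V → V | OnCyc g m x ∧ ∀ i, g^[i] x ∉ S} := by
    intro m hm hev
    rw [Finset.mem_Icc] at hm
    have hm1 : 1 ≤ m := by omega
    have hm2 : (m : ℝ) ≤ 2 * T := by
      have : m ≤ 2 * T := by omega
      exact_mod_cast this
    have hmT : (T : ℝ) ≤ m := by exact_mod_cast hm.1
    have hmR : (1 : ℝ) ≤ m := hTR.trans hmT
    have hDm : (Fintype.card V : ℝ) ≤ D * m :=
      hTn.trans (mul_le_mul_of_nonneg_left hmT hD.le)
    set S' : Finset V := Finset.univ.filter fun x => x ∈ S with hS'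
    have hSS : (S' : Set V) = S := by
      ext x
      rw [hS']
      simp
    have hlow := loop_lower (B := B) m hm1 S'
    rw [hSS] at hlow
    have hup : ∑ x, ∑ z, kerW B x z * st B (m - 1) S z x ≤
        ∑ x, pr (prodW (kerW B)) {g : V → V | OnCyc g m x ∧ ∀ i, g^[i] x ∉ S} :=
      Finset.sum_le_sum fun x _ => cyc_ge hself m hm1 S x
    have htr : 1 ≤ tr B m := by
      obtain ⟨l, hl⟩ := hev
      rw [hl, ← two_mul]
      exact tr_even_ge h.reg.sym l
    have hA : (m : ℝ) * ∑ z ∈ S', pk B m z z ≤ 2 * T * (s0 * (2 * H / (Fintype.card V : ℝ))) := by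
      have h1 : ∀ z, pk B m z z ≤ 2 * H / (Fintype.card V : ℝ) := by
        intro z
        refine (h.hk m hm1 z z).trans ?_
        have h2 : 1 / (D * m) ≤ 1 / (Fintype.card V : ℝ) := one_div_le_one_div_of_le hn hDm
        calc H * (1 / (D * m) + 1 / (Fintype.card V : ℝ))
            ≤ H * (1 / (Fintype.card V : ℝ) + 1 / (Fintype.card V : ℝ)) := by
              apply mul_le_mul_of_nonneg_left _ (by linarith)
              linarith
          _ = _ := by ring
      have h3 : ∑ z ∈ S', pk B m z z ≤ s0 * (2 * H / (Fintype.card V : ℝ)) := by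
        calc ∑ z ∈ S', pk B m z z ≤ ∑ _z ∈ S', 2 * H / (Fintype.card V : ℝ) :=
              Finset.sum_le_sum fun z _ => h1 z
          _ = (S'.card : ℝ) * (2 * H / (Fintype.card V : ℝ)) := by
              rw [Finset.sum_const, nsmul_eq_mul]
          _ ≤ _ := mul_le_mul_of_nonneg_right hS (by positivity)
      exact mul_le_mul hm2 h3 (Finset.sum_nonneg fun z _ => pk_nonneg _ _ _) (by positivity)
    have hB : (m : ℝ) * ∑ a ∈ Finset.Ico 1 m, ∑ z, pk B a z z * pk B (m - a) z z ≤
        2 * T * (6 * H ^ 2 * ((1 + Real.log (2 * T)) / D + 2 * T / (Fintype.card V : ℝ))) := by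
      have h1 := U29_pair h hH hm1 hDm
      have h2 : 6 * H ^ 2 * ((1 + Real.log m) / D + m / (Fintype.card V : ℝ)) ≤
          6 * H ^ 2 * ((1 + Real.log (2 * T)) / D + 2 * T / (Fintype.card V : ℝ)) := by
        apply mul_le_mul_of_nonneg_left _ (by positivity)
        have h3 : Real.log m ≤ Real.log (2 * T) := Real.log_le_log (by linarith) hm2
        have h4 : (1 + Real.log m) / D ≤ (1 + Real.log (2 * T)) / D :=
          div_le_div_of_nonneg_right (by linarith) hD.le
        have h5 : (m : ℝ) / (Fintype.card V : ℝ) ≤ 2 * T / (Fintype.card V : ℝ) :=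
          div_le_div_of_nonneg_right hm2 hn.le
        linarith
      refine mul_le_mul hm2 (h1.trans h2) ?_ (by positivity)
      exact Finset.sum_nonneg fun a _ => Finset.sum_nonneg fun z _ =>
        mul_nonneg (pk_nonneg _ _ _) (pk_nonneg _ _ _)
    linarith
  -- exchange the sums
  rw [Finset.sum_comm]
  have hge : ∑ m ∈ (Finset.Icc T (T + R)).filter (fun m => Even m), 1 / (4 * (T : ℝ)) ≤
      ∑ m ∈ Finset.Icc T (T + R), ∑ x, 1 / (m : ℝ) *
        pr (prodW (kerW B)) {g : V → V | OnCyc g m x ∧ ∀ i, g^[i] x ∉ S} := by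
    refine le_trans (Finset.sum_le_sum ?_)
      (Finset.sum_le_sum_of_subset_of_nonneg (Finset.filter_subset _ _) ?_)
    · intro m hm
      rw [Finset.mem_filter] at hm
      have h1 := hone m hm.1 hm.2
      rw [← Finset.mul_sum]
      have hm1 := (Finset.mem_Icc.1 hm.1)
      have hm2 : (m : ℝ) ≤ 2 * T := by
        have : m ≤ 2 * T := by omega
        exact_mod_cast this
      have hm3 : (0 : ℝ) < m := by
        have : 0 < m := by omega
        exact_mod_cast this
      have h2 : 1 / (2 * (T : ℝ)) ≤ 1 / (m : ℝ) := one_div_le_one_div_of_le hm3 hm2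
      calc 1 / (4 * (T : ℝ)) = 1 / (2 * (T : ℝ)) * (1 / 2) := by ring
        _ ≤ _ := mul_le_mul h2 h1 (by norm_num) (by positivity)
    · intro m _ _
      exact Finset.sum_nonneg fun x _ => mul_nonneg (by positivity) (pr_nonneg hP _)
  rw [Finset.sum_const, nsmul_eq_mul] at hge
  refine le_trans ?_ hge
  have hev := U29_even T R
  calc (R : ℝ) / (8 * T) = (R : ℝ) / 2 * (1 / (4 * (T : ℝ))) := by ring
    _ ≤ _ := mul_le_mul_of_nonneg_right hev (by positivity)

end EA42
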