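import Mathlib

/-!
# U3 — the recursion `v (j+1) ≤ v j - c (v j)²`

Induction on `j`.  If `v j ≤ τ` then `v (j+1) ≤ v j ≤ τ`.  If `τ < v j`: `v j ≤ 1/(c j)` and
`v (j+1) ≤ v j - c (v j)²`; `x - c x²` is increasing for `x ≤ 1/(2c)`, so for `j ≥ 2` it is at most
`1/(c j) - 1/(c j²) ≤ 1/(c (j+1))`; for `j = 1`, `x - c x² ≤ 1/(4c) ≤ 1/(2c)`.
(Alternative: `x - c x² ≤ 1/(c (j+1))` for `0 < x ≤ 1/(c j)`: with `y = c x`, `y - y² ≤ 1/(j+1)` for
`0 ≤ y ≤ 1/j`.)
-/

namespace EA42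

theorem nash_seq {v : ℕ → ℝ} {c τ : ℝ} (hc : 0 < c) (hτ : 0 ≤ τ) (h1 : v 1 ≤ 1 / c)
    (hanti : ∀ j, 1 ≤ j → v (j + 1) ≤ v j)
    (hstep : ∀ j, 1 ≤ j → τ < v j → v (j + 1) ≤ v j - c * v j ^ 2) (j : ℕ) (hj : 1 ≤ j) :
    v j ≤ max τ (1 / (c * j)) := by
  induction j, hj using Nat.le_induction with
  | base =>
    rw [Nat.cast_one, mul_one]
    exact h1.trans (le_max_right _ _)
  | succ j hj ih =>
    have hj' : (0 : ℝ) < j := by exact_mod_cast (Nat.lt_of_lt_of_le Nat.zero_lt_one hj)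
    by_cases h : v j ≤ τ
    · exact ((hanti j hj).trans h).trans (le_max_left _ _)
    · rw [not_le] at h
      have h2 : v j ≤ 1 / (c * j) := by
        rcases le_max_iff.mp ih with h3 | h3
        · exact absurd h3 (not_le.mpr h)
        · exact h3
      refine ((hstep j hj h).trans ?_).trans (le_max_right _ _)
      set y : ℝ := c * v j with hy
      have hy1 : y * j ≤ 1 := by
        rw [le_div_iff₀ (by positivity)] at h2
        calc y * j = v j * (c * j) := by rw [hy]; ring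
          _ ≤ 1 := h2
      have hy0 : 0 < y := mul_pos hc (hτ.trans_lt h)
      have key : (y - y ^ 2) * ((j : ℝ) + 1) ≤ 1 := by
        by_cases hy2 : y * ((j : ℝ) + 1) ≤ 1
        · nlinarith
        · rw [not_le] at hy2
          nlinarith
      push_cast
      rw [le_div_iff₀ (by positivity)]
      calc (v j - c * v j ^ 2) * (c * ((j : ℝ) + 1)) = (y - y ^ 2) * ((j : ℝ) + 1) := by
            rw [hy]
            ring
        _ ≤ 1 := key

end EA42
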