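import Pool.Agent.Lib.MP_ea42c6_pr.Three.U15
import Pool.Agent.Lib.MP_ea42c6_pr.Three.U18
import Pool.Agent.Lib.MP_ea42c6_pr.Three.U23
import Pool.Agent.Lib.MP_ea42c6_pr.Three.U25
import Pool.Agent.Lib.MP_ea42c6_pr.Three.U28
import Pool.Agent.Lib.MP_ea42c6_pr.Three.U29

/-!
# U30 — the inequality for one graph

`I = Icc T (T + R)`.
`nc_lower`: `pr {NC = 0} ≥ 1/2`: `nc_zero` and `∑_{m ∈ I} tr m/m ≤ (R+1)/T · n H (1/(D T) + 1/n) ≤ 2H (R+1)/T ≤ 1/2`
(`hR4`).  `pr {NC = i+1} ≥ (ω/(i+1)) pr {NC = i}`, `ω = R/(8T)`, for `i < k` (`nc_rec`, `cyc_count` with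
`s0 = 2 T k`: `si_card`, `T₂ = T + R ≤ 2T`).  So `pr {NC = k} ≥ (1/2) ∏_{i<k} ω/(i+1) = (1/2) ω^k/k!`.
`one_graph`: `G = {NC = k, NB ≤ 1/2}`, `Q = {c n ≤ largest}`.  `hG` of `decouple`: `NC` and `NB` depend only on
`SI f I` and `f` on `SI f I` (`OnCyc f m x`, `opath f x K` for `x ∈ SI`).  For `f ∈ G`: `absorb` and `q_bound`
(`s0 = 2 T k`, `T₂ = 2T`) give `η`; `hη : η ≤ 1/4`.  So `pr (G ∩ Q) ≤ (1/2) pr G`, `pr Q ≤ pr Gᶜ + (1/2) pr G
= 1 - (1/2) pr G`, and `pr G ≥ pr {NC = k} - pr {NB > 1/2} ≥ (1/2) ω^k/k! - 2 E NB ≥ (1/4) ω^k/k!` (`hbad`: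
`bad_mean`, Markov).
-/

namespace EA42

open scoped Classical

variable {V : Type*} [Fintype V] [DecidableEq V] [Nonempty V] {B : V → Finset V}

omit [Fintype V] [DecidableEq V] [Nonempty V] in
private theorem U30_iter {f f' : V → V} {I : Finset ℕ} (hff : ∀ x ∈ SI f I, f x = f' x) {x : V}
    (hx : x ∈ SI f I) (i : ℕ) : f'^[i] x = f^[i] x := by
  obtain ⟨m, hm, hc⟩ := hx
  induction i with
  | zero => rfl
  | succ i ih =>
    rw [Function.iterate_succ_apply', Function.iterate_succ_apply', ih]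
    exact (hff _ ⟨m, hm, onCyc_iter hc i⟩).symm

omit [Fintype V] [DecidableEq V] [Nonempty V] in
private theorem U30_cyc {f f' : V → V} {I : Finset ℕ} (hff : ∀ x ∈ SI f I, f x = f' x) {x : V}
    {m : ℕ} (hm : m ∈ I) (h : OnCyc f m x) : OnCyc f' m x := by
  have hx : x ∈ SI f I := ⟨m, hm, h⟩
  refine ⟨h.1, fun i hi j hj hij => ?_, ?_⟩
  · rw [U30_iter hff hx, U30_iter hff hx] at hij
    exact h.2.1 i hi j hj hij
  · rw [U30_iter hff hx]
    exact h.2.2

omit [Fintype V] [DecidableEq V] [Nonempty V] in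
private theorem U30_cyc_iff {f f' : V → V} {I : Finset ℕ} (hSI : SI f I = SI f' I)
    (hff : ∀ x ∈ SI f I, f x = f' x) {x : V} {m : ℕ} (hm : m ∈ I) :
    OnCyc f m x ↔ OnCyc f' m x := by
  refine ⟨U30_cyc hff hm, U30_cyc (f := f') (f' := f) ?_ hm⟩
  intro y hy
  rw [← hSI] at hy
  exact (hff y hy).symm

omit [DecidableEq V] [Nonempty V] in
private theorem U30_NC {f f' : V → V} {I : Finset ℕ} (hSI : SI f I = SI f' I)
    (hff : ∀ x ∈ SI f I, f x = f' x) : NC f' I = NC f I := by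
  unfold NC
  refine Finset.sum_congr rfl fun x _ => Finset.sum_congr rfl fun m hm => ?_
  by_cases h : OnCyc f m x
  · rw [if_pos h, if_pos ((U30_cyc_iff hSI hff hm).1 h)]
  · rw [if_neg h, if_neg fun h' => h ((U30_cyc_iff hSI hff hm).2 h')]

omit [DecidableEq V] [Nonempty V] in
private theorem U30_NB {f f' : V → V} {I : Finset ℕ} (hSI : SI f I = SI f' I)
    (hff : ∀ x ∈ SI f I, f x = f' x) (J K : ℕ) (e : ℝ) : NB B J K e f' I = NB B J K e f I := by
  unfold NB
  refine Finset.sum_congr rfl fun x _ => Finset.sum_congr rfl fun m hm => ?_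
  by_cases h : OnCyc f m x
  · have h' := (U30_cyc_iff hSI hff hm).1 h
    have hop : opath f' x K = opath f x K := by
      funext s
      exact U30_iter hff ⟨m, hm, h⟩ _
    rw [hop]
    by_cases he : e < En B J K (opath f x K)
    · rw [if_pos ⟨h', he⟩, if_pos ⟨h, he⟩]
    · rw [if_neg fun hh => he hh.2, if_neg fun hh => he hh.2]
  · have h' : ¬ OnCyc f' m x := fun h' => h ((U30_cyc_iff hSI hff hm).2 h')
    rw [if_neg fun hh => h' hh.1, if_neg fun hh => h hh.1]

omit [DecidableEq V] [Nonempty V] in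
private theorem U30_NB_nonneg (J K : ℕ) (e : ℝ) (f : V → V) (I : Finset ℕ) :
    0 ≤ NB B J K e f I := by
  unfold NB
  refine Finset.sum_nonneg fun x _ => Finset.sum_nonneg fun m _ => ?_
  split_ifs
  · positivity
  · exact le_rfl

omit [DecidableEq V] in
private theorem U30_tr {D κ H g0 : ℝ} (h : HK B D κ H g0) (hH : 1 ≤ H) {T : ℕ} (hT : 1 ≤ T)
    (hTn : (Fintype.card V : ℝ) ≤ D * T) {m : ℕ} (hm : T ≤ m) : tr B m ≤ 2 * H := by
  have hn : (0 : ℝ) < Fintype.card V := by exact_mod_cast Fintype.card_pos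
  have hD := h.reg.pos
  have hT0 : (0 : ℝ) < T := by exact_mod_cast hT
  have hm0 : (T : ℝ) ≤ m := by exact_mod_cast hm
  have hDm : (Fintype.card V : ℝ) ≤ D * m := hTn.trans (mul_le_mul_of_nonneg_left hm0 hD.le)
  have h1 : tr B m ≤ ∑ _x : V, H * (1 / (D * m) + 1 / (Fintype.card V : ℝ)) := by
    unfold tr
    exact Finset.sum_le_sum fun x _ => h.hk m (hT.trans hm) x x
  refine h1.trans ?_
  rw [Finset.sum_const, Finset.card_univ, nsmul_eq_mul]
  have h2 : 1 / (D * m) ≤ 1 / (Fintype.card V : ℝ) := one_div_le_one_div_of_le hn hDm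
  have h3 : (Fintype.card V : ℝ) * (1 / (Fintype.card V : ℝ)) = 1 := mul_one_div_cancel hn.ne'
  calc (Fintype.card V : ℝ) * (H * (1 / (D * m) + 1 / (Fintype.card V : ℝ)))
      ≤ (Fintype.card V : ℝ) * (H * (1 / (Fintype.card V : ℝ) + 1 / (Fintype.card V : ℝ))) := by
        apply mul_le_mul_of_nonneg_left _ hn.le
        apply mul_le_mul_of_nonneg_left _ (by linarith)
        linarith
    _ = 2 * H * ((Fintype.card V : ℝ) * (1 / (Fintype.card V : ℝ))) := by ring
    _ = 2 * H := by rw [h3]; ring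

theorem nc_lower {D κ H g0 : ℝ} (h : HK B D κ H g0) (hH : 1 ≤ H) {T R : ℕ} (hT : 1 ≤ T)
    (hR4 : 4 * H * ((R : ℝ) + 1) ≤ T) (hTn : (Fintype.card V : ℝ) ≤ D * T) (k : ℕ)
    (hsmall : 2 * T * (2 * T * k * (2 * H / (Fintype.card V : ℝ))) +
      2 * T * (6 * H ^ 2 * ((1 + Real.log (2 * T)) / D + 2 * T / (Fintype.card V : ℝ))) ≤
        1 / 2) :
    1 / 2 ≤ pr (prodW (kerW B)) {f | NC f (Finset.Icc T (T + R)) = 0} ∧
    1 / 2 * (((R : ℝ) / (8 * T)) ^ k / (k.factorial : ℝ)) ≤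
      pr (prodW (kerW B)) {f | NC f (Finset.Icc T (T + R)) = k} := by
  have hself := h.reg.sym.self
  have hn : (0 : ℝ) < Fintype.card V := by exact_mod_cast Fintype.card_pos
  have hT0 : (0 : ℝ) < T := by exact_mod_cast hT
  have hRT : (R : ℝ) + 1 ≤ T := by
    have : (0 : ℝ) ≤ (R : ℝ) + 1 := by positivity
    nlinarith
  have hRT' : R ≤ T := by
    have : (R : ℝ) ≤ T := by linarith
    exact_mod_cast this
  have hzero : 1 / 2 ≤ pr (prodW (kerW B)) {f | NC f (Finset.Icc T (T + R)) = 0} := by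
    refine le_trans ?_ (nc_zero hself (Finset.Icc T (T + R)))
    have h1 : ∑ m ∈ Finset.Icc T (T + R), tr B m / m ≤
        ∑ _m ∈ Finset.Icc T (T + R), 2 * H / T := by
      refine Finset.sum_le_sum fun m hm => ?_
      have hm1 : T ≤ m := (Finset.mem_Icc.1 hm).1
      have hm0 : (T : ℝ) ≤ m := by exact_mod_cast hm1
      exact div_le_div₀ (by linarith) (U30_tr h hH hT hTn hm1) hT0 hm0
    rw [Finset.sum_const, Nat.card_Icc, nsmul_eq_mul] at h1
    have h2 : ((T + R + 1 - T : ℕ) : ℝ) = (R : ℝ) + 1 := by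
      rw [show T + R + 1 - T = R + 1 by omega]
      push_cast
      ring
    rw [h2, ← mul_div_assoc, le_div_iff₀ hT0] at h1
    nlinarith
  refine ⟨hzero, ?_⟩
  have hω : (0 : ℝ) ≤ (R : ℝ) / (8 * T) := by positivity
  have key : ∀ i : ℕ, i ≤ k → 1 / 2 * (((R : ℝ) / (8 * T)) ^ i / (i.factorial : ℝ)) ≤
      pr (prodW (kerW B)) {f | NC f (Finset.Icc T (T + R)) = (i : ℝ)} := by
    intro i
    induction i with
    | zero =>
      intro _
      simpa using hzero
    | succ i ih =>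
      intro hi
      have h1 := ih (by omega)
      have h2 := nc_rec (B := B) hself (I := Finset.Icc T (T + R))
        (fun m hm => hT.trans (Finset.mem_Icc.1 hm).1) i (ω := (R : ℝ) / (8 * T))
        (by
          intro f hf
          apply cyc_count h hH hT hRT' hTn (s0 := 2 * T * k) hsmall (SI f (Finset.Icc T (T + R)))
          refine (si_card f (I := Finset.Icc T (T + R)) (T₂ := 2 * T) ?_).trans ?_
          · intro m hm
            have := (Finset.mem_Icc.1 hm).2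
            omega
          · rw [hf]
            push_cast
            have h3 : (i : ℝ) ≤ k := by
              have : i ≤ k := by omega
              exact_mod_cast this
            exact mul_le_mul_of_nonneg_left h3 (by positivity))
      have hi0 : (0 : ℝ) < (i : ℝ) + 1 := by positivity
      have h3 : 1 / 2 * (((R : ℝ) / (8 * T)) ^ (i + 1) / ((i + 1).factorial : ℝ)) =
          ((R : ℝ) / (8 * T)) * (1 / 2 * (((R : ℝ) / (8 * T)) ^ i / (i.factorial : ℝ))) /
            ((i : ℝ) + 1) := by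
        rw [Nat.factorial_succ]
        push_cast
        have hf : (i.factorial : ℝ) ≠ 0 := by positivity
        rw [pow_succ]
        generalize (R : ℝ) / (8 * T) = y
        field_simp
      rw [h3, div_le_iff₀ hi0]
      have h4 := mul_le_mul_of_nonneg_left h1 hω
      have h5 : ((i + 1 : ℕ) : ℝ) = (i : ℝ) + 1 := by push_cast; ring
      rw [h5]
      linarith
  exact key k le_rfl

theorem one_graph {D κ H g0 : ℝ} (h : HK B D κ H g0) (hH : 1 ≤ H) (hg0 : 0 < g0)
    (hg1 : g0 ≤ 1) {T R K t k : ℕ} (hT : 2 ≤ T) (hK : 2 * K ≤ T)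
    (hR4 : 4 * H * ((R : ℝ) + 1) ≤ T) (hTn : (Fintype.card V : ℝ) ≤ D * T) (hk : 1 ≤ k)
    (hsmall : 2 * T * (2 * T * k * (2 * H / (Fintype.card V : ℝ))) +
      2 * T * (6 * H ^ 2 * ((1 + Real.log (2 * T)) / D + 2 * T / (Fintype.card V : ℝ))) ≤
        1 / 2)
    {c e : ℝ} (hc : 0 < c) (he : 0 < e)
    (hη : (2 * (6 * κ ^ 2 * (Fintype.card V : ℝ) / (((t : ℝ) + 1) * ((K : ℝ) + 1) * k) +
        16 * κ ^ 2 * D * (Fintype.card V : ℝ) * e / (((t : ℝ) + 1) * ((K : ℝ) + 1) ^ 2)) +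
      ((t : ℝ) + 1) ^ 2 * κ ^ 2 / (Fintype.card V : ℝ) +
      ((t : ℝ) + 1) ^ 2 * κ ^ 2 * (2 * T * k) * (2 * T) / (Fintype.card V : ℝ) ^ 2) / c ^ 2 ≤
        1 / 4)
    (hbad : ((R : ℝ) + 1) / T * (3 * H / (Fintype.card V : ℝ)) * (1 / (D * e)) *
        (((K : ℝ) + 1) * (100 * H / g0 ^ 2 * ((Fintype.card V : ℝ) / D) ^ 2)) ≤
      1 / 8 * (((R : ℝ) / (8 * T)) ^ k / (k.factorial : ℝ))) :
    pr (prodW (kerW B)) {f | c * (Fintype.card V : ℝ) ≤ (largest (mapG f) : ℝ)} ≤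
      1 - 1 / 8 * (((R : ℝ) / (8 * T)) ^ k / (k.factorial : ℝ)) := by
  have hself := h.reg.sym.self
  have hP : IsProb (prodW (kerW B)) := isProb_prodW (isProb_kerW hself)
  have hn : (0 : ℝ) < Fintype.card V := by exact_mod_cast Fintype.card_pos
  have hT1 : 1 ≤ T := by omega
  have hT0 : (0 : ℝ) < T := by exact_mod_cast hT1
  have hRT' : R ≤ T := by
    have h0 : (0 : ℝ) ≤ (R : ℝ) + 1 := by positivity
    have : (R : ℝ) ≤ T := by nlinarith
    exact_mod_cast this
  obtain ⟨hN0, hNk⟩ := nc_lower h hH hT1 hR4 hTn k hsmall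
  set I := Finset.Icc T (T + R) with hI
  have hIm : ∀ m ∈ I, T ≤ m := fun m hm => (Finset.mem_Icc.1 hm).1
  have hI2 : ∀ m ∈ I, m ≤ 2 * T := fun m hm => by
    have := (Finset.mem_Icc.1 hm).2
    omega
  set X := ((R : ℝ) / (8 * T)) ^ k / (k.factorial : ℝ) with hX
  set Q : Set (V → V) := {f | c * (Fintype.card V : ℝ) ≤ (largest (mapG f) : ℝ)} with hQ
  set G : Set (V → V) := {f | NC f I = k ∧ NB B (t / 2) K e f I ≤ 1 / 2} with hG
  have hdec : pr (prodW (kerW B)) (G ∩ Q) ≤ 2 * (1 / 4) * pr (prodW (kerW B)) G := by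
    apply decouple hself (I := I) G Q ?_ ?_ hN0
    · intro f f' hSI hff hf
      refine ⟨?_, ?_⟩
      · rw [U30_NC hSI hff]
        exact hf.1
      · rw [U30_NB hSI hff]
        exact hf.2
    · intro f hf
      have hs0 : ((Finset.univ.filter fun x => x ∈ SI f I).card : ℝ) ≤ 2 * T * k := by
        refine (si_card f (I := I) (T₂ := 2 * T) hI2).trans ?_
        rw [hf.1]
        push_cast
        exact le_rfl
      have hav := absorb h.reg f (I := I) (K := K) (t := t) (k := k) (e := e) he.le hk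
        (fun m hm => by have := hIm m hm; omega) hf.1 hf.2
      have hq := q_bound h.reg f (I := I) (T₂ := 2 * T) (t := t) hI2 hc hs0 hav
      refine hq.trans ?_
      push_cast
      exact hη
  have hNB : pr (prodW (kerW B)) {f | ¬ NB B (t / 2) K e f I ≤ 1 / 2} ≤ 1 / 4 * X := by
    have h1 : pr (prodW (kerW B)) {f | ¬ NB B (t / 2) K e f I ≤ 1 / 2} ≤
        2 * ∑ f, prodW (kerW B) f * NB B (t / 2) K e f I := by
      unfold pr
      rw [Finset.mul_sum]
      refine Finset.sum_le_sum fun f _ => ?_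
      have h0 := hP.1 f
      have h2 := U30_NB_nonneg (B := B) (t / 2) K e f I
      by_cases h3 : f ∈ {f : V → V | ¬ NB B (t / 2) K e f I ≤ 1 / 2}
      · rw [if_pos h3]
        have h4 : 1 / 2 < NB B (t / 2) K e f I := not_le.1 h3
        nlinarith
      · rw [if_neg h3]
        positivity
    have h2 := bad_mean h hH hg0 hg1 (I := I) (T := T) (K := K) (J := t / 2) hT1 hIm hK hTn he
    have h3 : (I.card : ℝ) = (R : ℝ) + 1 := by
      rw [hI, Nat.card_Icc, show T + R + 1 - T = R + 1 by omega]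
      push_cast
      ring
    rw [h3] at h2
    linarith
  have hGk : 1 / 4 * X ≤ pr (prodW (kerW B)) G := by
    have h1 : pr (prodW (kerW B)) {f | NC f I = k} ≤
        pr (prodW (kerW B)) G + pr (prodW (kerW B)) {f | ¬ NB B (t / 2) K e f I ≤ 1 / 2} := by
      refine le_trans (pr_mono hP ?_) (pr_union_le hP _ _)
      intro f hf
      by_cases h2 : NB B (t / 2) K e f I ≤ 1 / 2
      · exact Or.inl ⟨hf, h2⟩
      · exact Or.inr h2
    linarith
  have hQ1 : pr (prodW (kerW B)) Q ≤ pr (prodW (kerW B)) Gᶜ + pr (prodW (kerW B)) (G ∩ Q) := by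
    refine le_trans (pr_mono hP ?_) (pr_union_le hP _ _)
    intro f hf
    by_cases h2 : f ∈ G
    · exact Or.inr ⟨h2, hf⟩
    · exact Or.inl h2
  rw [pr_compl hP] at hQ1
  linarith

end EA42
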