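import Pool.Agent.Lib.MP_ea42c6_pr.Two.R19
import Pool.Agent.Lib.MP_ea42c6_pr.One.N16
import Pool.Agent.Lib.MP_ea42c6_pr.Three.U32

/-!
# U33 — all radii

`small_uniform`: by contradiction.  For every `k` there are arbitrarily large `n` and
`r < (1/(k+1)) n^(-1/4) √(log n)` with `probGiant n r c > ofReal (1/2)`; choose `φ` strictly increasing and `ρ k`
such that this holds for `n = φ k`, `r = ρ k`.  Let `r' n = max (ρ k) 0` if `n = φ k` and `r' n = 0` otherwise: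
`n (r' n)⁴/log² n ≤ (1/(k+1))⁴` for `n = φ k`, so the hypothesis of `two_pick` (R19) holds and
`probGiant (φ k) (r' (φ k)) c → 0`.  But `probGiant (φ k) (r' (φ k)) c = probGiant (φ k) (ρ k) c` if `ρ k ≥ 0`, and
also if `ρ k < 0` (`max (ρ k) 0 = 0`: both balls are empty; or show that `probGiant = 0` for `r ≤ 0` and
`c n > 1`: `probGiant_nonpos` in One/N16, so `ρ k > 0` for large `k`).
`never_uniform`: `a` from `small_uniform`, then `never_prob`; `δ' = min δ (1/2)`.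
-/

namespace EA42

open MeasureTheory Filter
open scoped Classical ENNReal

theorem small_uniform {c : ℝ} (hc : 0 < c) :
    ∃ a : ℝ, 0 < a ∧ ∃ n₀ : ℕ, ∀ n : ℕ, n₀ ≤ n → ∀ r : ℝ,
      r < a * (n : ℝ) ^ (-(1 : ℝ) / 4) * Real.sqrt (Real.log n) →
      probGiant (PMF.pure 1) n r c ≤ ENNReal.ofReal (1 / 2) := by
  by_contra hcon
  push Not at hcon
  have hP : ∀ k : ℕ, ∃ᶠ n : ℕ in atTop, ∃ r : ℝ,
      r < 1 / ((k : ℝ) + 1) * (n : ℝ) ^ (-(1 : ℝ) / 4) * Real.sqrt (Real.log n) ∧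
        ENNReal.ofReal (1 / 2) < probGiant (PMF.pure 1) n r c := by
    intro k
    rw [frequently_atTop]
    intro N
    obtain ⟨n, hn, r, hr, hp⟩ := hcon (1 / ((k : ℝ) + 1)) (by positivity) N
    exact ⟨n, hn, r, hr, hp⟩
  obtain ⟨φ, hφ, hφP⟩ := extraction_forall_of_frequently hP
  choose ρ hρ1 hρ2 using hφP
  set r' : ℕ → ℝ := fun n => if n ∈ Set.range φ then max (ρ (Function.invFun φ n)) 0 else 0
    with hr'
  have hr'φ : ∀ k, r' (φ k) = max (ρ k) 0 := by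
    intro k
    show (if φ k ∈ Set.range φ then max (ρ (Function.invFun φ (φ k))) 0 else 0) = max (ρ k) 0
    rw [if_pos (Set.mem_range_self k), Function.leftInverse_invFun hφ.injective k]
  have hr'0 : ∀ n, 0 ≤ r' n := by
    intro n
    show 0 ≤ (if n ∈ Set.range φ then max (ρ (Function.invFun φ n)) 0 else 0)
    split_ifs
    · exact le_max_right _ _
    · exact le_rfl
  have hval : ∀ k, 3 ≤ φ k → (φ k : ℝ) * r' (φ k) ^ 4 / Real.log (φ k) ^ 2 ≤ 1 / ((k : ℝ) + 1) := by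
    intro k hk
    have hnR : (3 : ℝ) ≤ (φ k : ℝ) := by exact_mod_cast hk
    have hn0 : (0 : ℝ) < (φ k : ℝ) := by linarith
    have hL : 0 < Real.log (φ k : ℝ) := Real.log_pos (by linarith)
    have hk1 : (0 : ℝ) < 1 / ((k : ℝ) + 1) := by positivity
    have hpow : 0 < (φ k : ℝ) ^ (-(1 : ℝ) / 4) := Real.rpow_pos_of_pos hn0 _
    have h1 : r' (φ k) ≤
        1 / ((k : ℝ) + 1) * (φ k : ℝ) ^ (-(1 : ℝ) / 4) * Real.sqrt (Real.log (φ k)) := by
      rw [hr'φ]
      exact max_le (hρ1 k).le (by positivity)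
    have h2 : r' (φ k) ^ 4 ≤ (1 / ((k : ℝ) + 1)) ^ 4 * (1 / (φ k : ℝ)) * Real.log (φ k) ^ 2 := by
      refine (pow_le_pow_left₀ (hr'0 _) h1 4).trans (le_of_eq ?_)
      have e1 : ((φ k : ℝ) ^ (-(1 : ℝ) / 4)) ^ 4 = 1 / (φ k : ℝ) := by
        rw [← Real.rpow_natCast, ← Real.rpow_mul hn0.le, one_div, ← Real.rpow_neg_one]
        norm_num
      have e2 : Real.sqrt (Real.log (φ k)) ^ 4 = Real.log (φ k) ^ 2 := by
        rw [show (4 : ℕ) = 2 * 2 by norm_num, pow_mul, Real.sq_sqrt hL.le]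
      rw [mul_pow, mul_pow, e1, e2]
    have h3 : (φ k : ℝ) * r' (φ k) ^ 4 / Real.log (φ k) ^ 2 ≤ (1 / ((k : ℝ) + 1)) ^ 4 := by
      rw [div_le_iff₀ (by positivity)]
      calc (φ k : ℝ) * r' (φ k) ^ 4
          ≤ (φ k : ℝ) * ((1 / ((k : ℝ) + 1)) ^ 4 * (1 / (φ k : ℝ)) * Real.log (φ k) ^ 2) :=
            mul_le_mul_of_nonneg_left h2 hn0.le
        _ = (1 / ((k : ℝ) + 1)) ^ 4 * Real.log (φ k) ^ 2 := by
            field_simp
    refine h3.trans ?_
    have h4 : 1 / ((k : ℝ) + 1) ≤ 1 := by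
      rw [div_le_one (by positivity)]
      have : (0 : ℝ) ≤ k := Nat.cast_nonneg k
      linarith
    exact pow_le_of_le_one hk1.le h4 (by norm_num)
  have hlim : Tendsto (fun n : ℕ => (n : ℝ) * r' n ^ 4 / Real.log n ^ 2) atTop (nhds 0) := by
    rw [Metric.tendsto_atTop]
    intro ε hε
    obtain ⟨K, hK⟩ := exists_nat_one_div_lt hε
    refine ⟨max (φ K) 3, fun n hn => ?_⟩
    have h0 : 0 ≤ (n : ℝ) * r' n ^ 4 / Real.log n ^ 2 := by
      have := hr'0 n
      positivity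
    rw [Real.dist_eq, sub_zero, abs_of_nonneg h0]
    by_cases hr : n ∈ Set.range φ
    · obtain ⟨k, rfl⟩ := hr
      have hk : K ≤ k := hφ.le_iff_le.1 ((le_max_left _ _).trans hn)
      refine lt_of_le_of_lt (hval k ((le_max_right _ _).trans hn)) (lt_of_le_of_lt ?_ hK)
      apply one_div_le_one_div_of_le (by positivity)
      have : (K : ℝ) ≤ k := by exact_mod_cast hk
      linarith
    · have : r' n = 0 := by
        show (if n ∈ Set.range φ then max (ρ (Function.invFun φ n)) 0 else 0) = 0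
        rw [if_neg hr]
      rw [this]
      simpa using hε
  have h1 := (two_pick r' hr'0 hlim hc).comp hφ.tendsto_atTop
  have h2 : ∀ᶠ k : ℕ in atTop, probGiant (PMF.pure 1) (φ k) (r' (φ k)) c <
      ENNReal.ofReal (1 / 2) := by
    have hpos : (0 : ℝ≥0∞) < ENNReal.ofReal (1 / 2) := by
      rw [ENNReal.ofReal_pos]; norm_num
    exact h1.eventually (gt_mem_nhds hpos)
  have h3 : ∀ᶠ k : ℕ in atTop, 1 < c * (φ k : ℝ) := by
    have : Tendsto (fun k : ℕ => c * (φ k : ℝ)) atTop atTop :=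
      (tendsto_natCast_atTop_atTop.comp hφ.tendsto_atTop).const_mul_atTop hc
    exact this.eventually_gt_atTop 1
  obtain ⟨k, hk2, hk3⟩ := (h2.and h3).exists
  have h4 := hρ2 k
  rcases le_or_gt (ρ k) 0 with h5 | h5
  · rw [probGiant_nonpos _ h5 hk3] at h4
    exact absurd h4 (by simp)
  · rw [hr'φ, max_eq_left h5.le] at hk2
    exact absurd h4 (not_lt.2 hk2.le)

theorem never_uniform {c : ℝ} (hc : 0 < c) :
    ∃ δ : ℝ, 0 < δ ∧ ∃ n₀ : ℕ, ∀ n : ℕ, n₀ ≤ n → ∀ r : ℝ,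
      probGiant (PMF.pure 1) n r c ≤ ENNReal.ofReal (1 - δ) := by
  obtain ⟨a, ha, n₁, h1⟩ := small_uniform hc
  obtain ⟨δ, hδ, n₂, h2⟩ := never_prob ha hc
  refine ⟨min δ (1 / 2), lt_min hδ (by norm_num), max n₁ n₂, ?_⟩
  intro n hn r
  rcases lt_or_ge r (a * (n : ℝ) ^ (-(1 : ℝ) / 4) * Real.sqrt (Real.log n)) with hr | hr
  · refine (h1 n ((le_max_left _ _).trans hn) r hr).trans (ENNReal.ofReal_le_ofReal ?_)
    have : min δ (1 / 2) ≤ 1 / 2 := min_le_right _ _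
    linarith
  · refine (h2 n ((le_max_right _ _).trans hn) r hr).trans (ENNReal.ofReal_le_ofReal ?_)
    have : min δ (1 / 2) ≤ δ := min_le_left _ _
    linarith

end EA42
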