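import Pool.Agent.Lib.MP_ea42c6_pr.Three.U2
import Pool.Agent.Lib.MP_ea42c6_pr.Three.U3

/-!
# U4 — Nash: on-diagonal heat kernel bound

Fix `y`; `n = |V|`, `h_j = P^j (hf y)`, `u_j = ip h_j h_j = pk (2j) y y/|B y|` (`ip_hf`).
`0 ≤ h_j`, `∑ |B x| h_j x = 1` (`ip_iter_one`, `ip_hf_one`), so `∑ x, |h_j x| ≤ 1/D`;
`u_j ≤ κ D ∑ (h_j x)²`.  `u_1 = pk 2 y y/|B y| ≤ 1/D²` (`pk_le`).  `u` is decreasing (`opP_contr`).
Let `j ≥ 1` and `u_j > 2 C₂ κ/(D n)`.  Put `s = 2 C₂ κ/(D μ u_j)`; `s ≥ 2 C₂ κ D/μ ≥ 1` (`u_j ≤ 1/D²`,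
`μ ≤ 6 D`, `κ ≥ 3`), `b = ⌈√s⌉₊`, `1 ≤ b`, `s ≤ b² ≤ 4 s`, and `b ≤ M` because `s < M²`
(`M² μ = n`).  `hscale` for `b`, `h_j`:
`u_j/(κ D) ≤ C₁ b²/μ T + C₂/(D² μ b²)` and the last term is at most `u_j/(2 κ D)` (`b² ≥ s`), so
`T ≥ μ u_j/(2 κ D C₁ b²) ≥ μ² u_j²/(16 κ² C₁ C₂)` (`b² ≤ 4 s`).  Hence by `hdir`
`u_{j+1} ≤ u_j - c₃ μ² u_j²/(16 κ² C₁ C₂)`.
For `v j = μ² u_j`, `c = c₃/(16 κ² C₁ C₂)`, `τ = μ² 2 C₂ κ/(D n)` apply `nash_seq` (`v 1 ≤ μ²/D² ≤ 36 ≤ 1/c`).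
So `u_j ≤ 2 C₂ κ/(D n) + 16 κ² C₁ C₂/(c₃ μ² j)` and
`pk (2j) y y = |B y| u_j ≤ κ D u_j ≤ 2 C₂ κ²/n + 16 κ³ C₁ C₂/(c₃ D j)` (`μ ≥ D`).
-/

namespace EA42

open scoped Classical

private theorem nash_real {C₁ C₂ κ D μ Tb S b2 u : ℝ} (hD : 0 < D) (hμ : 0 < μ) (hκ : 0 < κ)
    (hC₁ : 0 < C₁) (hC₂ : 0 < C₂) (hu : 0 < u) (hb1 : 2 * C₂ * κ / (D * μ * u) ≤ b2)
    (hb2 : b2 ≤ 4 * (2 * C₂ * κ / (D * μ * u))) (hS : S ≤ C₁ * b2 / μ * Tb + C₂ * (1 / D) ^ 2 / (μ * b2))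
    (huS : u ≤ κ * D * S) : μ ^ 2 * u ^ 2 / (16 * κ ^ 2 * C₁ * C₂) ≤ Tb := by
  have hs : 0 < 2 * C₂ * κ / (D * μ * u) := by positivity
  have hb0 : 0 < b2 := hs.trans_le hb1
  have h1 : C₂ * (1 / D) ^ 2 / (μ * b2) ≤ u / (2 * κ * D) := by
    have h2 : C₂ * (1 / D) ^ 2 / (μ * b2) ≤
        C₂ * (1 / D) ^ 2 / (μ * (2 * C₂ * κ / (D * μ * u))) := by
      apply div_le_div_of_nonneg_left
      · positivity
      · positivity
      · exact mul_le_mul_of_nonneg_left hb1 hμ.le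
    have h3 : C₂ * (1 / D) ^ 2 / (μ * (2 * C₂ * κ / (D * μ * u))) = u / (2 * κ * D) := by
      field_simp
    rw [h3] at h2
    exact h2
  have h2 : u / (κ * D) ≤ S := by
    rw [div_le_iff₀ (by positivity)]; linarith [mul_comm S (κ * D)]
  have h3 : u / (κ * D) = u / (2 * κ * D) + u / (2 * κ * D) := by
    field_simp; ring
  have h4 : u / (2 * κ * D) ≤ C₁ * b2 / μ * Tb := by linarith
  have h5 : 0 < Tb := by
    by_contra hneg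
    push Not at hneg
    have : C₁ * b2 / μ * Tb ≤ 0 := mul_nonpos_of_nonneg_of_nonpos (by positivity) hneg
    have : 0 < u / (2 * κ * D) := by positivity
    linarith
  have h6 : C₁ * b2 / μ * Tb ≤ C₁ * (4 * (2 * C₂ * κ / (D * μ * u))) / μ * Tb := by
    apply mul_le_mul_of_nonneg_right _ h5.le
    apply div_le_div_of_nonneg_right _ hμ.le
    exact mul_le_mul_of_nonneg_left hb2 hC₁.le
  have h7 := h4.trans h6
  have h8 : C₁ * (4 * (2 * C₂ * κ / (D * μ * u))) / μ * Tb =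
      (8 * C₁ * C₂ * κ / (D * μ ^ 2 * u)) * Tb := by
    field_simp; ring
  rw [h8] at h7
  have h9 : μ ^ 2 * u ^ 2 / (16 * κ ^ 2 * C₁ * C₂) =
      (u / (2 * κ * D)) / (8 * C₁ * C₂ * κ / (D * μ ^ 2 * u)) := by
    field_simp; ring
  rw [h9, div_le_iff₀ (by positivity)]
  linarith [mul_comm Tb (8 * C₁ * C₂ * κ / (D * μ ^ 2 * u))]

private theorem nash_b {s : ℝ} {M : ℕ} (hs : 1 ≤ s) (hsM : s < (M : ℝ) ^ 2) :
    ∃ b : ℕ, 1 ≤ b ∧ b ≤ M ∧ s ≤ (b : ℝ) ^ 2 ∧ (b : ℝ) ^ 2 ≤ 4 * s := by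
  have h1 : 1 ≤ Real.sqrt s := by
    rw [show (1 : ℝ) = Real.sqrt 1 by simp]; exact Real.sqrt_le_sqrt hs
  have h0 : 0 ≤ Real.sqrt s := Real.sqrt_nonneg _
  have hsq : Real.sqrt s ^ 2 = s := Real.sq_sqrt (by linarith)
  refine ⟨⌈Real.sqrt s⌉₊, ?_, ?_, ?_, ?_⟩
  · exact Nat.one_le_ceil_iff.2 (by linarith)
  · rw [Nat.ceil_le]
    by_contra hlt
    push Not at hlt
    have hM : (0 : ℝ) ≤ M := Nat.cast_nonneg _
    nlinarith
  · have := Nat.le_ceil (Real.sqrt s)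
    nlinarith
  · have := (Nat.ceil_lt_add_one h0).le
    have h2 : (0 : ℝ) ≤ (⌈Real.sqrt s⌉₊ : ℝ) := Nat.cast_nonneg _
    have h3 : (⌈Real.sqrt s⌉₊ : ℝ) ≤ 2 * Real.sqrt s := by linarith
    nlinarith

theorem nash {V : Type*} [Fintype V] [Nonempty V] {B : V → Finset V} {D κ μ C₁ C₂ c₃ : ℝ}
    {M : ℕ} (h : DReg B D κ) (hκ : 3 ≤ κ) (hDμ : D ≤ μ) (hμD : μ ≤ 6 * D)
    (hn : (M : ℝ) ^ 2 * μ = (Fintype.card V : ℝ)) (hC₁ : 1 ≤ C₁) (hC₂ : 1 ≤ C₂) (hc₃ : 0 < c₃)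
    (hc₃1 : c₃ ≤ 1) (T : (V → ℝ) → ℝ)
    (hscale : ∀ b : ℕ, 1 ≤ b → b ≤ M → ∀ f : V → ℝ,
      ∑ x, f x ^ 2 ≤ C₁ * (b : ℝ) ^ 2 / μ * T f + C₂ * (∑ x, |f x|) ^ 2 / (μ * (b : ℝ) ^ 2))
    (hdir : ∀ f : V → ℝ, c₃ * T f ≤ ip B f f - ip B (opP B f) (opP B f)) (j : ℕ) (hj : 1 ≤ j)
    (y : V) :
    pk B (2 * j) y y ≤ (2 * C₂ * κ ^ 2 + 16 * κ ^ 3 * C₁ * C₂ / c₃) *
      (1 / (D * j) + 1 / (Fintype.card V : ℝ)) := by
  have hD := h.pos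
  have hμ : 0 < μ := hD.trans_le hDμ
  have hκ0 : 0 < κ := by linarith
  have hC₁0 : 0 < C₁ := by linarith
  have hC₂0 : 0 < C₂ := by linarith
  have hN : (0 : ℝ) < (Fintype.card V : ℝ) := by exact_mod_cast Fintype.card_pos
  have hself := h.sym.self
  have hBy : 0 < ((B y).card : ℝ) := hD.trans_le (h.lo y)
  obtain ⟨hh, hhd⟩ : ∃ hh : ℕ → V → ℝ, ∀ j, hh j = (opP B)^[j] (hf B y) := ⟨_, fun _ => rfl⟩
  obtain ⟨u, hud⟩ : ∃ u : ℕ → ℝ, ∀ j, u j = ip B (hh j) (hh j) := ⟨_, fun _ => rfl⟩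
  have hsucc : ∀ i, hh (i + 1) = opP B (hh i) := by
    intro i; rw [hhd, hhd, Function.iterate_succ_apply']
  have hupk : ∀ i, u i = pk B (2 * i) y y / ((B y).card : ℝ) := by
    intro i; rw [hud, hhd, ip_hf h.sym, two_mul]
  have hnn : ∀ i x, 0 ≤ hh i x := by
    intro i x
    rw [hhd, iter_hf hself]
    exact div_nonneg (pk_nonneg _ _ _) hBy.le
  have hmass : ∀ i, ∑ x, |hh i x| ≤ 1 / D := by
    intro i
    have h1 : ip B (hh i) (fun _ => 1) = 1 := by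
      rw [hhd, ip_iter_one h.sym, ip_hf_one hself]
    unfold ip at h1
    rw [le_div_iff₀ hD, ← h1, Finset.sum_mul]
    refine Finset.sum_le_sum fun x _ => ?_
    rw [abs_of_nonneg (hnn i x), mul_one, mul_comm]
    exact mul_le_mul_of_nonneg_right (h.lo x) (hnn i x)
  have hmass0 : ∀ i, 0 ≤ ∑ x, |hh i x| := fun i => Finset.sum_nonneg fun x _ => abs_nonneg _
  have hu2 : ∀ i, u i ≤ κ * D * ∑ x, hh i x ^ 2 := by
    intro i
    rw [hud, ip, Finset.mul_sum]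
    refine Finset.sum_le_sum fun x _ => ?_
    rw [← pow_two]
    exact mul_le_mul_of_nonneg_right (h.hi x) (sq_nonneg _)
  have hanti : ∀ i, u (i + 1) ≤ u i := by
    intro i
    rw [hud, hud, hsucc]
    exact opP_contr h.sym _
  have hu1 : u 1 ≤ 1 / D ^ 2 := by
    rw [hupk]
    have h1 : pk B (2 * 1) y y ≤ 1 / D := pk_le h 1 y y
    rw [div_le_iff₀ hBy]
    have h2 : 1 / D = 1 / D ^ 2 * D := by field_simp
    rw [h2] at h1
    exact h1.trans (mul_le_mul_of_nonneg_left (h.lo y) (by positivity))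
  have hule : ∀ i, 1 ≤ i → u i ≤ 1 / D ^ 2 := by
    intro i hi
    induction i, hi using Nat.le_induction with
    | base => exact hu1
    | succ i _ ih => exact (hanti i).trans ih
  have hc : 0 < c₃ / (16 * κ ^ 2 * C₁ * C₂) := by positivity
  have hseq := nash_seq (v := fun i => μ ^ 2 * u i) (c := c₃ / (16 * κ ^ 2 * C₁ * C₂))
    (τ := μ ^ 2 * (2 * C₂ * κ / (D * (Fintype.card V : ℝ)))) hc (by positivity) (by
      have h1 : μ ^ 2 * u 1 ≤ μ ^ 2 * (1 / D ^ 2) := mul_le_mul_of_nonneg_left hu1 (by positivity)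
      have h2 : μ ^ 2 * (1 / D ^ 2) ≤ 36 := by
        rw [mul_one_div, div_le_iff₀ (by positivity)]
        nlinarith
      have h3 : (36 : ℝ) ≤ 1 / (c₃ / (16 * κ ^ 2 * C₁ * C₂)) := by
        rw [one_div_div, le_div_iff₀ hc₃]
        have h4 : (9 : ℝ) ≤ κ ^ 2 := by nlinarith
        have h5 : (1 : ℝ) ≤ C₁ * C₂ := by nlinarith
        have h6 : (9 : ℝ) ≤ κ ^ 2 * (C₁ * C₂) := by nlinarith
        nlinarith
      exact (h1.trans h2).trans h3) (by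
      intro i _
      exact mul_le_mul_of_nonneg_left (hanti i) (by positivity)) (by
      intro i hi hlt
      have hlt' : 2 * C₂ * κ / (D * (Fintype.card V : ℝ)) < u i :=
        lt_of_mul_lt_mul_left hlt (by positivity)
      have hui : 0 < u i := lt_of_le_of_lt (by positivity) hlt'
      have hs1 : 1 ≤ 2 * C₂ * κ / (D * μ * u i) := by
        rw [le_div_iff₀ (by positivity), one_mul]
        have h1 : D * μ * u i ≤ D * μ * (1 / D ^ 2) :=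
          mul_le_mul_of_nonneg_left (hule i hi) (by positivity)
        have h2 : D * μ * (1 / D ^ 2) = μ / D := by field_simp
        have h3 : μ / D ≤ 6 := by rw [div_le_iff₀ hD]; exact hμD
        nlinarith
      have hsM : 2 * C₂ * κ / (D * μ * u i) < (M : ℝ) ^ 2 := by
        have h1 : (M : ℝ) ^ 2 = (Fintype.card V : ℝ) / μ := by
          rw [eq_div_iff hμ.ne']; exact hn
        rw [h1, div_lt_div_iff₀ (by positivity) hμ]
        rw [div_lt_iff₀ (by positivity)] at hlt'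
        have h2 := mul_lt_mul_of_pos_right hlt' hμ
        calc 2 * C₂ * κ * μ < u i * (D * (Fintype.card V : ℝ)) * μ := h2
          _ = (Fintype.card V : ℝ) * (D * μ * u i) := by ring
      obtain ⟨b, hb1, hbM, hsb, hbs⟩ := nash_b hs1 hsM
      have hb0 : (0 : ℝ) < (b : ℝ) := by exact_mod_cast hb1
      have h1 := hscale b hb1 hbM (hh i)
      have h2 : (∑ x, |hh i x|) ^ 2 ≤ (1 / D) ^ 2 :=
        pow_le_pow_left₀ (hmass0 i) (hmass i) 2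
      have h3 : C₂ * (∑ x, |hh i x|) ^ 2 / (μ * (b : ℝ) ^ 2) ≤
          C₂ * (1 / D) ^ 2 / (μ * (b : ℝ) ^ 2) := by
        apply div_le_div_of_nonneg_right _ (by positivity)
        exact mul_le_mul_of_nonneg_left h2 hC₂0.le
      have h3' : ∑ x, hh i x ^ 2 ≤ C₁ * (b : ℝ) ^ 2 / μ * T (hh i) +
          C₂ * (1 / D) ^ 2 / (μ * (b : ℝ) ^ 2) := by linarith
      have h4 := nash_real hD hμ hκ0 hC₁0 hC₂0 hui hsb hbs h3' (hu2 i)
      have h5 := hdir (hh i)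
      rw [← hsucc, ← hud, ← hud] at h5
      have h6 := mul_le_mul_of_nonneg_left h4 hc₃.le
      have h7 : u (i + 1) ≤ u i - c₃ * (μ ^ 2 * u i ^ 2 / (16 * κ ^ 2 * C₁ * C₂)) := by linarith
      have h8 := mul_le_mul_of_nonneg_left h7 (sq_nonneg μ)
      calc μ ^ 2 * u (i + 1) ≤ _ := h8
        _ = μ ^ 2 * u i - c₃ / (16 * κ ^ 2 * C₁ * C₂) * (μ ^ 2 * u i) ^ 2 := by ring) j hj
  have hj0 : (0 : ℝ) < (j : ℝ) := by exact_mod_cast hj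
  have h1 : μ ^ 2 * u j ≤ μ ^ 2 * (2 * C₂ * κ / (D * (Fintype.card V : ℝ))) +
      1 / (c₃ / (16 * κ ^ 2 * C₁ * C₂) * j) := by
    refine hseq.trans (max_le ?_ ?_)
    · have : 0 ≤ 1 / (c₃ / (16 * κ ^ 2 * C₁ * C₂) * j) := by positivity
      linarith
    · have : 0 ≤ μ ^ 2 * (2 * C₂ * κ / (D * (Fintype.card V : ℝ))) := by positivity
      linarith
  have h2 : u j ≤ 2 * C₂ * κ / (D * (Fintype.card V : ℝ)) +
      (16 * κ ^ 2 * C₁ * C₂) / (c₃ * j * μ ^ 2) := by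
    have h3 : μ ^ 2 * (2 * C₂ * κ / (D * (Fintype.card V : ℝ))) +
        1 / (c₃ / (16 * κ ^ 2 * C₁ * C₂) * j) =
        μ ^ 2 * (2 * C₂ * κ / (D * (Fintype.card V : ℝ)) +
          (16 * κ ^ 2 * C₁ * C₂) / (c₃ * j * μ ^ 2)) := by
      field_simp
    rw [h3] at h1
    exact le_of_mul_le_mul_left h1 (by positivity)
  have h3 : (16 * κ ^ 2 * C₁ * C₂) / (c₃ * j * μ ^ 2) ≤
      (16 * κ ^ 2 * C₁ * C₂) / (c₃ * j * D ^ 2) := by
    apply div_le_div_of_nonneg_left (by positivity) (by positivity)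
    apply mul_le_mul_of_nonneg_left _ (by positivity)
    exact pow_le_pow_left₀ hD.le hDμ 2
  have h4 : pk B (2 * j) y y = ((B y).card : ℝ) * u j := by
    rw [hupk]; field_simp
  have hu0 : 0 ≤ u j := by rw [hupk]; exact div_nonneg (pk_nonneg _ _ _) hBy.le
  calc pk B (2 * j) y y = ((B y).card : ℝ) * u j := h4
    _ ≤ κ * D * u j := mul_le_mul_of_nonneg_right (h.hi y) hu0
    _ ≤ κ * D * (2 * C₂ * κ / (D * (Fintype.card V : ℝ)) +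
        (16 * κ ^ 2 * C₁ * C₂) / (c₃ * j * D ^ 2)) := by
      apply mul_le_mul_of_nonneg_left _ (by positivity)
      linarith
    _ = 2 * C₂ * κ ^ 2 * (1 / (Fintype.card V : ℝ)) +
        16 * κ ^ 3 * C₁ * C₂ / c₃ * (1 / (D * j)) := by
      field_simp
    _ ≤ (2 * C₂ * κ ^ 2 + 16 * κ ^ 3 * C₁ * C₂ / c₃) *
      (1 / (D * j) + 1 / (Fintype.card V : ℝ)) := by
      have e1 : 0 ≤ 2 * C₂ * κ ^ 2 * (1 / (D * j)) := by positivity
      have e2 : 0 ≤ 16 * κ ^ 3 * C₁ * C₂ / c₃ * (1 / (Fintype.card V : ℝ)) := by positivity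
      linarith [add_mul (2 * C₂ * κ ^ 2) (16 * κ ^ 3 * C₁ * C₂ / c₃)
        (1 / (D * j) + 1 / (Fintype.card V : ℝ))]

end EA42
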