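import Mathlib

/-!
# U6 — Poincaré inequality on a grid

`line_poin`: `(g i - g j)² ≤ a ∑_{k < a-1} (g (k+1) - g k)²` for `i, j < a` (telescoping and
Cauchy-Schwarz), sum over the `a²` pairs.
`grid_poin`: with the mean `c`, `∑_p (F p - c)² = (1/(2ab)) ∑_{p,q} (F p - F q)²` and
`(F p - F q)² ≤ 2 (F (p₁,p₂) - F (q₁,p₂))² + 2 (F (q₁,p₂) - F (q₁,q₂))²`; the first part sums to at most
`2 b ∑_{p₂} ∑_{p₁,q₁} (..)² ≤ 2 b a³ ∑ |∂₁F|²`, the second to `2 a b³ ∑ |∂₂F|²`.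
-/

namespace EA42

/-- The variance as a sum over pairs. -/
theorem var_id {ι : Type*} (s : Finset ι) (hs : s.Nonempty) (φ : ι → ℝ) :
    ∑ p ∈ s, (φ p - (∑ q ∈ s, φ q) / (s.card : ℝ)) ^ 2 =
      1 / (2 * (s.card : ℝ)) * ∑ p ∈ s, ∑ q ∈ s, (φ p - φ q) ^ 2 := by
  have hN : (s.card : ℝ) ≠ 0 := by
    have := Finset.card_pos.mpr hs
    positivity
  set N : ℝ := (s.card : ℝ) with hNd
  set A : ℝ := ∑ q ∈ s, φ q with hA
  set Q : ℝ := ∑ q ∈ s, φ q ^ 2 with hQ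
  have e1 : ∑ p ∈ s, (φ p - A / N) ^ 2 = Q - A ^ 2 / N := by
    have h : ∀ p ∈ s, (φ p - A / N) ^ 2 = φ p ^ 2 - 2 * (A / N) * φ p + (A / N) ^ 2 :=
      fun p _ => by ring
    rw [Finset.sum_congr rfl h, Finset.sum_add_distrib, Finset.sum_sub_distrib, ← Finset.mul_sum,
      Finset.sum_const, nsmul_eq_mul, ← hNd, ← hA, ← hQ]
    field_simp
    ring
  have e2 : ∑ p ∈ s, ∑ q ∈ s, (φ p - φ q) ^ 2 = 2 * N * Q - 2 * A ^ 2 := by
    have h : ∀ p ∈ s, ∑ q ∈ s, (φ p - φ q) ^ 2 = N * φ p ^ 2 - 2 * A * φ p + Q := by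
      intro p _
      have h2 : ∀ q ∈ s, (φ p - φ q) ^ 2 = φ p ^ 2 - 2 * φ p * φ q + φ q ^ 2 :=
        fun q _ => by ring
      rw [Finset.sum_congr rfl h2, Finset.sum_add_distrib, Finset.sum_sub_distrib,
        ← Finset.mul_sum, Finset.sum_const, nsmul_eq_mul, ← hNd, ← hA, ← hQ]
      ring
    rw [Finset.sum_congr rfl h, Finset.sum_add_distrib, Finset.sum_sub_distrib, ← Finset.mul_sum,
      ← Finset.mul_sum, Finset.sum_const, nsmul_eq_mul, ← hNd, ← hA, ← hQ]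
    ring
  rw [e1, e2]
  field_simp

theorem line_pt (a : ℕ) (g : ℕ → ℝ) {i j : ℕ} (hji : j ≤ i) (hi : i < a) :
    (g i - g j) ^ 2 ≤ (a : ℝ) * ∑ k ∈ Finset.range (a - 1), (g (k + 1) - g k) ^ 2 := by
  have h1 : |g i - g j| ≤ ∑ k ∈ Finset.Ico j i, |g (k + 1) - g k| := by
    have h := dist_le_Ico_sum_dist g hji
    simp only [Real.dist_eq] at h
    rw [abs_sub_comm]
    refine h.trans (le_of_eq ?_)
    exact Finset.sum_congr rfl fun k _ => abs_sub_comm _ _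
  have h2 : (g i - g j) ^ 2 ≤ (∑ k ∈ Finset.Ico j i, |g (k + 1) - g k|) ^ 2 := by
    rw [← sq_abs (g i - g j)]
    exact pow_le_pow_left₀ (abs_nonneg _) h1 2
  have h3 : (∑ k ∈ Finset.Ico j i, |g (k + 1) - g k|) ^ 2 ≤
      ((Finset.Ico j i).card : ℝ) * ∑ k ∈ Finset.Ico j i, |g (k + 1) - g k| ^ 2 :=
    sq_sum_le_card_mul_sum_sq
  have h4 : ((Finset.Ico j i).card : ℝ) ≤ (a : ℝ) := by
    rw [Nat.card_Ico]
    exact_mod_cast (by omega : i - j ≤ a)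
  have h5 : ∑ k ∈ Finset.Ico j i, |g (k + 1) - g k| ^ 2 ≤
      ∑ k ∈ Finset.range (a - 1), (g (k + 1) - g k) ^ 2 := by
    rw [Finset.sum_congr rfl fun k _ => sq_abs (g (k + 1) - g k)]
    refine Finset.sum_le_sum_of_subset_of_nonneg ?_ fun k _ _ => sq_nonneg _
    intro k hk
    rw [Finset.mem_Ico] at hk
    rw [Finset.mem_range]
    omega
  calc (g i - g j) ^ 2 ≤ _ := h2.trans h3
    _ ≤ (a : ℝ) * ∑ k ∈ Finset.range (a - 1), (g (k + 1) - g k) ^ 2 :=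
      mul_le_mul h4 h5 (Finset.sum_nonneg fun k _ => sq_nonneg _) (Nat.cast_nonneg _)

theorem line_poin (a : ℕ) (g : ℕ → ℝ) :
    ∑ i ∈ Finset.range a, ∑ j ∈ Finset.range a, (g i - g j) ^ 2 ≤
      (a : ℝ) ^ 3 * ∑ k ∈ Finset.range (a - 1), (g (k + 1) - g k) ^ 2 := by
  set E : ℝ := ∑ k ∈ Finset.range (a - 1), (g (k + 1) - g k) ^ 2 with hE
  have h1 : ∀ i ∈ Finset.range a, ∀ j ∈ Finset.range a, (g i - g j) ^ 2 ≤ (a : ℝ) * E := by
    intro i hi j hj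
    rw [Finset.mem_range] at hi hj
    rcases le_total j i with h | h
    · exact line_pt a g h hi
    · have h2 := line_pt a g h hj
      have h3 : (g i - g j) ^ 2 = (g j - g i) ^ 2 := by ring
      rw [h3]
      exact h2
  calc ∑ i ∈ Finset.range a, ∑ j ∈ Finset.range a, (g i - g j) ^ 2 ≤
      ∑ _i ∈ Finset.range a, ∑ _j ∈ Finset.range a, (a : ℝ) * E :=
        Finset.sum_le_sum fun i hi => Finset.sum_le_sum fun j hj => h1 i hi j hj
    _ = (a : ℝ) ^ 3 * E := by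
        rw [Finset.sum_const, Finset.sum_const, Finset.card_range, nsmul_eq_mul, nsmul_eq_mul]
        ring

theorem grid_poin {a b : ℕ} (ha : 1 ≤ a) (hb : 1 ≤ b) (F : ℕ → ℕ → ℝ) :
    ∑ i ∈ Finset.range a, ∑ j ∈ Finset.range b,
      (F i j - (∑ i ∈ Finset.range a, ∑ j ∈ Finset.range b, F i j) / ((a : ℝ) * b)) ^ 2 ≤
      (a : ℝ) ^ 2 * (∑ i ∈ Finset.range (a - 1), ∑ j ∈ Finset.range b, (F (i + 1) j - F i j) ^ 2) +
      (b : ℝ) ^ 2 *
        (∑ i ∈ Finset.range a, ∑ j ∈ Finset.range (b - 1), (F i (j + 1) - F i j) ^ 2) := by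
  have ha' : (0 : ℝ) < (a : ℝ) := by exact_mod_cast ha
  have hb' : (0 : ℝ) < (b : ℝ) := by exact_mod_cast hb
  set S1 : ℝ := ∑ i ∈ Finset.range (a - 1), ∑ j ∈ Finset.range b, (F (i + 1) j - F i j) ^ 2
    with hS1
  set S2 : ℝ := ∑ i ∈ Finset.range a, ∑ j ∈ Finset.range (b - 1), (F i (j + 1) - F i j) ^ 2
    with hS2
  set s : Finset (ℕ × ℕ) := Finset.range a ×ˢ Finset.range b with hs
  have hcard : (s.card : ℝ) = (a : ℝ) * b := by
    rw [hs, Finset.card_product, Finset.card_range, Finset.card_range]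
    push_cast
    ring
  have hne : s.Nonempty := by
    rw [hs]
    exact ⟨(0, 0), Finset.mem_product.mpr ⟨Finset.mem_range.mpr ha, Finset.mem_range.mpr hb⟩⟩
  have hv := var_id s hne fun p => F p.1 p.2
  rw [hcard] at hv
  have e0 : ∑ q ∈ s, F q.1 q.2 = ∑ i ∈ Finset.range a, ∑ j ∈ Finset.range b, F i j := by
    rw [hs, Finset.sum_product]
  rw [e0] at hv
  set c : ℝ := (∑ i ∈ Finset.range a, ∑ j ∈ Finset.range b, F i j) / ((a : ℝ) * b) with hc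
  have e1 : ∑ p ∈ s, (F p.1 p.2 - c) ^ 2 =
      ∑ i ∈ Finset.range a, ∑ j ∈ Finset.range b, (F i j - c) ^ 2 := by
    rw [hs, Finset.sum_product]
  rw [e1] at hv
  rw [hv]
  -- the sum over the pairs
  have h1 : ∑ p ∈ s, ∑ q ∈ s, (F p.1 p.2 - F q.1 q.2) ^ 2 ≤
      ∑ p ∈ s, ∑ q ∈ s, (2 * (F p.1 p.2 - F q.1 p.2) ^ 2 + 2 * (F q.1 p.2 - F q.1 q.2) ^ 2) := by
    refine Finset.sum_le_sum fun p _ => Finset.sum_le_sum fun q _ => ?_
    nlinarith [sq_nonneg ((F p.1 p.2 - F q.1 p.2) - (F q.1 p.2 - F q.1 q.2))]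
  have h2 : ∑ p ∈ s, ∑ q ∈ s, (2 * (F p.1 p.2 - F q.1 p.2) ^ 2 +
      2 * (F q.1 p.2 - F q.1 q.2) ^ 2) =
      2 * ((b : ℝ) * ∑ j ∈ Finset.range b, ∑ i ∈ Finset.range a, ∑ i' ∈ Finset.range a,
        (F i j - F i' j) ^ 2) +
      2 * ((a : ℝ) * ∑ i ∈ Finset.range a, ∑ j ∈ Finset.range b, ∑ j' ∈ Finset.range b,
        (F i j - F i j') ^ 2) := by
    have h3 : ∑ p ∈ s, ∑ q ∈ s, (2 * (F p.1 p.2 - F q.1 p.2) ^ 2 +
        2 * (F q.1 p.2 - F q.1 q.2) ^ 2) =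
        2 * (∑ p ∈ s, ∑ q ∈ s, (F p.1 p.2 - F q.1 p.2) ^ 2) +
        2 * (∑ p ∈ s, ∑ q ∈ s, (F q.1 p.2 - F q.1 q.2) ^ 2) := by
      rw [Finset.mul_sum, Finset.mul_sum, ← Finset.sum_add_distrib]
      refine Finset.sum_congr rfl fun p _ => ?_
      rw [Finset.mul_sum, Finset.mul_sum, ← Finset.sum_add_distrib]
    rw [h3]
    have h4 : ∑ p ∈ s, ∑ q ∈ s, (F p.1 p.2 - F q.1 p.2) ^ 2 =
        (b : ℝ) * ∑ j ∈ Finset.range b, ∑ i ∈ Finset.range a, ∑ i' ∈ Finset.range a,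
        (F i j - F i' j) ^ 2 := by
      rw [hs, Finset.sum_product, Finset.sum_comm, Finset.mul_sum]
      refine Finset.sum_congr rfl fun j _ => ?_
      rw [Finset.mul_sum]
      refine Finset.sum_congr rfl fun i _ => ?_
      rw [Finset.sum_product, Finset.mul_sum]
      refine Finset.sum_congr rfl fun i' _ => ?_
      change ∑ _y ∈ Finset.range b, (F i j - F i' j) ^ 2 = (b : ℝ) * (F i j - F i' j) ^ 2
      rw [Finset.sum_const, Finset.card_range, nsmul_eq_mul]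
    have h5 : ∑ p ∈ s, ∑ q ∈ s, (F q.1 p.2 - F q.1 q.2) ^ 2 =
        (a : ℝ) * ∑ i ∈ Finset.range a, ∑ j ∈ Finset.range b, ∑ j' ∈ Finset.range b,
        (F i j - F i j') ^ 2 := by
      rw [hs, Finset.sum_product]
      have h6 : ∀ i ∈ Finset.range a, ∑ j ∈ Finset.range b,
          ∑ q ∈ Finset.range a ×ˢ Finset.range b, (F q.1 j - F q.1 q.2) ^ 2 =
          ∑ i ∈ Finset.range a, ∑ j ∈ Finset.range b, ∑ j' ∈ Finset.range b,
            (F i j - F i j') ^ 2 := by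
        intro i _
        rw [Finset.sum_congr rfl fun j _ => Finset.sum_product (Finset.range a) (Finset.range b)
          fun q : ℕ × ℕ => (F q.1 j - F q.1 q.2) ^ 2]
        rw [Finset.sum_comm]
      rw [Finset.sum_congr rfl h6, Finset.sum_const, Finset.card_range, nsmul_eq_mul]
    rw [h4, h5]
  have h7 : ∑ j ∈ Finset.range b, ∑ i ∈ Finset.range a, ∑ i' ∈ Finset.range a,
      (F i j - F i' j) ^ 2 ≤ (a : ℝ) ^ 3 * S1 := by
    calc ∑ j ∈ Finset.range b, ∑ i ∈ Finset.range a, ∑ i' ∈ Finset.range a,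
        (F i j - F i' j) ^ 2 ≤ ∑ j ∈ Finset.range b, (a : ℝ) ^ 3 *
          ∑ k ∈ Finset.range (a - 1), (F (k + 1) j - F k j) ^ 2 :=
          Finset.sum_le_sum fun j _ => line_poin a fun i => F i j
      _ = (a : ℝ) ^ 3 * S1 := by
          rw [← Finset.mul_sum, hS1, Finset.sum_comm]
  have h8 : ∑ i ∈ Finset.range a, ∑ j ∈ Finset.range b, ∑ j' ∈ Finset.range b,
      (F i j - F i j') ^ 2 ≤ (b : ℝ) ^ 3 * S2 := by
    calc ∑ i ∈ Finset.range a, ∑ j ∈ Finset.range b, ∑ j' ∈ Finset.range b,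
        (F i j - F i j') ^ 2 ≤ ∑ i ∈ Finset.range a, (b : ℝ) ^ 3 *
          ∑ k ∈ Finset.range (b - 1), (F i (k + 1) - F i k) ^ 2 :=
          Finset.sum_le_sum fun i _ => line_poin b fun j => F i j
      _ = (b : ℝ) ^ 3 * S2 := by
          rw [← Finset.mul_sum, hS2]
  have h9 : ∑ p ∈ s, ∑ q ∈ s, (F p.1 p.2 - F q.1 q.2) ^ 2 ≤
      2 * ((b : ℝ) * ((a : ℝ) ^ 3 * S1)) + 2 * ((a : ℝ) * ((b : ℝ) ^ 3 * S2)) := by
    refine h1.trans ?_
    rw [h2]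
    have h10 := mul_le_mul_of_nonneg_left h7 hb'.le
    have h11 := mul_le_mul_of_nonneg_left h8 ha'.le
    linarith
  calc 1 / (2 * ((a : ℝ) * b)) * ∑ p ∈ s, ∑ q ∈ s, (F p.1 p.2 - F q.1 q.2) ^ 2 ≤
      1 / (2 * ((a : ℝ) * b)) *
        (2 * ((b : ℝ) * ((a : ℝ) ^ 3 * S1)) + 2 * ((a : ℝ) * ((b : ℝ) ^ 3 * S2))) :=
        mul_le_mul_of_nonneg_left h9 (by positivity)
    _ = (a : ℝ) ^ 2 * S1 + (b : ℝ) ^ 2 * S2 := by
        field_simp

end EA42
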