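import Pool.Agent.Lib.MP_ea42c6_pr.Three.U6
import Pool.Agent.Lib.MP_ea42c6_pr.Three.Defs

/-!
# U7 — one rectangle of cells

`cl : V → Cell M`, every cell has between `μ/2` and `2μ` vertices.  `S p` = the vertices in the cell `p`,
`avg p = (∑_{x ∈ S p} f x)/|S p|`.
`cell_var`: `∑_{x ∈ S p} (f x - avg p)² = (1/(2|S p|)) ∑_{x,y ∈ S p} (f x - f y)² ≤ (1/μ) ∑_{x,y ∈ S p}`.
`avg_diff`: `avg p - avg q = (1/(|S p||S q|)) ∑_{x ∈ S p, y ∈ S q} (f x - f y)`, Cauchy-Schwarz,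
`|S p||S q| ≥ μ²/4`.
`rect_poin`: the rectangle `i < a`, `j < b` of cells with lower left corner `o`; `F i j = avg (o + (i,j))`;
`c` = the mean of `F`.  `∑_{x ∈ S p} (f x - c)² ≤ 2 ∑_{x ∈ S p} (f x - avg p)² + 2|S p| (avg p - c)²`
and `2|S p| ≤ 4 μ`; `grid_poin` and `avg_diff`.
`rect_mean`: `|avg p| ≤ (2/μ) ∑_{x ∈ S p} |f x|`.
-/

namespace EA42

open scoped Classical

noncomputable section

/-- The vertices of a cell. -/
def cS {V : Type*} [Fintype V] {M : ℕ} (cl : V → Cell M) (p : Cell M) : Finset V :=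
  Finset.univ.filter fun x => cl x = p

/-- The mean over a cell. -/
def cavg {V : Type*} [Fintype V] {M : ℕ} (cl : V → Cell M) (f : V → ℝ) (p : Cell M) : ℝ :=
  (∑ x ∈ cS cl p, f x) / ((cS cl p).card : ℝ)

/-- Sum of the squared differences over two cells. -/
def cD {V : Type*} [Fintype V] {M : ℕ} (cl : V → Cell M) (f : V → ℝ) (p q : Cell M) : ℝ :=
  ∑ x ∈ cS cl p, ∑ y ∈ cS cl q, (f x - f y) ^ 2

/-- The cell `o + (i, j)`. -/
def cij {M : ℕ} (o : ℕ × ℕ) (i j : ℕ) : Cell M := (((o.1 + i : ℕ) : ZMod M), ((o.2 + j : ℕ) : ZMod M))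

/-- The mean of the cell means over the `a × b` rectangle at `o`. -/
def rmean {V : Type*} [Fintype V] {M : ℕ} (cl : V → Cell M) (f : V → ℝ) (o : ℕ × ℕ) (a b : ℕ) :
    ℝ :=
  (∑ i ∈ Finset.range a, ∑ j ∈ Finset.range b, cavg cl f (cij o i j)) / ((a : ℝ) * b)

end

variable {V : Type*} [Fintype V] {M : ℕ} {cl : V → Cell M} {μ : ℝ}

theorem cS_card (cl : V → Cell M) (p : Cell M) : ((cS cl p).card : ℝ) = (cnt cl p : ℝ) := rfl

theorem cS_pos (hμ : 0 < μ) (hlo : ∀ c, μ / 2 ≤ (cnt cl c : ℝ)) (p : Cell M) :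
    0 < ((cS cl p).card : ℝ) := by
  rw [cS_card]
  have := hlo p
  linarith

theorem cell_var (hμ : 0 < μ) (hlo : ∀ c, μ / 2 ≤ (cnt cl c : ℝ)) (f : V → ℝ) (p : Cell M) :
    ∑ x ∈ cS cl p, (f x - cavg cl f p) ^ 2 ≤ 1 / μ * cD cl f p p := by
  have h0 := cS_pos hμ hlo p
  have hne : (cS cl p).Nonempty := by
    rw [← Finset.card_pos]
    exact_mod_cast h0
  have h1 := var_id (cS cl p) hne f
  unfold cavg cD
  rw [h1]
  refine mul_le_mul_of_nonneg_right ?_
    (Finset.sum_nonneg fun x _ => Finset.sum_nonneg fun y _ => sq_nonneg _)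
  refine one_div_le_one_div_of_le hμ ?_
  have := hlo p
  rw [← cS_card] at this
  linarith

theorem avg_diff (hμ : 0 < μ) (hlo : ∀ c, μ / 2 ≤ (cnt cl c : ℝ)) (f : V → ℝ) (p q : Cell M) :
    (cavg cl f p - cavg cl f q) ^ 2 ≤ 4 / μ ^ 2 * cD cl f p q := by
  have hp := cS_pos hμ hlo p
  have hq := cS_pos hμ hlo q
  set P : ℝ := ((cS cl p).card : ℝ) with hP
  set Q : ℝ := ((cS cl q).card : ℝ) with hQ
  have hPl : μ / 2 ≤ P := by
    have := hlo p
    rwa [← cS_card] at this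
  have hQl : μ / 2 ≤ Q := by
    have := hlo q
    rwa [← cS_card] at this
  have hD : 0 ≤ cD cl f p q :=
    Finset.sum_nonneg fun x _ => Finset.sum_nonneg fun y _ => sq_nonneg _
  have e1 : cavg cl f p - cavg cl f q =
      (∑ x ∈ cS cl p, ∑ y ∈ cS cl q, (f x - f y)) / (P * Q) := by
    have e2 : ∑ x ∈ cS cl p, ∑ y ∈ cS cl q, (f x - f y) =
        Q * (∑ x ∈ cS cl p, f x) - P * ∑ y ∈ cS cl q, f y := by
      have e3 : ∀ x ∈ cS cl p, ∑ y ∈ cS cl q, (f x - f y) = Q * f x - ∑ y ∈ cS cl q, f y := by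
        intro x _
        rw [Finset.sum_sub_distrib, Finset.sum_const, nsmul_eq_mul, ← hQ]
      rw [Finset.sum_congr rfl e3, Finset.sum_sub_distrib, ← Finset.mul_sum, Finset.sum_const,
        nsmul_eq_mul, ← hP]
    rw [e2]
    unfold cavg
    rw [← hP, ← hQ]
    field_simp
  have h1 : (∑ x ∈ cS cl p, ∑ y ∈ cS cl q, (f x - f y)) ^ 2 ≤ (P * Q) * cD cl f p q := by
    have h2 : (∑ z ∈ cS cl p ×ˢ cS cl q, (f z.1 - f z.2)) ^ 2 ≤
        ((cS cl p ×ˢ cS cl q).card : ℝ) * ∑ z ∈ cS cl p ×ˢ cS cl q, (f z.1 - f z.2) ^ 2 :=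
      sq_sum_le_card_mul_sum_sq
    rw [Finset.sum_product, Finset.sum_product, Finset.card_product, Nat.cast_mul, ← hP,
      ← hQ] at h2
    exact h2
  rw [e1, div_pow]
  calc (∑ x ∈ cS cl p, ∑ y ∈ cS cl q, (f x - f y)) ^ 2 / (P * Q) ^ 2 ≤
      (P * Q) * cD cl f p q / (P * Q) ^ 2 := by
        exact div_le_div_of_nonneg_right h1 (by positivity)
    _ = cD cl f p q / (P * Q) := by
        field_simp
    _ ≤ cD cl f p q / (μ / 2 * (μ / 2)) := by
        refine div_le_div_of_nonneg_left hD (by positivity) ?_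
        exact mul_le_mul hPl hQl (by positivity) hp.le
    _ = 4 / μ ^ 2 * cD cl f p q := by
        field_simp
        ring

theorem rect_poin (hμ : 0 < μ) (hlo : ∀ c, μ / 2 ≤ (cnt cl c : ℝ))
    (hhi : ∀ c, (cnt cl c : ℝ) ≤ 2 * μ) (f : V → ℝ) (o : ℕ × ℕ) {a b : ℕ} (ha : 1 ≤ a)
    (hb : 1 ≤ b) :
    ∑ i ∈ Finset.range a, ∑ j ∈ Finset.range b, ∑ x ∈ cS cl (cij o i j),
      (f x - rmean cl f o a b) ^ 2 ≤
      2 / μ * (∑ i ∈ Finset.range a, ∑ j ∈ Finset.range b, cD cl f (cij o i j) (cij o i j)) +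
      16 / μ * ((a : ℝ) ^ 2 * (∑ i ∈ Finset.range (a - 1), ∑ j ∈ Finset.range b,
          cD cl f (cij o (i + 1) j) (cij o i j)) +
        (b : ℝ) ^ 2 * (∑ i ∈ Finset.range a, ∑ j ∈ Finset.range (b - 1),
          cD cl f (cij o i (j + 1)) (cij o i j))) := by
  set c : ℝ := rmean cl f o a b with hc
  set F : ℕ → ℕ → ℝ := fun i j => cavg cl f (cij o i j) with hF
  have hcF : c = (∑ i ∈ Finset.range a, ∑ j ∈ Finset.range b, F i j) / ((a : ℝ) * b) := rfl
  -- one cell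
  have h1 : ∀ i ∈ Finset.range a, ∀ j ∈ Finset.range b, ∑ x ∈ cS cl (cij o i j), (f x - c) ^ 2 ≤
      2 / μ * cD cl f (cij o i j) (cij o i j) + 4 * μ * (F i j - c) ^ 2 := by
    intro i _ j _
    have h2 : ∑ x ∈ cS cl (cij o i j), (f x - c) ^ 2 ≤
        ∑ x ∈ cS cl (cij o i j), (2 * (f x - cavg cl f (cij o i j)) ^ 2 + 2 * (F i j - c) ^ 2) := by
      refine Finset.sum_le_sum fun x _ => ?_
      have e : F i j = cavg cl f (cij o i j) := rfl
      rw [e]
      nlinarith [sq_nonneg ((f x - cavg cl f (cij o i j)) - (cavg cl f (cij o i j) - c))]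
    have h3 : ∑ x ∈ cS cl (cij o i j), (2 * (f x - cavg cl f (cij o i j)) ^ 2 +
        2 * (F i j - c) ^ 2) = 2 * (∑ x ∈ cS cl (cij o i j), (f x - cavg cl f (cij o i j)) ^ 2) +
        ((cS cl (cij o i j)).card : ℝ) * (2 * (F i j - c) ^ 2) := by
      rw [Finset.sum_add_distrib, ← Finset.mul_sum, Finset.sum_const, nsmul_eq_mul]
    have h4 := cell_var hμ hlo f (cij o i j)
    have h5 : ((cS cl (cij o i j)).card : ℝ) * (2 * (F i j - c) ^ 2) ≤
        2 * μ * (2 * (F i j - c) ^ 2) :=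
      mul_le_mul_of_nonneg_right (hhi _) (by positivity)
    have h6 : 2 / μ * cD cl f (cij o i j) (cij o i j) =
        2 * (1 / μ * cD cl f (cij o i j) (cij o i j)) := by ring
    rw [h6]
    rw [h3] at h2
    linarith
  have h2 : ∑ i ∈ Finset.range a, ∑ j ∈ Finset.range b, ∑ x ∈ cS cl (cij o i j), (f x - c) ^ 2 ≤
      2 / μ * (∑ i ∈ Finset.range a, ∑ j ∈ Finset.range b, cD cl f (cij o i j) (cij o i j)) +
      4 * μ * ∑ i ∈ Finset.range a, ∑ j ∈ Finset.range b, (F i j - c) ^ 2 := by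
    calc ∑ i ∈ Finset.range a, ∑ j ∈ Finset.range b, ∑ x ∈ cS cl (cij o i j), (f x - c) ^ 2 ≤
        ∑ i ∈ Finset.range a, ∑ j ∈ Finset.range b,
          (2 / μ * cD cl f (cij o i j) (cij o i j) + 4 * μ * (F i j - c) ^ 2) :=
          Finset.sum_le_sum fun i hi => Finset.sum_le_sum fun j hj => h1 i hi j hj
      _ = _ := by
          rw [Finset.mul_sum, Finset.mul_sum, ← Finset.sum_add_distrib]
          refine Finset.sum_congr rfl fun i _ => ?_
          rw [Finset.mul_sum, Finset.mul_sum, ← Finset.sum_add_distrib]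
  have h3 := grid_poin ha hb F
  rw [← hcF] at h3
  have h4 : ∑ i ∈ Finset.range (a - 1), ∑ j ∈ Finset.range b, (F (i + 1) j - F i j) ^ 2 ≤
      4 / μ ^ 2 * ∑ i ∈ Finset.range (a - 1), ∑ j ∈ Finset.range b,
          cD cl f (cij o (i + 1) j) (cij o i j) := by
    rw [Finset.mul_sum]
    refine Finset.sum_le_sum fun i _ => ?_
    rw [Finset.mul_sum]
    exact Finset.sum_le_sum fun j _ => avg_diff hμ hlo f _ _
  have h5 : ∑ i ∈ Finset.range a, ∑ j ∈ Finset.range (b - 1), (F i (j + 1) - F i j) ^ 2 ≤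
      4 / μ ^ 2 * ∑ i ∈ Finset.range a, ∑ j ∈ Finset.range (b - 1),
          cD cl f (cij o i (j + 1)) (cij o i j) := by
    rw [Finset.mul_sum]
    refine Finset.sum_le_sum fun i _ => ?_
    rw [Finset.mul_sum]
    exact Finset.sum_le_sum fun j _ => avg_diff hμ hlo f _ _
  refine h2.trans ?_
  refine add_le_add le_rfl ?_
  set E1 : ℝ := ∑ i ∈ Finset.range (a - 1), ∑ j ∈ Finset.range b,
          cD cl f (cij o (i + 1) j) (cij o i j) with hE1
  set E2 : ℝ := ∑ i ∈ Finset.range a, ∑ j ∈ Finset.range (b - 1),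
          cD cl f (cij o i (j + 1)) (cij o i j) with hE2
  calc 4 * μ * ∑ i ∈ Finset.range a, ∑ j ∈ Finset.range b, (F i j - c) ^ 2 ≤
      4 * μ * ((a : ℝ) ^ 2 * (4 / μ ^ 2 * E1) + (b : ℝ) ^ 2 * (4 / μ ^ 2 * E2)) := by
        refine mul_le_mul_of_nonneg_left (h3.trans ?_) (by positivity)
        exact add_le_add (mul_le_mul_of_nonneg_left h4 (by positivity))
          (mul_le_mul_of_nonneg_left h5 (by positivity))
    _ = 16 / μ * ((a : ℝ) ^ 2 * E1 + (b : ℝ) ^ 2 * E2) := by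
        field_simp
        ring

theorem rect_mean (hμ : 0 < μ) (hlo : ∀ c, μ / 2 ≤ (cnt cl c : ℝ)) (f : V → ℝ) (o : ℕ × ℕ)
    (a b : ℕ) :
    |rmean cl f o a b| ≤ 2 / (μ * ((a : ℝ) * b)) *
      ∑ i ∈ Finset.range a, ∑ j ∈ Finset.range b, ∑ x ∈ cS cl (cij o i j), |f x| := by
  have h1 : ∀ p : Cell M, |cavg cl f p| ≤ 2 / μ * ∑ x ∈ cS cl p, |f x| := by
    intro p
    have hp := cS_pos hμ hlo p
    have hl : μ / 2 ≤ ((cS cl p).card : ℝ) := hlo p
    unfold cavg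
    rw [abs_div, abs_of_pos hp]
    calc |∑ x ∈ cS cl p, f x| / ((cS cl p).card : ℝ) ≤
        (∑ x ∈ cS cl p, |f x|) / ((cS cl p).card : ℝ) :=
          div_le_div_of_nonneg_right (Finset.abs_sum_le_sum_abs _ _) hp.le
      _ ≤ (∑ x ∈ cS cl p, |f x|) / (μ / 2) :=
          div_le_div_of_nonneg_left (Finset.sum_nonneg fun x _ => abs_nonneg _) (by positivity) hl
      _ = 2 / μ * ∑ x ∈ cS cl p, |f x| := by
          field_simp
  unfold rmean
  have hab : (0 : ℝ) ≤ (a : ℝ) * b := by positivity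
  rw [abs_div, abs_of_nonneg hab]
  calc |∑ i ∈ Finset.range a, ∑ j ∈ Finset.range b, cavg cl f (cij o i j)| / ((a : ℝ) * b) ≤
      (∑ i ∈ Finset.range a, ∑ j ∈ Finset.range b, 2 / μ * ∑ x ∈ cS cl (cij o i j), |f x|) /
        ((a : ℝ) * b) := by
        refine div_le_div_of_nonneg_right ?_ hab
        refine (Finset.abs_sum_le_sum_abs _ _).trans (Finset.sum_le_sum fun i _ => ?_)
        exact (Finset.abs_sum_le_sum_abs _ _).trans (Finset.sum_le_sum fun j _ => h1 _)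
    _ = 2 / (μ * ((a : ℝ) * b)) *
      ∑ i ∈ Finset.range a, ∑ j ∈ Finset.range b, ∑ x ∈ cS cl (cij o i j), |f x| := by
        have e : ∑ i ∈ Finset.range a, ∑ j ∈ Finset.range b,
            2 / μ * ∑ x ∈ cS cl (cij o i j), |f x| =
            2 / μ * ∑ i ∈ Finset.range a, ∑ j ∈ Finset.range b, ∑ x ∈ cS cl (cij o i j), |f x| := by
          rw [Finset.mul_sum]
          refine Finset.sum_congr rfl fun i _ => ?_
          rw [Finset.mul_sum]
        rw [e, mul_div_right_comm, div_div]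

end EA42
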