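import Pool.Agent.Lib.MP_ea42c6_pr.Three.U7

/-!
# U8 — the scale inequality

Blocks: `K = M/b`, the `k`-th interval (`k < K`) is `[k b, k b + len k)` with `len k = b` for `k < K - 1` and
`len (K-1) = M - (K-1) b < 2 b`; `sum_blocks`: a sum over `range M` is the sum over the blocks.
`sum_cells`: `∑ x, φ x = ∑_{i,j < M} ∑_{x ∈ cS cl (cij 0 i j)} φ x` (every cell is `((i : ZMod M), (j : ZMod M))`
for a unique `i, j < M`: `ZMod.natCast_zmod_val`, `ZMod.val_lt`).
For the block `R = (k, k')` with corner `o = (k b, k' b)` and sides `a, a' ∈ [b, 2b)`: `rect_poin` and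
`rect_mean`.  Summed over the blocks:
same cells: `∑ cD p p ≤ tch`; first direction: the pairs `(cij (i+1) j, cij i j)` with `i + 1 < M` are
different for different `(i, j)` and touch, so their sum is at most `tch`; the same for the second
direction.  So `∑_R ∑_{x ∈ R} (f x - c_R)² ≤ (2/μ + 2 · 16 · 4 b²/μ) tch ≤ (130 b²/μ) tch`.
`∑_{x ∈ R} c_R² ≤ 2 μ a a' (2/(μ a a'))² (∑_{x ∈ R} |f x|)² ≤ (8/(μ b²)) (∑_{x ∈ R} |f x|)²` and
`∑_R (..)² ≤ (∑ |f|)²`.  `f² ≤ 2 (f - c)² + 2 c²`.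
`poin_top`: the block `b = M`.
-/

namespace EA42

open scoped Classical

private theorem u8_mul (b : ℕ) (φ : ℕ → ℝ) (K : ℕ) :
    ∑ i ∈ Finset.range (K * b), φ i =
      ∑ k ∈ Finset.range K, ∑ i ∈ Finset.range b, φ (k * b + i) := by
  induction K with
  | zero => simp
  | succ K ih => rw [Nat.succ_mul, Finset.sum_range_add, ih, Finset.sum_range_succ]

theorem sum_blocks {M b : ℕ} (hb : 1 ≤ b) (hbM : b ≤ M) (φ : ℕ → ℝ) :
    ∑ i ∈ Finset.range M, φ i = ∑ k ∈ Finset.range (M / b),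
      ∑ i ∈ Finset.range (if k + 1 = M / b then M - k * b else b), φ (k * b + i) := by
  obtain ⟨K, hK⟩ : ∃ K, M / b = K + 1 :=
    ⟨M / b - 1, by have := Nat.div_pos hbM hb; omega⟩
  have h1 : K * b ≤ M := by
    have h2 := Nat.div_mul_le_self M b
    rw [hK] at h2
    nlinarith
  rw [hK, Finset.sum_range_succ]
  have h3 : ∑ k ∈ Finset.range K, ∑ i ∈ Finset.range (if k + 1 = K + 1 then M - k * b else b),
      φ (k * b + i) = ∑ k ∈ Finset.range K, ∑ i ∈ Finset.range b, φ (k * b + i) := by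
    refine Finset.sum_congr rfl fun k hk => ?_
    rw [Finset.mem_range] at hk
    rw [if_neg (by omega)]
  rw [h3, ← u8_mul, if_pos rfl, ← Finset.sum_range_add, Nat.add_sub_cancel' h1]

variable {V : Type*} [Fintype V] {M : ℕ} [NeZero M] {cl : V → Cell M} {μ : ℝ}

private theorem u8_zmod (h : ZMod M → ℝ) :
    ∑ a, h a = ∑ i ∈ Finset.range M, h (i : ZMod M) := by
  refine Finset.sum_bij' (fun a _ => a.val) (fun i _ => (i : ZMod M)) ?_ ?_ ?_ ?_ ?_
  · intro a _
    exact Finset.mem_range.2 (ZMod.val_lt a)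
  · intro i _
    exact Finset.mem_univ _
  · intro a _
    exact ZMod.natCast_zmod_val a
  · intro i hi
    exact ZMod.val_natCast_of_lt (Finset.mem_range.1 hi)
  · intro a _
    rw [ZMod.natCast_zmod_val a]

private theorem u8_fib (cl : V → Cell M) (φ : V → ℝ) :
    ∑ x, φ x = ∑ p : Cell M, ∑ x ∈ cS cl p, φ x := by
  unfold cS
  exact (Finset.sum_fiberwise Finset.univ cl φ).symm

private theorem u8_cell (h : Cell M → ℝ) :
    ∑ p, h p = ∑ i ∈ Finset.range M, ∑ j ∈ Finset.range M, h (cij (0, 0) i j) := by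
  rw [Fintype.sum_prod_type, u8_zmod (fun a => ∑ b, h (a, b))]
  refine Finset.sum_congr rfl fun i _ => ?_
  rw [u8_zmod (fun b => h ((i : ZMod M), b))]
  refine Finset.sum_congr rfl fun j _ => ?_
  unfold cij
  rw [Nat.zero_add, Nat.zero_add]

theorem sum_cells (φ : V → ℝ) :
    ∑ x, φ x = ∑ i ∈ Finset.range M, ∑ j ∈ Finset.range M,
      ∑ x ∈ cS cl (cij (0, 0) i j), φ x := by
  rw [u8_fib cl φ, u8_cell]

private theorem u8_tch (f : V → ℝ) :
    tch cl f = ∑ p : Cell M, ∑ q : Cell M, if Touch p q then cD cl f p q else 0 := by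
  unfold tch
  rw [u8_fib cl]
  refine Finset.sum_congr rfl fun p _ => ?_
  have h1 : ∀ x ∈ cS cl p, (∑ y, if Touch (cl x) (cl y) then (f x - f y) ^ 2 else 0) =
      ∑ q : Cell M, if Touch p q then ∑ y ∈ cS cl q, (f x - f y) ^ 2 else 0 := by
    intro x hx
    have hx' : cl x = p := (Finset.mem_filter.1 hx).2
    rw [u8_fib cl]
    refine Finset.sum_congr rfl fun q _ => ?_
    rw [hx']
    by_cases hpq : Touch p q
    · rw [if_pos hpq]
      refine Finset.sum_congr rfl fun y hy => ?_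
      have hy' : cl y = q := (Finset.mem_filter.1 hy).2
      rw [hy', if_pos hpq]
    · rw [if_neg hpq]
      refine Finset.sum_eq_zero fun y hy => ?_
      have hy' : cl y = q := (Finset.mem_filter.1 hy).2
      rw [hy', if_neg hpq]
  rw [Finset.sum_congr rfl h1, Finset.sum_comm]
  refine Finset.sum_congr rfl fun q _ => ?_
  unfold cD
  by_cases hpq : Touch p q
  · simp only [if_pos hpq]
  · simp only [if_neg hpq]
    exact Finset.sum_const_zero

private theorem u8_fam {ι : Type*} (s : Finset ι) (P Q : ι → Cell M)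
    (hinj : ∀ i ∈ s, ∀ j ∈ s, Q i = Q j → i = j) (ht : ∀ i ∈ s, Touch (P i) (Q i))
    (f : V → ℝ) : ∑ i ∈ s, cD cl f (P i) (Q i) ≤ tch cl f := by
  rw [u8_tch]
  let F : Cell M × Cell M → ℝ := fun c => if Touch c.1 c.2 then cD cl f c.1 c.2 else 0
  have hF : ∀ c, 0 ≤ F c := by
    intro c
    show 0 ≤ (if Touch c.1 c.2 then cD cl f c.1 c.2 else 0)
    split_ifs
    · exact Finset.sum_nonneg fun _ _ => Finset.sum_nonneg fun _ _ => sq_nonneg _
    · exact le_refl _
  have h1 : ∑ p : Cell M, ∑ q : Cell M, (if Touch p q then cD cl f p q else 0) = ∑ c, F c :=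
    (Fintype.sum_prod_type F).symm
  have h2 : ∑ i ∈ s, cD cl f (P i) (Q i) = ∑ i ∈ s, F (P i, Q i) :=
    Finset.sum_congr rfl fun i hi => (if_pos (ht i hi)).symm
  have h3 : ∑ i ∈ s, F (P i, Q i) = ∑ c ∈ s.image (fun i => (P i, Q i)), F c := by
    rw [Finset.sum_image]
    intro i hi j hj hij
    exact hinj i hi j hj (Prod.mk.inj hij).2
  rw [h1, h2, h3]
  exact Finset.sum_le_sum_of_subset_of_nonneg (Finset.subset_univ _) fun c _ _ => hF c

omit [NeZero M] in
private theorem u8_inj {i j i' j' : ℕ} (hi : i < M) (hi' : i' < M) (hj : j < M) (hj' : j' < M)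
    (h : (cij (0, 0) i j : Cell M) = cij (0, 0) i' j') : i = i' ∧ j = j' := by
  unfold cij at h
  rw [Nat.zero_add, Nat.zero_add, Nat.zero_add, Nat.zero_add] at h
  obtain ⟨h1, h2⟩ := Prod.mk.inj h
  constructor
  · rw [← ZMod.val_natCast_of_lt hi, ← ZMod.val_natCast_of_lt hi', h1]
  · rw [← ZMod.val_natCast_of_lt hj, ← ZMod.val_natCast_of_lt hj', h2]

theorem tch_same (f : V → ℝ) :
    ∑ i ∈ Finset.range M, ∑ j ∈ Finset.range M,
      cD cl f (cij (0, 0) i j) (cij (0, 0) i j) ≤ tch cl f := by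
  rw [← Finset.sum_product']
  refine u8_fam (Finset.range M ×ˢ Finset.range M) (fun c => cij (0, 0) c.1 c.2)
    (fun c => cij (0, 0) c.1 c.2) ?_ (fun c _ => Or.inl rfl) f
  intro c hc c' hc' h
  rw [Finset.mem_product, Finset.mem_range, Finset.mem_range] at hc hc'
  obtain ⟨h1, h2⟩ := u8_inj hc.1 hc'.1 hc.2 hc'.2 h
  exact Prod.ext h1 h2

theorem tch_one (f : V → ℝ) :
    ∑ i ∈ Finset.range (M - 1), ∑ j ∈ Finset.range M,
      cD cl f (cij (0, 0) (i + 1) j) (cij (0, 0) i j) ≤ tch cl f := by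
  rw [← Finset.sum_product']
  refine u8_fam (Finset.range (M - 1) ×ˢ Finset.range M) (fun c => cij (0, 0) (c.1 + 1) c.2)
    (fun c => cij (0, 0) c.1 c.2) ?_ (fun c _ => Or.inr (Or.inr (Or.inr (Or.inl ?_)))) f
  · intro c hc c' hc' h
    rw [Finset.mem_product, Finset.mem_range, Finset.mem_range] at hc hc'
    obtain ⟨h1, h2⟩ := u8_inj (M := M) (by omega) (by omega) hc.2 hc'.2 h
    exact Prod.ext h1 h2
  · unfold cij
    rw [Prod.mk_add_mk]
    push_cast
    rw [add_zero, add_assoc]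

theorem tch_two (f : V → ℝ) :
    ∑ i ∈ Finset.range M, ∑ j ∈ Finset.range (M - 1),
      cD cl f (cij (0, 0) i (j + 1)) (cij (0, 0) i j) ≤ tch cl f := by
  rw [← Finset.sum_product']
  refine u8_fam (Finset.range M ×ˢ Finset.range (M - 1)) (fun c => cij (0, 0) c.1 (c.2 + 1))
    (fun c => cij (0, 0) c.1 c.2) ?_ (fun c _ => Or.inr (Or.inr (Or.inr (Or.inr ?_)))) f
  · intro c hc c' hc' h
    rw [Finset.mem_product, Finset.mem_range, Finset.mem_range] at hc hc'
    obtain ⟨h1, h2⟩ := u8_inj (M := M) hc.1 hc'.1 (by omega) (by omega) h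
    exact Prod.ext h1 h2
  · unfold cij
    rw [Prod.mk_add_mk]
    push_cast
    rw [add_zero, add_assoc]

end EA42
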